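import Pool.Agent.Lib.MP_685082_co.Ops

/-! Cores with `f2 = f1`: blow-ups of bipartite graphs. -/

namespace Pool.Agent.Lib.MP_685082_co

open Finset

theorem cnt_fst {K : Type} [Fintype K] (q : K → Prop) :
    cnt (fun x : K × Bool => q x.1) = 2 * cnt q := by
  classical
  rw [cnt_sum, cnt_sum, Fintype.sum_prod_type, mul_sum]
  refine sum_congr rfl fun x _ => ?_
  split_ifs <;> simp

theorem cnt_fst_eq {K : Type} [Fintype K] (k : K) (q : K → Prop) (h : ∀ x, q x ↔ x = k) :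
    cnt (fun x : K × Bool => q x.1) = 2 := by
  rw [cnt_fst, cnt_single k h]

/-- the core of a bipartite graph without isolated vertices -/
noncomputable def relCore {K L : Type} [Fintype K] [Fintype L] (R : K → L → Prop)
    (h1 : ∀ k, ∃ l, R k l) (h2 : ∀ l, ∃ k, R k l) : Core where
  A := K × Bool
  Y := K × Bool
  Z := L × Bool
  W := L × Bool
  fA := inferInstance
  fY := inferInstance
  fZ := inferInstance
  fW := inferInstance
  ay a y := a.1 = y.1
  yz y z := R y.1 z.1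
  zw z w := z.1 = w.1
  az a z := R a.1 z.1
  yw a z := R a.1 z.1
  aw a z := R a.1 z.1
  az_iff a z := ⟨fun h => ⟨a, rfl, h⟩, fun ⟨y, h, h'⟩ => h ▸ h'⟩
  yw_iff a z := ⟨fun h => ⟨z, h, rfl⟩, fun ⟨y, h, h'⟩ => h' ▸ h⟩
  aw_iff a z := ⟨fun h => ⟨a, rfl, h⟩, fun ⟨y, h, h'⟩ => h ▸ h'⟩
  hy y := cnt_fst_eq y.1 (fun x => x = y.1) fun _ => Iff.rfl
  hz z := cnt_fst_eq z.1 (fun x => z.1 = x) fun _ => eq_comm
  haz a z h := cnt_fst_eq a.1 (fun x => a.1 = x ∧ R x z.1) fun x =>
    ⟨fun hx => hx.1.symm, by rintro rfl; exact ⟨rfl, h⟩⟩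
  hyw y w h := cnt_fst_eq w.1 (fun x => R y.1 x ∧ x = w.1) fun x =>
    ⟨fun hx => hx.2, by rintro rfl; exact ⟨h, rfl⟩⟩
  ny y := by obtain ⟨l, hl⟩ := h1 y.1; exact ⟨(l, true), hl⟩
  nz z := by obtain ⟨l, hl⟩ := h2 z.1; exact ⟨(l, true), hl⟩
  ea a := by rw [cnt_fst_eq a.1 (fun x => a.1 = x) fun _ => eq_comm]
  ew a := by rw [cnt_fst_eq a.1 (fun x => x = a.1) fun _ => Iff.rfl]

theorem ach_rel {K L : Type} [Fintype K] [Fintype L] (R : K → L → Prop) [DecidableRel R]
    (h1 : ∀ k, ∃ l, R k l) (h2 : ∀ l, ∃ k, R k l) (β : K → ℕ) (γ : L → ℕ) :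
    Ach (∑ k, (2 + β k)) (∑ l, (2 + γ l)) 0
      (∑ k, ∑ l, if R k l then (2 + β k) * (2 + γ l) else 0) := by
  have hM : Marked (fun k l => if R k l then 1 else 0) (2 * Fintype.card K) (2 * Fintype.card L) 0
      (∑ k, ∑ l, if R k l then 4 else 0) (fun k => ∑ l, if R k l then 2 else 0)
      (fun l => ∑ k, if R k l then 2 else 0) := by
    refine ⟨relCore R h1 h2, fun k => (k, true), fun l => (l, true), ?_, ?_, ?_, ?_, ?_, ?_, ?_⟩
    · show Fintype.card (K × Bool) = _; simp [mul_comm]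
    · show Fintype.card (L × Bool) = _; simp [mul_comm]
    · show Fintype.card (K × Bool) = _; simp [mul_comm]
    · show ∑ a : K × Bool, cnt (fun w : L × Bool => R a.1 w.1) = _
      rw [Fintype.sum_prod_type]
      refine sum_congr rfl fun k _ => ?_
      rw [sum_ite_const]
      simp [cnt_fst (R k)]; ring
    · intro k
      show cnt (fun w : L × Bool => R k w.1) = _
      rw [cnt_fst (R k)]; exact (sum_ite_const _ _).symm
    · intro l
      show cnt (fun w : K × Bool => R w.1 l) = _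
      rw [cnt_fst (fun k => R k l)]; exact (sum_ite_const _ _).symm
    · exact fun k l => ⟨fun hh => if_pos hh, fun hh => if_neg hh⟩
  convert hM.blow β γ using 1
  · simp [sum_add_distrib, mul_comm]
  · simp [sum_add_distrib, mul_comm]
  · simp only [mul_add, sum_add_distrib, mul_sum]
    rw [sum_comm (f := fun l k => γ l * if R k l then 2 else 0),
      sum_comm (f := fun l k => γ l * (β k * if R k l then 1 else 0))]
    simp only [← sum_add_distrib]
    refine sum_congr rfl fun k _ => sum_congr rfl fun l _ => ?_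
    split_ifs <;> ring

theorem exists_cover (x y e : ℕ) (he : e ≤ x * y) (Rw : Finset (Fin x)) (Cl : Finset (Fin y))
    (h1 : Rw.card ≤ e) (h2 : Cl.card ≤ e) :
    ∃ E : Finset (Fin x × Fin y), E.card = e ∧ (∀ r ∈ Rw, ∃ c, (r, c) ∈ E) ∧
      ∀ c ∈ Cl, ∃ r, (r, c) ∈ E := by
  classical
  rcases Nat.eq_zero_or_pos e with rfl | hpos
  · refine ⟨∅, rfl, ?_, ?_⟩
    · rw [Nat.le_zero, card_eq_zero] at h1; simp [h1]
    · rw [Nat.le_zero, card_eq_zero] at h2; simp [h2]
  have hx : 0 < x := Nat.pos_of_ne_zero (by rintro rfl; simp at he; omega)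
  have hy : 0 < y := Nat.pos_of_ne_zero (by rintro rfl; simp at he; omega)
  let f : ℕ → Fin x := fun k => Rw.toList.getD k ⟨0, hx⟩
  let g : ℕ → Fin y := fun k => Cl.toList.getD k ⟨0, hy⟩
  have hc : ((range e).image fun k => (f k, g k)).card ≤ e := card_image_le.trans (by simp)
  obtain ⟨E, hE1, -, hE2⟩ := exists_subsuperset_card_eq (subset_univ _) hc
    (by simpa using he)
  refine ⟨E, hE2, fun r hr => ?_, fun c hc => ?_⟩
  · obtain ⟨k, hk, hk'⟩ := List.getElem_of_mem (mem_toList.2 hr)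
    refine ⟨g k, hE1 (mem_image.2 ⟨k, ?_, ?_⟩)⟩
    · simp at hk ⊢; omega
    · simp only [f, List.getD_eq_getElem _ _ hk, hk']
  · obtain ⟨k, hk, hk'⟩ := List.getElem_of_mem (mem_toList.2 hc)
    refine ⟨f k, hE1 (mem_image.2 ⟨k, ?_, ?_⟩)⟩
    · simp at hk ⊢; omega
    · simp only [g, List.getD_eq_getElem _ _ hk, hk']

/-- arithmetic form of the case `f2 = f1`, with the atoms split into `x2` pairs and
`x3` triples -/
def B0 (x2 x3 m I : ℕ) : Prop :=
  ∃ y2 y3 e22 e23 e32 e33 : ℕ, m = 2 * y2 + 3 * y3 ∧ e22 ≤ x2 * y2 ∧ e23 ≤ x2 * y3 ∧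
    e32 ≤ x3 * y2 ∧ e33 ≤ x3 * y3 ∧ x2 ≤ e22 + e23 ∧ x3 ≤ e32 + e33 ∧ y2 ≤ e22 + e32 ∧
    y3 ≤ e23 + e33 ∧ I = 4 * e22 + 6 * e23 + 6 * e32 + 9 * e33

def A0 (n m I : ℕ) : Prop := ∃ x2 x3, n = 2 * x2 + 3 * x3 ∧ B0 x2 x3 m I

theorem card_lt_le (x e : ℕ) : (univ.filter fun r : Fin x => r.val < e).card ≤ e := by
  calc _ ≤ (range e).card := card_le_card_of_injOn (fun r => r.val)
        (fun r hr => by simpa using hr) (fun a _ b _ h => Fin.ext h)
    _ = e := card_range e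

theorem card_ge_le (x e f : ℕ) (h : x ≤ e + f) :
    (univ.filter fun r : Fin x => ¬ r.val < e).card ≤ f := by
  calc _ ≤ (range f).card := card_le_card_of_injOn (fun r => r.val - e)
        (fun r hr => by have := r.2; simp at hr ⊢; omega)
        (fun a ha b hb h => by simp at ha hb h; exact Fin.ext (by omega))
    _ = f := card_range f

theorem sum_mem_card {x y : ℕ} (E : Finset (Fin x × Fin y)) (k : ℕ) :
    (∑ a, ∑ b, if (a, b) ∈ E then k else 0) = k * E.card := by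
  rw [← Fintype.sum_prod_type (f := fun p => if p ∈ E then k else 0)]
  simp [mul_comm]

theorem A0.ach {n m I : ℕ} (h : A0 n m I) : Ach n m 0 I := by
  classical
  obtain ⟨x2, x3, rfl, y2, y3, e22, e23, e32, e33, rfl, b1, b2, b3, b4, c1, c2, c3, c4, rfl⟩ := h
  obtain ⟨E22, s1, r1, l1⟩ := exists_cover x2 y2 e22 b1 _ _ (card_lt_le x2 e22) (card_lt_le y2 e22)
  obtain ⟨E23, s2, r2, l2⟩ := exists_cover x2 y3 e23 b2 _ _ (card_ge_le x2 e22 e23 c1)
    (card_lt_le y3 e23)
  obtain ⟨E32, s3, r3, l3⟩ := exists_cover x3 y2 e32 b3 _ _ (card_lt_le x3 e32)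
    (card_ge_le y2 e22 e32 c3)
  obtain ⟨E33, s4, r4, l4⟩ := exists_cover x3 y3 e33 b4 _ _ (card_ge_le x3 e32 e33 c2)
    (card_ge_le y3 e23 e33 c4)
  let R : Fin x2 ⊕ Fin x3 → Fin y2 ⊕ Fin y3 → Prop := fun k l => match k, l with
    | .inl a, .inl b => (a, b) ∈ E22
    | .inl a, .inr b => (a, b) ∈ E23
    | .inr a, .inl b => (a, b) ∈ E32
    | .inr a, .inr b => (a, b) ∈ E33
  have h1 : ∀ k, ∃ l, R k l := by
    rintro (a | a)
    · by_cases h : a.val < e22
      · obtain ⟨c, hc⟩ := r1 a (by simpa using h); exact ⟨.inl c, hc⟩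
      · obtain ⟨c, hc⟩ := r2 a (by simpa using h); exact ⟨.inr c, hc⟩
    · by_cases h : a.val < e32
      · obtain ⟨c, hc⟩ := r3 a (by simpa using h); exact ⟨.inl c, hc⟩
      · obtain ⟨c, hc⟩ := r4 a (by simpa using h); exact ⟨.inr c, hc⟩
  have h2 : ∀ l, ∃ k, R k l := by
    rintro (a | a)
    · by_cases h : a.val < e22
      · obtain ⟨c, hc⟩ := l1 a (by simpa using h); exact ⟨.inl c, hc⟩
      · obtain ⟨c, hc⟩ := l3 a (by simpa using h); exact ⟨.inr c, hc⟩
    · by_cases h : a.val < e23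
      · obtain ⟨c, hc⟩ := l2 a (by simpa using h); exact ⟨.inl c, hc⟩
      · obtain ⟨c, hc⟩ := l4 a (by simpa using h); exact ⟨.inr c, hc⟩
  have := ach_rel R h1 h2 (Sum.elim (fun _ => 0) fun _ => 1) (Sum.elim (fun _ => 0) fun _ => 1)
  convert this using 1
  · simp [Fintype.sum_sum_type]; ring
  · simp [Fintype.sum_sum_type]; ring
  · simp only [Fintype.sum_sum_type, sum_add_distrib, Sum.elim_inl, Sum.elim_inr, R]
    simp only [sum_ite_const, cnt_eq, ← mul_sum]
    have k1 := sum_mem_card E22 1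
    have k2 := sum_mem_card E23 1
    have k3 := sum_mem_card E32 1
    have k4 := sum_mem_card E33 1
    simp only [← card_filter] at k1 k2 k3 k4
    rw [k1, k2, k3, k4]
    omega

theorem exists_weights {X β : Type} [Fintype X] (g : X → β) (h : ∀ x, ∃ x', x' ≠ x ∧ g x' = g x) :
    ∃ α2 α3 : X → ℕ, ∀ f : β → ℕ, ∑ x, f (g x) = ∑ x, (2 * α2 x + 3 * α3 x) * f (g x) := by
  classical
  have hrep : ∀ b : β, ∃ o : Option X, (∀ x, g x = b → ∃ x0, o = some x0 ∧ g x0 = b) := by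
    intro b
    by_cases hb : ∃ x, g x = b
    · obtain ⟨x, hx⟩ := hb; exact ⟨some x, fun _ _ => ⟨x, rfl, hx⟩⟩
    · exact ⟨none, fun x hx => absurd ⟨x, hx⟩ hb⟩
  choose rep hrep using hrep
  let s : β → ℕ := fun b => cnt fun x => g x = b
  have hs : ∀ x, 2 ≤ s (g x) := fun x => by
    obtain ⟨x', h1, h2⟩ := h x
    exact two_le_cnt h1 h2 rfl
  refine ⟨fun x => if rep (g x) = some x then (s (g x) - 3 * (s (g x) % 2)) / 2 else 0,
    fun x => if rep (g x) = some x then s (g x) % 2 else 0, fun f => ?_⟩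
  rw [← sum_fiberwise_of_maps_to (s := univ) (t := univ.image g) (g := g) (by simp),
    ← sum_fiberwise_of_maps_to (s := univ) (t := univ.image g) (g := g) (by simp)]
  refine sum_congr rfl fun b hb => ?_
  obtain ⟨x, -, rfl⟩ := mem_image.1 hb
  obtain ⟨x0, h1, h2⟩ := hrep (g x) x rfl
  symm
  rw [sum_eq_single_of_mem x0 (by simp [h2])]
  · symm
    rw [sum_congr rfl (g := fun _ => f (g x)) (fun y hy => by rw [(mem_filter.1 hy).2])]
    beta_reduce
    rw [h2, if_pos h1, if_pos h1, sum_const, ← cnt_eq, smul_eq_mul]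
    congr 1
    have := hs x
    show s (g x) = _
    omega
  · intro y hy hne
    beta_reduce
    rw [(mem_filter.1 hy).2, h1, if_neg (by simpa using hne.symm), if_neg (by simpa using hne.symm)]
    simp

namespace Core
variable {C : Core}

theorem twin (h : C.f2 = C.n) (a : C.A) : ∃ a', a' ≠ a ∧ C.aw a' = C.aw a := by
  have hdeg : ∀ a, cnt (fun y => C.ay a y) = 2 := by
    have h1 : ∑ a, cnt (fun y => C.ay a y) = ∑ _a : C.A, 2 := by
      rw [sum_degA, h]; simp [n, mul_comm]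
    intro a
    exact ((sum_eq_sum_iff_of_le fun a _ => two_le_degA a).1 h1.symm a (mem_univ a)).symm
  have key : ∀ a y, C.ay a y → C.aw a = C.yw y := by
    intro a y hy
    funext w
    apply propext
    refine ⟨fun hw => ?_, fun hw => aw_of hy hw⟩
    obtain ⟨z, h1, h2⟩ := (C.aw_iff' a w).1 hw
    have := eq_of_cnt_le (p := fun y => C.ay a y ∧ C.yz y z) (q := fun y => C.ay a y)
      (fun _ h => h.1) (by rw [hdeg, C.haz a z h1]) y hy
    exact yw_of this.2 h2
  obtain ⟨y, hy⟩ := ex_ay a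
  obtain ⟨a', h1, h2⟩ := exists_ne_of_two_le (C.hy y).ge a
  exact ⟨a', h1, by rw [key a' y h2, key a y hy]⟩

theorem a0 (h : C.f2 = C.n) : A0 C.n C.m C.I := by
  classical
  have h' : C.dual.f2 = C.dual.n := by
    have := eqA (C := C); have := eqW (C := C); simp; omega
  obtain ⟨α2, α3, hα⟩ := exists_weights C.aw (twin h)
  obtain ⟨γ2, γ3, hγ⟩ := exists_weights (X := C.W) (fun w a => C.aw a w) (twin h')
  have hrow : ∀ a, cnt (fun w => C.aw a w) = ∑ w, (2 * γ2 w + 3 * γ3 w) *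
      (if C.aw a w then 1 else 0) := fun a => by
    rw [cnt_sum]; exact hγ fun r => if r a then 1 else 0
  have hcol : ∀ w, cnt (fun a => C.aw a w) = ∑ a, (2 * α2 a + 3 * α3 a) *
      (if C.aw a w then 1 else 0) := fun w => by
    rw [cnt_sum]; exact hα fun r => if r w then 1 else 0
  have hr1 : ∀ a, 1 ≤ ∑ w, (γ2 w + γ3 w) * (if C.aw a w then 1 else 0) := fun a => by
    have h1 := two_le_NA a
    rw [hrow] at h1
    have h2 : ∑ w, (2 * γ2 w + 3 * γ3 w) * (if C.aw a w then 1 else 0)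
        ≤ 3 * ∑ w, (γ2 w + γ3 w) * (if C.aw a w then 1 else 0) := by
      rw [mul_sum]; exact sum_le_sum fun w _ => by split_ifs <;> omega
    omega
  have hc1 : ∀ w, 1 ≤ ∑ a, (α2 a + α3 a) * (if C.aw a w then 1 else 0) := fun w => by
    have h1 := two_le_NW w
    rw [hcol] at h1
    have h2 : ∑ a, (2 * α2 a + 3 * α3 a) * (if C.aw a w then 1 else 0)
        ≤ 3 * ∑ a, (α2 a + α3 a) * (if C.aw a w then 1 else 0) := by
      rw [mul_sum]; exact sum_le_sum fun w _ => by split_ifs <;> omega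
    omega
  let E : (C.A → ℕ) → (C.W → ℕ) → ℕ := fun α γ =>
    ∑ a, ∑ w, α a * γ w * (if C.aw a w then 1 else 0)
  have hE : ∀ α γ, E α γ ≤ (∑ a, α a) * ∑ w, γ w := fun α γ => by
    rw [sum_mul_sum]
    exact sum_le_sum fun a _ => sum_le_sum fun w _ => by split_ifs <;> simp
  have hR : ∀ α, ∑ a, α a ≤ E α γ2 + E α γ3 := fun α => by
    simp only [E, ← sum_add_distrib]
    refine sum_le_sum fun a _ => ?_
    calc α a = α a * 1 := (mul_one _).symm
      _ ≤ α a * ∑ w, (γ2 w + γ3 w) * (if C.aw a w then 1 else 0) := Nat.mul_le_mul_left _ (hr1 a)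
      _ = _ := by rw [mul_sum]; exact sum_congr rfl fun w _ => by ring
  have hC : ∀ γ, ∑ w, γ w ≤ E α2 γ + E α3 γ := fun γ => by
    simp only [E]
    rw [sum_comm, sum_comm (s := (univ : Finset C.A))]
    simp only [← sum_add_distrib]
    refine sum_le_sum fun w _ => ?_
    calc γ w = γ w * 1 := (mul_one _).symm
      _ ≤ γ w * ∑ a, (α2 a + α3 a) * (if C.aw a w then 1 else 0) := Nat.mul_le_mul_left _ (hc1 w)
      _ = _ := by rw [mul_sum]; exact sum_congr rfl fun w _ => by ring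
  refine ⟨∑ a, α2 a, ∑ a, α3 a, ?_, ∑ w, γ2 w, ∑ w, γ3 w, E α2 γ2, E α2 γ3, E α3 γ2, E α3 γ3, ?_,
    hE _ _, hE _ _, hE _ _, hE _ _, hR _, hR _, hC _, hC _, ?_⟩
  · have := hα fun _ => 1
    simpa [sum_add_distrib, mul_sum, n] using this
  · have := hγ fun _ => 1
    simpa [sum_add_distrib, mul_sum, m] using this
  · have := hα fun r => cnt r
    unfold I
    rw [this]
    simp only [hrow, E, mul_sum, ← sum_add_distrib]
    exact sum_congr rfl fun a _ => sum_congr rfl fun w _ => by ring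

end Core

end Pool.Agent.Lib.MP_685082_co
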