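import Pool.Agent.Lib.MP_685082_co.Defs
import Pool.Agent.Lib.MP_685082_co.Rel

/-! The case `t = 0` in closed form. -/

namespace Pool.Agent.Lib.MP_685082_co

set_option synthInstance.maxSize 2000 in
instance (p M t I : ℕ) : Decidable (Cond p M t I) := by unfold Cond; infer_instance

theorem A0.symm {n m I : ℕ} (h : A0 n m I) : A0 m n I := by
  obtain ⟨x2, x3, h0, y2, y3, e22, e23, e32, e33, h1, b1, b2, b3, b4, c1, c2, c3, c4, h2⟩ := h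
  exact ⟨y2, y3, h1, x2, x3, e22, e32, e23, e33, h0, by rwa [mul_comm], by rwa [mul_comm],
    by rwa [mul_comm], by rwa [mul_comm], c3, c4, c1, c2, by omega⟩

theorem A0.nec {p M I : ℕ} (h : A0 p M I) :
    (I + 1 ≠ p * M ∧ I + 2 ≠ p * M ∧ I + 3 ≠ p * M ∧ I + 5 ≠ p * M ∧ I + 7 ≠ p * M ∧
      I + 11 ≠ p * M) ∧
    (p = 3 → I = 3 * M) ∧ (p = 4 → I % 2 = 0) ∧ (p = 5 → M ≤ 8 → I ≠ 2 * M + 7) ∧
    (p = 6 → I % 2 = 1 → I % 3 = 0 ∧ (I = 3 * M ∨ 3 * M + 6 ≤ I)) ∧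
    (p = 6 → M = 6 → I ≠ 22 ∧ I ≠ 26) ∧ (p = 8 → M = 8 → I % 6 ≠ 5) ∧
    (p % 2 = 0 → M = p → I ≠ 2 * M + 7) := by
  obtain ⟨x2, x3, h0, y2, y3, e22, e23, e32, e33, h1, b1, b2, b3, b4, c1, c2, c3, c4, h2⟩ := h
  refine ⟨?_, ?_, ?_, ?_, ?_, ?_, ?_, ?_⟩
  · have : p * M = 4 * (x2 * y2) + 6 * (x2 * y3) + 6 * (x3 * y2) + 9 * (x3 * y3) := by
      rw [h0, h1]; ring
    omega
  · intro hp
    obtain ⟨rfl, rfl⟩ : x2 = 0 ∧ x3 = 1 := by omega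
    omega
  · intro hp
    obtain ⟨rfl, rfl⟩ : x2 = 2 ∧ x3 = 0 := by omega
    omega
  · intro hp
    obtain ⟨rfl, rfl⟩ : x2 = 1 ∧ x3 = 1 := by omega
    omega
  · intro hp
    obtain ⟨rfl, rfl⟩ | ⟨rfl, rfl⟩ : x2 = 3 ∧ x3 = 0 ∨ x2 = 0 ∧ x3 = 2 := by omega
    · omega
    · omega
  · intro hp
    obtain ⟨rfl, rfl⟩ | ⟨rfl, rfl⟩ : x2 = 3 ∧ x3 = 0 ∨ x2 = 0 ∧ x3 = 2 := by omega
    · omega
    · omega
  · intro hp
    obtain ⟨rfl, rfl⟩ | ⟨rfl, rfl⟩ : x2 = 4 ∧ x3 = 0 ∨ x2 = 1 ∧ x3 = 2 := by omega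
    · omega
    · omega
  · intro hp hM hI
    have h3 : x3 ≠ 0 := by rintro rfl; omega
    have h4 : y3 ≠ 0 := by rintro rfl; omega
    clear b1 b2 b3 b4
    obtain ⟨s1, h5⟩ := Nat.exists_eq_add_of_le c1
    obtain ⟨s2, h6⟩ := Nat.exists_eq_add_of_le c2
    obtain ⟨s3, h7⟩ := Nat.exists_eq_add_of_le c3
    obtain ⟨s4, h8⟩ := Nat.exists_eq_add_of_le c4
    have k1 : 4 * s3 + 6 * s4 + 2 * e32 + 3 * e33 = 7 := by omega
    have k2 : 4 * s1 + 6 * s2 + 2 * e23 + 3 * e33 = 7 := by omega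
    have k3 : x3 % 2 = 0 := by omega
    have k4 : e33 = 1 := by omega
    have k5 : s2 = 0 := by omega
    omega

theorem B0.step {x2 x3 m I : ℕ} (h : B0 x2 x3 m I) (i j : ℕ) (hi : i ≤ x2) (hj : j ≤ x3)
    (hij : 1 ≤ i + j) : B0 x2 x3 (m + 2) (I + 4 * i + 6 * j) := by
  obtain ⟨y2, y3, e22, e23, e32, e33, h1, b1, b2, b3, b4, c1, c2, c3, c4, h2⟩ := h
  refine ⟨y2 + 1, y3, e22 + i, e23, e32 + j, e33, by omega, ?_, b2, ?_, b4, by omega, by omega,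
    by omega, c4, by omega⟩
  · rw [mul_add]; omega
  · rw [mul_add]; omega

theorem A0.all {n m I : ℕ} (h : A0 n m I) (hn : 0 < n) : A0 n (m + 2) (I + 2 * n) := by
  obtain ⟨x2, x3, h0, h⟩ := h
  refine ⟨x2, x3, h0, ?_⟩
  convert h.step x2 x3 le_rfl le_rfl (by omega) using 1
  omega

theorem A0.k22 {n m I : ℕ} (h : A0 n m I) : A0 (n + 2) (m + 2) (I + 4) := by
  obtain ⟨x2, x3, h0, y2, y3, e22, e23, e32, e33, h1, b1, b2, b3, b4, c1, c2, c3, c4, h2⟩ := h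
  refine ⟨x2 + 1, x3, by omega, y2 + 1, y3, e22 + 1, e23, e32, e33, by omega, ?_, ?_, ?_, b4,
    by omega, by omega, by omega, c4, by omega⟩ <;> nlinarith

def chkB (x2 x3 m I : ℕ) : Bool :=
  (List.range (m / 3 + 1)).any fun y3 =>
    let y2 := (m - 3 * y3) / 2
    m = 2 * y2 + 3 * y3 && (List.range (x3 * y3 + 1)).any fun e33 =>
      (List.range (x2 * y2 + 1)).any fun e22 =>
        let s := (I - 4 * e22 - 9 * e33) / 6
        I = 4 * e22 + 6 * s + 9 * e33 &&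
        let e23 := max (max (x2 - e22) (y3 - e33)) (s - x3 * y2)
        e23 ≤ s && e23 ≤ x2 * y3 && x3 ≤ s - e23 + e33 && y2 ≤ e22 + (s - e23)

theorem chkB_sound {x2 x3 m I : ℕ} (h : chkB x2 x3 m I = true) : B0 x2 x3 m I := by
  simp only [chkB, List.any_eq_true, List.mem_range, Bool.and_eq_true, decide_eq_true_eq] at h
  obtain ⟨y3, -, h1, e33, h2, e22, h3, h4, ⟨⟨h5, h6⟩, h7⟩, h8⟩ := h
  refine ⟨_, y3, e22, _, _, e33, h1, by omega, h6, ?_, by omega, ?_, h7, h8, ?_, ?_⟩ <;> omega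

def chkP (p M : ℕ) : Bool :=
  (List.range (p * M + 1)).all fun I => !(decide (Cond p M 0 I)) ||
    (List.range (p / 3 + 1)).any fun x3 =>
      let x2 := (p - 3 * x3) / 2
      p = 2 * x2 + 3 * x3 && (1 ≤ x2 || (p = 6 && I % 2 = 1)) && chkB x2 x3 M I

theorem chk_all : ∀ p ∈ [4, 5, 6, 7, 8, 9, 10], ∀ M ∈ List.range 13, p ≤ M → chkP p M = true := by
  decide +kernel

theorem keyA (p N I : ℕ) (h4 : 4 ≤ p) (h10 : p ≤ 10) (hN : 11 ≤ N) (hI : Cond p (N + 2) 0 I)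
    (hk : p * (N + 2) < I + 2 * p + 12) : 2 * p ≤ I ∧ Cond p N 0 (I - 2 * p) := by
  unfold Cond at hI ⊢
  obtain ⟨-, h1, h2, -, -, -, -, -, -, -, h3⟩ := hI
  obtain ⟨⟨k1, k2, k3, k4, k5, k6⟩, -, k7, -, k8, -⟩ := h3 rfl
  clear h3
  interval_cases p <;> norm_num at k7 k8 ⊢ <;> constructorm* _ ∧ _ <;> omega

theorem keyB (p N I : ℕ) (h4 : 4 ≤ p) (h10 : p ≤ 10) (hN : 11 ≤ N) (hI : Cond p (N + 2) 0 I)
    (hk : I + 2 * p + 12 ≤ p * (N + 2)) (h6 : ¬ (p = 6 ∧ I % 2 = 1)) :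
    4 ≤ I ∧ Cond p N 0 (I - 4) := by
  unfold Cond at hI ⊢
  obtain ⟨-, h1, h2, g1, g2, g3, g4, -, -, -, h3⟩ := hI
  obtain ⟨-, -, k7, -⟩ := h3 rfl
  clear h3
  interval_cases p <;> norm_num at k7 h6 g2 g3 g4 ⊢ <;> constructorm* _ ∧ _ <;> omega

theorem keyC (N I : ℕ) (hN : 11 ≤ N) (hI : Cond 6 (N + 2) 0 I)
    (hk : I + 2 * 6 + 12 ≤ 6 * (N + 2)) (h6 : I % 2 = 1) :
    6 ≤ I ∧ Cond 6 N 0 (I - 6) := by
  unfold Cond at hI ⊢
  obtain ⟨-, h1, h2, g1, g2, g3, g4, -, -, -, h3⟩ := hI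
  obtain ⟨-, -, -, -, k8, -⟩ := h3 rfl
  clear h3
  norm_num at k8 g2 g3 g4 ⊢
  constructorm* _ ∧ _ <;> omega

theorem keyD (q N I : ℕ) (hq : 9 ≤ q) (hN : q ≤ N) (hI : Cond (q + 2) (N + 2) 0 I)
    (hk : q * N < I + 8) : 2 * (N + 2) ≤ I ∧ Cond q (N + 2) 0 (I - 2 * (N + 2)) := by
  have e1 : (q + 2) * (N + 2) = q * N + 2 * q + 2 * N + 4 := by ring
  have e2 : q * (N + 2) = q * N + 2 * q := by ring
  have e3 : 9 * N ≤ q * N := Nat.mul_le_mul_right _ (by omega)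
  unfold Cond at hI ⊢
  obtain ⟨-, h1, h2, -, -, -, -, -, -, -, h3⟩ := hI
  obtain ⟨⟨k1, k2, k3, k4, k5, k6⟩, -⟩ := h3 rfl
  clear h3
  simp only [true_imp_iff]
  constructorm* _ ∧ _ <;> omega

theorem keyE (q N I : ℕ) (hq : 9 ≤ q) (hN : q ≤ N) (hI : Cond (q + 2) (N + 2) 0 I)
    (hk : I + 8 ≤ q * N) : 4 ≤ I ∧ Cond q N 0 (I - 4) := by
  unfold Cond at hI ⊢
  obtain ⟨-, h1, -, g1, g2, g3, g4, g5, g6, -, h3⟩ := hI
  obtain ⟨-, -, -, -, -, -, -, k⟩ := h3 rfl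
  clear h3
  simp only [true_imp_iff]
  constructorm* _ ∧ _ <;> omega

theorem small (p : ℕ) (h4 : 4 ≤ p) (h10 : p ≤ 10) : ∀ M, p ≤ M → ∀ I, Cond p M 0 I →
    ∃ x2 x3, p = 2 * x2 + 3 * x3 ∧ (1 ≤ x2 ∨ (p = 6 ∧ I % 2 = 1)) ∧ B0 x2 x3 M I := by
  intro M
  induction M using Nat.strong_induction_on with
  | _ M ih =>
  intro hM I hI
  by_cases h12 : M ≤ 12
  · have := chk_all p (by simp; omega) M (by simp; omega) hM
    simp only [chkP, List.all_eq_true, List.mem_range, Bool.or_eq_true, Bool.not_eq_true',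
      decide_eq_false_iff_not, List.any_eq_true, Bool.and_eq_true, decide_eq_true_eq] at this
    rcases this I (by have := hI.2.2.1; omega) with h | ⟨x3, -, ⟨h1, h2⟩, h3⟩
    · exact absurd hI h
    · exact ⟨_, x3, h1, h2, chkB_sound h3⟩
  obtain ⟨N, rfl⟩ : ∃ N, M = N + 2 := ⟨M - 2, by omega⟩
  have key : (2 * p ≤ I ∧ Cond p N 0 (I - 2 * p)) ∨
      (¬ (p = 6 ∧ I % 2 = 1) ∧ 4 ≤ I ∧ Cond p N 0 (I - 4)) ∨
      (p = 6 ∧ I % 2 = 1 ∧ 6 ≤ I ∧ Cond p N 0 (I - 6)) := by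
    by_cases hk : p * (N + 2) < I + 2 * p + 12
    · exact Or.inl (keyA p N I h4 h10 (by omega) hI hk)
    · by_cases h6 : p = 6 ∧ I % 2 = 1
      · obtain ⟨rfl, h6⟩ := h6
        exact Or.inr (Or.inr ⟨rfl, h6, keyC N I (by omega) hI (by omega) h6⟩)
      · exact Or.inr (Or.inl ⟨h6, keyB p N I h4 h10 (by omega) hI (by omega) h6⟩)
  rcases key with ⟨h1, h2⟩ | ⟨h0, h1, h2⟩ | ⟨h0, h1, h3, h2⟩
  · obtain ⟨x2, x3, k1, k2, k3⟩ := ih N (by omega) (by omega) _ h2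
    refine ⟨x2, x3, k1, by omega, ?_⟩
    convert k3.step x2 x3 le_rfl le_rfl (by omega) using 1
    omega
  · obtain ⟨x2, x3, k1, k2, k3⟩ := ih N (by omega) (by omega) _ h2
    refine ⟨x2, x3, k1, by omega, ?_⟩
    convert k3.step 1 0 (by omega) (by omega) (by omega) using 1
    omega
  · obtain ⟨x2, x3, k1, k2, k3⟩ := ih N (by omega) (by omega) _ h2
    refine ⟨x2, x3, k1, by omega, ?_⟩
    have : x3 ≠ 0 := by
      rintro rfl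
      obtain ⟨y2, y3, e22, e23, e32, e33, -, -, -, b3, b4, -, -, -, -, h5⟩ := k3
      omega
    convert k3.step 0 1 (by omega) (by omega) (by omega) using 1
    omega

theorem a0_of_cond (p : ℕ) : ∀ M, p ≤ M → ∀ I, Cond p M 0 I → A0 p M I := by
  induction p using Nat.strong_induction_on with
  | _ p ih =>
  intro M hM I hI
  have h2 := hI.1
  by_cases h3 : p ≤ 3
  · have hI' : I = p * M := by
      obtain ⟨-, h4, h5, -, -, -, -, -, -, -, h6⟩ := hI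
      have := (h6 rfl).2.1
      interval_cases p <;> omega
    obtain ⟨y2, y3, rfl⟩ : ∃ y2 y3, M = 2 * y2 + 3 * y3 :=
      ⟨(M - 3 * (M % 2)) / 2, M % 2, by omega⟩
    interval_cases p
    · exact ⟨1, 0, rfl, y2, y3, y2, y3, 0, 0, by omega⟩
    · exact ⟨0, 1, rfl, y2, y3, 0, 0, y2, y3, by omega⟩
  by_cases h10 : p ≤ 10
  · obtain ⟨x2, x3, k1, -, k3⟩ := small p (by omega) h10 M hM I hI
    exact ⟨x2, x3, k1, k3⟩
  obtain ⟨q, rfl⟩ : ∃ q, p = q + 2 := ⟨p - 2, by omega⟩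
  obtain ⟨N, rfl⟩ : ∃ N, M = N + 2 := ⟨M - 2, by omega⟩
  by_cases hk : q * N < I + 8
  · have h5 := keyD q N I (by omega) (by omega) hI hk
    have := (ih q (by omega) (N + 2) (by omega) _ h5.2).symm.all (by omega)
    convert this.symm using 1
    omega
  · have h5 := keyE q N I (by omega) (by omega) hI (by omega)
    convert (ih q (by omega) N (by omega) _ h5.2).k22 using 1
    omega

end Pool.Agent.Lib.MP_685082_co
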