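import Pool.Agent.Lib.MP_685082_co.Ops

/-! Concrete cores. -/

namespace Pool.Agent.Lib.MP_685082_co

open Finset

section
variable (n p q m : ℕ) (AY YZ ZW : List ℕ)

def bay (a : Fin n) (y : Fin p) : Prop := (AY.getD y 0).testBit a = true
instance (a : Fin n) (y : Fin p) : Decidable (bay n p AY a y) := by unfold bay; infer_instance
def byz (y : Fin p) (z : Fin q) : Prop := (YZ.getD y 0).testBit z = true
instance (y : Fin p) (z : Fin q) : Decidable (byz p q YZ y z) := by unfold byz; infer_instance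
def bzw (z : Fin q) (w : Fin m) : Prop := (ZW.getD z 0).testBit w = true
instance (z : Fin q) (w : Fin m) : Decidable (bzw q m ZW z w) := by unfold bzw; infer_instance
def baz (a : Fin n) (z : Fin q) : Prop := ∃ y, bay n p AY a y ∧ byz p q YZ y z
instance (a : Fin n) (z : Fin q) : Decidable (baz n p q AY YZ a z) := by
  unfold baz; infer_instance
def byw (y : Fin p) (w : Fin m) : Prop := ∃ z, byz p q YZ y z ∧ bzw q m ZW z w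
instance (y : Fin p) (w : Fin m) : Decidable (byw p q m YZ ZW y w) := by
  unfold byw; infer_instance
def baw (a : Fin n) (w : Fin m) : Prop := ∃ y, bay n p AY a y ∧ byw p q m YZ ZW y w
instance (a : Fin n) (w : Fin m) : Decidable (baw n p q m AY YZ ZW a w) := by
  unfold baw; infer_instance

def Chk (I : ℕ) (R Cc : List ℕ) : Prop :=
  (∀ y : Fin p, (univ.filter fun a => bay n p AY a y).card = 2) ∧
  (∀ z : Fin q, (univ.filter fun w => bzw q m ZW z w).card = 2) ∧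
  (∀ a z, baz n p q AY YZ a z →
    (univ.filter fun y => bay n p AY a y ∧ byz p q YZ y z).card = 2) ∧
  (∀ y w, byw p q m YZ ZW y w →
    (univ.filter fun z => byz p q YZ y z ∧ bzw q m ZW z w).card = 2) ∧
  (∀ y, ∃ z, byz p q YZ y z) ∧ (∀ z, ∃ y, byz p q YZ y z) ∧
  (∀ a, (univ.filter fun y => bay n p AY a y).card
      + (univ.filter fun w => baw n p q m AY YZ ZW a w).card
      = 2 + (univ.filter fun z => baz n p q AY YZ a z).card) ∧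
  (∀ w, (univ.filter fun z => bzw q m ZW z w).card
      + (univ.filter fun a => baw n p q m AY YZ ZW a w).card
      = 2 + (univ.filter fun y => byw p q m YZ ZW y w).card) ∧
  (∑ a, (univ.filter fun w => baw n p q m AY YZ ZW a w).card = I) ∧
  (∀ y : Fin p, (univ.filter fun z => byz p q YZ y z).card = R.getD y 0) ∧
  (∀ z : Fin q, (univ.filter fun y => byz p q YZ y z).card = Cc.getD z 0)

instance (I : ℕ) (R Cc : List ℕ) : Decidable (Chk n p q m AY YZ ZW I R Cc) := by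
  unfold Chk; infer_instance

theorem marked_of_chk (t I : ℕ) (R Cc : List ℕ) (hp : p = n + t)
    (h : Chk n p q m AY YZ ZW I R Cc) :
    Marked (fun (y : Fin p) (z : Fin q) => if (YZ.getD y 0).testBit z = true then 1 else 0)
      n m t I (fun y => R.getD y 0) (fun z => Cc.getD z 0) := by
  obtain ⟨h1, h2, h3, h4, h5, h6, h7, h8, h9, h10, h11⟩ := h
  simp only [← cnt_eq] at h1 h2 h3 h4 h7 h8 h9 h10 h11
  refine ⟨⟨Fin n, Fin p, Fin q, Fin m, inferInstance, inferInstance, inferInstance, inferInstance,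
    bay n p AY, byz p q YZ, bzw q m ZW, baz n p q AY YZ, byw p q m YZ ZW, baw n p q m AY YZ ZW,
    fun _ _ => Iff.rfl, fun _ _ => Iff.rfl, fun _ _ => Iff.rfl, h1, h2, h3, h4, h5, h6, h7, h8⟩,
    id, id, Fintype.card_fin _, Fintype.card_fin _, (Fintype.card_fin _).trans hp, h9, h10, h11,
    fun k l => ⟨fun hh => if_pos hh, fun hh => if_neg hh⟩⟩

end

theorem Marked.stepsW {K L : Type} {M : K → L → ℕ} {n m t I : ℕ} {r : K → ℕ} {c : L → ℕ}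
    (h : Marked M n m t I r c) (l : L) (g : ℕ) : Ach n (m + g) t (I + g * c l) :=
  (h.symm.steps l g).ach.symm

theorem ach_theta (b1 b2 b3 c1 c2 c3 I : ℕ)
    (hI : I + b1 * c1 + b2 * c2 + b3 * c3 = (2 + b1 + b2 + b3) * (2 + c1 + c2 + c3)) :
    Ach (2 + b1 + b2 + b3) (2 + c1 + c2 + c3) 1 I := by
  have h := (marked_of_chk 2 3 3 2 [3, 3, 3] [6, 5, 3] [3, 3, 3] 1 4 [2, 2, 2] [2, 2, 2] rfl
    (by decide +kernel)).blow ![b1, b2, b3] ![c1, c2, c3]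
  simp [Fin.sum_univ_succ, Nat.testBit] at h
  convert h using 1
  · ring
  · ring
  · nlinarith

theorem ach_thetaP (b1 b2 b3 x c1 c2 c3 y I : ℕ)
    (hI : I + (b1 + x + 2) * c1 + b2 * (c2 + y + 2) + b3 * c3 + (x + 2) * (y + 2)
      = (4 + b1 + b2 + b3 + x) * (4 + c1 + c2 + c3 + y)) :
    Ach (4 + b1 + b2 + b3 + x) (4 + c1 + c2 + c3 + y) 1 I := by
  have h := (marked_of_chk 4 5 5 4 [3, 3, 3, 12, 12] [30, 5, 27, 6, 6] [3, 3, 3, 12, 12] 1 12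
    [4, 2, 4, 2, 2] [2, 4, 4, 2, 2] rfl
    (by decide +kernel)).blow ![b1, b2, b3, x, 0] ![c1, c2, c3, y, 0]
  simp [Fin.sum_univ_succ, Nat.testBit] at h
  convert h using 1
  · ring
  · ring
  · nlinarith

theorem ach_four (c1 c2 : ℕ) : Ach 4 (2 + c1 + c2) 2 (2 * (2 + c1 + c2) + 4 + c2) := by
  have h := (marked_of_chk 2 4 4 2 [3, 3, 3, 3] [3, 6, 12, 9] [3, 3, 3, 3] 2 4 [2, 2, 2, 2]
    [2, 2, 2, 2] rfl (by decide +kernel)).blow ![0, 1, 1, 0] ![c1, c2, 0, 0]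
  simp [Fin.sum_univ_succ, Nat.testBit] at h
  convert h using 1
  · ring
  · ring

theorem ach_K (b c : ℕ) : Ach (2 + b) (2 + c) 0 ((2 + b) * (2 + c)) := by
  have h := (marked_of_chk 2 2 2 2 [3, 3] [3, 3] [3, 3] 0 4 [2, 2]
    [2, 2] rfl (by decide +kernel)).blow ![b, 0] ![c, 0]
  simp [Fin.sum_univ_succ, Nat.testBit] at h
  convert h using 1
  ring

theorem ach_e0a (g : ℕ) : Ach 3 (9 + g) 9 (18 + g * 2) :=
  (marked_of_chk 3 12 18 9 [6, 6, 6, 6, 5, 5, 5, 5, 3, 3, 3, 3]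
    [22, 37, 41, 26, 1664, 1344, 2688, 2368, 86016, 167936, 106496, 155648]
    [384, 384, 320, 320, 192, 192, 48, 48, 40, 40, 24, 24, 6, 6, 5, 5, 3, 3] 9 18
    [3, 3, 3, 3, 3, 3, 3, 3, 3, 3, 3, 3]
    [2, 2, 2, 2, 2, 2, 2, 2, 2, 2, 2, 2, 2, 2, 2, 2, 2, 2] rfl (by decide +kernel)).stepsW 0 g

theorem ach_e0b (g : ℕ) : Ach 3 (10 + g) 8 (20 + g * 2) :=
  (marked_of_chk 3 11 18 10 [6, 6, 6, 6, 5, 5, 5, 5, 3, 3, 3]
    [37, 26, 41, 22, 1600, 1408, 2688, 2368, 221184, 184320, 110592]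
    [768, 768, 640, 640, 384, 384, 96, 96, 80, 80, 48, 48, 12, 12, 12, 3, 3, 3] 8 20
    [3, 3, 3, 3, 3, 3, 3, 3, 4, 4, 4]
    [2, 2, 2, 2, 2, 2, 2, 2, 2, 2, 2, 2, 2, 2, 2, 2, 2, 2] rfl (by decide +kernel)).stepsW 0 g

theorem ach_e0c (g : ℕ) : Ach 3 (11 + g) 7 (22 + g * 2) :=
  (marked_of_chk 3 10 18 11 [6, 6, 6, 6, 5, 5, 5, 3, 3, 3]
    [37, 25, 42, 22, 3264, 1920, 2880, 208896, 122880, 184320]
    [1536, 1536, 1280, 1280, 768, 768, 192, 192, 160, 80, 48, 48, 12, 10, 6, 9, 5, 3] 7 22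
    [3, 3, 3, 3, 4, 4, 4, 4, 4, 4]
    [2, 2, 2, 2, 2, 2, 2, 2, 2, 2, 2, 2, 2, 2, 2, 2, 2, 2] rfl (by decide +kernel)).stepsW 0 g

theorem ach_e0d (g : ℕ) : Ach 3 (12 + g) 6 (24 + g * 2) :=
  (marked_of_chk 3 9 18 12 [6, 6, 6, 5, 5, 5, 3, 3, 3]
    [29, 51, 46, 2752, 1920, 3392, 110592, 221184, 184320]
    [3072, 3072, 1536, 2304, 768, 768, 160, 160, 160, 80, 80, 80, 6, 6, 6, 9, 9, 9] 6 24
    [4, 4, 4, 4, 4, 4, 4, 4, 4]
    [2, 2, 2, 2, 2, 2, 2, 2, 2, 2, 2, 2, 2, 2, 2, 2, 2, 2] rfl (by decide +kernel)).stepsW 0 g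

theorem ach_e2a (g : ℕ) : Ach 4 (7 + g) 9 (16 + g * 2) :=
  (marked_of_chk 4 13 16 7 [6, 6, 6, 9, 9, 5, 5, 5, 5, 3, 3, 3, 3]
    [49152, 192, 192, 3, 3, 8452, 33284, 8456, 16904, 18448, 5152, 6176, 33808]
    [96, 96, 10, 10, 6, 6, 17, 17, 9, 9, 5, 5, 3, 3, 3, 3] 9 16
    [2, 2, 2, 2, 2, 3, 3, 3, 3, 3, 3, 3, 3]
    [2, 2, 2, 2, 2, 2, 2, 2, 2, 2, 2, 2, 2, 2, 3, 3] rfl (by decide +kernel)).stepsW 0 g

theorem ach_e2b (g : ℕ) : Ach 4 (8 + g) 8 (18 + g * 2) :=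
  (marked_of_chk 4 12 16 8 [6, 6, 6, 9, 9, 5, 5, 5, 5, 3, 3, 3]
    [384, 40960, 384, 3, 3, 5152, 8768, 5184, 33312, 34840, 18452, 24588]
    [192, 192, 12, 12, 12, 18, 18, 33, 33, 17, 17, 3, 3, 3, 3, 3] 8 18
    [2, 2, 2, 2, 2, 3, 3, 3, 3, 4, 4, 4]
    [2, 2, 2, 2, 2, 2, 2, 2, 2, 2, 2, 2, 2, 3, 2, 3] rfl (by decide +kernel)).stepsW 0 g

theorem ach_e2c (g : ℕ) : Ach 4 (9 + g) 7 (20 + g * 2) :=
  (marked_of_chk 4 11 16 9 [6, 6, 6, 9, 9, 5, 5, 5, 3, 3, 3]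
    [768, 20480, 768, 3, 3, 5144, 3092, 18444, 12480, 41120, 49248]
    [384, 384, 48, 48, 48, 12, 12, 12, 65, 65, 3, 3, 3, 3, 3, 3] 7 20
    [2, 2, 2, 2, 2, 4, 4, 4, 4, 4, 4]
    [2, 2, 2, 2, 2, 2, 2, 2, 2, 2, 2, 2, 3, 2, 3, 2] rfl (by decide +kernel)).stepsW 0 g

theorem ach_e2d (g : ℕ) : Ach 4 (10 + g) 6 (22 + g * 2) :=
  (marked_of_chk 4 10 16 10 [6, 6, 9, 9, 5, 5, 5, 3, 3, 3]
    [12, 24588, 3, 3, 3840, 18960, 9488, 12448, 49344, 36960]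
    [768, 768, 192, 192, 48, 12, 12, 12, 34, 34, 17, 17, 3, 3, 3, 3] 6 22
    [2, 4, 2, 2, 4, 4, 4, 4, 4, 4]
    [2, 2, 2, 2, 2, 2, 2, 2, 2, 2, 2, 2, 2, 3, 3, 2] rfl (by decide +kernel)).stepsW 0 g

theorem ach_e3a (g : ℕ) : Ach 4 (6 + g) 7 (15 + g * 2) :=
  (marked_of_chk 4 11 13 6 [6, 6, 6, 9, 9, 5, 5, 5, 3, 3, 3]
    [1544, 96, 96, 3, 3, 2312, 1552, 2320, 4232, 1540, 4228]
    [48, 48, 6, 6, 6, 9, 9, 5, 5, 5, 3, 3, 3] 7 15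
    [3, 2, 2, 2, 2, 3, 3, 3, 3, 3, 3]
    [2, 2, 2, 3, 2, 2, 2, 2, 2, 3, 3, 2, 2] rfl (by decide +kernel)).stepsW 0 g

theorem ach_e3b (g : ℕ) : Ach 4 (7 + g) 6 (17 + g * 2) :=
  (marked_of_chk 4 10 13 7 [6, 6, 9, 9, 5, 5, 5, 3, 3, 3]
    [4428, 12, 3, 3, 4368, 2240, 2192, 4384, 1600, 1568]
    [96, 96, 24, 24, 6, 6, 6, 5, 5, 5, 3, 3, 3] 6 17
    [5, 2, 2, 2, 3, 3, 3, 3, 3, 3]
    [2, 2, 2, 2, 2, 2, 3, 2, 3, 2, 2, 2, 3] rfl (by decide +kernel)).stepsW 0 g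

theorem ach_e4 (g : ℕ) : Ach 5 (5 + g) 7 (14 + g * 2) :=
  (marked_of_chk 5 12 12 5 [24, 24, 24, 24, 20, 20, 10, 10, 17, 17, 9, 9]
    [2065, 530, 1058, 289, 12, 12, 192, 192, 3072, 768, 2560, 1280]
    [18, 18, 10, 10, 17, 17, 5, 5, 3, 3, 3, 3] 7 14
    [3, 3, 3, 3, 2, 2, 2, 2, 2, 2, 2, 2]
    [2, 2, 2, 2, 2, 2, 2, 2, 3, 3, 3, 3] rfl (by decide +kernel)).stepsW 0 g

theorem ach_e5 (g : ℕ) : Ach 5 (5 + g) 6 (15 + g * 2) :=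
  (marked_of_chk 5 11 11 5 [24, 24, 24, 20, 20, 12, 12, 18, 18, 9, 9]
    [274, 98, 145, 97, 384, 161, 320, 12, 12, 1536, 1536]
    [20, 20, 12, 12, 17, 17, 5, 5, 5, 3, 3] 6 15
    [3, 3, 3, 3, 2, 3, 2, 2, 2, 2, 2]
    [3, 2, 2, 2, 2, 3, 3, 3, 3, 2, 2] rfl (by decide +kernel)).stepsW 1 g

end Pool.Agent.Lib.MP_685082_co
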