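import Pool.Agent.Lib.MP_685082_co.Nec3

/-! Four atoms and five rank two elements. -/

namespace Pool.Agent.Lib.MP_685082_co

open Finset

namespace Core
variable {C : Core}

theorem φ_le_P (a b : C.A) (z : C.Z) : C.φ a b z ≤ C.P a b := cnt_mono fun y hy => by tauto
theorem P_symm (a b : C.A) : C.P a b = C.P b a := cnt_congr fun _ => by tauto
theorem P_diag (a : C.A) : C.P a a = 0 := cnt_zero.2 (by simp)
theorem φ_diag (a : C.A) (z) : C.φ a a z = 0 := cnt_zero.2 (by simp)

theorem row_P (a : C.A) : ∑ b, C.P a b = cnt fun y => C.ay a y := by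
  unfold P
  rw [row_pairs_cnt C.ay (fun _ => True) (fun y _ => C.hy y) a]
  simp

theorem sum_four {A : Type} [Fintype A] {a b c g : A} (hab : a ≠ b) (hac : a ≠ c) (hbc : b ≠ c)
    (hag : a ≠ g) (hbg : b ≠ g) (hcg : c ≠ g) (h : ∀ x, x = a ∨ x = b ∨ x = c ∨ x = g)
    (f : A → ℕ) : ∑ x, f x = f a + f b + f c + f g := by
  classical
  have : (univ : Finset A) = {a, b, c, g} := by ext x; simpa using h x
  rw [this, sum_insert (by simp [*]), sum_insert (by simp [*]), sum_pair hcg]
  ring

theorem caseA {a b c g : C.A} (hab : a ≠ b) (hac : a ≠ c) (hbc : b ≠ c)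
    (hag : a ≠ g) (hbg : b ≠ g) (hcg : c ≠ g) (h : ∀ x, x = a ∨ x = b ∨ x = c ∨ x = g)
    (hf : C.f3 = C.m + 1) (h1 : C.P a b = 1) (h2 : C.P a c = 1) (h3 : C.P b c = 1)
    (h4 : C.P a g = 2) (h5 : C.P b g = 0) (h6 : C.P c g = 0) : False := by
  classical
  have hs := sum_four hab hac hbc hag hbg hcg h
  have hz : ∀ z, C.az a z := fun z => by
    by_contra ha
    have k0 : ∀ x, C.φ x a z = 0 := fun x => by
      by_contra hh; exact ha (φ_pos (Nat.pos_of_ne_zero hh)).2.2
    have k1 := row_φ b z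
    have k2 := row_φ c z
    rw [hs, haz', k0, φ_diag] at k1 k2
    have k3 := φ_le_P b c z
    have k4 := φ_le_P b g z
    have k5 := φ_le_P c b z
    have k6 := φ_le_P c g z
    rw [P_symm] at k5
    have k7 := two_le_sz z
    rw [sz, cnt_sum, hs] at k7
    split_ifs at k1 k2 k7 <;> omega
  have k1 := C.ea a
  rw [← row_P, hs, P_diag, cnt_all hz, cnt_all (p := fun w => C.aw a w) fun w => by
    obtain ⟨z, h7⟩ := ex_zw w; exact aw_of' (hz z) h7] at k1
  unfold f3 m at hf
  omega

theorem caseB {a b c g : C.A} (hab : a ≠ b) (h : ∀ x, x = a ∨ x = b ∨ x = c ∨ x = g)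
    (hcg : c ≠ g) (hf : C.f3 = C.m + 1) (h1 : C.P a b = 1) (h6 : C.P c g = 0)
    (hz : ∀ z, C.sz z = 3) : False := by
  classical
  have k1 : ∀ z, C.φ a b z = 1 := fun z => by
    have k2 := φ_le_P c g z
    rw [φ_tri (hz z)] at k2
    have k3 : ¬ (C.az c z ∧ C.az g z) := fun hh => by rw [if_pos ⟨hcg, hh⟩] at k2; omega
    rw [φ_tri (hz z), if_pos]
    have key : ∀ a b, (∀ x, x = a ∨ x = b ∨ x = c ∨ x = g) → C.az a z := by
      intro a b h
      by_contra ha
      have k4 := hz z
      have : ∃ t, ∀ x, C.az x z → x = b ∨ x = t := by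
        by_cases hc : C.az c z
        · exact ⟨c, fun x hx => by rcases h x with rfl | rfl | rfl | rfl <;> tauto⟩
        · exact ⟨g, fun x hx => by rcases h x with rfl | rfl | rfl | rfl <;> tauto⟩
      obtain ⟨t, ht⟩ := this
      have k5 : C.sz z ≤ cnt fun x => x = b ∨ x = t := cnt_mono ht
      have k6 : (cnt fun x => x = b ∨ x = t) ≤ 2 := by
        by_cases hbt : b = t
        · rw [cnt_single (p := fun x => x = b ∨ x = t) b (by simp [hbt])]; omega
        · exact (cnt_pair hbt fun _ => Iff.rfl).le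
      omega
    exact ⟨hab, key a b h, key b a fun x => by have := h x; tauto⟩
  have k2 := sum_φ a b
  simp only [k1] at k2
  have k3 := (num a b).h2
  have k4 := cnt_split (fun w => a ≠ b ∧ C.aw a w ∧ C.aw b w) (fun w => C.sw w = 2)
  have k5 := cnt_le_card (fun w => a ≠ b ∧ C.aw a w ∧ C.aw b w)
  simp only [and_assoc] at k4
  have k6 : C.L a b + C.K a b ≤ C.m := by rw [k4] at k5; exact k5
  simp at k2
  rw [h1] at k2 k3
  unfold f3 at hf
  omega

theorem nec_four (hn : C.n = 4) (h2 : C.f2 = 5) (hI : C.I % 2 = 1) : 3 * C.m + 2 ≤ C.I := by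
  classical
  have e1 := eqA (C := C)
  have e2 := eqW (C := C)
  have hf : C.f3 = C.m + 1 := by omega
  have hJ : ∑ z, C.sz z = C.J := by rw [← sum_az, cnt_comm]; rfl
  have h4 : ∀ z, C.sz z ≤ 4 := fun z => hn ▸ cnt_le_card _
  obtain ⟨z0, hz0⟩ : ∃ z, C.sz z = 3 := by
    by_contra hc
    push Not at hc
    have : 2 ∣ ∑ z, C.sz z := dvd_sum fun z _ => by
      have := hc z; have := h4 z; have := two_le_sz z; omega
    omega
  obtain ⟨g, hg1, hg2⟩ := extra (T := fun a => C.az a z0) (U := fun _ => True) (by simp)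
    (by rw [cnt_true]; unfold sz n at *; omega)
  obtain ⟨a, ha⟩ := cnt_pos.1 (by unfold sz at hz0; omega : 0 < cnt fun a => C.az a z0)
  obtain ⟨b, c, hbc, hab, hac, hT⟩ := name_three (T := fun a => C.az a z0) hz0 ha
  have hb : C.az b z0 := (hT b).2 (by simp)
  have hc : C.az c z0 := (hT c).2 (by simp)
  have hag : a ≠ g := by rintro rfl; exact hg1 ha
  have hbg : b ≠ g := by rintro rfl; exact hg1 hb
  have hcg : c ≠ g := by rintro rfl; exact hg1 hc
  have h : ∀ x, x = a ∨ x = b ∨ x = c ∨ x = g := fun x => by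
    have := (hg2 x).1 trivial; rw [hT] at this; tauto
  have hs := sum_four hab hac hbc hag hbg hcg h
  have k1 := φ_le_P a b z0
  have k2 := φ_le_P a c z0
  have k3 := φ_le_P b c z0
  rw [φ_tri hz0, if_pos (by tauto)] at k1 k2 k3
  have k4 := sum_degA (C := C)
  have k5 := two_le_degA g
  simp only [← row_P] at k4 k5
  simp only [hs, P_diag, P_symm b a, P_symm c a, P_symm c b, P_symm g a, P_symm g b,
    P_symm g c] at k4 k5
  have p1 : C.P a b = 1 := by omega
  have p2 : C.P a c = 1 := by omega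
  have p3 : C.P b c = 1 := by omega
  by_cases q1 : C.P a g = 2
  · exact (caseA hab hac hbc hag hbg hcg h hf p1 p2 p3 q1 (by omega) (by omega)).elim
  by_cases q2 : C.P b g = 2
  · exact (caseA hab.symm hbc hac hbg hag hcg (fun x => by have := h x; tauto) hf
      (by rw [P_symm, p1]) p3 p2 q2 (by omega) (by omega)).elim
  by_cases q3 : C.P c g = 2
  · exact (caseA hac.symm hbc.symm hab hcg hag hbg (fun x => by have := h x; tauto) hf
      (by rw [P_symm, p2]) (by rw [P_symm, p3]) p1 q3 (by omega) (by omega)).elim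
  have hP : ∀ x y, C.P x y ≤ 1 := by
    intro x y
    have := P_symm b a; have := P_symm c a; have := P_symm c b; have := P_symm g a
    have := P_symm g b; have := P_symm g c
    have := P_diag a; have := P_diag b; have := P_diag c; have := P_diag g
    rcases h x with rfl | rfl | rfl | rfl <;> rcases h y with rfl | rfl | rfl | rfl <;> omega
  have h3 : ∀ z, 3 ≤ C.sz z := fun z => by
    by_contra hh
    have h5 := two_le_sz z
    obtain ⟨x, y, hxy, h6⟩ := cnt_two (p := fun a => C.az a z) (by unfold sz at *; omega)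
    have h7 : 0 < C.Q x y := cnt_pos.2 ⟨z, hxy, (h6 x).2 (by simp), (h6 y).2 (by simp), by omega⟩
    have := (num x y).h5 h7
    have := hP x y
    omega
  have h5 : ∃ z, 3 < C.sz z := by
    by_contra hh
    push Not at hh
    have hz : ∀ z, C.sz z = 3 := fun z => le_antisymm (hh z) (h3 z)
    by_cases r1 : C.P c g = 0
    · exact caseB hab h hcg hf p1 r1 hz
    by_cases r2 : C.P b g = 0
    · exact caseB hac (fun x => by have := h x; tauto) hbg hf p2 r2 hz
    · exact caseB hbc (fun x => by have := h x; tauto) hag hf p3 (by omega) hz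
  obtain ⟨z, hz⟩ := h5
  have := sum_lt_sum (s := univ) (f := fun _ : C.Z => 3) (g := C.sz) (fun z _ => h3 z)
    ⟨z, mem_univ z, hz⟩
  simp at this
  unfold f3 at *
  omega

end Core

end Pool.Agent.Lib.MP_685082_co
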