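import Pool.Agent.Lib.MP_685082_co.Arith0
import Pool.Agent.Lib.MP_685082_co.Bases
import Pool.Agent.Lib.MP_685082_co.Nec4

/-! The achievable parameters in closed form. -/

namespace Pool.Agent.Lib.MP_685082_co

theorem Ach.cast {n m t I n' m' I' : ℕ} (h : Ach n m t I) (h1 : n = n') (h2 : m = m')
    (h3 : I = I') : Ach n' m' t I' := by subst h1 h2 h3; exact h

theorem Ach.addK {n m t I : ℕ} (h : Ach n m t I) (b c : ℕ) (hb : 2 ≤ b) (hc : 2 ≤ c) :
    Ach (n + b) (m + c) t (I + b * c) := by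
  obtain ⟨b, rfl⟩ := Nat.exists_eq_add_of_le hb
  obtain ⟨c, rfl⟩ := Nat.exists_eq_add_of_le hc
  exact h.add (ach_K b c)

theorem Ach.pad {n m t I : ℕ} (h : Ach n m t I) (k : ℕ) :
    Ach (n + 2 * k) (m + 2 * k) t (I + 4 * k) := by
  induction k with
  | zero => exact h
  | succ k ih => exact (ih.addK 2 2 le_rfl le_rfl).cast (by ring) (by ring) (by ring)

theorem ach_top (p M I : ℕ) (hp : 3 ≤ p) (h1 : I ≤ p * M) (h2 : p * M + 2 ≤ I + M) :
    Ach p M 1 I := by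
  obtain ⟨k, hk⟩ := Nat.exists_eq_add_of_le h1
  obtain ⟨b, rfl⟩ := Nat.exists_eq_add_of_le hp
  obtain ⟨c, rfl⟩ : ∃ c, M = 2 + k + c := ⟨M - 2 - k, by omega⟩
  exact (ach_theta 1 0 b k c 0 I (by nlinarith)).cast (by ring) (by ring) rfl

def okV (n m I b1 b2 b3 x c1 c2 c3 y n0 m0 : ℕ) : Bool :=
  (n = 2 + b1 + b2 + b3 + n0 && m = 2 + c1 + c2 + c3 + m0 && n0 * m0 ≤ I &&
    I - n0 * m0 + b1 * c1 + b2 * c2 + b3 * c3 = (2 + b1 + b2 + b3) * (2 + c1 + c2 + c3) &&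
    ((n0 = 0 && m0 = 0) || (2 ≤ n0 && 2 ≤ m0))) ||
  (n = 4 + b1 + b2 + b3 + x && m = 4 + c1 + c2 + c3 + y &&
    I + (b1 + x + 2) * c1 + b2 * (c2 + y + 2) + b3 * c3 + (x + 2) * (y + 2)
      = (4 + b1 + b2 + b3 + x) * (4 + c1 + c2 + c3 + y))

theorem okV_sound {n m I b1 b2 b3 x c1 c2 c3 y n0 m0 : ℕ}
    (h : okV n m I b1 b2 b3 x c1 c2 c3 y n0 m0 = true) : Ach n m 1 I := by
  simp only [okV, Bool.or_eq_true, Bool.and_eq_true, decide_eq_true_eq] at h
  rcases h with ⟨⟨⟨⟨h1, h2⟩, h3⟩, h4⟩, h5⟩ | ⟨⟨h1, h2⟩, h3⟩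
  · have := ach_theta _ _ _ _ _ _ _ h4
    rcases h5 with ⟨h5, h6⟩ | ⟨h5, h6⟩
    · exact this.cast (by omega) (by omega) (by rw [h5]; simp)
    · exact (this.addK _ _ h5 h6).cast h1.symm h2.symm (by omega)
  · exact (ach_thetaP _ _ _ _ _ _ _ _ _ h3).cast h1.symm h2.symm rfl

def okW (n m I w : ℕ) : Bool :=
  okV n m I (w / 16 % 16) (w / 16 ^ 2 % 16) (w / 16 ^ 3 % 16) (w / 16 ^ 4 % 16) (w / 16 ^ 5 % 16)
    (w / 16 ^ 6 % 16) (w / 16 ^ 7 % 16) (w / 16 ^ 8 % 16) (w / 16 ^ 9 % 16) (w / 16 ^ 10 % 16)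

theorem okW_sound {n m I w : ℕ} (h : okW n m I w = true) : Ach n m 1 I := okV_sound h

def wits : List ℕ := [1048833, 16777473, 553656576, 4296016129, 822092032, 318775552, 8590983425,
  18874625, 587211008, 12885950721, 1358962944, 352329984, 1124081920, 889200896, 654319872,
  419438848, 4296081665, 4311745025, 4311810305, 4296020225, 822096128, 3211521, 1090531584,
  4313907457, 12885954817, 1627402496, 21475889409, 2164273408, 587219200, 319832320, 588267776,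
  320880896, 589316352, 385892608, 386941184, 387989760, 3436527497472, 2336765260032,
  4329575169, 839930112, 556814592, 305156352, 369119488, 370168064, 371216640, 372265216,
  353394944, 354443520, 355492096, 356540672, 338718976, 339767552, 340816128, 324043008,
  325091584, 309367040]

def Fam (p M I : ℕ) : Prop :=
  p * M + 2 ≤ I + M ∨ (p = 6 ∧ 2 * M + 4 ≤ I ∧ I + 4 ≤ 4 * M) ∨ (p = 6 ∧ 3 * M + 10 ≤ I) ∨
    (p % 2 = 0 ∧ p = M ∧ I = 2 * M + 7)

instance (p M I : ℕ) : Decidable (Fam p M I) := by unfold Fam; infer_instance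

theorem chk_wits : ∀ p ∈ List.range 13, ∀ M ∈ List.range 13, p ≤ M → ∀ I ∈ List.range 145,
    Cond p M 1 I → ¬ Cond p M 0 I → ¬ Fam p M I → wits.any (okW p M I) = true := by
  decide +kernel

theorem ach_one {p M I : ℕ} (hM : p ≤ M) (h1 : Cond p M 1 I) : Ach p M 1 I := by
  by_cases h0 : Cond p M 0 I
  · exact (a0_of_cond p M hM I h0).ach.succ (by have := h1.1; omega)
  have hp : 3 ≤ p := by
    by_contra hh
    apply h0
    obtain rfl : p = 2 := by have := h1.1; omega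
    obtain rfl : I = 2 * M := by have := h1.2.1; have := h1.2.2.1; omega
    unfold Cond
    simp only [true_imp_iff]
    constructorm* _ ∧ _ <;> omega
  by_cases hf : Fam p M I
  · have h2 := h1.2.2.1
    rcases hf with h | ⟨rfl, h3, h4⟩ | ⟨rfl, h3⟩ | ⟨h3, rfl, h4⟩
    · exact ach_top p M I hp h2 h
    · by_cases h5 : I ≤ 3 * M
      · exact ((ach_top 3 (M - 2) (I - 6) le_rfl (by omega) (by omega)).addK 3 2 (by omega)
          le_rfl).cast rfl (by omega) (by omega)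
      · exact ((ach_top 4 (M - 2) (I - 4) (by omega) (by omega) (by omega)).addK 2 2 le_rfl
          le_rfl).cast rfl (by omega) (by omega)
    · exact (ach_theta 1 3 0 ((6 * M - I) % 3) ((6 * M - I) / 3)
        (M - 2 - (6 * M - I) % 3 - (6 * M - I) / 3) I (by omega)).cast rfl (by omega) rfl
    · exact ((ach_top 4 4 15 (by omega) (by omega) (by omega)).pad ((p - 4) / 2)).cast (by omega)
        (by omega) (by omega)
  have h12 : M ≤ 12 := by
    by_contra hh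
    apply h0
    unfold Fam at hf
    unfold Cond at h1 ⊢
    obtain ⟨g0, g1, g2, g3, g4, g5, g6, g7, g8, g9, -⟩ := h1
    simp only [true_imp_iff]
    refine ⟨g0, g1, g2, g3, by omega, by omega, by omega, by omega, by omega, ?_, by omega,
      ?_, ?_, by omega, ?_, by omega, by omega, by omega⟩
    all_goals
      rintro rfl
      omega
  have := chk_wits p (by simp; omega) M (by simp; omega) hM I (by
    have h2 := h1.2.2.1
    have : p * M ≤ 12 * 12 := Nat.mul_le_mul (by omega) h12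
    simp; omega) h1 h0 hf
  obtain ⟨w, -, hw⟩ := List.any_eq_true.1 this
  exact okW_sound hw

theorem Ach.fin {n m s J p M t I : ℕ} (h1 : Ach n m s J)
    (h : s ≤ t ∧ n ≤ p ∧ n % 2 = p % 2 ∧ 0 < n ∧ m + p = M + n ∧ J + 2 * p = I + 2 * n) :
    Ach p M t I :=
  ((h1.mono h.2.2.2.1 h.1).pad ((p - n) / 2)).cast (by omega) (by omega) (by omega)

theorem exo0 {p M t : ℕ} (h0 : 2 ≤ p) (h1 : p % 2 = 1) (h : p + 6 ≤ M ∧ 6 ≤ t ∧ p + 15 ≤ M + t) :
    Ach p M t (2 * M) := by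
  by_cases d1 : M = p + 6
  · exact (ach_e0a 0).fin (by omega)
  by_cases d2 : M = p + 7
  · exact (ach_e0b 0).fin (by omega)
  by_cases d3 : M = p + 8
  · exact (ach_e0c 0).fin (by omega)
  · exact (ach_e0d (M - p - 9)).fin (by omega)

theorem exo2 {p M t : ℕ} (h0 : 4 ≤ p) (h1 : p % 2 = 0) (h : p + 3 ≤ M ∧ 6 ≤ t ∧ p + 12 ≤ M + t) :
    Ach p M t (2 * M + 2) := by
  by_cases d1 : M = p + 3
  · exact (ach_e2a 0).fin (by omega)
  by_cases d2 : M = p + 4
  · exact (ach_e2b 0).fin (by omega)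
  by_cases d3 : M = p + 5
  · exact (ach_e2c 0).fin (by omega)
  · exact (ach_e2d (M - p - 6)).fin (by omega)

theorem exo3 {p M t : ℕ} (h0 : 4 ≤ p) (h1 : p % 2 = 0) (h : p + 2 ≤ M ∧ 6 ≤ t ∧ p + 9 ≤ M + t) :
    Ach p M t (2 * M + 3) := by
  by_cases d1 : M = p + 2
  · exact (ach_e3a 0).fin (by omega)
  · exact (ach_e3b (M - p - 3)).fin (by omega)

theorem exo4 {p t : ℕ} (h0 : 5 ≤ p) (h1 : p % 2 = 1) (h : 7 ≤ t) : Ach p p t (2 * p + 4) :=
  (ach_e4 0).fin (by omega)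

theorem exo5 {p M t : ℕ} (h0 : 5 ≤ p) (h1 : p % 2 = 1) (hM : p ≤ M) (h2 : M ≤ p + 1) (h : 6 ≤ t) :
    Ach p M t (2 * M + 5) :=
  (ach_e5 (M - p)).fin (by omega)

theorem exo6 {M t I : ℕ} (h1 : 2 * M + 4 ≤ I) (h2 : I ≤ 3 * M + 1) (h : 2 ≤ t) : Ach 4 M t I :=
  (ach_four (3 * M + 2 - I) (I - 2 * M - 4)).fin (by omega)

theorem ge_four {p M I : ℕ} (h0 : 2 ≤ p) (h1 : p % 2 = 0) (h2 : 2 * M < I) (h3 : I ≤ p * M) :
    4 ≤ p := by
  by_contra hh
  obtain rfl : p = 2 := by omega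
  omega

theorem ge_five {p M I : ℕ} (h0 : 2 ≤ p) (h1 : p % 2 = 1) (h2 : 3 * M + 3 < I + p)
    (h3 : I ≤ p * M) : 5 ≤ p := by
  by_contra hh
  obtain rfl : p = 3 := by omega
  omega

theorem ach_of_cond {p M t I : ℕ} (hM : p ≤ M) (h : Cond p M t I) : Ach p M t I := by
  rcases Nat.eq_zero_or_pos t with rfl | ht
  · exact (a0_of_cond p M hM I h).ach
  obtain ⟨g0, g1, g2, g3, g4, g5, g6, g7, g8, g9, -⟩ := h
  by_cases c0 : p % 2 = 1 ∧ I = 2 * M
  · exact c0.2 ▸ exo0 g0 c0.1 (g4 c0.1 c0.2)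
  clear g4
  by_cases c2 : p % 2 = 0 ∧ I = 2 * M + 2
  · exact c2.2 ▸ exo2 (ge_four g0 c2.1 (by rw [c2.2]; simp) g2) c2.1 (g5 c2.1 c2.2)
  clear g5
  by_cases c3 : p % 2 = 0 ∧ I = 2 * M + 3
  · exact c3.2 ▸ exo3 (ge_four g0 c3.1 (by rw [c3.2]; simp) g2) c3.1 (g6 c3.1 c3.2)
  clear g6
  by_cases c4 : p % 2 = 1 ∧ M = p ∧ I = 2 * M + 4
  · have h1 := g7 c4.1 c4.2.1 c4.2.2
    obtain ⟨h2, rfl, rfl⟩ := c4
    exact exo4 (ge_five g0 h2 (by clear g7 g8 g9 c0 c2 c3; omega) g2) h2 h1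
  clear g7
  by_cases c5 : p % 2 = 1 ∧ M ≤ p + 1 ∧ I = 2 * M + 5
  · have h1 := g8 c5.1 c5.2.1 c5.2.2
    obtain ⟨h2, h3, rfl⟩ := c5
    exact exo5 (ge_five g0 h2 (by clear g8 g9 c0 c2 c3 c4; omega) g2) h2 hM h3 h1
  clear g8
  by_cases c6 : p = 4 ∧ I % 2 = 1 ∧ I ≤ 3 * M + 1
  · have h1 := g9 c6.1 c6.2.1 c6.2.2
    obtain ⟨rfl, h2, h3⟩ := c6
    exact exo6 (by clear g9 c0 c4 c5; omega) h3 h1
  refine (ach_one hM ⟨g0, g1, g2, g3, ?_, ?_, ?_, ?_, ?_, ?_, ?_⟩).mono (by omega) ht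
  · exact fun a b => absurd ⟨a, b⟩ c0
  · exact fun a b => absurd ⟨a, b⟩ c2
  · exact fun a b => absurd ⟨a, b⟩ c3
  · exact fun a b c => absurd ⟨a, b, c⟩ c4
  · exact fun a b c => absurd ⟨a, b, c⟩ c5
  · exact fun a b c => absurd ⟨a, b, c⟩ c6
  · exact fun a => absurd a (by norm_num)

theorem cond_of_ach {p M t I : ℕ} (hp : 0 < p) (h : Ach p M t I) : Cond p M t I := by
  obtain ⟨C, rfl, rfl, h2, rfl⟩ := h
  have e1 := Core.eqA (C := C)
  have e2 := Core.eqW (C := C)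
  have hw : 2 ≤ C.n := by
    have : Nonempty C.A := Fintype.card_pos_iff.1 hp
    obtain ⟨a⟩ := this
    obtain ⟨y, -⟩ := Core.ex_ay a
    rw [← C.hy y]; exact cnt_le_card _
  refine ⟨hw, Core.two_m_le, Core.I_le, Core.ne_one, fun a b => ?_, fun a b => ?_, fun a b => ?_,
    fun a b c => ?_, fun a b c => ?_, fun a b c => ?_, fun a => ?_⟩
  · have := Core.nec0 b a; omega
  · have := Core.nec23 (Or.inl b) a; omega
  · have := Core.nec23 (Or.inr b) a; omega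
  · have := Core.nec45 (Or.inl ⟨c, b⟩) a; omega
  · have := Core.nec45 (Or.inr ⟨c, b⟩) a; omega
  · by_contra hh
    obtain rfl | rfl : t = 0 ∨ t = 1 := by omega
    · have := (Core.a0 (C := C) h2).nec.2.2.1 a; omega
    · have := Core.nec_four a (by omega) b; omega
  · subst a
    exact (Core.a0 (C := C) h2).nec

theorem ach_iff {n m t I : ℕ} : (0 < n ∧ Ach n m t I) ↔ Cond (min n m) (max n m) t I := by
  constructor
  · rintro ⟨hn, h⟩
    rcases le_total n m with hh | hh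
    · rw [min_eq_left hh, max_eq_right hh]; exact cond_of_ach hn h
    · rw [min_eq_right hh, max_eq_left hh]
      refine cond_of_ach ?_ h.symm
      have := cond_of_ach hn h
      obtain ⟨C, rfl, rfl, -, rfl⟩ := h
      have h1 := Core.two_n_le (C := C)
      have h2 := Core.I_le (C := C)
      by_contra h3
      rw [show C.m = 0 by omega] at h2
      omega
  · intro h
    have := h.1
    refine ⟨by omega, ?_⟩
    rcases le_total n m with hh | hh
    · rw [min_eq_left hh, max_eq_right hh] at h; exact ach_of_cond hh h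
    · rw [min_eq_right hh, max_eq_left hh] at h; exact (ach_of_cond hh h).symm

end Pool.Agent.Lib.MP_685082_co
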