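import Pool.Agent.Lib.MP_685082_co.Flag

/-! The Eulerian poset of a core. -/

namespace Pool.Agent.Lib.MP_685082_co

open Finset

/-- elements of the poset of a core -/
inductive Pt (C : Core) : Type
  | bot : Pt C
  | a : C.A → Pt C
  | y : C.Y → Pt C
  | z : C.Z → Pt C
  | w : C.W → Pt C
  | top : Pt C

namespace Pt
variable {C : Core}

def eqv : Pt C ≃ Option (Option ((C.A ⊕ C.Y) ⊕ (C.Z ⊕ C.W))) where
  toFun
    | .bot => none
    | .top => some none
    | .a x => some (some (.inl (.inl x)))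
    | .y x => some (some (.inl (.inr x)))
    | .z x => some (some (.inr (.inl x)))
    | .w x => some (some (.inr (.inr x)))
  invFun
    | none => .bot
    | some none => .top
    | some (some (.inl (.inl x))) => .a x
    | some (some (.inl (.inr x))) => .y x
    | some (some (.inr (.inl x))) => .z x
    | some (some (.inr (.inr x))) => .w x
  left_inv := by rintro (_ | _ | _ | _ | _ | _) <;> rfl
  right_inv := by rintro (_ | _ | ((_ | _) | (_ | _))) <;> rfl

noncomputable instance : Fintype (Pt C) := Fintype.ofEquiv _ eqv.symm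

open Classical in
theorem cnt_pt (p : Pt C → Prop) : cnt p = (if p .bot then 1 else 0) + (if p .top then 1 else 0)
    + cnt (fun x => p (.a x)) + cnt (fun x => p (.y x)) + cnt (fun x => p (.z x))
    + cnt (fun x => p (.w x)) := by
  rw [cnt_sum, ← eqv.symm.sum_comp]
  simp only [Fintype.sum_option, Fintype.sum_sum_type, cnt_sum]
  simp only [add_assoc]
  rfl

def le : Pt C → Pt C → Prop
  | .bot, _ => True
  | _, .top => True
  | .a x, .a x' => x = x'
  | .a x, .y x' => C.ay x x'
  | .a x, .z x' => C.az x x'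
  | .a x, .w x' => C.aw x x'
  | .y x, .y x' => x = x'
  | .y x, .z x' => C.yz x x'
  | .y x, .w x' => C.yw x x'
  | .z x, .z x' => x = x'
  | .z x, .w x' => C.zw x x'
  | .w x, .w x' => x = x'
  | _, _ => False

instance : PartialOrder (Pt C) where
  le := le
  le_refl := by rintro (_ | _ | _ | _ | _ | _) <;> simp [le]
  le_trans := by
    rintro (_ | _ | _ | _ | _ | _) (_ | _ | _ | _ | _ | _) (_ | _ | _ | _ | _ | _) h1 h2 <;>
      simp only [le] at h1 h2 ⊢ <;>
      first
        | (subst h1; exact h2)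
        | (subst h2; exact h1)
        | exact Core.az_of h1 h2
        | exact Core.yw_of h1 h2
        | exact Core.aw_of h1 h2
        | exact Core.aw_of' h1 h2
  le_antisymm := by
    rintro (_ | _ | _ | _ | _ | _) (_ | _ | _ | _ | _ | _) h1 h2 <;>
      simp only [le] at h1 h2 ⊢ <;> rw [h1]

theorem le_def (x y : Pt C) : x ≤ y ↔ le x y := Iff.rfl

instance : BoundedOrder (Pt C) where
  top := .top
  le_top := by rintro (_ | _ | _ | _ | _ | _) <;> simp [le_def, le]
  bot := .bot
  bot_le := by rintro (_ | _ | _ | _ | _ | _) <;> simp [le_def, le]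

def rk : Pt C → ℕ
  | .bot => 0
  | .a _ => 1
  | .y _ => 2
  | .z _ => 3
  | .w _ => 4
  | .top => 5

theorem lt_def (x y : Pt C) : x < y ↔ le x y ∧ rk x < rk y := by
  rw [lt_iff_le_and_ne, le_def]
  rcases x with (_ | _ | _ | _ | _ | _) <;> rcases y with (_ | _ | _ | _ | _ | _) <;> simp [le, rk]

theorem exists_mid (hn : 0 < C.n) (x y : Pt C) (h : le x y) (h2 : rk x + 1 < rk y) :
    ∃ u, (le x u ∧ rk x < rk u) ∧ le u y ∧ rk u < rk y := by
  rcases x with (_ | x | x | x | x | _) <;> rcases y with (_ | y | y | y | y | _) <;>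
    simp only [le, rk] at h h2 <;> try omega
  · obtain ⟨a, ha⟩ := Core.ex_ay' y; exact ⟨.a a, by simp [le, rk, ha]⟩
  · obtain ⟨a, ha⟩ := C.nz y; exact ⟨.y a, by simp [le, rk, ha]⟩
  · obtain ⟨a, ha⟩ := Core.ex_zw y; exact ⟨.z a, by simp [le, rk, ha]⟩
  · obtain ⟨a⟩ := Fintype.card_pos_iff.1 hn; exact ⟨.a a, by simp [le, rk]⟩
  · obtain ⟨a, ha⟩ := (C.az_iff _ _).1 h; exact ⟨.y a, by simp [le, rk, ha]⟩
  · obtain ⟨a, ha⟩ := (C.aw_iff _ _).1 h; exact ⟨.y a, by simp [le, rk, ha]⟩
  · obtain ⟨a, ha⟩ := Core.ex_ay x; exact ⟨.y a, by simp [le, rk, ha]⟩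
  · obtain ⟨a, ha⟩ := (C.yw_iff _ _).1 h; exact ⟨.z a, by simp [le, rk, ha]⟩
  · obtain ⟨a, ha⟩ := C.ny x; exact ⟨.z a, by simp [le, rk, ha]⟩
  · obtain ⟨a, ha⟩ := Core.ex_zw' x; exact ⟨.w a, by simp [le, rk, ha]⟩

theorem cnt_eq1 {α : Type} [Fintype α] (a : α) : cnt (fun x => x = a) = 1 :=
  cnt_single a fun _ => Iff.rfl
theorem cnt_eq2 {α : Type} [Fintype α] (a : α) : cnt (fun x => a = x) = 1 :=
  cnt_single a fun _ => eq_comm
theorem cnt_eq3 {α β : Type} [Fintype α] {p : α → β → Prop} {a : α} {b : β} (h : p a b) :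
    cnt (fun x => a = x ∧ p x b) = 1 :=
  cnt_single a fun _ => ⟨fun hx => hx.1.symm, by rintro rfl; exact ⟨rfl, h⟩⟩
theorem cnt_eq4 {α : Type} [Fintype α] {p : α → Prop} {a : α} (h : p a) :
    cnt (fun x => p x ∧ x = a) = 1 :=
  cnt_single a fun _ => ⟨fun hx => hx.2, by rintro rfl; exact ⟨h, rfl⟩⟩
theorem cnt_ff {α : Type} [Fintype α] : cnt (fun _ : α => False) = 0 := cnt_zero.2 (by simp)

theorem eul (hn : 0 < C.n) : Eul (rk : Pt C → ℕ) where
  h0 := rfl
  h5 := rfl
  hc x y h := by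
    have h1 := (lt_def x y).1 h.lt
    by_contra h2
    obtain ⟨u, h3, h4⟩ := exists_mid hn x y h1.1 (by omega)
    exact h.2 ((lt_def _ _).2 h3) ((lt_def _ _).2 h4)
  he x y h := by
    have e1 := Core.eqA (C := C)
    have e2 := Core.eqW (C := C)
    unfold Core.n Core.m Core.f2 Core.f3 at *
    rw [lt_def] at h
    rw [cnt_pt, cnt_pt]
    have o0 : ¬ Odd 0 := by decide
    have o2 : ¬ Odd 2 := by decide
    have o4 : ¬ Odd 4 := by decide
    have o1 : Odd 1 := by decide
    have o3 : Odd 3 := by decide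
    have o5 : Odd 5 := by decide
    have v0 : Even 0 := by decide
    have v2 : Even 2 := by decide
    have v4 : Even 4 := by decide
    have v1 : ¬ Even 1 := by decide
    have v3 : ¬ Even 3 := by decide
    have v5 : ¬ Even 5 := by decide
    rcases x with (_ | x | x | x | x | _) <;> rcases y with (_ | y | y | y | y | _) <;>
      simp only [le, rk] at h <;> (try omega) <;> obtain ⟨h, -⟩ := h <;>
      simp only [le_def, le, rk, o0, o1, o2, o3, o4, o5, v0, v1, v2, v3, v4, v5, and_true, true_and,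
        and_false, false_and, and_self, cnt_ff, if_true, if_false, cnt_eq1, cnt_eq2, cnt_true]
    · rw [C.hy]
    · have := Core.col_eq y; omega
    · have := C.ew y; omega
    · omega
    · rw [cnt_eq3 h, cnt_eq4 h]
    · rw [cnt_eq3 h, cnt_eq4 h, C.haz _ _ h]
    · rw [cnt_eq3 h, cnt_eq4 h, Core.mid_eq]; omega
    · have := C.ea x; omega
    · rw [cnt_eq3 h, cnt_eq4 h]
    · rw [cnt_eq3 h, cnt_eq4 h, C.hyw _ _ h]
    · have := Core.row_eq x; omega
    · rw [cnt_eq3 h, cnt_eq4 h]
    · rw [C.hz]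

theorem card_rk (k : ℕ) [Fintype {x : Pt C // rk x = k}] :
    Fintype.card {x : Pt C // rk x = k} = cnt fun x : Pt C => rk x = k := by
  rw [← cnt_true, cnt_subtype (fun x : Pt C => rk x = k) fun _ => True]
  simp

theorem core_n (hn : 0 < C.n) : (eul hn).core.n = C.n := by
  refine (card_rk 1).trans ?_
  rw [cnt_pt]; simp [rk, cnt_ff, cnt_true, Core.n]

theorem core_m (hn : 0 < C.n) : (eul hn).core.m = C.m := by
  refine (card_rk 4).trans ?_
  rw [cnt_pt]; simp [rk, cnt_ff, cnt_true, Core.m]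

theorem core_f2 (hn : 0 < C.n) : (eul hn).core.f2 = C.f2 := by
  refine (card_rk 2).trans ?_
  rw [cnt_pt]; simp [rk, cnt_ff, cnt_true, Core.f2]

theorem core_I (hn : 0 < C.n) : (eul hn).core.I = C.I := by
  classical
  have h1 : ∀ (a : Pt C) [Fintype {x : Pt C // rk x = 4}],
      cnt (fun w : {x : Pt C // rk x = 4} => a ≤ w.1) = cnt fun w : C.W => le a (.w w) := by
    intro a _
    rw [cnt_subtype (fun x : Pt C => rk x = 4) fun x => a ≤ x, cnt_pt]
    simp [rk, cnt_ff, le_def]
  have h2 := @sum_subtype' _ _ (fun x : Pt C => rk x = 1) (eul hn).core.fA _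
    fun a => cnt fun w : C.W => le a (.w w)
  refine Eq.trans (sum_congr rfl fun a _ => @h1 a.1 (eul hn).core.fW) (h2.symm.trans ?_)
  rw [← eqv.symm.sum_comp]
  simp only [Fintype.sum_option, Fintype.sum_sum_type]
  simp [eqv, rk, le, Core.I]

end Pt

end Pool.Agent.Lib.MP_685082_co
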