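import Pool.Agent.Lib.MP_685082_co.CLim

/-! The point of the Dehn-Sommerville space violating the inequality. -/

namespace Pool.Agent.Lib.MP_685082_co.Cone

open Finset

def eZ (F : List (ℕ × ℕ)) (S : Finset ℕ) : ℤ := if ∀ I ∈ F, Hit S I then 1 else 0

def comb (C : List (ℤ × List (ℕ × ℕ))) (S : Finset ℕ) : ℤ := (C.map fun p => p.1 * eZ p.2 S).sum

def eL (F : List (ℕ × ℕ)) (L : List ℕ) : Bool :=
  F.all fun I => L.any fun s => Nat.ble I.1 s && Nat.ble s I.2

def combL (C : List (ℤ × List (ℕ × ℕ))) (L : List ℕ) : ℤ :=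
  (C.map fun p => cond (eL p.2 L) p.1 0).sum

theorem comb_eq (C : List (ℤ × List (ℕ × ℕ))) (S : Finset ℕ) (L : List ℕ)
    (h : ∀ s, s ∈ S ↔ s ∈ L) : comb C S = combL C L := by
  unfold comb combL
  congr 1
  refine List.map_congr_left fun p _ => ?_
  have : (∀ I ∈ p.2, Hit S I) ↔ eL p.2 L = true := by
    simp [eL, Hit, h]
  unfold eZ
  by_cases a : eL p.2 L = true
  · rw [if_pos (this.2 a), a]; simp
  · rw [if_neg fun b => a (this.1 b)]; simp [a]

def cert : List (ℤ × List (ℕ × ℕ)) :=
  [(1, [(1, 2), (2, 3), (4, 5), (7, 8), (9, 10)]), (2, [(1, 2), (2, 5), (7, 8)]),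
   (2, [(1, 4), (4, 5), (9, 10)]), (1, [(1, 2), (3, 4), (4, 5), (7, 8), (9, 10)]),
   (2, [(1, 5), (7, 10)]), (1, [(2, 3), (3, 4), (7, 8), (9, 10)]),
   (1, [(1, 3), (2, 4), (3, 5), (7, 8), (9, 10)])]

def dsChk (L : List ℕ) : Bool :=
  (List.range 12).all fun k => !(k == 11 || L.elem k) || (List.range k).all fun i =>
    !((i == 0 || L.elem i) && L.all fun s => Nat.ble s i || Nat.ble k s) ||
      ((List.range' (i + 1) (k - i - 1)).map fun j =>
        cond ((j + i + 1) % 2 == 0) (combL cert (j :: L)) (-combL cert (j :: L))).sum ==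
      cond ((k + i) % 2 == 0) (combL cert L) 0

def dsPart (A : List ℕ) : Bool := (List.range' 4 7).sublists.all fun B => dsChk (A ++ B)

theorem dsPart0 : dsPart [] = true := by decide +kernel

theorem dsPart1 : dsPart [1] = true := by decide +kernel

theorem dsPart2 : dsPart [2] = true := by decide +kernel

theorem dsPart3 : dsPart [1, 2] = true := by decide +kernel

theorem dsPart4 : dsPart [3] = true := by decide +kernel

theorem dsPart5 : dsPart [1, 3] = true := by decide +kernel

theorem dsPart6 : dsPart [2, 3] = true := by decide +kernel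

theorem dsPart7 : dsPart [1, 2, 3] = true := by decide +kernel

theorem dsChk_all (A : List ℕ) (hA : A ∈ (List.range' 1 3).sublists) : dsPart A = true := by
  have : (List.range' 1 3).sublists = [[], [1], [2], [1, 2], [3], [1, 3], [2, 3], [1, 2, 3]] := by
    decide
  simp only [this, List.mem_cons, List.not_mem_nil, or_false] at hA
  rcases hA with rfl | rfl | rfl | rfl | rfl | rfl | rfl | rfl
  exacts [dsPart0, dsPart1, dsPart2, dsPart3, dsPart4, dsPart5, dsPart6, dsPart7]

def uDS (n : ℕ) : Prop := ∀ S ⊆ Icc 1 n, ∀ i k, i < k → (i = 0 ∨ i ∈ S) → (k = n + 1 ∨ k ∈ S) →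
  (∀ s ∈ S, s ≤ i ∨ k ≤ s) →
  ∑ j ∈ Ioo i k, (-1) ^ (j + i + 1) * comb cert (insert j S) =
    (if Even (k + i) then 1 else 0) * comb cert S

theorem uDS10 : uDS 10 := by
  intro S hS i k hik hi hk h
  have h1 : dsChk ((List.range' 1 3).filter (· ∈ S) ++ (List.range' 4 7).filter (· ∈ S)) = true :=
    List.all_eq_true.1 (dsChk_all _ (List.mem_sublists.2 List.filter_sublist)) _
      (List.mem_sublists.2 List.filter_sublist)
  set L := (List.range' 1 3).filter (· ∈ S) ++ (List.range' 4 7).filter (· ∈ S) with hL
  have hm : ∀ s, s ∈ S ↔ s ∈ L := by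
    intro s
    simp only [hL, List.mem_append, List.mem_filter, List.mem_range'_1, decide_eq_true_eq]
    refine ⟨fun a => ?_, fun a => a.elim (fun b => b.2) fun b => b.2⟩
    have := mem_Icc.1 (hS a)
    simp only [a, and_true]
    omega
  have hk' : k < 12 := by
    rcases hk with rfl | hk
    · omega
    · have := mem_Icc.1 (hS hk); omega
  have h2 := List.all_eq_true.1 h1 k (List.mem_range.2 hk')
  rw [show (k == 11 || L.elem k) = true by simpa [← hm] using hk] at h2
  have h3 := List.all_eq_true.1 h2 i (List.mem_range.2 hik)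
  rw [show ((i == 0 || L.elem i) && L.all fun s => Nat.ble s i || Nat.ble k s) = true by
    simpa [← hm] using ⟨hi, h⟩] at h3
  simp only [Bool.not_true, Bool.false_or, beq_iff_eq] at h3
  rw [Nat.Ioo_eq_range', Finset.sum_mk, Multiset.map_coe, Multiset.sum_coe, comb_eq _ S L hm]
  convert h3 using 1
  · congr 1
    refine List.map_congr_left fun j _ => ?_
    rw [comb_eq _ (insert j S) (j :: L) (by simp [hm])]
    rcases Nat.even_or_odd (j + i + 1) with a | a
    · rw [a.neg_one_pow, Nat.even_iff.1 a]; simp
    · rw [a.neg_one_pow, Nat.odd_iff.1 a]; simp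
  · rcases Nat.even_or_odd (k + i) with a | a
    · rw [if_pos a, Nat.even_iff.1 a]; simp
    · rw [if_neg (Nat.not_even_iff_odd.2 a), Nat.odd_iff.1 a]; simp

theorem comb_big (S : Finset ℕ) (j : ℕ) (hj : 10 < j) : comb cert (insert j S) = comb cert S := by
  unfold comb
  congr 1
  refine List.map_congr_left fun p hp => ?_
  have h : ∀ p ∈ cert, ∀ I ∈ p.2, I.2 ≤ 10 := by decide
  have : (∀ I ∈ p.2, Hit (insert j S) I) ↔ ∀ I ∈ p.2, Hit S I := by
    refine forall₂_congr fun I hI => ?_
    have := h p hp I hI
    simp only [Hit, exists_mem_insert]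
    exact ⟨fun a => a.resolve_left (by omega), Or.inr⟩
  simp only [eZ, this]

theorem uDS_all (n : ℕ) (hn : 10 ≤ n) : uDS n := by
  induction n, hn using Nat.le_induction with
  | base => exact uDS10
  | succ n hn ih =>
    intro S hS i k hik hi hk h
    have hS' : ∀ s ∈ S, 1 ≤ s ∧ s ≤ n + 1 := fun s hs => mem_Icc.1 (hS hs)
    have e : ∀ T : Finset ℕ, comb cert (T.erase (n + 1)) = comb cert T := by
      intro T
      by_cases a : n + 1 ∈ T
      · rw [← comb_big _ (n + 1) (by omega), insert_erase a]
      · rw [erase_eq_of_notMem a]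
    by_cases hk2 : k ≤ n + 1
    · have := ih (S.erase (n + 1)) (fun s hs => by
          rw [mem_erase] at hs; have := hS' s hs.2; rw [mem_Icc]; omega) i k hik
        (hi.imp_right fun a => mem_erase.2 ⟨by omega, a⟩)
        (by
          by_cases a : k = n + 1
          · exact Or.inl a
          · exact Or.inr (mem_erase.2 ⟨a, hk.resolve_left (by omega)⟩))
        fun s hs => h s (mem_of_mem_erase hs)
      rw [e] at this
      rw [← this]
      refine sum_congr rfl fun j hj => ?_
      rw [mem_Ioo] at hj
      rw [← e (insert j S), erase_insert_of_ne (by omega)]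
    · have hk3 : k = n + 2 := by
        rcases hk with hk | hk
        · exact hk
        · have := hS' k hk; omega
      subst hk3
      by_cases a : i = n + 1
      · subst a
        rw [show Ioo (n + 1) (n + 2) = ∅ by ext s; simp only [mem_Ioo, notMem_empty, iff_false]; omega,
          if_neg (by rw [Nat.even_iff]; omega)]
        simp
      · have := ih S (fun s hs => by
            have := hS' s hs; have := h s hs; rw [mem_Icc]; omega) i (n + 1) (by omega) hi
          (Or.inl rfl) fun s hs => by have := hS' s hs; have := h s hs; omega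
        rw [show Ioo i (n + 2) = insert (n + 1) (Ioo i (n + 1)) by
          ext s; simp only [mem_Ioo, mem_insert]; omega, sum_insert (by simp), this,
          comb_big _ _ (by omega)]
        rcases Nat.even_or_odd (n + 1 + i) with b | b
        · rw [if_pos b, if_neg (by rw [Nat.even_iff] at b ⊢; omega), pow_succ, b.neg_one_pow]
          ring
        · rw [if_neg (Nat.not_even_iff_odd.2 b),
            if_pos (by rw [Nat.odd_iff] at b; rw [Nat.even_iff]; omega), pow_succ, b.neg_one_pow]
          ring

end Pool.Agent.Lib.MP_685082_co.Cone
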