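import Mathlib

/-! Definitions for the statements about closed cones of flag vectors. -/

namespace Pool.Agent.Lib.MP_685082_co.Cone

open Finset

/-- `flag ρ S`: the number of chains avoiding bottom and top whose set of ranks is `S`. -/
noncomputable def flag {P : Type} [PartialOrder P] [BoundedOrder P] (ρ : P → ℕ) (S : Finset ℕ) :
    ℝ :=
  ({c : Set P | IsChain (· ≤ ·) c ∧ ⊥ ∉ c ∧ ⊤ ∉ c ∧ ρ '' c = S}.ncard : ℝ)

/-- In every interval `[x, y]`, `x < y`, the number of elements whose rank has the parity of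
`ρ x` minus the number of the other elements is `2 - t` if `ρ y - ρ x` is even and `0` otherwise.
For `t = 2` this is the Euler condition, for `t = 1` these are the half-Eulerian posets. -/
def Euler (t : ℕ) (P : Type) [PartialOrder P] (ρ : P → ℕ) : Prop :=
  ∀ x y, x < y →
    ({z | x ≤ z ∧ z ≤ y ∧ Even (ρ z + ρ x)}.ncard : ℤ) -
      ({z | x ≤ z ∧ z ≤ y ∧ Odd (ρ z + ρ x)}.ncard : ℤ) =
      if Even (ρ y + ρ x) then 2 - (t : ℤ) else 0

/-- Every nonempty open interval has at least `t` elements. -/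
def Thick (t : ℕ) (P : Type) [PartialOrder P] (_ρ : P → ℕ) : Prop :=
  ∀ x y : P, (Set.Ioo x y).Nonempty → t ≤ (Set.Ioo x y).ncard

/-- The closed convex cone generated by the flag vectors of the finite graded posets of rank
`n + 1` with property `Q`. -/
def cone (n : ℕ) (Q : (P : Type) → [PartialOrder P] → (P → ℕ) → Prop) : Set (Finset ℕ → ℝ) :=
  closure (Submodule.span NNReal
    {v | ∃ (P : Type) (_ : Finite P) (_ : PartialOrder P) (_ : BoundedOrder P) (ρ : P → ℕ),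
      ρ ⊥ = 0 ∧ ρ ⊤ = n + 1 ∧ (∀ x y, x ⋖ y → ρ y = ρ x + 1) ∧ Q P ρ ∧ v = flag ρ} :
    Set (Finset ℕ → ℝ))

/-- The subspace cut out by the generalized Dehn-Sommerville equations. -/
def DS (t n : ℕ) : Set (Finset ℕ → ℝ) :=
  {v | (∀ S, ¬ S ⊆ Icc 1 n → v S = 0) ∧
    ∀ S ⊆ Icc 1 n, ∀ i k, i < k → (i = 0 ∨ i ∈ S) → (k = n + 1 ∨ k ∈ S) →
      (∀ s ∈ S, s ≤ i ∨ k ≤ s) →
      ∑ j ∈ Ioo i k, (-1) ^ (j + i + 1) * v (insert j S) =
        (if Even (k + i) then (t : ℝ) else 0) * v S}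

/-- The linear form for rank `11`. -/
def Phi (t : ℕ) (v : Finset ℕ → ℝ) : ℝ :=
  v {5, 6, 7, 9} + v {3, 4, 6, 7} + t * (v {3, 6, 10} - v {4, 6, 10} - v {5, 6, 8} - v {6, 7, 9}
    - v {3, 4, 6} - v {3, 6, 7}) + t ^ 2 * (v {4, 6} + v {6, 8})

end Pool.Agent.Lib.MP_685082_co.Cone
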