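import Pool.Agent.Lib.MP_685082_co.CMain

/-! The inequality defines a facet in rank eleven. -/

namespace Pool.Agent.Lib.MP_685082_co.Cone

open Finset

theorem sparse_zero {t n : ℕ} {v : Finset ℕ → ℝ} (hv : v ∈ DS t n)
    (h : ∀ S ⊆ Icc 1 n, (∀ s ∈ S, s + 1 ∉ S ∧ s ≠ n) → v S = 0) : v = 0 := by
  have key : ∀ m, ∀ S ⊆ Icc 1 n, ∑ s ∈ S, s = m → v S = 0 := by
    intro m
    induction m using Nat.strong_induction_on with
    | _ m ih =>
      intro S hS hm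
      by_cases h1 : ∀ s ∈ S, s + 1 ∉ S ∧ s ≠ n
      · exact h S hS h1
      push Not at h1
      obtain ⟨j, hj, h2⟩ := h1
      have hj' := mem_Icc.1 (hS hj)
      have hs := add_sum_erase S (fun s => s) hj
      set i := ((S.erase j).filter (· < j)).sup id with hi
      have k1 : i < j := (Finset.sup_lt_iff (show (⊥ : ℕ) < j from hj'.1)).2 fun s hs =>
        (mem_filter.1 hs).2
      have k2 : ∀ s ∈ S.erase j, s ≤ i ∨ j + 1 ≤ s := by
        intro s hs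
        by_cases a : s < j
        · exact Or.inl (le_sup (f := id) (mem_filter.2 ⟨hs, a⟩))
        · have := (mem_erase.1 hs).1; omega
      have k3 : i = 0 ∨ i ∈ S.erase j := by
        rcases ((S.erase j).filter (· < j)).eq_empty_or_nonempty with a | a
        · left; rw [hi, a]; rfl
        · obtain ⟨s, a1, a2⟩ := exists_mem_eq_sup _ a id
          right; rw [hi, a2]; exact (mem_filter.1 a1).1
      have hS' : S.erase j ⊆ Icc 1 n := (erase_subset _ _).trans hS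
      have e := hv.2 (S.erase j) hS' i (j + 1) (by omega) k3 (by
        by_cases a : j + 1 ∈ S
        · exact Or.inr (mem_erase.2 ⟨by omega, a⟩)
        · exact Or.inl (by
            by_contra b
            exact a (by_contra fun c => b (by have := h2; tauto))))  k2
      rw [ih _ (by omega) _ hS' rfl, mul_zero, sum_eq_single j, insert_erase hj] at e
      · simpa using e
      · intro l hl hne
        rw [mem_Ioo] at hl
        rw [ih _ _ _ (insert_subset (mem_Icc.2 (by omega)) hS') rfl, mul_zero]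
        rw [sum_insert fun a => by have := k2 l a; omega]
        omega
      · intro a
        exact absurd (mem_Ioo.2 ⟨k1, by omega⟩) a
  ext S
  by_cases hS : S ⊆ Icc 1 n
  · exact key _ S hS rfl
  · exact hv.1 S hS

def basis : List (List ℕ × ℤ × List (ℤ × List (ℕ × ℕ))) :=
  [([], 0, [(1, [])]),
   ([1], 0, [(1, [(1, 2)])]),
   ([2], 0, [(1, [(2, 3)])]),
   ([3], 0, [(1, [(3, 4)])]),
   ([4], 0, [(1, [(4, 5)])]),
   ([5], 0, [(1, [(5, 6)])]),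
   ([6], 0, [(1, [(6, 7)])]),
   ([7], 0, [(1, [(7, 8)])]),
   ([8], 0, [(1, [(8, 9)])]),
   ([9], 0, [(1, [(9, 10)])]),
   ([1, 3], 0, [(1, [(1, 2), (3, 4)])]),
   ([1, 4], 0, [(1, [(1, 2), (4, 5)])]),
   ([2, 4], 0, [(1, [(2, 3), (4, 5)])]),
   ([1, 5], 0, [(1, [(1, 2), (5, 6)])]),
   ([2, 5], 0, [(1, [(2, 3), (5, 6)])]),
   ([1, 6], 0, [(1, [(1, 2), (6, 7)])]),
   ([3, 5], 0, [(1, [(3, 4), (5, 6)])]),
   ([2, 6], 0, [(1, [(2, 3), (6, 7)])]),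
   ([1, 7], 0, [(1, [(1, 2), (7, 8)])]),
   ([3, 6], 0, [(1, [(3, 4), (6, 7)])]),
   ([2, 7], 0, [(1, [(2, 3), (7, 8)])]),
   ([1, 8], 0, [(1, [(1, 2), (8, 9)])]),
   ([4, 6], 0, [(1, [(4, 5), (6, 7)])]),
   ([3, 7], 0, [(1, [(3, 4), (7, 8)])]),
   ([2, 8], 0, [(1, [(2, 3), (8, 9)])]),
   ([1, 9], 0, [(1, [(1, 2), (9, 10)])]),
   ([4, 7], 1, []),
   ([3, 8], 0, [(1, [(3, 4), (8, 9)])]),
   ([2, 9], 1, [(1, [(2, 5), (7, 10)]), (-1, [(2, 5), (7, 8)]), (-1, [(4, 5), (7, 10)])]),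
   ([5, 7], 0, [(1, [(5, 6), (7, 8)])]),
   ([4, 8], 0, [(1, [(4, 5), (8, 9)])]),
   ([3, 9], 0, [(1, [(3, 4), (9, 10)])]),
   ([5, 8], 0, [(1, [(5, 6), (8, 9)])]),
   ([4, 9], 0, [(1, [(4, 5), (9, 10)])]),
   ([6, 8], 0, [(1, [(6, 7), (8, 9)])]),
   ([5, 9], 0, [(1, [(5, 6), (9, 10)])]),
   ([6, 9], 0, [(1, [(6, 7), (9, 10)])]),
   ([7, 9], 0, [(1, [(7, 8), (9, 10)])]),
   ([1, 3, 5], 0, [(1, [(1, 2), (3, 4), (5, 6)])]),
   ([1, 3, 6], 0, [(1, [(1, 2), (3, 4), (6, 7)])]),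
   ([1, 4, 6], 0, [(1, [(1, 2), (4, 5), (6, 7)])]),
   ([1, 3, 7], 0, [(1, [(1, 2), (3, 4), (7, 8)])]),
   ([2, 4, 6], 0, [(1, [(2, 3), (4, 5), (6, 7)])]),
   ([1, 4, 7], 0, [(1, [(1, 2), (4, 5), (7, 8)])]),
   ([1, 3, 8], 0, [(1, [(1, 2), (3, 4), (8, 9)])]),
   ([2, 4, 7], 1, [(1, [(2, 3), (7, 8)]), (-1, [(2, 5), (7, 8)])]),
   ([1, 5, 7], 0, [(1, [(1, 2), (5, 6), (7, 8)])]),
   ([1, 4, 8], 0, [(1, [(1, 2), (4, 5), (8, 9)])]),
   ([1, 3, 9], 0, [(1, [(1, 2), (3, 4), (9, 10)])]),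
   ([2, 5, 7], 0, [(1, [(2, 3), (5, 6), (7, 8)])]),
   ([2, 4, 8], 0, [(1, [(2, 3), (4, 5), (8, 9)])]),
   ([1, 5, 8], 0, [(1, [(1, 2), (5, 6), (8, 9)])]),
   ([1, 4, 9], 0, [(1, [(1, 2), (4, 5), (9, 10)])]),
   ([3, 5, 7], 0, [(1, [(3, 4), (5, 6), (7, 8)])]),
   ([2, 5, 8], 0, [(1, [(2, 3), (5, 6), (8, 9)])]),
   ([1, 6, 8], 0, [(1, [(1, 2), (6, 7), (8, 9)])]),
   ([2, 4, 9], 0, [(1, [(2, 3), (4, 5), (9, 10)])]),
   ([1, 5, 9], 0, [(1, [(1, 2), (5, 6), (9, 10)])]),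
   ([3, 5, 8], 0, [(1, [(3, 4), (5, 6), (8, 9)])]),
   ([2, 6, 8], 0, [(1, [(2, 3), (6, 7), (8, 9)])]),
   ([2, 5, 9], 1, [(-1, [(2, 3), (5, 10)]), (1, [(2, 3), (5, 6)]), (1, [(2, 3), (7, 8)]), (-1, [(2, 3), (5, 6), (7, 8)]), (1, [(2, 5), (7, 10)]), (-1, [(2, 5), (7, 8)]), (-1, [(4, 5), (7, 10)]), (1, [(2, 3), (4, 5), (9, 10)])]),
   ([1, 6, 9], 0, [(1, [(1, 2), (6, 7), (9, 10)])]),
   ([3, 6, 8], 0, [(1, [(3, 4), (6, 7), (8, 9)])]),
   ([3, 5, 9], 0, [(1, [(3, 4), (5, 6), (9, 10)])]),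
   ([2, 6, 9], 1, [(-1, [(2, 7), (9, 10)]), (1, [(4, 5), (9, 10)]), (1, [(6, 7), (9, 10)]), (-1, [(4, 5), (6, 7), (9, 10)]), (1, [(2, 5), (7, 10)]), (-1, [(2, 5), (7, 8)]), (-1, [(4, 5), (7, 10)]), (1, [(2, 3), (7, 8), (9, 10)])]),
   ([1, 7, 9], 0, [(1, [(1, 2), (7, 8), (9, 10)])]),
   ([4, 6, 8], 0, [(1, [(4, 5), (6, 7), (8, 9)])]),
   ([3, 6, 9], 0, [(1, [(3, 4), (6, 7), (9, 10)])]),
   ([2, 7, 9], 0, [(1, [(2, 3), (7, 8), (9, 10)])]),
   ([4, 6, 9], 0, [(1, [(4, 5), (6, 7), (9, 10)])]),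
   ([3, 7, 9], 0, [(1, [(3, 4), (7, 8), (9, 10)])]),
   ([4, 7, 9], 1, [(1, [(4, 5), (9, 10)]), (-1, [(4, 5), (7, 10)])]),
   ([5, 7, 9], 0, [(1, [(5, 6), (7, 8), (9, 10)])]),
   ([1, 3, 5, 7], 0, [(1, [(1, 2), (3, 4), (5, 6), (7, 8)])]),
   ([1, 3, 5, 8], 0, [(1, [(1, 2), (3, 4), (5, 6), (8, 9)])]),
   ([1, 3, 6, 8], 0, [(1, [(1, 2), (3, 4), (6, 7), (8, 9)])]),
   ([1, 3, 5, 9], 0, [(1, [(1, 2), (3, 4), (5, 6), (9, 10)])]),
   ([1, 4, 6, 8], 0, [(1, [(1, 2), (4, 5), (6, 7), (8, 9)])]),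
   ([1, 3, 6, 9], 0, [(1, [(1, 2), (3, 4), (6, 7), (9, 10)])]),
   ([2, 4, 6, 8], 0, [(1, [(2, 3), (4, 5), (6, 7), (8, 9)])]),
   ([1, 4, 6, 9], 0, [(1, [(1, 2), (4, 5), (6, 7), (9, 10)])]),
   ([1, 3, 7, 9], 0, [(1, [(1, 2), (3, 4), (7, 8), (9, 10)])]),
   ([2, 4, 6, 9], 0, [(1, [(2, 3), (4, 5), (6, 7), (9, 10)])]),
   ([1, 4, 7, 9], 0, [(1, [(1, 2), (4, 5), (7, 8), (9, 10)])]),
   ([2, 4, 7, 9], 0, [(1, [(2, 3), (4, 5), (7, 8), (9, 10)])]),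
   ([1, 5, 7, 9], 0, [(1, [(1, 2), (5, 6), (7, 8), (9, 10)])]),
   ([2, 5, 7, 9], 0, [(1, [(2, 3), (5, 6), (7, 8), (9, 10)])]),
   ([3, 5, 7, 9], 0, [(1, [(3, 4), (5, 6), (7, 8), (9, 10)])]),
   ([1, 3, 5, 7, 9], 0, [(1, [(1, 2), (3, 4), (5, 6), (7, 8), (9, 10)])])]

def row (r : List ℕ × ℤ × List (ℤ × List (ℕ × ℕ))) : List (ℤ × List (ℕ × ℕ)) :=
  (r.2.1, [(4, 5), (7, 8)]) :: r.2.2

def tri : List (List ℕ) → List (List ℕ × ℤ × List (ℤ × List (ℕ × ℕ))) → Bool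
  | _, [] => true
  | D, r :: rs => combL (row r) r.1 == 1 && (D.all fun T => combL (row r) T == 0) &&
      tri (r.1 :: D) rs

theorem tri_basis : tri [] basis = true := by decide +kernel

theorem basis_all : ((List.range' 1 10).sublists.all fun L =>
    (L.any fun s => L.elem (s + 1) || s == 10) || (basis.map fun r => r.1).elem L) = true := by
  decide +kernel

def phiL (C : List (ℤ × List (ℕ × ℕ))) : ℤ :=
  combL C [5, 6, 7, 9] + combL C [3, 4, 6, 7] + (combL C [3, 6, 10] - combL C [4, 6, 10] -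
    combL C [5, 6, 8] - combL C [6, 7, 9] - combL C [3, 4, 6] - combL C [3, 6, 7]) +
    (combL C [4, 6] + combL C [6, 8])

theorem phiZ_eq (C : List (ℤ × List (ℕ × ℕ))) : phiZ C = phiL C := by
  unfold phiZ phiL
  rw [comb_eq C _ [5, 6, 7, 9], comb_eq C _ [3, 4, 6, 7], comb_eq C _ [3, 6, 10],
    comb_eq C _ [4, 6, 10], comb_eq C _ [5, 6, 8], comb_eq C _ [6, 7, 9], comb_eq C _ [3, 4, 6],
    comb_eq C _ [3, 6, 7], comb_eq C _ [4, 6], comb_eq C _ [6, 8]] <;> simp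

def good (F : List (ℕ × ℕ)) : Prop := (∀ I ∈ F, 1 ≤ I.1 ∧ I.2 ≤ 10) ∧
  ∀ I ∈ F, ∀ J ∈ F, J.1 ≤ I.1 → I.1 ≤ J.2 → J.2 ≤ I.2 → (I.1 + J.2) % 2 = 1

instance : DecidablePred good := fun F => by unfold good; infer_instance

theorem basis_good : ∀ r ∈ basis, (∀ s ∈ r.1, 1 ≤ s ∧ s ≤ 10) ∧
    ∀ p ∈ r.2.2, good p.2 ∧ phiL [(1, p.2)] = 0 := by decide +kernel

theorem ev_good {t : ℕ} (ht : 1 ≤ t) {F : List (ℕ × ℕ)} (h : good F) :
    ev t 10 F.toFinset ∈ cone 10 (Euler t) := by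
  obtain ⟨t, rfl⟩ := Nat.exists_eq_add_of_le' ht
  have hv : Valid 10 F.toFinset := fun I hI => h.1 I (List.mem_toFinset.1 hI)
  exact ev_mem hv _ fun N => rep_euler hv fun I hI J hJ =>
    h.2 I (List.mem_toFinset.1 hI) J (List.mem_toFinset.1 hJ)

theorem phi_ev (t : ℕ) (F : List (ℕ × ℕ)) :
    Phi t (ev t 10 F.toFinset) = (t : ℝ) ^ 4 * phiL [(1, F)] := by
  rw [← phiZ_eq, ← phi_vec, vec_cons, vec_nil]
  simp

theorem vec_mem (t : ℕ) (M : Submodule ℝ (Finset ℕ → ℝ)) (C : List (ℤ × List (ℕ × ℕ)))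
    (h : ∀ p ∈ C, ev t 10 p.2.toFinset ∈ M) : vec t 10 C ∈ M := by
  induction C with
  | nil => rw [vec_nil]; exact M.zero_mem
  | cons p C ih =>
    rw [vec_cons]
    exact M.add_mem (M.smul_mem _ (h p (by simp))) (ih fun q hq => h q (by simp [hq]))

theorem elim {t : ℕ} (ht : 1 ≤ t) (M : Submodule ℝ (Finset ℕ → ℝ))
    (B : List (List ℕ × ℤ × List (ℤ × List (ℕ × ℕ)))) (D : List (List ℕ)) (h : tri D B = true)
    (h1 : ∀ r ∈ B, r.1.toFinset ⊆ Icc 1 10 ∧ vec t 10 (row r) ∈ M ∧ vec t 10 (row r) ∈ DSs t 10)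
    (h2 : ∀ v ∈ DSs t 10, (∀ T ∈ D, v T.toFinset = 0) → (∀ r ∈ B, v r.1.toFinset = 0) → v = 0)
    (v : Finset ℕ → ℝ) (hv : v ∈ DSs t 10) (h3 : ∀ T ∈ D, v T.toFinset = 0) : v ∈ M := by
  have tp : (0 : ℝ) < t := by exact_mod_cast ht
  induction B generalizing D v with
  | nil => rw [h2 v hv h3 (by simp)]; exact M.zero_mem
  | cons r B ih =>
    simp only [tri, Bool.and_eq_true, beq_iff_eq, List.all_eq_true] at h
    obtain ⟨a1, a2, a3⟩ := h1 r (by simp)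
    set c := v r.1.toFinset / (t : ℝ) ^ r.1.toFinset.card with hc
    have := ih (r.1 :: D) h.2 (fun q hq => h1 q (by simp [hq]))
      (fun w hw k1 k2 => h2 w hw (fun T hT => k1 T (by simp [hT])) (by
        intro q hq
        rcases List.mem_cons.1 hq with rfl | hq
        · exact k1 _ (by simp)
        · exact k2 q hq))
      (v - c • vec t 10 (row r)) (sub_mem hv (Submodule.smul_mem _ _ a3)) (by
        intro T hT
        simp only [Pi.sub_apply, Pi.smul_apply, smul_eq_mul, vec]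
        rw [comb_eq _ _ T (by simp)]
        rcases List.mem_cons.1 hT with rfl | hT
        · rw [if_pos a1, h.1.1, hc]
          field_simp
          simp
        · rw [h.1.2 T hT, h3 T hT]; simp)
    simpa using M.add_mem this (M.smul_mem c a2)

theorem facet {t : ℕ} (ht : 1 ≤ t) :
    (∃ v ∈ cone 10 (Euler t), 0 < Phi t v) ∧
    ∀ v ∈ Submodule.span ℝ (cone 10 (Euler t)), Phi t v = 0 →
      v ∈ Submodule.span ℝ {u ∈ cone 10 (Euler t) | Phi t u = 0} := by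
  have tp : (0 : ℝ) < t := by exact_mod_cast ht
  have g0 : good [(4, 5), (7, 8)] := by decide
  have p0 : 0 < Phi t (ev t 10 [(4, 5), (7, 8)].toFinset) := by
    rw [phi_ev, show phiL [(1, [(4, 5), (7, 8)])] = 1 by decide +kernel]
    positivity
  refine ⟨⟨_, ev_good ht g0, p0⟩, fun v hv h0 => ?_⟩
  have hv' : v ∈ DSs t 10 := (Submodule.span_le.2 (cone_DS t 10)) hv
  set N := Submodule.span ℝ {u ∈ cone 10 (Euler t) | Phi t u = 0} with hN
  have h1 : v ∈ N ⊔ Submodule.span ℝ {ev t 10 [(4, 5), (7, 8)].toFinset} := by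
    refine elim ht _ basis [] tri_basis (fun r hr => ⟨fun s hs => mem_Icc.2
      ((basis_good r hr).1 s (List.mem_toFinset.1 hs)), vec_mem _ _ _ fun p hp => ?_,
      vec_mem _ _ _ fun p hp => ?_⟩) (fun w hw _ k => sparse_zero hw fun S hS hs => ?_) v hv'
      (by simp)
    · rcases List.mem_cons.1 hp with rfl | hp
      · exact Submodule.mem_sup_right (Submodule.mem_span_singleton_self _)
      · have := (basis_good r hr).2 p hp
        refine Submodule.mem_sup_left (Submodule.subset_span ⟨ev_good ht this.1, ?_⟩)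
        rw [phi_ev, this.2]; simp
    · rcases List.mem_cons.1 hp with rfl | hp
      · exact cone_DS t 10 (ev_good ht g0)
      · exact cone_DS t 10 (ev_good ht ((basis_good r hr).2 p hp).1)
    · have a := List.all_eq_true.1 basis_all ((List.range' 1 10).filter (· ∈ S))
        (List.mem_sublists.2 List.filter_sublist)
      set L := (List.range' 1 10).filter (· ∈ S) with hL
      have hm : ∀ s, s ∈ L ↔ s ∈ S := by
        intro s
        simp only [hL, List.mem_filter, List.mem_range'_1, decide_eq_true_eq]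
        exact ⟨fun a => a.2, fun a => ⟨by have := mem_Icc.1 (hS a); omega, a⟩⟩
      simp only [Bool.or_eq_true, List.any_eq_true, List.elem_eq_mem, decide_eq_true_eq, hm,
        beq_iff_eq, List.mem_map] at a
      rcases a with ⟨s, b1, b2⟩ | ⟨r, b1, b2⟩
      · have := hs s b1; tauto
      · rw [← k r b1, b2]
        congr 1; ext s; simp [hm]
  obtain ⟨x, hx, y, hy, rfl⟩ := Submodule.mem_sup.1 h1
  obtain ⟨c, rfl⟩ := Submodule.mem_span_singleton.1 hy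
  have e : ∀ w, Phi t w = PhiL t 10 w := fun w => rfl
  have hx0 : PhiL t 10 x = 0 := by
    have : N ≤ LinearMap.ker (PhiL t 10) := Submodule.span_le.2 fun u hu => hu.2
    exact this hx
  rw [e, map_add, map_smul, hx0, zero_add, smul_eq_mul, ← e] at h0
  rw [(mul_eq_zero.1 h0).resolve_right p0.ne']
  simpa using hx

end Pool.Agent.Lib.MP_685082_co.Cone
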