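import Pool.Agent.Lib.MP_685082_co.CW

/-! Dehn-Sommerville equations, thickness and the new inequality. -/

namespace Pool.Agent.Lib.MP_685082_co.Cone

open Finset

theorem chsh {t a1 a2 a3 a4 U ga gb gc gd : ℝ} (ht : 0 ≤ t) (h1 : 0 ≤ a1) (h2 : 0 ≤ a2)
    (h3 : 0 ≤ a3) (h4 : 0 ≤ a4) (e1 : a2 = a1 + U) (e2 : a3 = a4 + t * U) (k1 : 0 ≤ ga)
    (k2 : 0 ≤ gb) (k3 : 0 ≤ gc) (k4 : 0 ≤ gd) (e3 : gc = ga + t * gd - t * gb) :
    0 ≤ a2 * ga + a3 * gd - t * U * gb := by
  rcases le_total 0 U with h | h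
  · have : a2 * ga + a3 * gd - t * U * gb = a1 * ga + a4 * gd + U * gc := by
      rw [e1, e2, e3]; ring
    rw [this]; positivity
  · have h5 : 0 ≤ -U := by linarith
    have : a2 * ga + a3 * gd - t * U * gb = a2 * ga + a3 * gd + t * (-U) * gb := by ring
    rw [this]; positivity

section
variable {P : Type} [Fintype P] [PartialOrder P] {ρ : P → ℕ} {t : ℕ}
  (hc : ∀ x y, x ⋖ y → ρ y = ρ x + 1)
include hc

open Classical in
theorem sum_W_single (x y : P) (g : ℕ → ℝ) :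
    ∑ j ∈ Ioo (ρ x) (ρ y), g j * W ρ {j} x y = ∑ u, if x < u ∧ u < y then g (ρ u) else 0 := by
  simp only [W_single, mul_sum]
  rw [sum_comm]
  refine sum_congr rfl fun u _ => ?_
  split_ifs with h
  · rw [sum_eq_single (ρ u)]
    · simp [h]
    · intro j _ hj
      rw [if_neg fun h => hj h.1.symm, mul_zero]
    · intro h2
      exact absurd (mem_Ioo.2 ⟨rk_lt hc h.1, rk_lt hc h.2⟩) h2
  · exact sum_eq_zero fun j _ => by rw [if_neg fun h2 => h h2.2, mul_zero]

open Classical in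
theorem closed_sum {x y : P} (h : x < y) :
    (({z | x ≤ z ∧ z ≤ y ∧ Even (ρ z + ρ x)}.ncard : ℤ) -
      ({z | x ≤ z ∧ z ≤ y ∧ Odd (ρ z + ρ x)}.ncard : ℤ) : ℝ) =
      1 + (-1) ^ (ρ y + ρ x) -
        ∑ j ∈ Ioo (ρ x) (ρ y), (-1) ^ (j + ρ x + 1) * W ρ {j} x y := by
  rw [sum_W_single hc x y fun j => (-1) ^ (j + ρ x + 1), ncard_eq_cnt, ncard_eq_cnt, cnt_sum,
    cnt_sum]
  push_cast
  have a : (1 : ℝ) = ∑ u, if u = x then (-1 : ℝ) ^ (ρ u + ρ x) else 0 := by
    simp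
  have b : (-1 : ℝ) ^ (ρ y + ρ x) = ∑ u, if u = y then (-1 : ℝ) ^ (ρ u + ρ x) else 0 := by
    simp
  conv_rhs => rw [b]; enter [1, 1]; rw [a]
  rw [← sum_sub_distrib, ← sum_add_distrib, ← sum_sub_distrib]
  refine sum_congr rfl fun u _ => ?_
  by_cases h1 : u = x
  · subst h1
    simp [h.le, h.ne]
  by_cases h2 : u = y
  · subst h2
    rcases Nat.even_or_odd (ρ u + ρ x) with h3 | h3
    · simp [h.le, h1, h3, h3.neg_one_pow, Nat.not_odd_iff_even.2 h3]
    · simp [h.le, h1, h3, h3.neg_one_pow, Nat.not_even_iff_odd.2 h3]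
  have h4 : (x < u ∧ u < y) ↔ (x ≤ u ∧ u ≤ y) :=
    ⟨fun k => ⟨k.1.le, k.2.le⟩, fun k => ⟨lt_of_le_of_ne k.1 (Ne.symm h1), lt_of_le_of_ne k.2 h2⟩⟩
  rw [if_neg h1, if_neg h2, pow_succ]
  simp only [h4, ← and_assoc]
  by_cases h5 : x ≤ u ∧ u ≤ y
  · rcases Nat.even_or_odd (ρ u + ρ x) with h3 | h3
    · simp [h5, h3, h3.neg_one_pow, Nat.not_odd_iff_even.2 h3]
    · simp [h5, h3, h3.neg_one_pow, Nat.not_even_iff_odd.2 h3]
  · simp [h5]

theorem euler_iff : Euler t P ρ ↔ ∀ x y, x < y →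
    ∑ j ∈ Ioo (ρ x) (ρ y), (-1) ^ (j + ρ x + 1) * W ρ {j} x y =
      if Even (ρ y + ρ x) then (t : ℝ) else 0 := by
  refine forall_congr' fun x => forall_congr' fun y => forall_congr' fun h => ?_
  rw [← Int.cast_inj (α := ℝ), Int.cast_sub, closed_sum hc h]
  rcases Nat.even_or_odd (ρ y + ρ x) with h3 | h3
  · rw [if_pos h3, if_pos h3, h3.neg_one_pow]
    push_cast
    constructor <;> intro h <;> linarith
  · rw [if_neg (Nat.not_even_iff_odd.2 h3), if_neg (Nat.not_even_iff_odd.2 h3), h3.neg_one_pow]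
    push_cast
    constructor <;> intro h <;> linarith

variable (he : Euler t P ρ)
include he

theorem euler_W (x y : P) :
    ∑ j ∈ Ioo (ρ x) (ρ y), (-1) ^ (j + ρ x + 1) * W ρ {j} x y =
      (if Even (ρ y + ρ x) then (t : ℝ) else 0) * W ρ ∅ x y := by
  by_cases h : x < y
  · rw [(euler_iff hc).1 he x y h, W_empty, if_pos h, mul_one]
  · simp [W_zero ρ _ x y h]

theorem thick_W (x y : P) (j : ℕ) (h1 : ρ x < j) (h2 : j < ρ y) :
    t * W ρ ∅ x y ≤ W ρ {j} x y := by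
  classical
  by_cases h : x < y
  · obtain ⟨u, k1, k2, k3⟩ := exists_rank hc h.le (j - 1) (by omega) (by omega)
    obtain ⟨v, l1, l2, l3⟩ := exists_rank hc k3 (j + 1) (by omega) (by omega)
    have huv : u < v := lt_of_le_of_ne l2 (by rintro rfl; omega)
    have e := (euler_iff hc).1 he u v huv
    have e2 : Ioo (ρ u) (ρ v) = {j} := by
      ext s; simp only [mem_Ioo, mem_singleton]; omega
    rw [e2, sum_singleton, if_pos (by rw [Nat.even_iff]; omega),
      Even.neg_one_pow (by rw [Nat.even_iff]; omega), one_mul] at e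
    rw [W_empty, if_pos h, mul_one, ← e, W_single, W_single]
    refine sum_le_sum fun z _ => ?_
    split_ifs with a b
    · rfl
    · exact absurd ⟨a.1, k2.trans_lt a.2.1, a.2.2.trans_le l3⟩ b
    · norm_num
    · rfl
  · simp [W_zero ρ _ x y h]

theorem ds_W (i k : ℕ) (hik : i < k) (S : Finset ℕ) (x y : P)
    (hi : (ρ x = i ∧ ∀ s ∈ S, k ≤ s) ∨ i ∈ S)
    (hk : (ρ y = k ∧ ∀ s ∈ S, s ≤ i) ∨ k ∈ S) (hS : ∀ s ∈ S, s ≤ i ∨ k ≤ s) :
    ∑ j ∈ Ioo i k, (-1) ^ (j + i + 1) * W ρ (insert j S) x y =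
      (if Even (k + i) then (t : ℝ) else 0) * W ρ S x y := by
  apply le_antisymm
  · have := transfer ρ i k hik (fun j => -(-1) ^ (j + i + 1))
      (-(if Even (k + i) then (t : ℝ) else 0)) (by
        rintro u v rfl rfl
        simp only [neg_mul, sum_neg_distrib, euler_W hc he, le_refl]) S x y hi hk hS
    simp only [neg_mul, sum_neg_distrib] at this
    linarith
  · exact transfer ρ i k hik (fun j => (-1) ^ (j + i + 1)) _ (by
      rintro u v rfl rfl
      exact (euler_W hc he u v).ge) S x y hi hk hS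

theorem ins_W (i j k : ℕ) (h1 : i < j) (h2 : j < k) (S : Finset ℕ) (x y : P)
    (hi : (ρ x = i ∧ ∀ s ∈ S, k ≤ s) ∨ i ∈ S)
    (hk : (ρ y = k ∧ ∀ s ∈ S, s ≤ i) ∨ k ∈ S) (hS : ∀ s ∈ S, s ≤ i ∨ k ≤ s) :
    t * W ρ S x y ≤ W ρ (insert j S) x y := by
  have := transfer ρ i k (h1.trans h2) (fun l => if l = j then 1 else 0) t (by
    rintro u v rfl rfl
    simpa [h1, h2] using thick_W hc he u v j h1 h2) S x y hi hk hS
  simpa [h1, h2] using this

theorem local_ineq (ht : 1 ≤ t) (a x y : P) (ha : ρ a = 0) (hx : ρ x = 6) (hy : ρ y = 11) :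
    0 ≤ (W ρ {5} a x - t * W ρ ∅ a x) * (W ρ {7, 9} x y - t * W ρ {8} x y) +
      (W ρ {3, 4} a x - t * W ρ {3} a x) * (W ρ {7} x y - t * W ρ ∅ x y) -
      t * (W ρ {4} a x - W ρ {3} a x) * (W ρ {10} x y - t * W ρ ∅ x y) := by
  have tp : (0 : ℝ) < t := by exact_mod_cast ht
  have p1 := ds_W hc he 0 2 (by omega) {2} a x (by simp [ha]) (by simp) (by simp)
  have p2 := ins_W hc he 1 2 6 (by omega) (by omega) {1} a x (by simp) (by simp [hx]) (by simp)
  have p3 := ins_W hc he 0 5 6 (by omega) (by omega) ∅ a x (by simp [ha]) (by simp [hx]) (by simp)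
  have p4 := ins_W hc he 3 4 6 (by omega) (by omega) {3} a x (by simp) (by simp [hx]) (by simp)
  have p5 := ins_W hc he 0 3 4 (by omega) (by omega) {4} a x (by simp [ha]) (by simp) (by simp)
  have p6 := ds_W hc he 0 6 (by omega) ∅ a x (by simp [ha]) (by simp [hx]) (by simp)
  have q1 := ds_W hc he 6 9 (by omega) {9} x y (by simp [hx]) (by simp) (by simp)
  have q2 := ins_W hc he 8 9 11 (by omega) (by omega) {8} x y (by simp) (by simp [hy]) (by simp)
  have q3 := ins_W hc he 6 7 9 (by omega) (by omega) {9} x y (by simp [hx]) (by simp) (by simp)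
  have q4 := ins_W hc he 6 7 11 (by omega) (by omega) ∅ x y (by simp [hx]) (by simp [hy]) (by simp)
  have q5 := ins_W hc he 6 10 11 (by omega) (by omega) ∅ x y (by simp [hx]) (by simp [hy]) (by simp)
  have q6 := ds_W hc he 6 11 (by omega) ∅ x y (by simp [hx]) (by simp [hy]) (by simp)
  rw [show Ioo 0 2 = {1} by decide, if_pos (by decide)] at p1
  rw [show Ioo 0 6 = {1, 2, 3, 4, 5} by decide, if_pos (by decide)] at p6
  rw [show Ioo 6 9 = {7, 8} by decide, if_neg (by decide)] at q1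
  rw [show Ioo 6 11 = {7, 8, 9, 10} by decide, if_neg (by decide)] at q6
  rw [show ({2, 1} : Finset ℕ) = {1, 2} by decide] at p2
  rw [show ({4, 3} : Finset ℕ) = {3, 4} by decide] at p4
  rw [show ({9, 8} : Finset ℕ) = {8, 9} by decide] at q2
  simp only [insert_empty_eq] at p3 p6 q4 q5 q6
  norm_num at p1 p6 q1 q6
  have p7 : W ρ {1} a x ≤ W ρ {2} a x := le_of_mul_le_mul_left (by linarith) tp
  refine chsh (a1 := W ρ {2} a x - W ρ {1} a x) (a4 := W ρ {3, 4} a x - t * W ρ {4} a x)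
    (gc := W ρ {7, 9} x y - t * W ρ {9} x y) tp.le (by linarith) (by linarith) (by linarith)
    (by linarith) (by linarith) (by ring) (by linarith) (by linarith) (by linarith) (by linarith) ?_
  have : W ρ {9} x y = W ρ {8} x y + W ρ {10} x y - W ρ {7} x y := by linarith
  rw [this]; ring

theorem phi_W (ht : 1 ≤ t) (a y : P) (ha : ρ a = 0) (hy : ρ y = 11) :
    0 ≤ Phi t fun S => W ρ S a y := by
  classical
  have e1 := W_split ρ {5} {7, 9} 6 (by simp) (by simp) a y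
  have e2 := W_split ρ {3, 4} {7} 6 (by simp) (by simp) a y
  have e3 := W_split ρ {3} {10} 6 (by simp) (by simp) a y
  have e4 := W_split ρ {4} {10} 6 (by simp) (by simp) a y
  have e5 := W_split ρ {5} {8} 6 (by simp) (by simp) a y
  have e6 := W_split ρ ∅ {7, 9} 6 (by simp) (by simp) a y
  have e7 := W_split ρ {3, 4} ∅ 6 (by simp) (by simp) a y
  have e8 := W_split ρ {3} {7} 6 (by simp) (by simp) a y
  have e9 := W_split ρ {4} ∅ 6 (by simp) (by simp) a y
  have e10 := W_split ρ ∅ {8} 6 (by simp) (by simp) a y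
  rw [show ({7, 9} ∪ insert 6 {5} : Finset ℕ) = {5, 6, 7, 9} by decide] at e1
  rw [show ({7} ∪ insert 6 {3, 4} : Finset ℕ) = {3, 4, 6, 7} by decide] at e2
  rw [show ({10} ∪ insert 6 {3} : Finset ℕ) = {3, 6, 10} by decide] at e3
  rw [show ({10} ∪ insert 6 {4} : Finset ℕ) = {4, 6, 10} by decide] at e4
  rw [show ({8} ∪ insert 6 {5} : Finset ℕ) = {5, 6, 8} by decide] at e5
  rw [show ({7, 9} ∪ insert 6 ∅ : Finset ℕ) = {6, 7, 9} by decide] at e6
  rw [show (∅ ∪ insert 6 {3, 4} : Finset ℕ) = {3, 4, 6} by decide] at e7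
  rw [show ({7} ∪ insert 6 {3} : Finset ℕ) = {3, 6, 7} by decide] at e8
  rw [show (∅ ∪ insert 6 {4} : Finset ℕ) = {4, 6} by decide] at e9
  rw [show ({8} ∪ insert 6 ∅ : Finset ℕ) = {6, 8} by decide] at e10
  simp only [Phi]
  rw [e1, e2, e3, e4, e5, e6, e7, e8, e9, e10]
  simp only [← sum_sub_distrib, ← sum_add_distrib, mul_sum]
  refine sum_nonneg fun x _ => ?_
  split_ifs with hx
  · have := local_ineq hc he ht a x y ha hx hy
    linarith
  · simp

omit [Fintype P] in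
theorem thick_of_euler [Finite P] : Thick t P ρ := by
  classical
  have := Fintype.ofFinite P
  rintro x y ⟨z, h1, h2⟩
  have := thick_W hc he x y (ρ z) (rk_lt hc h1) (rk_lt hc h2)
  rw [W_empty, if_pos (h1.trans h2), mul_one, W_single] at this
  have e : ((Set.Ioo x y).ncard : ℝ) = ∑ u, if x < u ∧ u < y then 1 else 0 := by
    rw [show Set.Ioo x y = {u | x < u ∧ u < y} from rfl, ncard_eq_cnt, cnt_sum]
    push_cast; rfl
  rw [← Nat.cast_le (α := ℝ), e]
  refine this.trans (sum_le_sum fun u _ => ?_)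
  split_ifs with a b
  · rfl
  · exact absurd a.2 b
  · norm_num
  · rfl

variable [BoundedOrder P] {n : ℕ} (h0 : ρ ⊥ = 0) (h1 : ρ ⊤ = n + 1)
include h0 h1

theorem flag_DS : flag ρ ∈ DS t n := by
  refine ⟨flag_zero hc h0 h1, fun S hS i k hik hi hk h => ?_⟩
  have hS' : ∀ s ∈ S, 1 ≤ s ∧ s ≤ n := fun s hs => mem_Icc.1 (hS hs)
  have h2 : 0 ∉ S := fun h => by have := hS' 0 h; omega
  rw [flag_eq_W hc h0 h1 S h2, ← ds_W hc he i k hik S ⊥ ⊤ _ _ h]
  · refine sum_congr rfl fun j hj => ?_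
    rw [flag_eq_W hc h0 h1]
    rw [mem_Ioo] at hj
    rw [mem_insert]; rintro (h | h)
    · omega
    · exact h2 h
  · rcases hi with rfl | hi
    · exact Or.inl ⟨h0, fun s hs => by have := hS' s hs; have := h s hs; omega⟩
    · exact Or.inr hi
  · rcases hk with rfl | hk
    · exact Or.inl ⟨h1, fun s hs => by have := hS' s hs; have := h s hs; omega⟩
    · exact Or.inr hk

end

/-- the form in rank `n + 1 ≥ 11` -/
def PhiN (t n : ℕ) (v : Finset ℕ → ℝ) : ℝ :=
  Phi t fun S => v (if n = 10 then S else insert 11 S)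

theorem flag_phi {P : Type} [Fintype P] [PartialOrder P] [BoundedOrder P] {ρ : P → ℕ} {t n : ℕ}
    (hc : ∀ x y, x ⋖ y → ρ y = ρ x + 1) (he : Euler t P ρ) (h0 : ρ ⊥ = 0) (h1 : ρ ⊤ = n + 1)
    (ht : 1 ≤ t) : 0 ≤ PhiN t n (flag ρ) := by
  classical
  unfold PhiN
  split_ifs with hn
  · subst hn
    have := phi_W hc he ht ⊥ ⊤ h0 h1
    simp only [Phi] at this ⊢
    repeat rw [flag_eq_W hc h0 h1 _ (by decide)]
    exact this
  · simp only [Phi]
    repeat rw [flag_eq_W hc h0 h1 _ (by decide)]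
    repeat rw [W_insert ρ _ 11 (by decide)]
    simp only [← sum_sub_distrib, ← sum_add_distrib, mul_sum]
    refine sum_nonneg fun y _ => ?_
    split_ifs with hy
    · exact phi_W hc he ht ⊥ y h0 hy.1
    · simp

end Pool.Agent.Lib.MP_685082_co.Cone
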