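import Pool.Agent.Lib.MP_685082_co.CIneq

/-! Posets obtained from a chain by replicating intervals of ranks. -/

namespace Pool.Agent.Lib.MP_685082_co.Cone

open Finset

/-- replication data -/
structure Rep (n : ℕ) where
  J : Type
  fin : Fintype J
  a : J → ℕ
  b : J → ℕ
  N : J → ℕ
  ha : ∀ j, 1 ≤ a j
  hb : ∀ j, b j ≤ n

namespace Rep

variable {n : ℕ} (R : Rep n)

instance (priority := low) : Fintype R.J := R.fin

def In (j : R.J) (r : ℕ) : Prop := R.a j ≤ r ∧ r ≤ R.b j

def LP : Type :=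
  {p : Fin (n + 2) × (∀ j, Fin (R.N j + 1)) // ∀ j, ¬ R.In j p.1 → p.2 j = 0}

noncomputable instance : Fintype R.LP := by
  classical
  unfold LP
  infer_instance

def rk (p : R.LP) : ℕ := p.1.1

def Lt (p q : R.LP) : Prop :=
  R.rk p < R.rk q ∧ ∀ j, R.In j (R.rk p) → R.In j (R.rk q) → p.1.2 j = q.1.2 j

theorem Lt_trans {p q r : R.LP} (h1 : R.Lt p q) (h2 : R.Lt q r) : R.Lt p r := by
  refine ⟨h1.1.trans h2.1, fun j k1 k2 => ?_⟩
  have k3 : R.In j (R.rk q) := ⟨k1.1.trans h1.1.le, h2.1.le.trans k2.2⟩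
  exact (h1.2 j k1 k3).trans (h2.2 j k3 k2)

instance : PartialOrder R.LP where
  le p q := p = q ∨ R.Lt p q
  le_refl _ := Or.inl rfl
  le_trans p q r h1 h2 := by
    rcases h1 with rfl | h1
    · exact h2
    · rcases h2 with rfl | h2
      · exact Or.inr h1
      · exact Or.inr (R.Lt_trans h1 h2)
  le_antisymm p q h1 h2 := by
    rcases h1 with rfl | h1
    · rfl
    · rcases h2 with rfl | h2
      · rfl
      · have := h1.1; have := h2.1; omega

theorem lt_iff (p q : R.LP) : p < q ↔ R.Lt p q := by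
  rw [lt_iff_le_and_ne]
  constructor
  · rintro ⟨h | h, h2⟩
    · exact absurd h h2
    · exact h
  · intro h
    exact ⟨Or.inr h, by rintro rfl; exact lt_irrefl _ h.1⟩

theorem not_in0 (j : R.J) : ¬ R.In j 0 := fun h => by have := R.ha j; have := h.1; omega

theorem not_in1 (j : R.J) : ¬ R.In j (n + 1) := fun h => by have := R.hb j; have := h.2; omega

theorem ext' {p q : R.LP} (h1 : R.rk p = R.rk q) (h2 : ∀ j, p.1.2 j = q.1.2 j) : p = q :=
  Subtype.ext (Prod.ext (Fin.ext h1) (funext h2))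

instance : BoundedOrder R.LP where
  bot := ⟨(0, fun _ => 0), fun _ _ => rfl⟩
  top := ⟨(Fin.last _, fun _ => 0), fun _ _ => rfl⟩
  bot_le p := by
    rcases Nat.eq_zero_or_pos (R.rk p) with h | h
    · exact Or.inl (R.ext' h.symm fun j => (p.2 j (by
        have : (p.1.1 : ℕ) = 0 := h
        rw [this]; exact R.not_in0 j)).symm)
    · exact Or.inr ⟨h, fun j hj => absurd hj (R.not_in0 j)⟩
  le_top p := by
    have h3 : R.rk p ≤ n + 1 := Nat.lt_succ_iff.1 p.1.1.2
    rcases h3.eq_or_lt with h | h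
    · exact Or.inl (R.ext' h fun j => p.2 j (by
        have : (p.1.1 : ℕ) = n + 1 := h
        rw [this]; exact R.not_in1 j))
    · exact Or.inr ⟨h, fun j _ hj => absurd hj (R.not_in1 j)⟩

theorem rk_bot : R.rk ⊥ = 0 := rfl

theorem rk_top : R.rk ⊤ = n + 1 := rfl

open Classical in
theorem W_one {x y : R.LP} (h : x < y) (r : ℕ) (h1 : R.rk x < r) (h2 : r < R.rk y) :
    W R.rk {r} x y = ∏ j, if R.In j r ∧ ¬ R.In j (R.rk x) ∧ ¬ R.In j (R.rk y) then
      ((R.N j : ℝ) + 1) else 1 := by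
  have h3 : r < n + 2 := h2.trans y.1.1.2
  rw [lt_iff] at h
  let A : ∀ j, Finset (Fin (R.N j + 1)) := fun j => if R.In j r then
    (if R.In j (R.rk x) then {x.1.2 j} else if R.In j (R.rk y) then {y.1.2 j} else univ) else {0}
  have e : (univ.filter fun u : R.LP => R.rk u = r ∧ x < u ∧ u < y).card =
      (Fintype.piFinset A).card := by
    refine card_bij (fun u _ => u.1.2) ?_ ?_ ?_
    · intro u hu
      simp only [mem_filter, mem_univ, true_and, lt_iff] at hu
      obtain ⟨rfl, k1, k2⟩ := hu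
      rw [Fintype.mem_piFinset]
      intro j
      simp only [A]
      split_ifs with a b c
      · exact mem_singleton.2 (k1.2 j b a).symm
      · exact mem_singleton.2 (k2.2 j a c)
      · exact mem_univ _
      · exact mem_singleton.2 (u.2 j a)
    · intro u hu v hv huv
      simp only [mem_filter, mem_univ, true_and] at hu hv
      exact R.ext' (hu.1.trans hv.1.symm) fun j => congrFun huv j
    · intro g hg
      rw [Fintype.mem_piFinset] at hg
      refine ⟨⟨(⟨r, h3⟩, g), fun j hj => ?_⟩, ?_, rfl⟩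
      · have := hg j
        simp only [A] at this
        rw [if_neg hj] at this
        exact mem_singleton.1 this
      · simp only [mem_filter, mem_univ, true_and, lt_iff]
        refine ⟨rfl, ⟨h1, fun j k1 k2 => ?_⟩, ⟨h2, fun j k1 k2 => ?_⟩⟩
        · have := hg j
          simp only [A] at this
          rw [if_pos (show R.In j r from k2), if_pos k1] at this
          exact (mem_singleton.1 this).symm
        · have := hg j
          simp only [A] at this
          rw [if_pos (show R.In j r from k1)] at this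
          by_cases k3 : R.In j (R.rk x)
          · rw [if_pos k3] at this
            exact (mem_singleton.1 this).trans (h.2 j k3 k2)
          · rw [if_neg k3, if_pos k2] at this
            exact mem_singleton.1 this
  rw [W_single, ← sum_filter, sum_const, e, Fintype.card_piFinset, nsmul_eq_mul, mul_one]
  push_cast
  refine prod_congr rfl fun j _ => ?_
  simp only [A]
  by_cases a : R.In j r <;> by_cases b : R.In j (R.rk x) <;> by_cases c : R.In j (R.rk y) <;>
    simp [a, b, c]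

theorem cov (x y : R.LP) (h : x ⋖ y) : R.rk y = R.rk x + 1 := by
  classical
  have h1 := ((R.lt_iff _ _).1 h.lt).1
  by_contra h2
  have h3 := R.W_one h.lt (R.rk x + 1) (by omega) (by omega)
  have h4 : W R.rk {R.rk x + 1} x y = 0 := by
    rw [W_single]
    exact sum_eq_zero fun u _ => if_neg fun hu => h.2 hu.2.1 hu.2.2
  rw [h4] at h3
  refine absurd h3 (prod_pos fun j _ => ?_).ne
  split_ifs <;> positivity

open Classical in
theorem W_bot (S : Finset ℕ) (h0 : 0 ∉ S) (y : R.LP) (hy : 0 < R.rk y) (hS : ∀ s ∈ S, s < R.rk y) :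
    W R.rk S ⊥ y = ∏ j, if (∃ s ∈ S, R.In j s) ∧ ¬ R.In j (R.rk y) then
      ((R.N j : ℝ) + 1) else 1 := by
  have hb : ∀ u : R.LP, 0 < R.rk u → ⊥ < u := fun u hu => bot_lt_iff_ne_bot.2 (by
    rintro rfl; exact lt_irrefl _ hu)
  induction S using Finset.induction_on_max generalizing y with
  | empty => rw [W_empty, if_pos (hb y hy)]; simp
  | insert k S hk ih =>
    have hk0 : 0 < k := Nat.pos_of_ne_zero fun h => h0 (h ▸ mem_insert_self _ _)
    have hky := hS k (mem_insert_self _ _)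
    have e := R.W_one (hb y hy) k hk0 hky
    rw [W_single] at e
    rw [W_insert _ S k hk, sum_congr rfl (g := fun u => (if R.rk u = k ∧ ⊥ < u ∧ u < y then 1 else 0)
      * ∏ j, if (∃ s ∈ S, R.In j s) ∧ ¬ R.In j k then ((R.N j : ℝ) + 1) else 1), ← sum_mul, e,
      ← prod_mul_distrib]
    · refine prod_congr rfl fun j _ => ?_
      have c0 : ¬ R.In j (R.rk ⊥) := R.not_in0 j
      have c1 : (∃ s ∈ S, R.In j s) → R.In j (R.rk y) → R.In j k := by
        rintro ⟨s, k1, k2⟩ k3
        exact ⟨k2.1.trans (hk s k1).le, hky.le.trans k3.2⟩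
      simp only [exists_mem_insert]
      by_cases a : R.In j k <;> by_cases b : ∃ s ∈ S, R.In j s <;>
        by_cases c : R.In j (R.rk y) <;> simp [a, b, c, c0]
      exact a (c1 b c) |>.elim
    · intro u _
      by_cases a : R.rk u = k ∧ u < y
      · rw [if_pos a, if_pos ⟨a.1, hb u (by omega), a.2⟩, one_mul,
          ih (fun h => h0 (mem_insert_of_mem h)) u (by omega) (by rw [a.1]; exact hk), a.1]
      · rw [if_neg a, if_neg fun h => a ⟨h.1, h.2.2⟩, zero_mul]

end Rep

/-- `S` meets the interval `I` -/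
def Hit (S : Finset ℕ) (I : ℕ × ℕ) : Prop := ∃ s ∈ S, I.1 ≤ s ∧ s ≤ I.2

instance (S : Finset ℕ) : DecidablePred (Hit S) := fun I => by unfold Hit; infer_instance

def Valid (n : ℕ) (F : Finset (ℕ × ℕ)) : Prop := ∀ I ∈ F, 1 ≤ I.1 ∧ I.2 ≤ n

/-- every rank `t + 1` times, the intervals of `F` replicated `N + 1` times -/
def rep (n t N : ℕ) (F : Finset (ℕ × ℕ)) (hF : Valid n F) : Rep n where
  J := {s : ℕ // s ∈ (Icc (1 : ℕ) n : Finset ℕ)} ⊕ {I // I ∈ F}
  fin := inferInstance
  a := Sum.elim (fun s => s.1) fun I => I.1.1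
  b := Sum.elim (fun s => s.1) fun I => I.1.2
  N := Sum.elim (fun _ => t) fun _ => N
  ha := by
    rintro (s | I)
    · exact (mem_Icc.1 s.2).1
    · exact (hF _ I.2).1
  hb := by
    rintro (s | I)
    · exact (mem_Icc.1 s.2).2
    · exact (hF _ I.2).2

section
variable {n t N : ℕ} {F : Finset (ℕ × ℕ)} (hF : Valid n F)

theorem rep_prod (p : ℕ × ℕ → Prop) [DecidablePred p] (q : (rep n t N F hF).J → Prop)
    [DecidablePred q] (h : ∀ j, q j ↔ p ((rep n t N F hF).a j, (rep n t N F hF).b j)) :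
    (∏ j, if q j then (((rep n t N F hF).N j : ℝ) + 1) else 1) =
      ((t : ℝ) + 1) ^ ((Icc 1 n).filter fun s => p (s, s)).card *
        ((N : ℝ) + 1) ^ (F.filter p).card := by
  simp only [h]
  refine (Fintype.prod_sum_type (α₁ := {s : ℕ // s ∈ (Icc (1 : ℕ) n : Finset ℕ)}) (α₂ := {I // I ∈ F}) _).trans ?_
  congr 1
  · rw [← prod_const, prod_filter, ← prod_coe_sort (Icc 1 n)]
    rfl
  · rw [← prod_const, prod_filter, ← prod_coe_sort F]
    rfl

theorem rep_flag (S : Finset ℕ) (hS : S ⊆ Icc 1 n) :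
    flag (rep n t N F hF).rk S = ((t : ℝ) + 1) ^ S.card *
      ((N : ℝ) + 1) ^ (F.filter (Hit S)).card := by
  classical
  have hS' : ∀ s ∈ S, 1 ≤ s ∧ s ≤ n := fun s hs => mem_Icc.1 (hS hs)
  have h2 : 0 ∉ S := fun h => by have := hS' 0 h; omega
  rw [flag_eq_W (Rep.cov _) (Rep.rk_bot _) (Rep.rk_top _) S h2, Rep.W_bot _ S h2 ⊤
    (by rw [Rep.rk_top]; omega) (fun s hs => by rw [Rep.rk_top]; have := hS' s hs; omega),
    rep_prod hF (Hit S) _ fun j => ⟨fun h => h.1, fun h => ⟨h, Rep.not_in1 _ j⟩⟩]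
  congr 3
  ext s
  simp only [mem_filter, Hit]
  constructor
  · rintro ⟨-, r, k1, k2, k3⟩
    rwa [le_antisymm k2 k3]
  · exact fun h => ⟨hS h, s, h, le_rfl, le_rfl⟩

theorem rep_W_one {x y : (rep n t N F hF).LP} (h : x < y) (r : ℕ)
    (h1 : (rep n t N F hF).rk x < r) (h2 : r < (rep n t N F hF).rk y) :
    W (rep n t N F hF).rk {r} x y = ((t : ℝ) + 1) * ((N : ℝ) + 1) ^ (F.filter fun I =>
      (rep n t N F hF).rk x < I.1 ∧ I.1 ≤ r ∧ r ≤ I.2 ∧ I.2 < (rep n t N F hF).rk y).card := by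
  classical
  have h3 : (rep n t N F hF).rk y < n + 2 := y.1.1.2
  rw [Rep.W_one _ h r h1 h2, rep_prod hF (fun I =>
      (rep n t N F hF).rk x < I.1 ∧ I.1 ≤ r ∧ r ≤ I.2 ∧ I.2 < (rep n t N F hF).rk y) _
      fun j => by simp only [Rep.In]; omega]
  congr 1
  rw [show ((Icc 1 n).filter fun s => (rep n t N F hF).rk x < (s, s).1 ∧ (s, s).1 ≤ r ∧
    r ≤ (s, s).2 ∧ (s, s).2 < (rep n t N F hF).rk y) = {r} by
      ext s; simp only [mem_filter, mem_Icc, mem_singleton]; omega]
  simp

theorem rep_thick : Thick (t + 1) (rep n t N F hF).LP (rep n t N F hF).rk := by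
  classical
  rintro x y ⟨z, h1, h2⟩
  have hc := (rep n t N F hF).cov
  have := rep_W_one hF (h1.trans h2) _ (rk_lt hc h1) (rk_lt hc h2)
  have h3 : ((t + 1 : ℕ) : ℝ) ≤ W (rep n t N F hF).rk {(rep n t N F hF).rk z} x y := by
    rw [this]
    push_cast
    exact le_mul_of_one_le_right (by positivity) (one_le_pow₀ (by simp))
  rw [W_single] at h3
  have e : ((Set.Ioo x y).ncard : ℝ) = ∑ u, if x < u ∧ u < y then 1 else 0 := by
    rw [show Set.Ioo x y = {u | x < u ∧ u < y} from rfl, ncard_eq_cnt, cnt_sum]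
    push_cast; rfl
  rw [← Nat.cast_le (α := ℝ), e]
  refine h3.trans (sum_le_sum fun u _ => ?_)
  split_ifs with a b
  · rfl
  · exact absurd a.2 b
  · norm_num
  · rfl

theorem alt_sum (a b c : ℕ) : ∑ j ∈ Ico a b, (-1 : ℝ) ^ (j + c) =
    (-1) ^ (a + c) * if Even (b - a) then 0 else 1 := by
  rw [sum_Ico_eq_sum_range, ← neg_one_geom_sum, mul_sum]
  exact sum_congr rfl fun i _ => by ring

/-- even systems of intervals -/
def Ev (F : Finset (ℕ × ℕ)) : Prop :=
  ∀ I ∈ F, ∀ J ∈ F, J.1 ≤ I.1 → I.1 ≤ J.2 → J.2 ≤ I.2 → (I.1 + J.2) % 2 = 1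

theorem ev_sum (hE : Ev F) (X : ℝ) (p q : ℕ) (hpq : p < q) :
    ∑ r ∈ Ioo p q, (-1) ^ (r + p + 1) *
      (X + 1) ^ (F.filter fun I => p < I.1 ∧ I.1 ≤ r ∧ r ≤ I.2 ∧ I.2 < q).card =
      if Even (q + p) then 1 else 0 := by
  classical
  set G := F.filter fun I => p < I.1 ∧ I.2 < q with hG
  have e : ∀ r, (X + 1) ^ (F.filter fun I => p < I.1 ∧ I.1 ≤ r ∧ r ≤ I.2 ∧ I.2 < q).card =
      ∑ A ∈ G.powerset, ∏ I ∈ A, if I.1 ≤ r ∧ r ≤ I.2 then X else 0 := by
    intro r
    rw [← prod_add_one, ← prod_const, prod_filter, hG, prod_filter]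
    refine prod_congr rfl fun I _ => ?_
    by_cases a : p < I.1 <;> by_cases b : I.1 ≤ r <;> by_cases c : r ≤ I.2 <;>
      by_cases d : I.2 < q <;> simp [a, b, c, d]
  simp only [e, mul_sum]
  rw [sum_comm, sum_eq_single ∅]
  · simp only [prod_empty, mul_one, add_assoc]
    rw [← Finset.Ico_add_one_left_eq_Ioo, alt_sum, Even.neg_one_pow ⟨_, rfl⟩, one_mul]
    have : Even (q - (p + 1)) ↔ ¬ Even (q + p) := by
      simp only [Nat.even_iff]; omega
    by_cases h : Even (q + p) <;> simp [this, h]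
  · intro A hA hne
    have hne' : A.Nonempty := nonempty_iff_ne_empty.2 hne
    obtain ⟨I, hI, k1⟩ := exists_max_image A (fun I => I.1) hne'
    obtain ⟨J, hJ, k2⟩ := exists_min_image A (fun I => I.2) hne'
    have hI' := mem_filter.1 (mem_powerset.1 hA hI)
    have hJ' := mem_filter.1 (mem_powerset.1 hA hJ)
    have e2 : ∀ r, (∏ K ∈ A, if K.1 ≤ r ∧ r ≤ K.2 then X else 0) =
        if I.1 ≤ r ∧ r ≤ J.2 then X ^ A.card else 0 := by
      intro r
      split_ifs with h
      · rw [← prod_const]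
        exact prod_congr rfl fun K hK => if_pos ⟨(k1 K hK).trans h.1, h.2.trans (k2 K hK)⟩
      · by_cases a : I.1 ≤ r
        · exact prod_eq_zero hJ (if_neg fun b => h ⟨a, b.2⟩)
        · exact prod_eq_zero hI (if_neg fun b => a b.1)
    simp only [e2, mul_ite, mul_zero]
    rw [← sum_filter, ← sum_mul, show ((Ioo p q).filter fun r => I.1 ≤ r ∧ r ≤ J.2) =
      Ico I.1 (J.2 + 1) by
        ext r; simp only [mem_filter, mem_Ioo, mem_Ico]; omega]
    simp only [add_assoc]
    rw [alt_sum, if_pos, mul_zero, zero_mul]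
    by_cases a : I.1 ≤ J.2
    · have := hE I hI'.1 J hJ'.1 (k1 J hJ) a (k2 I hI)
      rw [Nat.even_iff]; omega
    · rw [Nat.even_iff]; omega
  · simp

theorem rep_euler (hE : Ev F) : Euler (t + 1) (rep n t N F hF).LP (rep n t N F hF).rk := by
  have hc := (rep n t N F hF).cov
  refine (euler_iff hc).2 fun x y h => ?_
  rw [sum_congr rfl fun r hr => by rw [rep_W_one hF h r (mem_Ioo.1 hr).1 (mem_Ioo.1 hr).2]]
  simp only [mul_left_comm _ ((t : ℝ) + 1)]
  rw [← mul_sum, ev_sum hE N _ _ (rk_lt hc h)]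
  split_ifs <;> simp

end

/-- the limit vector -/
noncomputable def ev (t n : ℕ) (F : Finset (ℕ × ℕ)) (S : Finset ℕ) : ℝ :=
  if S ⊆ Icc 1 n ∧ ∀ I ∈ F, Hit S I then (t : ℝ) ^ S.card else 0

open Filter Topology in
theorem ev_mem {n t : ℕ} {F : Finset (ℕ × ℕ)} (hF : Valid n F)
    (Q : (P : Type) → [PartialOrder P] → (P → ℕ) → Prop)
    (hQ : ∀ N, Q (rep n t N F hF).LP (rep n t N F hF).rk) : ev (t + 1) n F ∈ cone n Q := by
  refine mem_closure_of_tendsto (b := atTop) (f := fun N : ℕ =>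
    (((N : NNReal) + 1)⁻¹ ^ F.card) • flag (rep n t N F hF).rk) ?_
    (Eventually.of_forall fun N => Submodule.smul_mem _ _ (Submodule.subset_span
      ⟨_, inferInstance, inferInstance, inferInstance, _, Rep.rk_bot _, Rep.rk_top _, Rep.cov _,
        hQ N, rfl⟩))
  refine tendsto_pi_nhds.2 fun S => ?_
  simp only [Pi.smul_apply, NNReal.smul_def, smul_eq_mul]
  by_cases hS : S ⊆ Icc 1 n
  · simp only [rep_flag hF S hS]
    push_cast
    obtain ⟨d, hd⟩ := Nat.exists_eq_add_of_le (card_filter_le F (Hit S))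
    have e : ∀ N : ℕ, ((N : ℝ) + 1)⁻¹ ^ F.card * (((t : ℝ) + 1) ^ S.card *
        ((N : ℝ) + 1) ^ (F.filter (Hit S)).card) = ((t : ℝ) + 1) ^ S.card * (1 / ((N : ℝ) + 1)) ^ d := by
      intro N
      generalize (F.filter (Hit S)).card = m at hd
      rw [hd]
      have : (N : ℝ) + 1 ≠ 0 := by positivity
      rw [pow_add, one_div, inv_pow, inv_pow]
      field_simp
    simp only [e]
    have lim := (tendsto_one_div_add_atTop_nhds_zero_nat (𝕜 := ℝ)).pow d
    have := lim.const_mul (((t : ℝ) + 1) ^ S.card)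
    convert this using 2
    unfold ev
    by_cases h : ∀ I ∈ F, Hit S I
    · have : d = 0 := by rw [filter_true_of_mem h] at hd; omega
      rw [if_pos ⟨hS, h⟩, this]; simp
    · have : d ≠ 0 := by
        rintro rfl
        exact h (card_filter_eq_iff.1 hd.symm)
      rw [if_neg fun k => h k.2]; simp [this]
  · simp only [flag_zero (Rep.cov _) (Rep.rk_bot _) (Rep.rk_top _) S hS, mul_zero, ev,
      if_neg fun k : _ ∧ _ => hS k.1]
    exact tendsto_const_nhds

end Pool.Agent.Lib.MP_685082_co.Cone
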