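import Pool.Agent.Lib.MP_685082_co.CCert

/-! The cone of Eulerian posets is smaller than the thick cone cut by Dehn-Sommerville. -/

namespace Pool.Agent.Lib.MP_685082_co.Cone

open Finset

section
variable {n t : ℕ} {Q : (P : Type) → [PartialOrder P] → (P → ℕ) → Prop}

theorem cone_subset (C : Set (Finset ℕ → ℝ)) (hc : IsClosed C) (h0 : 0 ∈ C)
    (ha : ∀ v ∈ C, ∀ w ∈ C, v + w ∈ C) (hs : ∀ c : ℝ, 0 ≤ c → ∀ v ∈ C, c • v ∈ C)
    (hg : ∀ (P : Type) [Fintype P] [PartialOrder P] [BoundedOrder P] (ρ : P → ℕ), ρ ⊥ = 0 →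
      ρ ⊤ = n + 1 → (∀ x y, x ⋖ y → ρ y = ρ x + 1) → Q P ρ → flag ρ ∈ C) : cone n Q ⊆ C := by
  refine closure_minimal (fun v hv => ?_) hc
  induction hv using Submodule.span_induction with
  | mem v hv =>
    obtain ⟨P, _, _, _, ρ, h1, h2, h3, h4, rfl⟩ := hv
    have := Fintype.ofFinite P
    exact hg P ρ h1 h2 h3 h4
  | zero => exact h0
  | add v w _ _ h1 h2 => exact ha v h1 w h2
  | smul c v _ h => exact hs c c.2 v h

theorem cone_zero : (0 : Finset ℕ → ℝ) ∈ cone n Q := subset_closure (Submodule.zero_mem _)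

theorem cone_add {v w : Finset ℕ → ℝ} (h1 : v ∈ cone n Q) (h2 : w ∈ cone n Q) :
    v + w ∈ cone n Q := (Submodule.topologicalClosure _).add_mem h1 h2

theorem cone_smul {v : Finset ℕ → ℝ} (c : ℝ) (hc : 0 ≤ c) (h : v ∈ cone n Q) :
    c • v ∈ cone n Q := by
  lift c to NNReal using hc
  exact (Submodule.topologicalClosure _).smul_mem c h

end

def DSs (t n : ℕ) : Submodule ℝ (Finset ℕ → ℝ) where
  carrier := DS t n
  zero_mem' := ⟨fun _ _ => rfl, fun _ _ _ _ _ _ _ _ => by simp⟩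
  add_mem' := by
    rintro v w ⟨a1, a2⟩ ⟨b1, b2⟩
    refine ⟨fun S h => by simp [a1 S h, b1 S h], fun S h i k h1 h2 h3 h4 => ?_⟩
    simp only [Pi.add_apply, mul_add, sum_add_distrib, a2 S h i k h1 h2 h3 h4,
      b2 S h i k h1 h2 h3 h4]
  smul_mem' := by
    rintro c v ⟨a1, a2⟩
    refine ⟨fun S h => by simp [a1 S h], fun S h i k h1 h2 h3 h4 => ?_⟩
    simp only [Pi.smul_apply, smul_eq_mul, mul_left_comm _ c, ← mul_sum, a2 S h i k h1 h2 h3 h4]

theorem DS_closed (t n : ℕ) : IsClosed (DS t n) := by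
  unfold DS
  simp only [Set.ofPred_and, Set.ofPred_forall]
  refine IsClosed.inter ?_ ?_
  · exact isClosed_iInter fun S => isClosed_iInter fun _ =>
      isClosed_eq (continuous_apply S) continuous_const
  · refine isClosed_iInter fun S => isClosed_iInter fun _ => isClosed_iInter fun i =>
      isClosed_iInter fun k => isClosed_iInter fun _ => isClosed_iInter fun _ =>
      isClosed_iInter fun _ => isClosed_iInter fun _ => isClosed_eq ?_ ?_ <;> fun_prop

theorem cone_DS (t n : ℕ) : cone n (Euler t) ⊆ DS t n :=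
  cone_subset _ (DS_closed t n) (DSs t n).zero_mem (fun _ h1 _ h2 => (DSs t n).add_mem h1 h2)
    (fun c _ _ h => (DSs t n).smul_mem c h) fun _ _ _ _ _ h0 h1 hc he => flag_DS hc he h0 h1

theorem cone_thick (t n : ℕ) : cone n (Euler t) ⊆ cone n (Thick t) := by
  refine closure_mono (Submodule.span_mono ?_)
  rintro v ⟨P, _, _, _, ρ, h1, h2, h3, h4, rfl⟩
  exact ⟨P, inferInstance, inferInstance, inferInstance, ρ, h1, h2, h3, thick_of_euler h3 h4, rfl⟩

def PhiL (t n : ℕ) : (Finset ℕ → ℝ) →ₗ[ℝ] ℝ where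
  toFun := PhiN t n
  map_add' v w := by simp only [PhiN, Phi, Pi.add_apply]; ring
  map_smul' c v := by simp only [PhiN, Phi, Pi.smul_apply, smul_eq_mul, RingHom.id_apply]; ring

theorem cone_phi {t : ℕ} (ht : 1 ≤ t) (n : ℕ) : cone n (Euler t) ⊆ {v | 0 ≤ PhiL t n v} := by
  refine cone_subset _ (isClosed_le continuous_const ?_) (by simp) ?_ ?_
    fun _ _ _ _ _ h0 h1 hc he => flag_phi hc he h0 h1 ht
  · show Continuous fun v : Finset ℕ → ℝ => PhiN t n v
    unfold PhiN Phi
    fun_prop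
  · intro v h1 w h2
    simp only [Set.mem_ofPred_eq, map_add] at *
    positivity
  · intro c hc v h
    simp only [Set.mem_ofPred_eq, map_smul, smul_eq_mul] at *
    positivity

/-- the vector attached to an integer combination of interval systems -/
noncomputable def vec (t n : ℕ) (C : List (ℤ × List (ℕ × ℕ))) (S : Finset ℕ) : ℝ :=
  if S ⊆ Icc 1 n then (t : ℝ) ^ S.card * comb C S else 0

theorem vec_nil (t n : ℕ) : vec t n [] = 0 := by
  ext S; simp [vec, comb]

theorem vec_cons (t n : ℕ) (p : ℤ × List (ℕ × ℕ)) (C : List (ℤ × List (ℕ × ℕ))) :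
    vec t n (p :: C) = (p.1 : ℝ) • ev t n p.2.toFinset + vec t n C := by
  ext S
  simp only [vec, comb, ev, eZ, List.map_cons, List.sum_cons, Pi.add_apply, Pi.smul_apply,
    List.mem_toFinset, smul_eq_mul]
  by_cases a : S ⊆ Icc 1 n <;> by_cases b : ∀ I ∈ p.2, Hit S I
  · rw [if_pos a, if_pos b, if_pos ⟨a, b⟩, if_pos a]; push_cast; ring
  · rw [if_pos a, if_neg b, if_neg fun h => b h.2, if_pos a]; push_cast; ring
  · simp [a]
  · simp [a]

theorem vec_thick (t n : ℕ) (C : List (ℤ × List (ℕ × ℕ)))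
    (h : ∀ p ∈ C, 0 ≤ p.1 ∧ ∀ I ∈ p.2, 1 ≤ I.1 ∧ I.2 ≤ n) :
    vec (t + 1) n C ∈ cone n (Thick (t + 1)) := by
  induction C with
  | nil => rw [vec_nil]; exact cone_zero
  | cons p C ih =>
    rw [vec_cons]
    have h1 := h p (by simp)
    have hv : Valid n p.2.toFinset := fun I hI => h1.2 I (List.mem_toFinset.1 hI)
    exact cone_add (cone_smul _ (by exact_mod_cast h1.1) (ev_mem hv _ fun N => rep_thick hv))
      (ih fun q hq => h q (by simp [hq]))

theorem cert_DS (t n : ℕ) (hn : 10 ≤ n) : vec t n cert ∈ DS t n := by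
  refine ⟨fun S h => if_neg h, fun S hS i k hik hi hk h => ?_⟩
  have h1 := congrArg (Int.cast (R := ℝ)) (uDS_all n hn S hS i k hik hi hk h)
  push_cast at h1
  have hk' : k ≤ n + 1 := by
    rcases hk with rfl | hk
    · rfl
    · have := mem_Icc.1 (hS hk); omega
  rw [sum_congr rfl (g := fun j => (t : ℝ) ^ (S.card + 1) * ((-1) ^ (j + i + 1) *
    comb cert (insert j S))), ← mul_sum, h1, vec, if_pos hS]
  · split_ifs <;> ring
  · intro j hj
    rw [mem_Ioo] at hj
    rw [vec, if_pos (insert_subset (mem_Icc.2 (by omega)) hS),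
      card_insert_of_notMem fun a => by have := h j a; omega]
    ring

/-- integer value of the form on a combination -/
def phiZ (C : List (ℤ × List (ℕ × ℕ))) : ℤ :=
  comb C {5, 6, 7, 9} + comb C {3, 4, 6, 7} + (comb C {3, 6, 10} - comb C {4, 6, 10} -
    comb C {5, 6, 8} - comb C {6, 7, 9} - comb C {3, 4, 6} - comb C {3, 6, 7}) +
    (comb C {4, 6} + comb C {6, 8})

theorem phi_vec (t : ℕ) (C : List (ℤ × List (ℕ × ℕ))) :
    Phi t (vec t 10 C) = (t : ℝ) ^ 4 * phiZ C := by
  simp only [Phi, vec, phiZ]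
  repeat rw [if_pos (by decide)]
  push_cast
  rw [show card {5, 6, 7, 9} = 4 by decide, show card {3, 4, 6, 7} = 4 by decide,
    show card {3, 6, 10} = 3 by decide, show card {4, 6, 10} = 3 by decide,
    show card {5, 6, 8} = 3 by decide, show card {6, 7, 9} = 3 by decide,
    show card {3, 4, 6} = 3 by decide, show card {3, 6, 7} = 3 by decide,
    show card {4, 6} = 2 by decide, show card {6, 8} = 2 by decide]
  ring

theorem phiZ_cert : phiZ cert = -2 := by decide +kernel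

theorem cert_neg (t n : ℕ) (ht : 1 ≤ t) (hn : 10 ≤ n) : PhiL t n (vec t n cert) < 0 := by
  have tp : (0 : ℝ) < t := by exact_mod_cast ht
  have h1 : Phi t (vec t 10 cert) < 0 := by
    rw [phi_vec, phiZ_cert]
    have : (0 : ℝ) < t ^ 4 := by positivity
    push_cast; linarith
  show PhiN t n _ < 0
  unfold PhiN
  split_ifs with h
  · subst h; exact h1
  · have e : ∀ S ⊆ Icc 1 10, vec t n cert (insert 11 S) = t * vec t 10 cert S := by
      intro S hS
      rw [vec, vec, if_pos hS, if_pos (insert_subset (mem_Icc.2 (by omega))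
        (hS.trans (Icc_subset_Icc_right hn))), comb_big _ _ (by omega),
        card_insert_of_notMem fun a => by have := mem_Icc.1 (hS a); omega]
      ring
    have : Phi t (fun S => vec t n cert (insert 11 S)) = t * Phi t (vec t 10 cert) := by
      simp only [Phi]
      repeat rw [e _ (by decide)]
      ring
    rw [this]
    exact mul_neg_of_pos_of_neg tp h1

theorem cert_thick (t n : ℕ) (ht : 1 ≤ t) (hn : 10 ≤ n) : vec t n cert ∈ cone n (Thick t) := by
  obtain ⟨t, rfl⟩ := Nat.exists_eq_add_of_le' ht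
  refine vec_thick t n cert fun p hp => ?_
  have h : ∀ p ∈ cert, 0 ≤ p.1 ∧ ∀ I ∈ p.2, 1 ≤ I.1 ∧ I.2 ≤ 10 := by decide
  exact ⟨(h p hp).1, fun I hI => ⟨((h p hp).2 I hI).1, ((h p hp).2 I hI).2.trans hn⟩⟩

theorem gap (t n : ℕ) (ht : 1 ≤ t) (hn : 10 ≤ n) :
    cone n (Euler t) ⊂ cone n (Thick t) ∩ DS t n :=
  ⟨Set.subset_inter (cone_thick t n) (cone_DS t n), fun h =>
    absurd (cone_phi ht n (h ⟨cert_thick t n ht hn, cert_DS t n hn⟩))
      (not_le.2 (cert_neg t n ht hn))⟩

end Pool.Agent.Lib.MP_685082_co.Cone
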