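import Pool.Agent.Lib.MP_685082_co.Core

/-! Chains in graded posets and the core of a rank five Eulerian poset. -/

namespace Pool.Agent.Lib.MP_685082_co

open Finset

theorem ncard_eq_cnt {α : Type} [Fintype α] (p : α → Prop) : {x | p x}.ncard = cnt p := by
  classical
  rw [cnt_eq, ← Set.ncard_coe_finset]
  congr 1; ext x; simp

theorem cnt_bij {α β : Type} [Fintype α] [Fintype β] {p : α → Prop} {q : β → Prop} (f : α → β)
    (g : β → α) (h1 : ∀ a, p a → q (f a)) (h2 : ∀ b, q b → p (g b)) (h3 : ∀ a, p a → g (f a) = a)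
    (h4 : ∀ b, q b → f (g b) = b) : cnt p = cnt q := by
  classical
  rw [cnt_eq, cnt_eq]
  exact card_bij' (fun a _ => f a) (fun b _ => g b) (by simpa using h1) (by simpa using h2)
    (by simpa using h3) (by simpa using h4)

theorem cnt_subtype {α : Type} [Fintype α] (q p : α → Prop) [Fintype {x // q x}] :
    cnt (fun x : {x // q x} => p x.1) = cnt fun x => q x ∧ p x := by
  classical
  rw [cnt_eq, cnt_eq]
  refine card_bij (fun a _ => a.1) (fun a ha => by simpa [a.2] using ha)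
    (fun a _ b _ h => Subtype.ext h) fun b hb => ?_
  simp at hb
  exact ⟨⟨b, hb.1⟩, by simpa using hb.2, rfl⟩

theorem sum_subtype' {α : Type} [Fintype α] (q : α → Prop) [Fintype {x // q x}] [DecidablePred q]
    (f : α → ℕ) : (∑ x, if q x then f x else 0) = ∑ x : {x // q x}, f x.1 := by
  rw [← sum_filter]
  exact sum_subtype _ (by simp) f

section
variable {P : Type} [Fintype P] [PartialOrder P] {ρ : P → ℕ}
  (hc : ∀ x y, x ⋖ y → ρ y = ρ x + 1)
include hc

theorem rk_lt {x y : P} (h : x < y) : ρ x < ρ y := by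
  induction x using WellFoundedGT.induction with
  | ind x ih =>
    obtain ⟨z, h1, h2⟩ := exists_covBy_le_of_lt h
    have := hc x z h1
    rcases h2.eq_or_lt with rfl | h3
    · omega
    · have := ih z h1.lt h3; omega

theorem rk_le {x y : P} (h : x ≤ y) : ρ x ≤ ρ y := by
  rcases h.eq_or_lt with rfl | h
  · rfl
  · exact (rk_lt hc h).le

theorem eq_of_rk {x y : P} (h : x ≤ y) (h2 : ρ y ≤ ρ x) : x = y := by
  rcases h.eq_or_lt with rfl | h
  · rfl
  · have := rk_lt hc h; omega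

theorem exists_next {x y : P} (h : x < y) : ∃ z, ρ z = ρ x + 1 ∧ x ≤ z ∧ z ≤ y := by
  obtain ⟨z, h1, h2⟩ := exists_covBy_le_of_lt h
  exact ⟨z, hc x z h1, h1.le, h2⟩

theorem exists_prev {x y : P} (h : x < y) : ∃ z, ρ z + 1 = ρ y ∧ x ≤ z ∧ z ≤ y := by
  obtain ⟨z, h1, h2⟩ := exists_le_covBy_of_lt h
  exact ⟨z, (hc z y h2).symm, h1, h2.le⟩

variable [BoundedOrder P]

variable (ρ) in
omit hc in
/-- chains below `x` with rank set `S` -/
noncomputable def gch (S : Set ℕ) (x : P) : ℕ :=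
  cnt fun c : Set P => IsChain (· ≤ ·) c ∧ ⊥ ∉ c ∧ (∀ u ∈ c, u < x) ∧ ρ '' c = S

omit hc in
theorem gch_empty (x : P) : gch ρ ∅ x = 1 :=
  cnt_single ∅ fun c => ⟨fun h => by simpa using h.2.2.2, by rintro rfl; simp⟩

open Classical in
theorem gch_insert (h0 : ρ ⊥ = 0) (S : Set ℕ) (k : ℕ) (hk : 0 < k) (hS : ∀ s ∈ S, s < k) (x : P) :
    gch ρ (insert k S) x = ∑ u, if ρ u = k then (if u ≤ x ∧ u ≠ x then gch ρ S u else 0) else 0 := by
  have h1 := cnt_comm fun (c : Set P) (u : P) =>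
    (IsChain (· ≤ ·) c ∧ ⊥ ∉ c ∧ (∀ u ∈ c, u < x) ∧ ρ '' c = insert k S) ∧ u ∈ c ∧ ρ u = k
  have uniq : ∀ c : Set P, IsChain (· ≤ ·) c → ∀ u ∈ c, ∀ v ∈ c, ρ u ≤ ρ v → u ≤ v := by
    intro c h u hu v hv huv
    rcases h.total hu hv with h2 | h2
    · exact h2
    · exact (eq_of_rk hc h2 huv).ge
  rw [gch, cnt_sum]
  rw [sum_congr rfl (g := fun c => cnt fun u => (IsChain (· ≤ ·) c ∧ ⊥ ∉ c ∧ (∀ u ∈ c, u < x) ∧
    ρ '' c = insert k S) ∧ u ∈ c ∧ ρ u = k), h1]
  · refine sum_congr rfl fun u _ => ?_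
    split_ifs with h2 h3
    · have hux : u < x := lt_of_le_of_ne h3.1 h3.2
      refine cnt_bij (fun c => c \ {u}) (fun c => insert u c) ?_ ?_ ?_ ?_
      · rintro c ⟨⟨k1, k2, k3, k4⟩, k5, -⟩
        have hle : ∀ v ∈ c, v ≤ u := fun v hv => uniq c k1 v hv u k5 (by
          have : ρ v ∈ insert k S := k4 ▸ Set.mem_image_of_mem ρ hv
          rcases this with h | h
          · omega
          · have := hS _ h; omega)
        refine ⟨k1.mono Set.sdiff_subset, fun h => k2 h.1,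
          fun v hv => lt_of_le_of_ne (hle v hv.1) hv.2, ?_⟩
        ext s
        constructor
        · rintro ⟨v, hv, rfl⟩
          have : ρ v ∈ insert k S := k4 ▸ Set.mem_image_of_mem ρ hv.1
          rcases this with h | h
          · exact absurd (eq_of_rk hc (hle v hv.1) (by omega)) hv.2
          · exact h
        · intro hs
          have : s ∈ ρ '' c := k4 ▸ Set.mem_insert_of_mem _ hs
          obtain ⟨v, hv, rfl⟩ := this
          refine ⟨v, ⟨hv, ?_⟩, rfl⟩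
          rintro rfl
          have := hS _ hs; omega
      · rintro c ⟨k1, k2, k3, k4⟩
        refine ⟨⟨k1.insert fun v hv _ => Or.inr (k3 v hv).le, ?_, ?_, ?_⟩, by simp, h2⟩
        · rintro (h | h)
          · rw [← h] at h2; omega
          · exact k2 h
        · rintro v (rfl | hv)
          · exact hux
          · exact (k3 v hv).trans hux
        · rw [Set.image_insert_eq, k4, h2]
      · rintro c ⟨-, k5, -⟩
        simp [k5]
      · rintro c ⟨-, -, k3, -⟩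
        have : u ∉ c := fun h => lt_irrefl _ (k3 u h)
        simp [this]
    · exact cnt_zero.2 fun c hh => h3 ⟨(hh.1.2.2.1 u hh.2.1).le, (hh.1.2.2.1 u hh.2.1).ne⟩
    · exact cnt_zero.2 fun c hh => h2 hh.2.2
  · intro c _
    split_ifs with h2
    · have : k ∈ ρ '' c := h2.2.2.2 ▸ Set.mem_insert _ _
      obtain ⟨u, hu, hk⟩ := this
      refine (cnt_single u fun v => ⟨fun hv => ?_, ?_⟩).symm
      · exact le_antisymm (uniq c h2.1 v hv.2.1 u hu (by omega)) (uniq c h2.1 u hu v hv.2.1 (by omega))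
      · rintro rfl; exact ⟨h2, hu, hk⟩
    · exact (cnt_zero.2 fun u hu => h2 hu.1).symm

end

section
variable {P : Type} [Fintype P] [PartialOrder P] [BoundedOrder P] {ρ : P → ℕ}

/-- rank five Eulerian posets -/
structure Eul (ρ : P → ℕ) : Prop where
  h0 : ρ ⊥ = 0
  h5 : ρ ⊤ = 5
  hc : ∀ x y, x ⋖ y → ρ y = ρ x + 1
  he : ∀ x y, x < y →
    cnt (fun z => x ≤ z ∧ z ≤ y ∧ Even (ρ z)) = cnt (fun z => x ≤ z ∧ z ≤ y ∧ Odd (ρ z))

variable (ρ) in
noncomputable def Nk (k : ℕ) (x y : P) : ℕ := cnt fun z => ρ z = k ∧ x ≤ z ∧ z ≤ y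

variable (h : Eul ρ)
include h

theorem Eul.lt_of {x y : P} (h1 : x ≤ y) (h2 : ρ x < ρ y) : x < y :=
  lt_of_le_of_ne h1 (by rintro rfl; omega)

theorem Eul.euler {x y : P} (h1 : x ≤ y) (h2 : ρ x < ρ y) :
    Nk ρ 0 x y + Nk ρ 2 x y + Nk ρ 4 x y = Nk ρ 1 x y + Nk ρ 3 x y + Nk ρ 5 x y ∧
    Nk ρ (ρ x) x y = 1 ∧ Nk ρ (ρ y) x y = 1 ∧ ∀ k, k < ρ x ∨ ρ y < k → Nk ρ k x y = 0 := by
  classical
  refine ⟨?_, ?_, ?_, ?_⟩
  · have h3 := h.he x y (h.lt_of h1 h2)
    have h4 : ∀ z, ρ z ≤ 5 := fun z => h.h5 ▸ rk_le h.hc le_top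
    unfold Nk
    rw [← cnt_or (by omega), ← cnt_or (by omega), ← cnt_or (by omega), ← cnt_or (by omega)]
    refine (cnt_congr fun z => ?_).trans (h3.trans (cnt_congr fun z => ?_))
    · have := h4 z
      rw [Nat.even_iff]
      by_cases h5 : x ≤ z ∧ z ≤ y
      · simp only [h5, and_true, true_and]; omega
      · tauto
    · have := h4 z
      rw [Nat.odd_iff]
      by_cases h5 : x ≤ z ∧ z ≤ y
      · simp only [h5, and_true, true_and]; omega
      · tauto
  · exact cnt_single x fun z => ⟨fun hz => (eq_of_rk h.hc hz.2.1 hz.1.le).symm,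
      by rintro rfl; exact ⟨rfl, le_rfl, h1⟩⟩
  · exact cnt_single y fun z => ⟨fun hz => eq_of_rk h.hc hz.2.2 hz.1.ge,
      by rintro rfl; exact ⟨rfl, h1, le_rfl⟩⟩
  · intro k hk
    refine cnt_zero.2 fun z hz => ?_
    have := rk_le h.hc hz.2.1
    have := rk_le h.hc hz.2.2
    omega

open Classical in
/-- the core of an Eulerian poset -/
noncomputable def Eul.core : Core where
  A := {x // ρ x = 1}
  Y := {x // ρ x = 2}
  Z := {x // ρ x = 3}
  W := {x // ρ x = 4}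
  fA := inferInstance
  fY := inferInstance
  fZ := inferInstance
  fW := inferInstance
  ay a b := a.1 ≤ b.1
  yz a b := a.1 ≤ b.1
  zw a b := a.1 ≤ b.1
  az a b := a.1 ≤ b.1
  yw a b := a.1 ≤ b.1
  aw a b := a.1 ≤ b.1
  az_iff a b := ⟨fun h1 => by
    obtain ⟨z, k1, k2⟩ := exists_next h.hc (h.lt_of h1 (by rw [a.2, b.2]; norm_num))
    exact ⟨⟨z, by rw [k1, a.2]⟩, k2⟩, fun ⟨_, h1, h2⟩ => h1.trans h2⟩
  yw_iff a b := ⟨fun h1 => by
    obtain ⟨z, k1, k2⟩ := exists_next h.hc (h.lt_of h1 (by rw [a.2, b.2]; norm_num))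
    exact ⟨⟨z, by rw [k1, a.2]⟩, k2⟩, fun ⟨_, h1, h2⟩ => h1.trans h2⟩
  aw_iff a b := ⟨fun h1 => by
    obtain ⟨z, k1, k2⟩ := exists_next h.hc (h.lt_of h1 (by rw [a.2, b.2]; norm_num))
    exact ⟨⟨z, by rw [k1, a.2]⟩, k2⟩, fun ⟨_, h1, h2⟩ => h1.trans h2⟩
  hy y := by
    obtain ⟨k1, k2, k3, k4⟩ := h.euler (bot_le (a := y.1)) (by rw [h.h0, y.2]; norm_num)
    rw [h.h0, y.2] at *
    rw [k2, k3, k4 3 (by omega), k4 4 (by omega), k4 5 (by omega)] at k1
    rw [cnt_subtype (fun x => ρ x = 1) (fun x => x ≤ y.1)]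
    simpa [Nk] using k1.symm
  hz y := by
    obtain ⟨k1, k2, k3, k4⟩ := h.euler (le_top (a := y.1)) (by rw [h.h5, y.2]; norm_num)
    rw [h.h5, y.2] at *
    rw [k2, k3, k4 0 (by omega), k4 1 (by omega), k4 2 (by omega)] at k1
    rw [cnt_subtype (fun x => ρ x = 4) (fun x => y.1 ≤ x)]
    simpa [Nk] using k1
  haz a z h1 := by
    obtain ⟨k1, k2, k3, k4⟩ := h.euler h1 (by rw [a.2, z.2]; norm_num)
    rw [a.2, z.2] at *
    rw [k2, k3, k4 0 (by omega), k4 4 (by omega), k4 5 (by omega)] at k1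
    rw [cnt_subtype (fun x => ρ x = 2) (fun x => a.1 ≤ x ∧ x ≤ z.1)]
    simpa [Nk] using k1
  hyw a z h1 := by
    obtain ⟨k1, k2, k3, k4⟩ := h.euler h1 (by rw [a.2, z.2]; norm_num)
    rw [a.2, z.2] at *
    rw [k2, k3, k4 0 (by omega), k4 1 (by omega), k4 5 (by omega)] at k1
    rw [cnt_subtype (fun x => ρ x = 3) (fun x => a.1 ≤ x ∧ x ≤ z.1)]
    simpa [Nk] using k1.symm
  ny a := by
    obtain ⟨z, k1, k2, -⟩ := exists_next h.hc (h.lt_of (le_top (a := a.1))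
      (by rw [a.2, h.h5]; norm_num))
    exact ⟨⟨z, by rw [k1, a.2]⟩, k2⟩
  nz a := by
    obtain ⟨z, k1, -, k2⟩ := exists_prev h.hc (h.lt_of (bot_le (a := a.1))
      (by rw [a.2, h.h0]; norm_num))
    exact ⟨⟨z, by rw [a.2] at k1; omega⟩, k2⟩
  ea a := by
    obtain ⟨k1, k2, k3, k4⟩ := h.euler (le_top (a := a.1)) (by rw [h.h5, a.2]; norm_num)
    rw [h.h5, a.2] at *
    rw [k2, k3, k4 0 (by omega)] at k1
    rw [cnt_subtype (fun x => ρ x = 2) (fun x => a.1 ≤ x),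
      cnt_subtype (fun x => ρ x = 4) (fun x => a.1 ≤ x),
      cnt_subtype (fun x => ρ x = 3) (fun x => a.1 ≤ x)]
    simp only [Nk, le_top, and_true] at k1
    omega
  ew a := by
    obtain ⟨k1, k2, k3, k4⟩ := h.euler (bot_le (a := a.1)) (by rw [h.h0, a.2]; norm_num)
    rw [h.h0, a.2] at *
    rw [k2, k3, k4 5 (by omega)] at k1
    rw [cnt_subtype (fun x => ρ x = 3) (fun x => x ≤ a.1),
      cnt_subtype (fun x => ρ x = 1) (fun x => x ≤ a.1),
      cnt_subtype (fun x => ρ x = 2) (fun x => x ≤ a.1)]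
    simp only [Nk, bot_le, true_and] at k1
    omega

theorem Eul.n_pos : 0 < h.core.n := by
  obtain ⟨z, k1, -⟩ := exists_next h.hc (h.lt_of (bot_le (a := ⊤)) (by rw [h.h5, h.h0]; norm_num))
  exact Fintype.card_pos_iff.2 ⟨⟨z, by rw [k1, h.h0]⟩⟩

end

end Pool.Agent.Lib.MP_685082_co
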