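import Pool.Agent.Lib.MP_685082_co.CDefs
import Pool.Agent.Lib.MP_685082_co.Flag

/-! Chain counts between two elements. -/

namespace Pool.Agent.Lib.MP_685082_co.Cone

open Finset

section
variable {P : Type} [Fintype P] [PartialOrder P] (ρ : P → ℕ)

open Classical in
noncomputable def wl : List ℕ → P → P → ℝ
  | [], x, y => if x < y then 1 else 0
  | k :: L, x, y => ∑ u, if ρ u = k ∧ u < y then wl L x u else 0

noncomputable def W (S : Finset ℕ) : P → P → ℝ := wl ρ (S.sort (· ≥ ·))

open Classical in
theorem W_empty (x y : P) : W ρ ∅ x y = if x < y then 1 else 0 := by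
  simp [W, wl]

open Classical in
theorem W_insert (S : Finset ℕ) (k : ℕ) (hS : ∀ s ∈ S, s < k) (x y : P) :
    W ρ (insert k S) x y = ∑ u, if ρ u = k ∧ u < y then W ρ S x u else 0 := by
  unfold W
  rw [Finset.sort_insert _ (fun b hb => (hS b hb).le) (fun h => lt_irrefl _ (hS k h))]
  rfl

theorem W_nonneg (S : Finset ℕ) (x y : P) : 0 ≤ W ρ S x y := by
  induction S using Finset.induction_on_max generalizing y with
  | empty => rw [W_empty]; split_ifs <;> norm_num
  | insert k S hS ih =>
    rw [W_insert ρ S k hS]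
    refine sum_nonneg fun u _ => ?_
    split_ifs
    · exact ih u
    · rfl

theorem W_zero (S : Finset ℕ) (x y : P) (h : ¬ x < y) : W ρ S x y = 0 := by
  induction S using Finset.induction_on_max generalizing y with
  | empty => rw [W_empty, if_neg h]
  | insert k S hS ih =>
    rw [W_insert ρ S k hS]
    refine sum_eq_zero fun u _ => ?_
    split_ifs with h2
    · exact ih u fun h3 => h (h3.trans h2.2)
    · rfl

open Classical in
theorem W_split (S T : Finset ℕ) (k : ℕ) (h1 : ∀ s ∈ S, s < k) (h2 : ∀ s ∈ T, k < s) (x y : P) :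
    W ρ (T ∪ insert k S) x y = ∑ u, if ρ u = k then W ρ S x u * W ρ T u y else 0 := by
  induction T using Finset.induction_on_max generalizing y with
  | empty =>
    rw [empty_union, W_insert ρ S k h1]
    refine sum_congr rfl fun u _ => ?_
    rw [W_empty]
    by_cases a : ρ u = k <;> by_cases b : u < y <;> simp [a, b]
  | insert m T hT ih =>
    have hm := h2 m (mem_insert_self _ _)
    rw [insert_union, W_insert ρ _ m]
    · simp only [ih (fun s hs => h2 s (mem_insert_of_mem hs)), W_insert ρ T m hT]
      rw [sum_congr rfl (g := fun v => ∑ u, if ρ u = k then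
        (if ρ v = m ∧ v < y then W ρ S x u * W ρ T u v else 0) else 0), sum_comm]
      · refine sum_congr rfl fun u _ => ?_
        split_ifs with h
        · rw [mul_sum]
          refine sum_congr rfl fun v _ => ?_
          split_ifs <;> simp
        · simp
      · intro v _
        split_ifs with h
        · rfl
        · simp
    · intro s hs
      rcases mem_union.1 hs with h | h
      · exact hT s h
      · rcases mem_insert.1 h with rfl | h
        · exact hm
        · exact (h1 s h).trans hm

theorem transfer (i k : ℕ) (hik : i < k) (c : ℕ → ℝ) (c0 : ℝ)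
    (H : ∀ u v, ρ u = i → ρ v = k → c0 * W ρ ∅ u v ≤ ∑ j ∈ Ioo i k, c j * W ρ {j} u v)
    (S : Finset ℕ) (x y : P) (hi : (ρ x = i ∧ ∀ s ∈ S, k ≤ s) ∨ i ∈ S)
    (hk : (ρ y = k ∧ ∀ s ∈ S, s ≤ i) ∨ k ∈ S) (hS : ∀ s ∈ S, s ≤ i ∨ k ≤ s) :
    c0 * W ρ S x y ≤ ∑ j ∈ Ioo i k, c j * W ρ (insert j S) x y := by
  classical
  induction S using Finset.induction_on_max generalizing y with
  | empty =>
    simp only [notMem_empty, or_false] at hi hk
    simpa using H x y hi.1 hk.1
  | insert m S hm ih =>
    by_cases hkm : k ≤ m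
    · have e : ∀ j ∈ Ioo i k, c j * W ρ (insert j (insert m S)) x y =
          ∑ u, if ρ u = m ∧ u < y then c j * W ρ (insert j S) x u else 0 := by
        intro j hj
        rw [mem_Ioo] at hj
        rw [insert_comm, W_insert ρ _ m, mul_sum]
        · refine sum_congr rfl fun u _ => ?_
          split_ifs <;> simp
        · intro s hs
          rcases mem_insert.1 hs with rfl | hs
          · omega
          · exact hm s hs
      rw [sum_congr rfl e, sum_comm, W_insert ρ S m hm, mul_sum]
      refine sum_le_sum fun u _ => ?_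
      split_ifs with h
      · refine ih u ?_ ?_ fun s hs => hS s (mem_insert_of_mem hs)
        · rcases hi with hi | hi
          · exact Or.inl ⟨hi.1, fun s hs => hi.2 s (mem_insert_of_mem hs)⟩
          · rcases mem_insert.1 hi with rfl | hi
            · omega
            · exact Or.inr hi
        · rcases hk with hk | hk
          · have := hk.2 m (mem_insert_self _ _); omega
          · rcases mem_insert.1 hk with rfl | hk
            · refine Or.inl ⟨h.1, fun s hs => ?_⟩
              have := hm s hs
              have := hS s (mem_insert_of_mem hs)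
              omega
            · exact Or.inr hk
      · simp
    · have hle : ∀ s ∈ insert m S, s ≤ m := by
        intro s hs
        rcases mem_insert.1 hs with rfl | hs
        · rfl
        · exact (hm s hs).le
      have h1 : i = m := by
        have := hS m (mem_insert_self _ _)
        rcases hi with hi | hi
        · have := hi.2 m (mem_insert_self _ _); omega
        · have := hle i hi; omega
      subst h1
      have h2 : ρ y = k := by
        rcases hk with hk | hk
        · exact hk.1
        · have := hle k hk; omega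
      have e : ∀ j ∈ Ioo i k, c j * W ρ (insert j (insert i S)) x y =
          ∑ u, if ρ u = i then W ρ S x u * (c j * W ρ {j} u y) else 0 := by
        intro j hj
        rw [mem_Ioo] at hj
        rw [insert_eq j, W_split ρ S {j} i hm (by simpa using hj.1), mul_sum]
        refine sum_congr rfl fun u _ => ?_
        split_ifs
        · ring
        · simp
      have e0 := W_split ρ S ∅ i hm (by simp) x y
      rw [empty_union] at e0
      rw [sum_congr rfl e, sum_comm, e0, mul_sum]
      refine sum_le_sum fun u _ => ?_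
      split_ifs with h
      · rw [← mul_sum, mul_left_comm]
        exact mul_le_mul_of_nonneg_left (H u y h h2) (W_nonneg ρ _ _ _)
      · simp

open Classical in
theorem W_single (j : ℕ) (x y : P) :
    W ρ {j} x y = ∑ u, if ρ u = j ∧ x < u ∧ u < y then 1 else 0 := by
  rw [← insert_empty_eq, W_insert ρ ∅ j (by simp)]
  refine sum_congr rfl fun u _ => ?_
  rw [W_empty]
  by_cases a : ρ u = j <;> by_cases b : u < y <;> simp [a, b]

end

section
variable {P : Type} [Fintype P] [PartialOrder P] {ρ : P → ℕ}
  (hc : ∀ x y, x ⋖ y → ρ y = ρ x + 1)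
include hc

theorem exists_rank {x y : P} (h : x ≤ y) (r : ℕ) (h1 : ρ x ≤ r) (h2 : r ≤ ρ y) :
    ∃ z, ρ z = r ∧ x ≤ z ∧ z ≤ y := by
  induction r, h1 using Nat.le_induction with
  | base => exact ⟨x, rfl, le_rfl, h⟩
  | succ r _ ih =>
    obtain ⟨z, k1, k2, k3⟩ := ih (by omega)
    have : z < y := lt_of_le_of_ne k3 (by rintro rfl; omega)
    obtain ⟨w, l1, l2, l3⟩ := exists_next hc this
    exact ⟨w, by omega, k2.trans l2, l3⟩

variable [BoundedOrder P]

theorem gch_eq_W (h0 : ρ ⊥ = 0) (S : Finset ℕ) (hS : 0 ∉ S) (x : P) (hx : ⊥ < x) :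
    (gch ρ S x : ℝ) = W ρ S ⊥ x := by
  classical
  induction S using Finset.induction_on_max generalizing x with
  | empty => rw [coe_empty, gch_empty, W_empty, if_pos hx]; simp
  | insert k S hk ih =>
    have hk0 : 0 < k := Nat.pos_of_ne_zero fun h => hS (h ▸ mem_insert_self _ _)
    rw [coe_insert, gch_insert hc h0 _ k hk0 (by simpa using hk), W_insert ρ S k hk]
    push_cast
    refine sum_congr rfl fun u _ => ?_
    by_cases a : ρ u = k
    · by_cases b : u < x
      · rw [if_pos a, if_pos ⟨b.le, b.ne⟩, if_pos ⟨a, b⟩]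
        refine ih (fun h => hS (mem_insert_of_mem h)) u (bot_lt_iff_ne_bot.2 ?_)
        rintro rfl; omega
      · rw [if_pos a, if_neg fun h => b (lt_of_le_of_ne h.1 h.2), if_neg fun h => b h.2]
    · simp [a]

theorem flag_eq_W {n : ℕ} (h0 : ρ ⊥ = 0) (h1 : ρ ⊤ = n + 1) (S : Finset ℕ) (hS : 0 ∉ S) :
    flag ρ S = W ρ S ⊥ ⊤ := by
  classical
  rw [← gch_eq_W hc h0 S hS ⊤ (bot_lt_iff_ne_bot.2 (by intro h; rw [h] at h1; omega)), flag,
    ncard_eq_cnt, gch]
  congr 1
  refine cnt_congr fun c => ?_
  have : (∀ u ∈ c, u < ⊤) ↔ ⊤ ∉ c :=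
    ⟨fun h h2 => lt_irrefl _ (h _ h2), fun h u hu => lt_top_iff_ne_top.2 (by rintro rfl; exact h hu)⟩
  rw [this]

theorem flag_zero {n : ℕ} (h0 : ρ ⊥ = 0) (h1 : ρ ⊤ = n + 1) (S : Finset ℕ)
    (hS : ¬ S ⊆ Icc 1 n) : flag ρ S = 0 := by
  rw [flag, Nat.cast_eq_zero, Set.ncard_eq_zero, Set.eq_empty_iff_forall_notMem]
  rintro c ⟨-, k1, k2, k3⟩
  refine hS fun s hs => ?_
  have : s ∈ ρ '' c := k3 ▸ (mem_coe.2 hs)
  obtain ⟨u, hu, rfl⟩ := this
  have a := rk_lt hc (bot_lt_iff_ne_bot.2 (by rintro rfl; exact k1 hu : u ≠ ⊥))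
  have b := rk_lt hc (lt_top_iff_ne_top.2 (by rintro rfl; exact k2 hu : u ≠ ⊤))
  rw [mem_Icc]; omega

end

end Pool.Agent.Lib.MP_685082_co.Cone
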