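import Pool.Agent.Lib.MP_685082_co.Par

/-! Statistics attached to pairs of atoms. -/

namespace Pool.Agent.Lib.MP_685082_co

open Finset

/-- numerical constraints on the statistics of a pair of atoms -/
structure Num (P S Q L K Φ : ℕ) : Prop where
  h1 : 2 * P + S = 2 * Q + Φ
  h2 : S + 2 * P ≤ P * (L + K)
  h3 : L ≤ Q
  h4 : 1 ≤ L → 2 ≤ Q
  h5 : 1 ≤ Q → 2 ≤ P
  h6 : 1 ≤ Φ → 2 ≤ K

namespace Num
variable {P S Q L K Φ : ℕ}

theorem lin (h : Num P S Q L K Φ) :
    (L + K ≤ 1 → P = 0) ∧ (L + K ≤ 2 → S = 0) ∧ (L + K ≤ 3 → S ≤ P) ∧ (L + K ≤ 4 → S ≤ 2 * P) ∧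
      (P ≤ 2 → S = 0 ∨ S + 4 ≤ 2 * (L + K)) := by
  have h2 := h.h2
  refine ⟨fun hh => ?_, fun hh => ?_, fun hh => ?_, fun hh => ?_, fun hh => ?_⟩
  · have := Nat.mul_le_mul_left P hh; omega
  · have := Nat.mul_le_mul_left P hh; omega
  · have := Nat.mul_le_mul_left P hh; omega
  · have := Nat.mul_le_mul_left P hh; omega
  · interval_cases P <;> omega

theorem pure1 (h : Num P S Q L K Φ) (hK : K = 0) (he : L = S / 2 + 1) :
    2 ≤ S / 2 ∧ L + 2 ≤ Q ∧ L + 5 ≤ S / 2 + Q := by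
  have := h.lin; have := h.h1; have := h.h3; have := h.h4; have := h.h5; have := h.h6; omega

theorem puren (h : Num P S Q L K Φ) (hK : K = 0) (he : L < S / 2) :
    4 ≤ S / 2 ∧ L + 4 ≤ Q := by
  have := h.lin; have := h.h1; have := h.h3; have := h.h4; have := h.h5; have := h.h6; omega

theorem semin (h : Num P S Q L K Φ) (hK : K ≤ 1) (he : L < S / 2) : 3 ≤ S / 2 := by
  have := h.lin; omega

theorem semi1 (h : Num P S Q L K Φ) (hK : K ≤ 1) (he : L = S / 2 + 1) : L + 1 ≤ Q := by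
  have := h.lin; have := h.h1; have := h.h3; have := h.h4; have := h.h5; have := h.h6; omega

theorem t2n (h : Num P S Q L K Φ) (hK : K = 2) (hΦ : Φ = 2) (he : L < S / 2) :
    2 ≤ S / 2 ∧ L + 3 ≤ Q ∧ L + 6 ≤ S / 2 + Q ∧ (L + 2 ≤ S / 2 → L + 7 ≤ S / 2 + Q) := by
  have := h.lin; have := h.h1; omega

theorem t3n (h : Num P S Q L K Φ) (hK : K = 3) (hΦ : Φ = 3) (he : L < S / 2) :
    1 ≤ S / 2 ∧ L + 3 ≤ Q ∧ L + 4 ≤ S / 2 + Q ∧ (L + 2 ≤ S / 2 → L + 5 ≤ S / 2 + Q) := by
  have := h.lin; have := h.h1; omega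

theorem tt1 (h : Num P S Q L K Φ) (he : L = S / 2 + 1) : L + 1 ≤ S / 2 + Q := by
  have := h.h3; have := h.h4; omega

end Num

theorem row_pairs {A X : Type} [Fintype A] [Fintype X] (ρ : A → X → Prop) (q : X → Prop)
    (h : ∀ x, q x → cnt (fun a => ρ a x) = 2) (a : A) (f : X → ℕ)
    [∀ b x, Decidable (a ≠ b ∧ ρ a x ∧ ρ b x ∧ q x)] [∀ x, Decidable (ρ a x ∧ q x)] :
    ∑ b, ∑ x, (if a ≠ b ∧ ρ a x ∧ ρ b x ∧ q x then f x else 0)
      = ∑ x, if ρ a x ∧ q x then f x else 0 := by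
  rw [sum_comm]
  refine sum_congr rfl fun x _ => ?_
  rw [sum_ite_const]
  split_ifs with hh
  · obtain ⟨b, hb, hb'⟩ := cnt_two_of (h x hh.2) hh.1
    rw [cnt_single b, mul_one]
    intro c
    constructor
    · rintro ⟨h1, -, h2, -⟩
      rcases (hb' c).1 h2 with rfl | rfl
      · exact absurd rfl h1
      · rfl
    · rintro rfl
      exact ⟨hb.symm, hh.1, (hb' c).2 (Or.inr rfl), hh.2⟩
  · rw [cnt_zero.2 (by tauto), mul_zero]

theorem row_pairs_cnt {A X : Type} [Fintype A] [Fintype X] (ρ : A → X → Prop) (q : X → Prop)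
    (h : ∀ x, q x → cnt (fun a => ρ a x) = 2) (a : A) :
    ∑ b, cnt (fun x => a ≠ b ∧ ρ a x ∧ ρ b x ∧ q x) = cnt fun x => ρ a x ∧ q x := by
  classical
  simp only [cnt_sum]
  exact row_pairs ρ q h a fun _ => 1

namespace Core
variable (C : Core)

noncomputable def sz (z : C.Z) : ℕ := cnt fun a => C.az a z
noncomputable def sw (w : C.W) : ℕ := cnt fun a => C.aw a w
noncomputable def ry (y : C.Y) : ℕ := cnt fun w => C.yw y w
noncomputable def P (a b : C.A) : ℕ := cnt fun y => a ≠ b ∧ C.ay a y ∧ C.ay b y ∧ True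
noncomputable def L (a b : C.A) : ℕ := cnt fun w => a ≠ b ∧ C.aw a w ∧ C.aw b w ∧ C.sw w = 2
noncomputable def K (a b : C.A) : ℕ := cnt fun w => a ≠ b ∧ C.aw a w ∧ C.aw b w ∧ C.sw w ≠ 2
noncomputable def Q (a b : C.A) : ℕ := cnt fun z => a ≠ b ∧ C.az a z ∧ C.az b z ∧ C.sz z = 2
noncomputable def φ (a b : C.A) (z : C.Z) : ℕ :=
  cnt fun y => a ≠ b ∧ C.ay a y ∧ C.ay b y ∧ C.yz y z
noncomputable def Φ (a b : C.A) : ℕ := ∑ z, if C.sz z = 2 then 0 else C.φ a b z
open Classical in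
noncomputable def S (a b : C.A) : ℕ :=
  ∑ y, if a ≠ b ∧ C.ay a y ∧ C.ay b y ∧ True then C.ry y - 2 else 0
noncomputable def FW (a : C.A) : ℕ := cnt fun w => C.aw a w ∧ C.sw w ≠ 2
noncomputable def FZ (a : C.A) : ℕ := cnt fun z => C.az a z ∧ C.sz z ≠ 2
noncomputable def kW : ℕ := cnt fun w => C.sw w ≠ 2
noncomputable def kZ : ℕ := cnt fun z => C.sz z ≠ 2

variable {C}

theorem L_symm (a b : C.A) : C.L a b = C.L b a := cnt_congr fun _ => by tauto
theorem K_symm (a b : C.A) : C.K a b = C.K b a := cnt_congr fun _ => by tauto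
theorem Q_symm (a b : C.A) : C.Q a b = C.Q b a := cnt_congr fun _ => by tauto
theorem φ_symm (a b : C.A) (z) : C.φ a b z = C.φ b a z := cnt_congr fun _ => by tauto
theorem Φ_symm (a b : C.A) : C.Φ a b = C.Φ b a := by simp only [Φ, φ_symm a b]
theorem S_symm (a b : C.A) : C.S a b = C.S b a := by
  classical
  exact sum_congr rfl fun _ _ => if_congr (by tauto) rfl rfl
theorem L_diag (a : C.A) : C.L a a = 0 := cnt_zero.2 (by simp)
theorem S_diag (a : C.A) : C.S a a = 0 := by simp [S]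
theorem Φ_diag (a : C.A) : C.Φ a a = 0 := by
  simp [Φ, φ, cnt_zero]

theorem two_le_sz (z : C.Z) : 2 ≤ C.sz z := two_le_col z
theorem two_le_sw (w : C.W) : 2 ≤ C.sw w := two_le_NW w
theorem two_le_ry (y : C.Y) : 2 ≤ C.ry y := two_le_row y
theorem sz_le_sw {z w} (h : C.zw z w) : C.sz z ≤ C.sw w := cnt_mono fun _ ha => aw_of' ha h

theorem az_of_sw_le {z w} (h : C.zw z w) (hle : C.sw w ≤ C.sz z) {a} (ha : C.aw a w) : C.az a z :=
  eq_of_cnt_le (p := fun a => C.az a z) (q := fun a => C.aw a w) (fun _ ha => aw_of' ha h) hle a ha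

theorem φ_pos {a b : C.A} {z} (h : 0 < C.φ a b z) : a ≠ b ∧ C.az a z ∧ C.az b z := by
  obtain ⟨y, h1, h2, h3, h4⟩ := cnt_pos.1 h
  exact ⟨h1, az_of h2 h4, az_of h3 h4⟩

open Classical in
theorem φ_thin {a b : C.A} {z} (h : C.sz z = 2) :
    C.φ a b z = if a ≠ b ∧ C.az a z ∧ C.az b z ∧ C.sz z = 2 then 2 else 0 := by
  split_ifs with hh
  · rw [← h, sz, col_eq]
    refine cnt_congr fun y => ⟨fun hy => hy.2.2.2, fun hy => ?_⟩
    have := eq_of_cnt_le (p := fun a => C.ay a y) (q := fun a => C.az a z)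
      (fun a ha => az_of ha hy) (by rw [C.hy]; exact h.le)
    exact ⟨hh.1, this a hh.2.1, this b hh.2.2.1, hy⟩
  · by_contra hc
    have := φ_pos (Nat.pos_of_ne_zero hc)
    tauto

theorem sum_φ (a b : C.A) : 2 * C.P a b + C.S a b = ∑ z, C.φ a b z := by
  classical
  unfold φ
  rw [← cnt_comm fun y z => a ≠ b ∧ C.ay a y ∧ C.ay b y ∧ C.yz y z, P, ← sum_ite_const, S,
    ← sum_add_distrib]
  refine sum_congr rfl fun y _ => ?_
  split_ifs with h
  · have := two_le_ry y
    rw [cnt_congr (q := fun z => C.yz y z) (by tauto), ← row_eq]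
    unfold ry at *; omega
  · exact (cnt_zero.2 (by tauto)).symm

theorem num (a b : C.A) :
    Num (C.P a b) (C.S a b) (C.Q a b) (C.L a b) (C.K a b) (C.Φ a b) := by
  classical
  have thin : ∀ w z, a ≠ b ∧ C.aw a w ∧ C.aw b w ∧ C.sw w = 2 → C.zw z w →
      a ≠ b ∧ C.az a z ∧ C.az b z ∧ C.sz z = 2 := by
    intro w z h hz
    have h1 := two_le_sz z
    have h2 := sz_le_sw hz
    exact ⟨h.1, az_of_sw_le hz (by omega) h.2.1, az_of_sw_le hz (by omega) h.2.2.1, by omega⟩
  refine ⟨?_, ?_, ?_, ?_, ?_, ?_⟩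
  · rw [sum_φ, Q, ← sum_ite_const, Φ, ← sum_add_distrib]
    refine sum_congr rfl fun z _ => ?_
    by_cases h : C.sz z = 2
    · rw [φ_thin h, if_pos h]; congr
    · simp [h]
  · rw [mul_comm (C.P a b), P, ← sum_ite_const, ← sum_ite_const, S, ← sum_add_distrib]
    refine sum_le_sum fun y _ => ?_
    split_ifs with h
    · have h1 := two_le_ry y
      have h2 : C.ry y ≤ cnt fun w => a ≠ b ∧ C.aw a w ∧ C.aw b w :=
        cnt_mono fun w hw => ⟨h.1, aw_of h.2.1 hw, aw_of h.2.2.1 hw⟩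
      rw [cnt_split _ (fun w => C.sw w = 2)] at h2
      simp only [and_assoc] at h2
      unfold L K
      simp only [ne_eq] at h2 ⊢
      omega
    · simp
  · have h1 := cnt_comm fun w z => (a ≠ b ∧ C.aw a w ∧ C.aw b w ∧ C.sw w = 2) ∧ C.zw z w
    have h2 : 2 * C.L a b ≤
        ∑ w, cnt fun z => (a ≠ b ∧ C.aw a w ∧ C.aw b w ∧ C.sw w = 2) ∧ C.zw z w := by
      rw [L, ← sum_ite_const]
      refine sum_le_sum fun w _ => ?_
      split_ifs with h
      · exact (two_le_degW w).trans (cnt_mono fun z hz => ⟨h, hz⟩)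
      · simp
    have h3 : (∑ z, cnt fun w => (a ≠ b ∧ C.aw a w ∧ C.aw b w ∧ C.sw w = 2) ∧ C.zw z w)
        ≤ 2 * C.Q a b := by
      rw [Q, ← sum_ite_const]
      refine sum_le_sum fun z _ => ?_
      split_ifs with h
      · rw [← C.hz z]; exact cnt_mono fun w hw => hw.2
      · exact (cnt_zero.2 fun w hw => h (thin w z hw.1 hw.2)).le
    omega
  · intro h
    obtain ⟨w, hw⟩ := cnt_pos.1 h
    exact (two_le_degW w).trans (cnt_mono fun z hz => thin w z hw hz)
  · intro h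
    obtain ⟨z, hz⟩ := cnt_pos.1 h
    have := φ_thin (a := a) (b := b) hz.2.2.2
    rw [if_pos hz] at this
    rw [← this]
    exact cnt_mono fun y hy => by tauto
  · intro h
    obtain ⟨z, -, hz⟩ := exists_ne_zero_of_sum_ne_zero (Nat.pos_iff_ne_zero.1 h)
    split_ifs at hz with h2
    · exact absurd rfl hz
    · have h3 := φ_pos (Nat.pos_of_ne_zero hz)
      rw [← C.hz z]
      refine cnt_mono fun w hw => ⟨h3.1, aw_of' h3.2.1 hw, aw_of' h3.2.2 hw, ?_⟩
      have := two_le_sz z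
      have := sz_le_sw hw
      omega

theorem row_S (a : C.A) : ∑ b, C.S a b + 4 = 2 * cnt fun w => C.aw a w := by
  classical
  unfold S
  have h0 := row_pairs C.ay (fun _ => True) (fun y _ => C.hy y) a fun y => C.ry y - 2
  have h1 := sum_col_below (C := C.dual) a
  have h2 := C.ea a
  have h3 : (∑ y, if C.ay a y ∧ True then C.ry y - 2 else 0) + 2 * cnt (fun y => C.ay a y)
      = 2 * cnt fun z => C.az a z := by
    refine Eq.trans ?_ h1
    rw [← sum_ite_const, ← sum_add_distrib]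
    refine sum_congr rfl fun y _ => ?_
    have := two_le_ry y
    have h5 := row_eq y
    by_cases h : C.ay a y
    · have h' : C.dual.zw y a := h
      rw [if_pos ⟨h, trivial⟩, if_pos h, if_pos h']
      show _ = cnt fun z => C.yz y z
      unfold ry at *; omega
    · have h' : ¬ C.dual.zw y a := h
      rw [if_neg (by tauto), if_neg h, if_neg h']
  convert_to (∑ b, ∑ x, if a ≠ b ∧ C.ay a x ∧ C.ay b x ∧ True then C.ry x - 2 else 0) + 4 = _
  omega

theorem row_L (a : C.A) : ∑ b, C.L a b + C.FW a = cnt fun w => C.aw a w := by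
  unfold L FW
  rw [row_pairs_cnt C.aw (fun w => C.sw w = 2) (fun w h => h) a,
    cnt_split (fun w => C.aw a w) (fun w => C.sw w = 2)]

theorem row_φ (a : C.A) (z : C.Z) : ∑ b, C.φ a b z = cnt fun y => C.ay a y ∧ C.yz y z :=
  row_pairs_cnt C.ay (fun y => C.yz y z) (fun y _ => C.hy y) a

theorem row_Φ (a : C.A) : ∑ b, C.Φ a b = 2 * C.FZ a := by
  classical
  unfold Φ
  rw [sum_comm, FZ, ← sum_ite_const]
  refine sum_congr rfl fun z _ => ?_
  by_cases h : C.sz z = 2
  · simp [h]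
  · simp only [h, if_false, row_φ, haz', ne_eq, not_false_eq_true, and_true]

theorem thin_sum {X : Type} [Fintype X] (ρ : C.A → X → Prop) :
    ∑ a, cnt (fun x => ρ a x ∧ cnt (fun a => ρ a x) = 2)
      = 2 * cnt fun x => cnt (fun a => ρ a x) = 2 := by
  classical
  rw [cnt_comm, ← sum_ite_const]
  refine sum_congr rfl fun x _ => ?_
  split_ifs with h
  · rw [← h]; exact cnt_congr (by simp [h])
  · exact cnt_zero.2 (by simp [h])

theorem tot_L : ∑ a, ∑ b, C.L a b + 2 * C.kW = 2 * C.m := by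
  unfold L
  simp only [row_pairs_cnt C.aw (fun w => C.sw w = 2) (fun w h => h)]
  have h1 := thin_sum C.aw
  have h2 := cnt_split (fun _ : C.W => True) (fun w => C.sw w = 2)
  rw [cnt_true] at h2
  simp only [true_and] at h2
  unfold kW m sw at *
  simp only [ne_eq]
  omega

theorem tot_Q : ∑ a, ∑ b, C.Q a b + 2 * C.kZ = 2 * C.f3 := by
  unfold Q
  simp only [row_pairs_cnt C.az (fun w => C.sz w = 2) (fun w h => h)]
  have h1 := thin_sum C.az
  have h2 := cnt_split (fun _ : C.Z => True) (fun w => C.sz w = 2)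
  rw [cnt_true] at h2
  simp only [true_and] at h2
  unfold kZ f3 sz at *
  simp only [ne_eq]
  omega

theorem tot_S : ∑ a, ∑ b, C.S a b + 4 * C.n = 2 * C.I := by
  have : ∑ a, (∑ b, C.S a b + 4) = ∑ a, 2 * cnt fun w => C.aw a w :=
    sum_congr rfl fun a _ => row_S a
  rw [sum_add_distrib, ← mul_sum] at this
  simpa [I, n, mul_comm] using this

theorem tot_FW : ∑ a, C.FW a + 2 * C.m = C.I + 2 * C.kW := by
  have h1 : ∑ a, (∑ b, C.L a b + C.FW a) = C.I := sum_congr rfl fun a _ => row_L a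
  rw [sum_add_distrib] at h1
  have := tot_L (C := C)
  omega

/-- the link equation of a coatom -/
theorem link_w (w : C.W) [DecidablePred fun z => C.zw z w] :
    (∑ z, if C.zw z w then C.sz z - 2 else 0) + 4 = 2 * C.sw w := by
  have h1 := sum_col_below w
  have h2 := C.ew w
  have h3 : (∑ z, if C.zw z w then C.sz z - 2 else 0) + 2 * cnt (fun z => C.zw z w)
      = 2 * cnt fun y => C.yw y w := by
    rw [← h1, ← sum_ite_const, ← sum_add_distrib]
    refine sum_congr rfl fun z _ => ?_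
    have := two_le_sz z
    have := col_eq z
    unfold sz at *
    split_ifs <;> omega
  unfold sw; omega

theorem tot_sz : ∑ z, (C.sz z - 2) + 2 * C.m = C.I := by
  have h1 : ∑ z, (C.sz z - 2 + 2) = C.J := by
    rw [← sum_az, cnt_comm]
    exact sum_congr rfl fun z _ => by have := two_le_sz z; unfold sz at *; omega
  rw [sum_add_distrib] at h1
  have := eqW (C := C)
  simp at h1
  unfold f3 at this
  omega

theorem tot_sw : ∑ w, (C.sw w - 2) + 2 * C.m = C.I := by
  have h1 : ∑ w, (C.sw w - 2 + 2) = C.I := by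
    rw [I, cnt_comm]
    exact sum_congr rfl fun z _ => by have := two_le_sw z; unfold sw at *; omega
  rw [sum_add_distrib] at h1
  simp at h1
  unfold m
  omega

/-- cut parity at a coatom -/
theorem cut_par (a b : C.A) (w : C.W) [DecidablePred fun z => C.zw z w] :
    (∑ z, if C.zw z w then (if C.sz z = 2 then 0 else C.φ a b z) else 0) % 2 = 0 := by
  classical
  have h1 := cnt_comm fun y z => (a ≠ b ∧ C.ay a y ∧ C.ay b y) ∧ C.yz y z ∧ C.zw z w
  have h2 : (∑ y, cnt fun z => (a ≠ b ∧ C.ay a y ∧ C.ay b y) ∧ C.yz y z ∧ C.zw z w) % 2 = 0 := by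
    rw [← Nat.dvd_iff_mod_eq_zero]
    refine dvd_sum fun y _ => ?_
    by_cases h : a ≠ b ∧ C.ay a y ∧ C.ay b y
    · rw [cnt_congr (q := fun z => C.yz y z ∧ C.zw z w) (by tauto), hyw']
      split_ifs <;> simp
    · rw [cnt_zero.2 (by tauto)]; simp
  rw [h1] at h2
  rw [Finset.sum_nat_mod] at h2 ⊢
  refine Eq.trans ?_ h2
  congr 1
  refine sum_congr rfl fun z _ => ?_
  by_cases hw : C.zw z w
  · rw [if_pos hw, cnt_congr (q := fun y => a ≠ b ∧ C.ay a y ∧ C.ay b y ∧ C.yz y z) (by tauto)]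
    split_ifs with h
    · show _ = C.φ a b z % 2
      rw [φ_thin h]; split_ifs <;> rfl
    · rfl
  · rw [if_neg hw, cnt_zero.2 (by tauto)]

open Classical in
theorem φ_tri {a b : C.A} {z} (h : C.sz z = 3) :
    C.φ a b z = if a ≠ b ∧ C.az a z ∧ C.az b z then 1 else 0 := by
  split_ifs with hh
  · have h' := h
    rw [sz, cnt_eq] at h'
    have hs : ({a, b} : Finset C.A) ⊆ univ.filter fun a => C.az a z := by
      intro x hx; simp at hx ⊢; rcases hx with rfl | rfl <;> tauto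
    obtain ⟨c, hc, hc'⟩ := (exists_eq_insert_iff (s := {a, b})).2
      ⟨hs, by rw [card_pair hh.1, h']⟩
    have hm : ∀ x, C.az x z ↔ x = c ∨ x = a ∨ x = b := fun x => by
      have := congrArg (x ∈ ·) hc'; simpa using this.symm
    simp at hc
    have key : ∀ x y w, x ≠ y → x ≠ w → y ≠ w → C.az x z → (∀ t, C.az t z → t = x ∨ t = y ∨ t = w) →
        C.φ x y z + C.φ x w z = 2 := by
      intro x y w h1 h2 h3 h4 h5
      have h6 := row_φ x z
      rw [C.haz x z h4, ← sum_subset (subset_univ {y, w}), sum_pair h3] at h6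
      · exact h6
      · intro t _ ht
        by_contra hc
        have := φ_pos (Nat.pos_of_ne_zero hc)
        simp at ht
        rcases h5 t this.2.2 with rfl | rfl | rfl <;> tauto
    have k1 := key a b c hh.1 (Ne.symm hc.1) (Ne.symm hc.2) hh.2.1 (fun t ht => by
      have := (hm t).1 ht; tauto)
    have k2 := key b a c (Ne.symm hh.1) (Ne.symm hc.2) (Ne.symm hc.1) hh.2.2 (fun t ht => by
      have := (hm t).1 ht; tauto)
    have k3 := key c a b hc.1 hc.2 hh.1 ((hm c).2 (Or.inl rfl)) (fun t ht => by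
      have := (hm t).1 ht; tauto)
    rw [φ_symm b a] at k2
    rw [φ_symm c a, φ_symm c b] at k3
    omega
  · by_contra hc
    exact hh (φ_pos (Nat.pos_of_ne_zero hc))

end Core

end Pool.Agent.Lib.MP_685082_co
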