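import Mathlib

/-! Layered data of a rank five Eulerian poset. -/

namespace Pool.Agent.Lib.MP_685082_co

open Finset

open Classical in
/-- number of points of a finite type with a property -/
noncomputable def cnt {α : Type} [Fintype α] (p : α → Prop) : ℕ := (univ.filter p).card

section cnt
variable {α β : Type} [Fintype α] [Fintype β]

theorem cnt_eq (p : α → Prop) [DecidablePred p] : cnt p = (univ.filter p).card := by
  unfold cnt; congr

theorem cnt_sum (p : α → Prop) [DecidablePred p] : cnt p = ∑ x, if p x then 1 else 0 := by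
  rw [cnt_eq, card_filter]

theorem cnt_congr {p q : α → Prop} (h : ∀ x, p x ↔ q x) : cnt p = cnt q := by
  have : p = q := funext fun x => propext (h x)
  rw [this]

theorem cnt_mono {p q : α → Prop} (h : ∀ x, p x → q x) : cnt p ≤ cnt q := by
  classical
  rw [cnt_eq, cnt_eq]
  exact card_le_card fun x hx => by simp at hx ⊢; exact h x hx

theorem cnt_pos {p : α → Prop} : 0 < cnt p ↔ ∃ x, p x := by
  classical
  rw [cnt_eq, card_pos]
  simp [Finset.Nonempty]

theorem cnt_zero {p : α → Prop} : cnt p = 0 ↔ ∀ x, ¬ p x := by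
  rw [← Nat.le_zero, ← not_lt, cnt_pos]; simp

theorem cnt_le_card (p : α → Prop) : cnt p ≤ Fintype.card α := by
  classical
  rw [cnt_eq]; exact card_le_univ _

theorem cnt_true : cnt (fun _ : α => True) = Fintype.card α := by
  classical
  rw [cnt_eq]; simp

theorem cnt_all {p : α → Prop} (h : ∀ x, p x) : cnt p = Fintype.card α := by
  rw [← cnt_true]; exact cnt_congr fun x => by simp [h x]

theorem cnt_single {p : α → Prop} (a : α) (h : ∀ x, p x ↔ x = a) : cnt p = 1 := by
  classical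
  rw [cnt_congr h, cnt_sum]; simp

theorem cnt_split (p q : α → Prop) :
    cnt p = cnt (fun x => p x ∧ q x) + cnt (fun x => p x ∧ ¬ q x) := by
  classical
  simp only [cnt_sum, ← sum_add_distrib]
  refine sum_congr rfl fun x _ => ?_
  by_cases hp : p x <;> by_cases hq : q x <;> simp [hp, hq]

theorem cnt_or {p q : α → Prop} (h : ∀ x, p x → q x → False) :
    cnt (fun x => p x ∨ q x) = cnt p + cnt q := by
  classical
  simp only [cnt_sum, ← sum_add_distrib]
  refine sum_congr rfl fun x _ => ?_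
  by_cases hp : p x <;> by_cases hq : q x <;> simp [hp, hq]
  exact h x hp hq

theorem cnt_option (p : Option α → Prop) [Decidable (p none)] :
    cnt p = (if p none then 1 else 0) + cnt fun x => p (some x) := by
  classical
  rw [cnt_sum, cnt_sum, Fintype.sum_option]
  congr

theorem cnt_sumType (p : α ⊕ β → Prop) :
    cnt p = (cnt fun x => p (Sum.inl x)) + cnt fun x => p (Sum.inr x) := by
  classical
  rw [cnt_sum, cnt_sum, cnt_sum, Fintype.sum_sum_type]

theorem cnt_comm (r : α → β → Prop) :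
    ∑ x, cnt (fun y => r x y) = ∑ y, cnt (fun x => r x y) := by
  classical
  simp only [cnt_sum]; exact sum_comm

theorem cnt_two {p : α → Prop} (h : cnt p = 2) :
    ∃ a b, a ≠ b ∧ ∀ x, p x ↔ x = a ∨ x = b := by
  classical
  rw [cnt_eq, card_eq_two] at h
  obtain ⟨a, b, hab, h⟩ := h
  refine ⟨a, b, hab, fun x => ?_⟩
  have := congrArg (x ∈ ·) h
  simpa using this

theorem cnt_two_of {p : α → Prop} (h : cnt p = 2) {a : α} (ha : p a) :
    ∃ b, b ≠ a ∧ ∀ x, p x ↔ x = a ∨ x = b := by
  obtain ⟨u, v, huv, hh⟩ := cnt_two h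
  rcases (hh a).1 ha with rfl | rfl
  · exact ⟨v, huv.symm, hh⟩
  · exact ⟨u, huv, fun x => by rw [hh, or_comm]⟩

theorem cnt_pair {p : α → Prop} {a b : α} (hab : a ≠ b) (h : ∀ x, p x ↔ x = a ∨ x = b) :
    cnt p = 2 := by
  rw [cnt_congr h, cnt_or (fun x h1 h2 => hab (h1.symm.trans h2)), 
    cnt_single (p := fun x => x = a) a (fun _ => Iff.rfl),
    cnt_single (p := fun x => x = b) b (fun _ => Iff.rfl)]

theorem eq_of_cnt_le {p q : α → Prop} (h : ∀ x, p x → q x) (hc : cnt q ≤ cnt p) :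
    ∀ x, q x → p x := by
  classical
  rw [cnt_eq, cnt_eq] at hc
  have := eq_of_subset_of_card_le (s := univ.filter p) (t := univ.filter q)
    (fun x hx => by simp at hx ⊢; exact h x hx) hc
  intro x hx
  have h2 : x ∈ univ.filter q := by simp [hx]
  rw [← this] at h2
  simpa using h2

theorem two_le_cnt {p : α → Prop} {a b : α} (hab : a ≠ b) (ha : p a) (hb : p b) : 2 ≤ cnt p := by
  rw [← cnt_pair hab (p := fun x => x = a ∨ x = b) (by simp)]
  exact cnt_mono (by rintro x (rfl | rfl) <;> assumption)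

theorem exists_ne_of_two_le {p : α → Prop} (h : 2 ≤ cnt p) (a : α) : ∃ b, b ≠ a ∧ p b := by
  by_contra hc
  push Not at hc
  have : cnt p ≤ cnt (fun x => x = a) := cnt_mono fun x hx => by
    by_contra hx'; exact hc x hx' hx
  rw [cnt_single (p := fun x => x = a) a (fun _ => Iff.rfl)] at this
  omega

theorem sum_ite_const (p : α → Prop) [DecidablePred p] (k : ℕ) :
    (∑ x, if p x then k else 0) = k * cnt p := by
  rw [cnt_sum, mul_sum]
  exact sum_congr rfl fun x _ => by split_ifs <;> simp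

end cnt

/-- The four proper ranks of a rank five Eulerian poset with their incidences. -/
structure Core where
  A : Type
  Y : Type
  Z : Type
  W : Type
  fA : Fintype A
  fY : Fintype Y
  fZ : Fintype Z
  fW : Fintype W
  ay : A → Y → Prop
  yz : Y → Z → Prop
  zw : Z → W → Prop
  az : A → Z → Prop
  yw : Y → W → Prop
  aw : A → W → Prop
  az_iff : ∀ a z, az a z ↔ ∃ y, ay a y ∧ yz y z
  yw_iff : ∀ y w, yw y w ↔ ∃ z, yz y z ∧ zw z w
  aw_iff : ∀ a w, aw a w ↔ ∃ y, ay a y ∧ yw y w
  hy : ∀ y, cnt (fun a => ay a y) = 2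
  hz : ∀ z, cnt (fun w => zw z w) = 2
  haz : ∀ a z, az a z → cnt (fun y => ay a y ∧ yz y z) = 2
  hyw : ∀ y w, yw y w → cnt (fun z => yz y z ∧ zw z w) = 2
  ny : ∀ y, ∃ z, yz y z
  nz : ∀ z, ∃ y, yz y z
  ea : ∀ a, cnt (fun y => ay a y) + cnt (fun w => aw a w) = 2 + cnt (fun z => az a z)
  ew : ∀ w, cnt (fun z => zw z w) + cnt (fun a => aw a w) = 2 + cnt (fun y => yw y w)

attribute [instance] Core.fA Core.fY Core.fZ Core.fW

namespace Core
variable (C : Core)

theorem aw_iff' (a : C.A) (w : C.W) : C.aw a w ↔ ∃ z, C.az a z ∧ C.zw z w := by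
  rw [C.aw_iff]
  constructor
  · rintro ⟨y, h1, h2⟩
    obtain ⟨z, h3, h4⟩ := (C.yw_iff y w).1 h2
    exact ⟨z, (C.az_iff a z).2 ⟨y, h1, h3⟩, h4⟩
  · rintro ⟨z, h1, h2⟩
    obtain ⟨y, h3, h4⟩ := (C.az_iff a z).1 h1
    exact ⟨y, h3, (C.yw_iff y w).2 ⟨z, h4, h2⟩⟩

/-- the order dual -/
def dual : Core where
  A := C.W
  Y := C.Z
  Z := C.Y
  W := C.A
  fA := C.fW
  fY := C.fZ
  fZ := C.fY
  fW := C.fA
  ay w z := C.zw z w
  yz z y := C.yz y z
  zw y a := C.ay a y
  az w y := C.yw y w
  yw z a := C.az a z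
  aw w a := C.aw a w
  az_iff w y := by rw [C.yw_iff]; simp only [and_comm]
  yw_iff z a := by rw [C.az_iff]; simp only [and_comm]
  aw_iff w a := by rw [C.aw_iff']; simp only [and_comm]
  hy := C.hz
  hz := C.hy
  haz w y h := by rw [← C.hyw y w h]; exact cnt_congr fun z => and_comm
  hyw z a h := by rw [← C.haz a z h]; exact cnt_congr fun y => and_comm
  ny := C.nz
  nz := C.ny
  ea := C.ew
  ew := C.ea

noncomputable def n : ℕ := Fintype.card C.A
noncomputable def m : ℕ := Fintype.card C.W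
noncomputable def f2 : ℕ := Fintype.card C.Y
noncomputable def f3 : ℕ := Fintype.card C.Z
noncomputable def I : ℕ := ∑ a, cnt fun w => C.aw a w
noncomputable def J : ℕ := ∑ y, cnt fun z => C.yz y z

@[simp] theorem dual_n : C.dual.n = C.m := rfl
@[simp] theorem dual_m : C.dual.m = C.n := rfl
@[simp] theorem dual_f2 : C.dual.f2 = C.f3 := rfl
@[simp] theorem dual_f3 : C.dual.f3 = C.f2 := rfl
@[simp] theorem dual_I : C.dual.I = C.I := (cnt_comm C.aw).symm
@[simp] theorem dual_J : C.dual.J = C.J := (cnt_comm C.yz).symm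

variable {C}

theorem az_of {a y z} (h1 : C.ay a y) (h2 : C.yz y z) : C.az a z := (C.az_iff a z).2 ⟨y, h1, h2⟩
theorem yw_of {y z w} (h1 : C.yz y z) (h2 : C.zw z w) : C.yw y w := (C.yw_iff y w).2 ⟨z, h1, h2⟩
theorem aw_of {a y w} (h1 : C.ay a y) (h2 : C.yw y w) : C.aw a w := (C.aw_iff a w).2 ⟨y, h1, h2⟩
theorem aw_of' {a z w} (h1 : C.az a z) (h2 : C.zw z w) : C.aw a w :=
  (C.aw_iff' a w).2 ⟨z, h1, h2⟩

open Classical in
theorem haz' (a : C.A) (z : C.Z) :
    cnt (fun y => C.ay a y ∧ C.yz y z) = if C.az a z then 2 else 0 := by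
  split_ifs with h
  · exact C.haz a z h
  · exact cnt_zero.2 fun y hy => h (az_of hy.1 hy.2)

open Classical in
theorem hyw' (y : C.Y) (w : C.W) :
    cnt (fun z => C.yz y z ∧ C.zw z w) = if C.yw y w then 2 else 0 :=
  (cnt_congr fun _ => and_comm).trans (haz' (C := C.dual) w y)

/-- a rank three element has as many atoms as rank two elements below it -/
theorem col_eq (z : C.Z) : cnt (fun a => C.az a z) = cnt (fun y => C.yz y z) := by
  classical
  have h := cnt_comm fun a y => C.ay a y ∧ C.yz y z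
  simp only [haz'] at h
  rw [sum_ite_const] at h
  have h2 : ∀ y, cnt (fun a => C.ay a y ∧ C.yz y z) = if C.yz y z then 2 else 0 := by
    intro y
    split_ifs with hh
    · rw [← C.hy y]; exact cnt_congr (by simp [hh])
    · exact cnt_zero.2 (by simp [hh])
  simp only [h2] at h
  rw [sum_ite_const] at h
  omega

theorem row_eq (y : C.Y) : cnt (fun w => C.yw y w) = cnt (fun z => C.yz y z) :=
  col_eq (C := C.dual) y

theorem ex_ay (a : C.A) : ∃ y, C.ay a y := by
  by_contra h
  push Not at h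
  have h1 := C.ea a
  rw [cnt_zero.2 h, (cnt_zero (p := fun w => C.aw a w)).2
    (fun w hw => by obtain ⟨y, hy, -⟩ := (C.aw_iff a w).1 hw; exact h y hy)] at h1
  omega

theorem ex_zw (w : C.W) : ∃ z, C.zw z w := ex_ay (C := C.dual) w

theorem ex_ay' (y : C.Y) : ∃ a, C.ay a y := cnt_pos.1 (by rw [C.hy]; norm_num)
theorem ex_zw' (z : C.Z) : ∃ w, C.zw z w := cnt_pos.1 (by rw [C.hz]; norm_num)

theorem two_le_col (z : C.Z) : 2 ≤ cnt (fun a => C.az a z) := by
  obtain ⟨y, hy⟩ := C.nz z
  rw [← C.hy y]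
  exact cnt_mono fun a ha => az_of ha hy

theorem two_le_row (y : C.Y) : 2 ≤ cnt (fun w => C.yw y w) := two_le_col (C := C.dual) y

theorem two_le_degA (a : C.A) : 2 ≤ cnt (fun y => C.ay a y) := by
  obtain ⟨y, hy⟩ := ex_ay a
  obtain ⟨z, hz⟩ := C.ny y
  rw [← C.haz a z (az_of hy hz)]
  exact cnt_mono fun _ h => h.1

theorem two_le_degW (w : C.W) : 2 ≤ cnt (fun z => C.zw z w) := two_le_degA (C := C.dual) w

theorem two_le_NA (a : C.A) : 2 ≤ cnt (fun w => C.aw a w) := by
  obtain ⟨y, hy⟩ := ex_ay a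
  exact (two_le_row y).trans (cnt_mono fun w hw => aw_of hy hw)

theorem two_le_NW (w : C.W) : 2 ≤ cnt (fun a => C.aw a w) := two_le_NA (C := C.dual) w

theorem sum_degA : ∑ a, cnt (fun y => C.ay a y) = 2 * C.f2 := by
  rw [cnt_comm]; simp [C.hy, f2, mul_comm]

theorem sum_az : ∑ a, cnt (fun z => C.az a z) = C.J := by
  rw [cnt_comm, J, cnt_comm C.yz]; simp [col_eq]

theorem eqA : 2 * C.f2 + C.I = 2 * C.n + C.J := by
  have h : ∑ a, (cnt (fun y => C.ay a y) + cnt (fun w => C.aw a w))
      = ∑ a, (2 + cnt (fun z => C.az a z)) := sum_congr rfl fun a _ => C.ea a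
  rw [sum_add_distrib, sum_add_distrib, sum_degA, sum_az] at h
  simpa [I, n, mul_comm] using h

theorem eqW : 2 * C.f3 + C.I = 2 * C.m + C.J := by
  have := eqA (C := C.dual); simpa using this

theorem n_le_f2 : C.n ≤ C.f2 := by
  have h : ∑ _a : C.A, 2 ≤ ∑ a, cnt (fun y => C.ay a y) := sum_le_sum fun a _ => two_le_degA a
  rw [sum_degA] at h
  simp at h
  unfold n; omega

theorem two_n_le : 2 * C.n ≤ C.I := by
  have h : ∑ _a : C.A, 2 ≤ ∑ a, cnt (fun w => C.aw a w) := sum_le_sum fun a _ => two_le_NA a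
  simp at h
  unfold n I; omega

theorem two_m_le : 2 * C.m ≤ C.I := by
  have := two_n_le (C := C.dual); simpa using this

theorem I_le : C.I ≤ C.n * C.m := by
  have h : ∑ a, cnt (fun w => C.aw a w) ≤ ∑ _a : C.A, Fintype.card C.W :=
    sum_le_sum fun a _ => cnt_le_card _
  simpa [I, n, m] using h

/-- the middle of an atom-coatom interval -/
theorem mid_eq (a : C.A) (w : C.W) :
    cnt (fun y => C.ay a y ∧ C.yw y w) = cnt (fun z => C.az a z ∧ C.zw z w) := by
  classical
  have h := cnt_comm fun y z => C.ay a y ∧ C.yz y z ∧ C.zw z w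
  have h1 : ∀ y, cnt (fun z => C.ay a y ∧ C.yz y z ∧ C.zw z w)
      = if C.ay a y ∧ C.yw y w then 2 else 0 := by
    intro y
    by_cases ha : C.ay a y
    · simp only [ha, true_and]; exact hyw' y w
    · simp only [ha, false_and]; exact cnt_zero.2 (by simp)
  have h2 : ∀ z, cnt (fun y => C.ay a y ∧ C.yz y z ∧ C.zw z w)
      = if C.az a z ∧ C.zw z w then 2 else 0 := by
    intro z
    by_cases ha : C.zw z w
    · simp only [ha, and_true]; exact haz' a z
    · simp only [ha, and_false]; exact cnt_zero.2 (by simp)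
  simp only [h1, h2] at h
  rw [sum_ite_const, sum_ite_const] at h
  omega

/-- the sum of column sizes below a coatom -/
theorem sum_col_below (w : C.W) [DecidablePred fun z => C.zw z w] :
    (∑ z, if C.zw z w then cnt (fun y => C.yz y z) else 0) = 2 * cnt (fun y => C.yw y w) := by
  classical
  have h := cnt_comm fun y z => C.yz y z ∧ C.zw z w
  simp only [hyw'] at h
  rw [sum_ite_const] at h
  rw [h]
  refine sum_congr rfl fun z _ => ?_
  split_ifs with hh
  · exact cnt_congr (by simp [hh])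
  · exact (cnt_zero.2 (by simp [hh])).symm

end Core

/-- the parameter vectors that occur -/
def Ach (n m t I : ℕ) : Prop :=
  ∃ C : Core, C.n = n ∧ C.m = m ∧ C.f2 = n + t ∧ C.I = I

theorem Ach.symm {n m t I : ℕ} (h : Ach n m t I) : Ach m n t I := by
  obtain ⟨C, h1, h2, h3, h4⟩ := h
  refine ⟨C.dual, by simpa, by simpa, ?_, by simpa⟩
  have := Core.eqA (C := C); have := Core.eqW (C := C)
  simp; omega

end Pool.Agent.Lib.MP_685082_co
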