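import Mathlib

/-! Definitions used in the statement. -/

namespace Pool.Agent.Lib.MP_685082_co

/-- `v` (restricted to subsets of `{1, …, n}`) is the flag f-vector of an Eulerian poset of
rank `n + 1`. -/
def IsFlagVec (n : ℕ) (v : Finset ℕ → ℤ) : Prop :=
  ∃ (P : Type) (_ : Finite P) (_ : PartialOrder P) (_ : BoundedOrder P) (ρ : P → ℕ),
    ρ ⊥ = 0 ∧ ρ ⊤ = n + 1 ∧ (∀ x y, x ⋖ y → ρ y = ρ x + 1) ∧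
    (∀ x y, x < y →
      {z | x ≤ z ∧ z ≤ y ∧ Even (ρ z)}.ncard = {z | x ≤ z ∧ z ≤ y ∧ Odd (ρ z)}.ncard) ∧
    ∀ S ⊆ Finset.Icc 1 n,
      v S = {c : Set P | IsChain (· ≤ ·) c ∧ ⊥ ∉ c ∧ ⊤ ∉ c ∧ ρ '' c = S}.ncard

/-- The closed form condition; `p = min (f1, f4)`, `M = max (f1, f4)`, `t = f2 - f1`,
`I = f14`. -/
def Cond (p M t I : ℕ) : Prop :=
  2 ≤ p ∧ 2 * M ≤ I ∧ I ≤ p * M ∧ I ≠ 2 * M + 1 ∧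
  (p % 2 = 1 → I = 2 * M → p + 6 ≤ M ∧ 6 ≤ t ∧ p + 15 ≤ M + t) ∧
  (p % 2 = 0 → I = 2 * M + 2 → p + 3 ≤ M ∧ 6 ≤ t ∧ p + 12 ≤ M + t) ∧
  (p % 2 = 0 → I = 2 * M + 3 → p + 2 ≤ M ∧ 6 ≤ t ∧ p + 9 ≤ M + t) ∧
  (p % 2 = 1 → M = p → I = 2 * M + 4 → 7 ≤ t) ∧
  (p % 2 = 1 → M ≤ p + 1 → I = 2 * M + 5 → 6 ≤ t) ∧
  (p = 4 → I % 2 = 1 → I ≤ 3 * M + 1 → 2 ≤ t) ∧
  (t = 0 →
    (I + 1 ≠ p * M ∧ I + 2 ≠ p * M ∧ I + 3 ≠ p * M ∧ I + 5 ≠ p * M ∧ I + 7 ≠ p * M ∧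
      I + 11 ≠ p * M) ∧
    (p = 3 → I = 3 * M) ∧ (p = 4 → I % 2 = 0) ∧ (p = 5 → M ≤ 8 → I ≠ 2 * M + 7) ∧
    (p = 6 → I % 2 = 1 → I % 3 = 0 ∧ (I = 3 * M ∨ 3 * M + 6 ≤ I)) ∧
    (p = 6 → M = 6 → I ≠ 22 ∧ I ≠ 26) ∧ (p = 8 → M = 8 → I % 6 ≠ 5) ∧
    (p % 2 = 0 → M = p → I ≠ 2 * M + 7))

end Pool.Agent.Lib.MP_685082_co
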