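import Pool.Agent.Lib.MP_685082_co.Cls

/-! The defect function on pairs of atoms, and the case where all coatoms have at most
three atoms. -/

namespace Pool.Agent.Lib.MP_685082_co

open Finset

namespace Core
variable (C : Core)

noncomputable def l (a b : C.A) : ℤ := C.L a b
noncomputable def u (a b : C.A) : ℤ := (C.S a b / 2 : ℕ)
noncomputable def v (a b : C.A) : ℤ := (C.Q a b : ℤ) - C.L a b

variable {C}

theorem l_symm (a b : C.A) : C.l a b = C.l b a := by simp only [l, L_symm a b]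
theorem u_symm (a b : C.A) : C.u a b = C.u b a := by simp only [u, S_symm a b]
theorem v_symm (a b : C.A) : C.v a b = C.v b a := by simp only [v, L_symm a b, Q_symm a b]
theorem l_diag (a : C.A) : C.l a a = 0 := by simp [l, L_diag]
theorem u_diag (a : C.A) : C.u a a = 0 := by simp [u, S_diag]
theorem l_nonneg (a b : C.A) : 0 ≤ C.l a b := by simp [l]
theorem u_nonneg (a b : C.A) : 0 ≤ C.u a b := Int.natCast_nonneg _
theorem v_nonneg (a b : C.A) : 0 ≤ C.v a b := by have := (num a b).h3; unfold v; omega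

theorem tot_v : ∑ a, ∑ b, C.v a b = 2 * ((C.f3 : ℤ) - C.m - C.kZ + C.kW) := by
  have h1 := tot_L (C := C)
  have h2 := tot_Q (C := C)
  simp only [v, sum_sub_distrib]
  zify at h1 h2
  omega

theorem cnt_erase {T : C.A → Prop} (hT : cnt T = 3) {a} (ha : T a) :
    cnt (fun b => a ≠ b ∧ T b) = 2 := by
  rw [cnt_split T (fun b => a = b), cnt_single a] at hT
  · rw [cnt_congr (q := fun b => T b ∧ ¬ a = b) (by tauto)]; omega
  · intro x; constructor
    · exact fun h => h.2.symm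
    · rintro rfl; exact ⟨ha, rfl⟩

open Classical in
/-- `T` is empty or a triple and describes the parity of `Φ` -/
def Par (T : C.A → Prop) : Prop :=
  ((∀ a, ¬ T a) ∨ cnt T = 3) ∧ ∀ a b, C.Φ a b % 2 = if a ≠ b ∧ T a ∧ T b then 1 else 0

open Classical in
theorem row_u {T : C.A → Prop} (h : Par T) (a : C.A) :
    ∑ b, C.u a b + 2 + (if T a then 1 else 0) = cnt fun w => C.aw a w := by
  have h1 := row_S a
  have h2 : ∑ b, C.S a b = 2 * ∑ b, C.S a b / 2 + ∑ b, if a ≠ b ∧ T a ∧ T b then 1 else 0 := by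
    rw [mul_sum, ← sum_add_distrib]
    refine sum_congr rfl fun b _ => ?_
    have := (num a b).h1
    have := h.2 a b
    omega
  rw [← cnt_sum] at h2
  have h3 : cnt (fun b => a ≠ b ∧ T a ∧ T b) = if T a then 2 else 0 := by
    split_ifs with ha
    · rcases h.1 with h4 | h4
      · exact absurd ha (h4 a)
      · rw [← cnt_erase h4 ha]; exact cnt_congr (by tauto)
    · exact cnt_zero.2 (by tauto)
  rw [h3] at h2
  simp only [u]
  rw [← Nat.cast_sum]
  split_ifs at h2 ⊢ <;> omega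

open Classical in
theorem row_eps {T : C.A → Prop} (h : Par T) (a : C.A) :
    ∑ b, (C.l a b - C.u a b) = 2 - C.FW a + if T a then 1 else 0 := by
  have h1 := row_u h a
  have h2 := row_L a
  rw [sum_sub_distrib]
  simp only [l]
  rw [← Nat.cast_sum]
  omega

theorem tot_u {T : C.A → Prop} (h : Par T) :
    ∑ a, ∑ b, C.u a b = (C.I : ℤ) - 2 * C.n - cnt T := by
  classical
  have h1 : ∑ a, (∑ b, C.u a b + 2 + (if T a then 1 else 0))
      = ∑ a, ((cnt fun w => C.aw a w : ℕ) : ℤ) := sum_congr rfl fun a _ => row_u h a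
  rw [sum_add_distrib, sum_add_distrib, ← Nat.cast_sum] at h1
  have h2 : (∑ a, if T a then (1 : ℤ) else 0) = cnt T := by rw [cnt_sum]; simp
  rw [h2] at h1
  simp at h1
  unfold I n
  push_cast
  omega

theorem tot_eps {T : C.A → Prop} (h : Par T) :
    ∑ a, ∑ b, (C.l a b - C.u a b)
      = 2 * (C.n : ℤ) + 2 * C.m - C.I - 2 * C.kW + cnt T := by
  simp only [sum_sub_distrib]
  rw [tot_u h]
  have h1 := tot_L (C := C)
  zify at h1
  simp only [l]
  omega

theorem K_zero {a b : C.A} (h : C.FW a = 0) : C.K a b = 0 := by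
  have : C.K a b ≤ C.FW a := cnt_mono fun w hw => ⟨hw.2.1, hw.2.2.2⟩
  omega

theorem pure_neg {a b : C.A} (h : C.K a b = 0) (he : C.l a b < C.u a b) :
    4 ≤ C.u a b ∧ 4 ≤ C.v a b := by
  unfold l u v at *
  have := (num a b).puren h (by omega); omega

theorem pure_one {a b : C.A} (h : C.K a b = 0) (he : C.l a b - C.u a b = 1) :
    2 ≤ C.u a b ∧ 2 ≤ C.v a b ∧ 5 ≤ C.u a b + C.v a b := by
  unfold l u v at *
  have := (num a b).pure1 h (by omega); omega

theorem semi_neg {a b : C.A} (h : C.K a b ≤ 1) (he : C.l a b < C.u a b) : 3 ≤ C.u a b := by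
  unfold l u at *
  have := (num a b).semin h (by omega); omega

theorem semi_one {a b : C.A} (h : C.K a b ≤ 1) (he : C.l a b - C.u a b = 1) : 1 ≤ C.v a b := by
  unfold l u v at *
  have := (num a b).semi1 h (by omega); omega

theorem three_le_K {a b : C.A} (h1 : 1 ≤ C.u a b) : 3 ≤ C.l a b + C.K a b := by
  unfold l u at *
  have := (num a b).lin; omega

theorem nine_le {a b : C.A} (h1 : C.u a b = 1) (h2 : C.l a b = 0) (h3 : C.K a b ≤ 3)
    (h4 : C.Φ a b % 2 = 1) : 9 ≤ 2 * C.v a b + C.Φ a b := by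
  unfold l u v at *
  have := (num a b).lin; have := (num a b).h1; omega

/-- number of fat rank three elements below a coatom with three atoms -/
theorem fat_two {w : C.W} (h : C.sw w = 3) : cnt (fun z => C.zw z w ∧ C.sz z ≠ 2) = 2 := by
  classical
  have h1 := link_w w
  rw [cnt_sum]
  have : (∑ z, if C.zw z w then C.sz z - 2 else 0)
      = ∑ z, if C.zw z w ∧ C.sz z ≠ 2 then 1 else 0 := by
    refine sum_congr rfl fun z _ => ?_
    by_cases hz : C.zw z w
    · have := sz_le_sw hz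
      have := two_le_sz z
      simp only [hz, true_and, if_true]
      split_ifs <;> omega
    · simp [hz]
  omega

theorem col_eq_of {z w} (h : C.zw z w) (hle : C.sw w ≤ C.sz z) (a) : C.aw a w ↔ C.az a z :=
  ⟨az_of_sw_le h hle, fun ha => aw_of' ha h⟩

theorem Φ_tri (h : ∀ z, C.sz z ≤ 3) (a b : C.A) :
    C.Φ a b = cnt fun z => C.sz z ≠ 2 ∧ a ≠ b ∧ C.az a z ∧ C.az b z := by
  classical
  rw [cnt_sum, Φ]
  refine sum_congr rfl fun z _ => ?_
  by_cases h2 : C.sz z = 2
  · simp [h2]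
  · have := two_le_sz z
    have := h z
    rw [if_neg h2, φ_tri (by omega)]
    simp only [ne_eq, h2, not_false_eq_true, true_and]

theorem kZ_tri (h : ∀ z, C.sz z ≤ 3) : C.kZ + 2 * C.m = C.I := by
  classical
  rw [← tot_sz, kZ, cnt_sum]
  congr 1
  refine sum_congr rfl fun z _ => ?_
  have := two_le_sz z
  have := h z
  split_ifs <;> omega

section AllTri
variable (h : ∀ w, C.sw w ≤ 3)
include h

theorem sz_le_three (z : C.Z) : C.sz z ≤ 3 := by
  obtain ⟨w, hw⟩ := ex_zw' z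
  exact (sz_le_sw hw).trans (h w)

theorem kW_tri : C.kW + 2 * C.m = C.I := by
  classical
  rw [← tot_sw, kW, cnt_sum]
  congr 1
  refine sum_congr rfl fun z _ => ?_
  have := two_le_sw z
  have := h z
  split_ifs <;> omega

theorem Φ_eq_K (a b : C.A) : C.Φ a b = C.K a b := by
  classical
  rw [Φ_tri (sz_le_three h)]
  have h1 := cnt_comm fun z w => (C.sz z ≠ 2 ∧ a ≠ b ∧ C.az a z ∧ C.az b z) ∧ C.zw z w
  have h2 : ∀ z, cnt (fun w => (C.sz z ≠ 2 ∧ a ≠ b ∧ C.az a z ∧ C.az b z) ∧ C.zw z w)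
      = if C.sz z ≠ 2 ∧ a ≠ b ∧ C.az a z ∧ C.az b z then 2 else 0 := by
    intro z
    split_ifs with hh
    · exact (cnt_congr (by tauto)).trans (C.hz z)
    · exact cnt_zero.2 (by tauto)
  have h3 : ∀ w, cnt (fun z => (C.sz z ≠ 2 ∧ a ≠ b ∧ C.az a z ∧ C.az b z) ∧ C.zw z w)
      = if a ≠ b ∧ C.aw a w ∧ C.aw b w ∧ C.sw w ≠ 2 then 2 else 0 := by
    intro w
    have := h w
    have := two_le_sw w
    split_ifs with hh
    · refine (cnt_congr fun z => ⟨by tauto, fun hz => ?_⟩).trans (fat_two (w := w) (by omega))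
      have := two_le_sz z
      exact ⟨⟨hz.2, hh.1, az_of_sw_le hz.1 (by omega) hh.2.1,
        az_of_sw_le hz.1 (by omega) hh.2.2.1⟩, hz.1⟩
    · refine cnt_zero.2 fun z hz => hh ⟨hz.1.2.1, aw_of' hz.1.2.2.1 hz.2, aw_of' hz.1.2.2.2 hz.2, ?_⟩
      have := two_le_sz z
      have := sz_le_sw hz.2
      omega
  simp only [h2, h3] at h1
  rw [sum_ite_const, sum_ite_const] at h1
  unfold K
  omega

theorem group_two {w : C.W} (hw : C.sw w ≠ 2) :
    2 ≤ cnt fun w' => (fun a => C.aw a w') = (fun a => C.aw a w) ∧ C.sw w' ≠ 2 := by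
  have h1 := h w
  have h2 := two_le_sw w
  obtain ⟨z, hz1, hz2⟩ := cnt_pos.1 (by rw [fat_two (w := w) (by omega)]; norm_num :
    0 < cnt (fun z => C.zw z w ∧ C.sz z ≠ 2))
  have h3 := two_le_sz z
  refine (C.hz z).ge.trans (cnt_mono fun w' hw' => ⟨?_, ?_⟩)
  · funext a
    have := h w'
    rw [col_eq_of hw' (by omega), col_eq_of hz1 (by omega)]
  · have := sz_le_sw hw'; omega

open Classical in
theorem groups (hk : C.kW ≤ 5) : ∃ (T1 T2 : C.A → Prop) (k1 k2 : ℕ), k1 + k2 = C.kW ∧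
    (k1 = 0 ∨ (2 ≤ k1 ∧ cnt T1 = 3)) ∧ (k2 = 0 ∨ (2 ≤ k1 ∧ 2 ≤ k2 ∧ cnt T2 = 3 ∧ T1 ≠ T2)) ∧
    ∀ q : (C.A → Prop) → Prop, cnt (fun w => q (fun a => C.aw a w) ∧ C.sw w ≠ 2)
      = (if q T1 then k1 else 0) + if q T2 then k2 else 0 := by
  by_cases h0 : ∀ w, ¬ C.sw w ≠ 2
  · refine ⟨fun _ => False, fun _ => False, 0, 0, (cnt_zero.2 h0).symm, Or.inl rfl, Or.inl rfl,
      fun q => ?_⟩
    rw [cnt_zero.2 fun w hw => h0 w hw.2]; simp
  push Not at h0
  obtain ⟨w1, hw1⟩ := h0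
  have c3 : ∀ w, C.sw w ≠ 2 → cnt (fun a => C.aw a w) = 3 := fun w hw => by
    have := h w; have := two_le_sw w; unfold sw at *; omega
  by_cases h1 : ∀ w, C.sw w ≠ 2 → (fun a => C.aw a w) = fun a => C.aw a w1
  · have e : cnt (fun w' => (fun a => C.aw a w') = (fun a => C.aw a w1) ∧ C.sw w' ≠ 2) = C.kW :=
      cnt_congr fun w => ⟨fun hw => hw.2, fun hw => ⟨h1 w hw, hw⟩⟩
    refine ⟨fun a => C.aw a w1, fun _ => False, C.kW, 0, rfl,
      Or.inr ⟨e ▸ group_two h hw1, c3 w1 hw1⟩, Or.inl rfl, fun q => ?_⟩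
    simp only [ite_self, add_zero]
    split_ifs with hq
    · exact cnt_congr fun w => ⟨fun hw => hw.2, fun hw => ⟨by rw [h1 w hw]; exact hq, hw⟩⟩
    · exact cnt_zero.2 fun w hw => hq (h1 w hw.2 ▸ hw.1)
  push Not at h1
  obtain ⟨w2, hw2, h12⟩ := h1
  have g1 := group_two h hw1
  have g2 := group_two h hw2
  have h2 : ∀ w, C.sw w ≠ 2 → (fun a => C.aw a w) = (fun a => C.aw a w1) ∨
      (fun a => C.aw a w) = fun a => C.aw a w2 := by
    intro w3 hw3
    by_contra hc
    push Not at hc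
    have g3 := group_two h hw3
    have : cnt (fun w => (((fun a => C.aw a w) = (fun a => C.aw a w1) ∧ C.sw w ≠ 2) ∨
        ((fun a => C.aw a w) = (fun a => C.aw a w2) ∧ C.sw w ≠ 2)) ∨
        ((fun a => C.aw a w) = (fun a => C.aw a w3) ∧ C.sw w ≠ 2)) ≤ C.kW :=
      cnt_mono fun w hw => by tauto
    rw [cnt_or, cnt_or] at this
    · omega
    · exact fun w a b => h12 (b.1.symm.trans a.1)
    · rintro w (a | a) b
      · exact hc.1 (b.1.symm.trans a.1)
      · exact hc.2 (b.1.symm.trans a.1)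
  have key : ∀ q : (C.A → Prop) → Prop, cnt (fun w => q (fun a => C.aw a w) ∧ C.sw w ≠ 2)
      = (if q (fun a => C.aw a w1) then
        cnt (fun w' => (fun a => C.aw a w') = (fun a => C.aw a w1) ∧ C.sw w' ≠ 2) else 0) +
        if q (fun a => C.aw a w2) then
        cnt (fun w' => (fun a => C.aw a w') = (fun a => C.aw a w2) ∧ C.sw w' ≠ 2) else 0 := by
    intro q
    rw [cnt_split _ (fun w => (fun a => C.aw a w) = fun a => C.aw a w1)]
    congr 1
    · split_ifs with hq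
      · exact cnt_congr fun w => ⟨fun hw => ⟨hw.2, hw.1.2⟩,
          fun hw => ⟨⟨by rw [hw.1]; exact hq, hw.2⟩, hw.1⟩⟩
      · exact cnt_zero.2 fun w hw => hq (hw.2 ▸ hw.1.1)
    · split_ifs with hq
      · exact cnt_congr fun w => ⟨fun hw => ⟨(h2 w hw.1.2).resolve_left hw.2, hw.1.2⟩,
          fun hw => ⟨⟨by rw [hw.1]; exact hq, hw.2⟩, by rw [hw.1]; exact h12⟩⟩
      · exact cnt_zero.2 fun w hw => hq ((h2 w hw.1.2).resolve_left hw.2 ▸ hw.1.1)
  refine ⟨_, _, _, _, ?_, Or.inr ⟨g1, c3 w1 hw1⟩, Or.inr ⟨g1, g2, c3 w2 hw2, Ne.symm h12⟩, key⟩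
  have := key fun _ => True
  simpa [kW] using this.symm

end AllTri

end Core

end Pool.Agent.Lib.MP_685082_co
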