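import Pool.Agent.Lib.MP_685082_co.Flag

/-! The sixteen flag numbers of a rank five Eulerian poset. -/

namespace Pool.Agent.Lib.MP_685082_co

open Finset

variable {P : Type} [Fintype P] [PartialOrder P] [BoundedOrder P] {ρ : P → ℕ} (h : Eul ρ)
include h

open Classical in
theorem Eul.step (S : Set ℕ) (k : ℕ) (hk : 0 < k) (hS : ∀ s ∈ S, s < k) (x : P) (hx : k < ρ x)
    [Fintype {x // ρ x = k}] :
    gch ρ (insert k S) x = ∑ u : {x // ρ x = k}, if u.1 ≤ x then gch ρ S u.1 else 0 := by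
  rw [gch_insert h.hc h.h0 S k hk hS, sum_subtype']
  refine sum_congr rfl fun u _ => if_congr ⟨fun hh => hh.1, fun hh => ⟨hh, ?_⟩⟩ rfl rfl
  intro h2
  have := u.2
  rw [h2] at this; omega

theorem Eul.step0 (k : ℕ) (hk : 0 < k) (x : P) (hx : k < ρ x) [Fintype {x // ρ x = k}] :
    gch ρ (insert k ∅) x = cnt fun u : {x // ρ x = k} => u.1 ≤ x := by
  classical
  rw [h.step ∅ k hk (by simp) x hx, cnt_sum]
  simp only [gch_empty]

theorem Eul.stepT (S : Set ℕ) (k : ℕ) (hk : 0 < k) (hS : ∀ s ∈ S, s < k) (hx : k < 5)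
    [Fintype {x // ρ x = k}] :
    gch ρ (insert k S) ⊤ = ∑ u : {x // ρ x = k}, gch ρ S u.1 := by
  classical
  rw [h.step S k hk hS ⊤ (h.h5 ▸ hx)]
  simp only [le_top, if_true]

theorem Eul.flags :
    gch ρ (insert 1 ∅) ⊤ = h.core.n ∧ gch ρ (insert 2 ∅) ⊤ = h.core.f2 ∧
    gch ρ (insert 3 ∅) ⊤ = h.core.f3 ∧ gch ρ (insert 4 ∅) ⊤ = h.core.m ∧
    gch ρ (insert 2 (insert 1 ∅)) ⊤ = 2 * h.core.f2 ∧
    gch ρ (insert 3 (insert 1 ∅)) ⊤ = h.core.J ∧
    gch ρ (insert 4 (insert 1 ∅)) ⊤ = h.core.I ∧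
    gch ρ (insert 3 (insert 2 ∅)) ⊤ = h.core.J ∧
    gch ρ (insert 4 (insert 2 ∅)) ⊤ = h.core.J ∧
    gch ρ (insert 4 (insert 3 ∅)) ⊤ = 2 * h.core.f3 ∧
    gch ρ (insert 3 (insert 2 (insert 1 ∅))) ⊤ = 2 * h.core.J ∧
    gch ρ (insert 4 (insert 2 (insert 1 ∅))) ⊤ = 2 * h.core.J ∧
    gch ρ (insert 4 (insert 3 (insert 1 ∅))) ⊤ = 2 * h.core.J ∧
    gch ρ (insert 4 (insert 3 (insert 2 ∅))) ⊤ = 2 * h.core.J ∧
    gch ρ (insert 4 (insert 3 (insert 2 (insert 1 ∅)))) ⊤ = 4 * h.core.J := by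
  classical
  set C := h.core with hC
  have y1 : ∀ y : C.Y, gch ρ (insert 1 ∅) y.1 = 2 := fun y =>
    (h.step0 1 (by omega) y.1 (by rw [y.2]; omega)).trans (C.hy y)
  have z2 : ∀ z : C.Z, gch ρ (insert 2 ∅) z.1 = cnt fun y => C.yz y z := fun z =>
    h.step0 2 (by omega) z.1 (by rw [z.2]; omega)
  have z1 : ∀ z : C.Z, gch ρ (insert 1 ∅) z.1 = cnt fun y => C.yz y z := fun z =>
    (h.step0 1 (by omega) z.1 (by rw [z.2]; omega)).trans (Core.col_eq z)
  have w1 : ∀ w : C.W, gch ρ (insert 1 ∅) w.1 = cnt fun a => C.aw a w := fun w =>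
    h.step0 1 (by omega) w.1 (by rw [w.2]; omega)
  have w2 : ∀ w : C.W, gch ρ (insert 2 ∅) w.1 = cnt fun a => C.yw a w := fun w =>
    h.step0 2 (by omega) w.1 (by rw [w.2]; omega)
  have w3 : ∀ w : C.W, gch ρ (insert 3 ∅) w.1 = cnt fun a => C.zw a w := fun w =>
    h.step0 3 (by omega) w.1 (by rw [w.2]; omega)
  have z21 : ∀ z : C.Z, gch ρ (insert 2 (insert 1 ∅)) z.1 = 2 * cnt fun y => C.yz y z := by
    intro z
    rw [h.step _ 2 (by omega) (by simp) z.1 (by rw [z.2]; omega), ← sum_ite_const]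
    exact sum_congr rfl fun y _ => if_congr Iff.rfl (y1 y) rfl
  have w21 : ∀ z : C.W, gch ρ (insert 2 (insert 1 ∅)) z.1 = 2 * cnt fun y => C.yw y z := by
    intro z
    rw [h.step _ 2 (by omega) (by simp) z.1 (by rw [z.2]; omega), ← sum_ite_const]
    exact sum_congr rfl fun y _ => if_congr Iff.rfl (y1 y) rfl
  have w31 : ∀ z : C.W, gch ρ (insert 3 (insert 1 ∅)) z.1 = 2 * cnt fun y => C.yw y z := by
    intro z
    rw [h.step _ 3 (by omega) (by simp) z.1 (by rw [z.2]; omega), ← Core.sum_col_below]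
    exact sum_congr rfl fun y _ => if_congr Iff.rfl (z1 y) rfl
  have w32 : ∀ z : C.W, gch ρ (insert 3 (insert 2 ∅)) z.1 = 2 * cnt fun y => C.yw y z := by
    intro z
    rw [h.step _ 3 (by omega) (by simp) z.1 (by rw [z.2]; omega), ← Core.sum_col_below]
    exact sum_congr rfl fun y _ => if_congr Iff.rfl (z2 y) rfl
  have w321 : ∀ z : C.W,
      gch ρ (insert 3 (insert 2 (insert 1 ∅))) z.1 = 2 * (2 * cnt fun y => C.yw y z) := by
    intro z
    rw [h.step _ 3 (by omega) (by simp) z.1 (by rw [z.2]; omega), ← Core.sum_col_below, mul_sum]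
    refine sum_congr rfl fun y _ => ?_
    rw [mul_ite, mul_zero]
    exact if_congr Iff.rfl (z21 y) rfl
  have sJ : ∑ z, cnt (fun y => C.yz y z) = C.J := (cnt_comm C.yz).symm
  have sJ' : ∑ w, cnt (fun y => C.yw y w) = C.J :=
    (Core.sum_az (C := C.dual)).trans C.dual_J
  have sI : ∑ w, cnt (fun a => C.aw a w) = C.I := (cnt_comm C.aw).symm
  have sD : ∑ w, cnt (fun z => C.zw z w) = 2 * C.f3 := Core.sum_degA (C := C.dual)
  refine ⟨?_, ?_, ?_, ?_, ?_, ?_, ?_, ?_, ?_, ?_, ?_, ?_, ?_, ?_, ?_⟩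
  · exact (h.step0 1 (by omega) ⊤ (by rw [h.h5]; omega)).trans (cnt_all fun _ => le_top)
  · exact (h.step0 2 (by omega) ⊤ (by rw [h.h5]; omega)).trans (cnt_all fun _ => le_top)
  · exact (h.step0 3 (by omega) ⊤ (by rw [h.h5]; omega)).trans (cnt_all fun _ => le_top)
  · exact (h.step0 4 (by omega) ⊤ (by rw [h.h5]; omega)).trans (cnt_all fun _ => le_top)
  · refine (h.stepT _ 2 (by omega) (by simp) (by omega)).trans
      ((sum_congr rfl fun y _ => y1 y).trans ?_)
    simp [Core.f2, mul_comm]; rfl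
  · exact (h.stepT _ 3 (by omega) (by simp) (by omega)).trans
      ((sum_congr rfl fun y _ => z1 y).trans sJ)
  · exact (h.stepT _ 4 (by omega) (by simp) (by omega)).trans
      ((sum_congr rfl fun y _ => w1 y).trans sI)
  · exact (h.stepT _ 3 (by omega) (by simp) (by omega)).trans
      ((sum_congr rfl fun y _ => z2 y).trans sJ)
  · exact (h.stepT _ 4 (by omega) (by simp) (by omega)).trans
      ((sum_congr rfl fun y _ => w2 y).trans sJ')
  · exact (h.stepT _ 4 (by omega) (by simp) (by omega)).trans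
      ((sum_congr rfl fun y _ => w3 y).trans sD)
  · exact (h.stepT _ 3 (by omega) (by simp) (by omega)).trans
      ((sum_congr rfl fun y _ => z21 y).trans (by rw [← sJ, mul_sum]; rfl))
  · exact (h.stepT _ 4 (by omega) (by simp) (by omega)).trans
      ((sum_congr rfl fun y _ => w21 y).trans (by rw [← sJ', mul_sum]; rfl))
  · exact (h.stepT _ 4 (by omega) (by simp) (by omega)).trans
      ((sum_congr rfl fun y _ => w31 y).trans (by rw [← sJ', mul_sum]; rfl))
  · exact (h.stepT _ 4 (by omega) (by simp) (by omega)).trans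
      ((sum_congr rfl fun y _ => w32 y).trans (by rw [← sJ', mul_sum]; rfl))
  · refine (h.stepT _ 4 (by omega) (by simp) (by omega)).trans
      ((sum_congr rfl fun y _ => w321 y).trans ?_)
    rw [← sJ', mul_sum]
    exact sum_congr rfl fun y _ => by ring

end Pool.Agent.Lib.MP_685082_co
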