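import Pool.Agent.Lib.MP_685082_co.KGP

/-! Amalgamation of tagged posets. -/

namespace Pool.Agent.Lib.MP_685082_co.Cone

open Finset GP

section amalgam
variable {A T : Type} (Q : A → GP) (θ : ∀ a, (Q a).P → T)

/-- the tags of the nonzero elements below `x` -/
def tags (a : A) (x : (Q a).P) : Set T := {t | ∃ z, z ≠ ⊥ ∧ z ≤ x ∧ θ a z = t}

/-- the record of an element -/
def rcd (a : A) (x : (Q a).P) : T × Set T × ℕ × Option Lb × ℝ :=
  (θ a x, tags Q θ a x, (Q a).rk x, (Q a).col x, (Q a).wt x)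

/-- the code of an element -/
def code (a : A) (u : (Q a).P) : Set (T × Set T × ℕ × Option Lb × ℝ) :=
  {s | ∃ x, x ≠ ⊥ ∧ x ≤ u ∧ rcd Q θ a x = s}

variable {Q θ}

theorem rcd_tag {a a' : A} {x : (Q a).P} {x' : (Q a').P} (h : rcd Q θ a x = rcd Q θ a' x') :
    θ a x = θ a' x' := congrArg Prod.fst h

theorem rcd_tags {a a' : A} {x : (Q a).P} {x' : (Q a').P} (h : rcd Q θ a x = rcd Q θ a' x') :
    tags Q θ a x = tags Q θ a' x' := congrArg (fun s => s.2.1) h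

theorem code_bot (a : A) : code Q θ a ⊥ = ∅ := by
  ext s
  simp only [code, Set.mem_ofPred_eq, Set.mem_empty_iff_false, iff_false]
  rintro ⟨x, h1, h2, -⟩
  exact h1 (le_bot_iff.1 h2)

theorem rcd_mem {a : A} {x u : (Q a).P} (h1 : x ≠ ⊥) (h2 : x ≤ u) : rcd Q θ a x ∈ code Q θ a u :=
  ⟨x, h1, h2, rfl⟩

theorem code_mono {a : A} {x u : (Q a).P} (h : x ≤ u) : code Q θ a x ⊆ code Q θ a u := by
  rintro s ⟨z, h1, h2, h3⟩
  exact ⟨z, h1, h2.trans h, h3⟩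

theorem code_le_iff (hθ : ∀ a, Function.Injective (θ a)) {a : A} {x u : (Q a).P} :
    code Q θ a x ⊆ code Q θ a u ↔ x ≤ u := by
  refine ⟨fun h => ?_, code_mono⟩
  by_cases hx : x = ⊥
  · rw [hx]; exact bot_le
  · obtain ⟨z, -, h2, h3⟩ := h (rcd_mem hx le_rfl)
    rw [← hθ a (rcd_tag h3)]
    exact h2

theorem code_down (hθ : ∀ a, Function.Injective (θ a)) {a a' : A} {u : (Q a).P} {d : (Q a').P}
    (h : code Q θ a' d ⊆ code Q θ a u) : ∃ z, code Q θ a z = code Q θ a' d := by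
  by_cases hd : d = ⊥
  · exact ⟨⊥, by rw [hd, code_bot, code_bot]⟩
  obtain ⟨z, -, -, h3⟩ := h (rcd_mem hd le_rfl)
  refine ⟨z, Set.Subset.antisymm ?_ ?_⟩
  · rintro s ⟨w, w1, w2, rfl⟩
    have : θ a w ∈ tags Q θ a' d := by rw [← rcd_tags h3]; exact ⟨w, w1, w2, rfl⟩
    obtain ⟨x, x1, x2, x3⟩ := this
    obtain ⟨v, -, -, v3⟩ := h (rcd_mem x1 x2)
    have hv : v = w := hθ a ((rcd_tag v3).trans x3)
    exact ⟨x, x1, x2, by rw [← v3, hv]⟩
  · rintro s ⟨x, x1, x2, rfl⟩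
    obtain ⟨v, v1, -, v3⟩ := h (rcd_mem x1 x2)
    have : θ a' x ∈ tags Q θ a z := by rw [rcd_tags h3]; exact ⟨x, x1, x2, rfl⟩
    obtain ⟨w, -, w2, w3⟩ := this
    have hv : v = w := hθ a ((rcd_tag v3).trans w3.symm)
    exact ⟨v, v1, hv ▸ w2, v3⟩

theorem code_eq (hθ : ∀ a, Function.Injective (θ a)) {a a' : A} {u : (Q a).P} {u' : (Q a').P}
    (h : code Q θ a u = code Q θ a' u') : (u = ⊥ ∧ u' = ⊥) ∨ rcd Q θ a u = rcd Q θ a' u' := by
  by_cases hu : u = ⊥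
  · refine Or.inl ⟨hu, ?_⟩
    by_contra hu'
    have := rcd_mem (Q := Q) (θ := θ) hu' le_rfl
    rw [← h, hu, code_bot] at this
    exact this
  right
  have h1 := rcd_mem (Q := Q) (θ := θ) hu le_rfl
  rw [h] at h1
  obtain ⟨x', x1, x2, x3⟩ := h1
  have hu' : u' ≠ ⊥ := fun e => x1 (le_bot_iff.1 (e ▸ x2))
  have h2 := rcd_mem (Q := Q) (θ := θ) hu' le_rfl
  rw [← h] at h2
  obtain ⟨x, y1, y2, y3⟩ := h2
  have : θ a x ∈ tags Q θ a' x' := by rw [rcd_tags x3]; exact ⟨x, y1, y2, rfl⟩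
  obtain ⟨w, -, w2, w3⟩ := this
  have hw : w = u' := hθ a' (w3.trans (rcd_tag y3))
  have : x' = u' := le_antisymm x2 (hw ▸ w2)
  rw [← x3, this]

theorem ie_below {Q0 R : GP} (i : IE Q0 R) {x : Q0.P} {z : R.P} (h1 : z ≠ ⊥) (h2 : z ≤ i.f x) :
    ∃ w, w ≠ ⊥ ∧ w ≤ x ∧ i.f w = z := by
  obtain ⟨w, rfl⟩ := i.down x z h2
  exact ⟨w, fun e => h1 (by rw [e, i.bot]), (i.le_iff _ _).1 h2, rfl⟩

theorem ie_ne_bot {Q0 R : GP} (i : IE Q0 R) {x : Q0.P} (h : x ≠ ⊥) : i.f x ≠ ⊥ :=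
  fun e => h (i.inj (e.trans i.bot.symm))

theorem tags_sub {a a' : A} {Q0 : GP} (i : IE Q0 (Q a)) (i' : IE Q0 (Q a'))
    (h : ∀ x, θ a (i.f x) = θ a' (i'.f x)) (x : Q0.P) :
    tags Q θ a (i.f x) ⊆ tags Q θ a' (i'.f x) := by
  rintro t ⟨z, z1, z2, rfl⟩
  obtain ⟨w, w1, w2, rfl⟩ := ie_below i z1 z2
  exact ⟨i'.f w, ie_ne_bot i' w1, (i'.le_iff _ _).2 w2, (h w).symm⟩

theorem rcd_ie {a a' : A} {Q0 : GP} (i : IE Q0 (Q a)) (i' : IE Q0 (Q a'))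
    (h : ∀ x, θ a (i.f x) = θ a' (i'.f x)) (x : Q0.P) :
    rcd Q θ a (i.f x) = rcd Q θ a' (i'.f x) := by
  have ht := Set.Subset.antisymm (tags_sub i i' h x) (tags_sub i' i (fun x => (h x).symm) x)
  simp only [rcd, h x, ht, i.rk, i'.rk, i.col, i'.col, i.wt, i'.wt]

theorem code_sub {a a' : A} {Q0 : GP} (i : IE Q0 (Q a)) (i' : IE Q0 (Q a'))
    (h : ∀ x, θ a (i.f x) = θ a' (i'.f x)) (x : Q0.P) :
    code Q θ a (i.f x) ⊆ code Q θ a' (i'.f x) := by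
  rintro t ⟨z, z1, z2, rfl⟩
  obtain ⟨w, w1, w2, rfl⟩ := ie_below i z1 z2
  exact ⟨i'.f w, ie_ne_bot i' w1, (i'.le_iff _ _).2 w2, (rcd_ie i i' h w).symm⟩

variable (Q θ)

/-- the set of all codes -/
def Codes : Type := {s // ∃ p : Σ a, (Q a).P, code Q θ p.1 p.2 = s}

/-- a chosen element with the given code -/
noncomputable def Codes.rep (s : Codes Q θ) : Σ a, (Q a).P := s.2.choose

theorem Codes.rep_spec (s : Codes Q θ) : code Q θ s.rep.1 s.rep.2 = s.1 := s.2.choose_spec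

instance : PartialOrder (Codes Q θ) := Subtype.partialOrder _

instance [Fintype A] : Finite (Codes Q θ) :=
  Finite.of_surjective (fun p : Σ a, (Q a).P => (⟨code Q θ p.1 p.2, p, rfl⟩ : Codes Q θ))
    (fun s => ⟨s.rep, Subtype.ext s.rep_spec⟩)

instance [hA : Nonempty A] : OrderBot (Codes Q θ) where
  bot := ⟨∅, ⟨hA.some, ⊥⟩, code_bot _⟩
  bot_le := fun s => Set.empty_subset s.1

/-- the amalgam -/
noncomputable def amY [Fintype A] [Nonempty A] : GP where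
  P := Codes Q θ
  fin := Fintype.ofFinite _
  rk := fun s => (Q s.rep.1).rk s.rep.2
  col := fun s => (Q s.rep.1).col s.rep.2
  wt := fun s => (Q s.rep.1).wt s.rep.2

/-- the embeddings into the amalgam -/
noncomputable def amE [Fintype A] [Nonempty A] (hQ : ∀ a, (Q a).Good)
    (hθ : ∀ a, Function.Injective (θ a)) (a : A) : IE (Q a) (amY Q θ) where
  f := fun x => (⟨code Q θ a x, ⟨a, x⟩, rfl⟩ : Codes Q θ)
  le_iff := fun _ _ => code_le_iff hθ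
  down := fun b y h => by
    have h' : code Q θ y.rep.1 y.rep.2 ⊆ code Q θ a b := by rw [y.rep_spec]; exact h
    obtain ⟨z, hz⟩ := code_down hθ h'
    exact ⟨z, Subtype.ext (hz.trans y.rep_spec)⟩
  rk := fun x => by
    rcases code_eq hθ (Codes.rep_spec Q θ ⟨code Q θ a x, ⟨a, x⟩, rfl⟩) with ⟨h1, h2⟩ | h
    · exact (congrArg _ h1).trans ((hQ _).rk_bot.trans (by rw [h2, (hQ a).rk_bot]))
    · exact congrArg (fun s => s.2.2.1) h
  col := fun x => by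
    rcases code_eq hθ (Codes.rep_spec Q θ ⟨code Q θ a x, ⟨a, x⟩, rfl⟩) with ⟨h1, h2⟩ | h
    · exact (congrArg _ h1).trans ((hQ _).col_bot.trans (by rw [h2, (hQ a).col_bot]))
    · exact congrArg (fun s => s.2.2.2.1) h
  wt := fun x => by
    rcases code_eq hθ (Codes.rep_spec Q θ ⟨code Q θ a x, ⟨a, x⟩, rfl⟩) with ⟨h1, h2⟩ | h
    · exact (congrArg _ h1).trans ((hQ _).wt_bot.trans (by rw [h2, (hQ a).wt_bot]))
    · exact congrArg (fun s => s.2.2.2.2) h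

end amalgam

theorem amalg {A T : Type} [Fintype A] [Nonempty A] (Q : A → GP) (hQ : ∀ a, (Q a).Good)
    (θ : ∀ a, (Q a).P → T) (hθ : ∀ a, Function.Injective (θ a)) :
    ∃ (Y : GP) (e : ∀ a, IE (Q a) Y), (∀ y, ∃ a x, (e a).f x = y) ∧
      (∀ a x a' x', (e a).f x = (e a').f x' → x = ⊥ ∨ θ a x = θ a' x') ∧
      ∀ a a' (Q0 : GP) (i : IE Q0 (Q a)) (i' : IE Q0 (Q a')),
        (∀ x, θ a (i.f x) = θ a' (i'.f x)) → ∀ x, (e a).f (i.f x) = (e a').f (i'.f x) := by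
  refine ⟨amY Q θ, amE Q θ hQ hθ, fun y => ?_, fun a x a' x' h => ?_, fun a a' Q0 i i' h x => ?_⟩
  · exact ⟨(Codes.rep Q θ y).1, (Codes.rep Q θ y).2, Subtype.ext (Codes.rep_spec Q θ y)⟩
  · rcases code_eq hθ (congrArg Subtype.val h) with ⟨h1, -⟩ | h1
    · exact Or.inl h1
    · exact Or.inr (rcd_tag h1)
  · exact Subtype.ext
      (Set.Subset.antisymm (code_sub i i' h x) (code_sub i' i (fun x => (h x).symm) x))

open Classical in
/-- copies of the posets `Q i` glued along the complements of the upper sets `U i` -/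
structure Built {ι : Type} (Q : ι → GP) (U : ∀ i, Set (Q i).P) (Γ : Type) [Fintype Γ] (R : ℝ)
    (n : ι → ℕ) where
  Y : GP
  e : ∀ i, Γ → Fin (n i) → IE (Q i) Y
  B : Set Y.P
  cover : ∀ y, ∃ i g c x, (e i g c).f x = y
  mem_B : ∀ i g c x, (e i g c).f x ∈ B ↔ x ∉ U i
  priv : ∀ i g c x i' g' c' x', x ∈ U i → (e i g c).f x = (e i' g' c').f x' →
    (⟨i, g, c⟩ : Σ i, Γ × Fin (n i)) = ⟨i', g', c'⟩
  small_wt : (∑ y, if y ∈ B then Y.wt y else 0) ≤ R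
  small_card : (∑ y, if y ∈ B then (1 : ℝ) else 0) ≤ R
  unif : ∀ (Q0 : GP) (x0 : Q0.P), (∀ x, x ≤ x0) → ∀ i i' (j : IE Q0 (Q i)) (j' : IE Q0 (Q i')),
    j.f x0 ∉ U i → j'.f x0 ∉ U i' → ∀ c c' u,
      (∑ g, if (e i g c).f (j.f x0) = u then (1 : ℝ) else 0) =
        ∑ g, if (e i' g c').f (j'.f x0) = u then (1 : ℝ) else 0

theorem build {ι : Type} [Fintype ι] [Nonempty ι] (Q : ι → GP) (hQ : ∀ i, (Q i).Good)
    (U : ∀ i, Set (Q i).P) (hU : ∀ i, IsUpperSet (U i)) (h0 : ∀ i, ⊥ ∉ U i) :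
    ∃ (Γ : Type) (_ : Fintype Γ) (_ : Nonempty Γ) (R : ℝ), 0 ≤ R ∧
      ∀ n : ι → ℕ, (∀ i, 0 < n i) → Nonempty (Built Q U Γ R n) := by
  classical
  let T : Type := Σ i, (Q i).P
  refine ⟨Equiv.Perm T, inferInstance, inferInstance,
    ∑ p : Equiv.Perm T × T, ((Q p.2.1).wt p.2.2 + 1),
    sum_nonneg fun p _ => by linarith [(hQ p.2.1).wt_pos p.2.2], fun n hn => ?_⟩
  let A : Type := Σ i, Equiv.Perm T × Fin (n i)
  have : Nonempty A := ⟨⟨Classical.arbitrary ι, 1, ⟨0, hn _⟩⟩⟩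
  let θ : ∀ a : A, (Q a.1).P → T ⊕ (A × T) := fun a x =>
    if x ∈ U a.1 then Sum.inr (a, ⟨a.1, x⟩) else Sum.inl (a.2.1 ⟨a.1, x⟩)
  have hin : ∀ (a : A) x, x ∈ U a.1 → θ a x = Sum.inr (a, ⟨a.1, x⟩) := fun a x h => if_pos h
  have hout : ∀ (a : A) x, x ∉ U a.1 → θ a x = Sum.inl (a.2.1 ⟨a.1, x⟩) := fun a x h => if_neg h
  have hθ : ∀ a, Function.Injective (θ a) := by
    intro a x y h
    by_cases hx : x ∈ U a.1 <;> by_cases hy : y ∈ U a.1
    · rw [hin a x hx, hin a y hy] at h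
      exact sigma_mk_injective (β := fun i => (Q i).P) (congrArg Prod.snd (Sum.inr.inj h))
    · rw [hin a x hx, hout a y hy] at h; cases h
    · rw [hout a x hx, hin a y hy] at h; cases h
    · rw [hout a x hx, hout a y hy] at h
      exact sigma_mk_injective (β := fun i => (Q i).P) (a.2.1.injective (Sum.inl.inj h))
  obtain ⟨Y, e, hc, ht, hg⟩ := amalg (fun a : A => Q a.1) (fun a => hQ a.1) θ hθ
  let B : Set Y.P := {y | ∃ (a : A) (x : (Q a.1).P), x ∉ U a.1 ∧ (e a).f x = y}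
  have hsame : ∀ (i : ι) (g : Equiv.Perm T) (c c' : Fin (n i)) (x : (Q i).P), x ∉ U i →
      (e ⟨i, g, c⟩).f x = (e ⟨i, g, c'⟩).f x := by
    intro i g c c' x hx
    refine hg ⟨i, g, c⟩ ⟨i, g, c'⟩ ((Q i).iic x) (IE.ofIic _ x) (IE.ofIic _ x) (fun z => ?_)
      ⟨x, le_rfl⟩
    have hz : z.1 ∉ U i := fun hz => hx (hU i z.2 hz)
    exact (hout ⟨i, g, c⟩ z.1 hz).trans (hout ⟨i, g, c'⟩ z.1 hz).symm
  let φ : Equiv.Perm T × T → Y.P := fun p => (e ⟨p.2.1, p.1, ⟨0, hn _⟩⟩).f p.2.2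
  have hsm : ∀ F : Y.P → ℝ, (∀ y, 0 ≤ F y) →
      (∑ y, @ite ℝ (y ∈ B) (Classical.propDecidable _) (F y) 0) ≤ ∑ p, F (φ p) := by
    intro F hF
    rw [← @sum_filter _ _ _ _ _ (fun _ => Classical.propDecidable _)]
    refine le_trans (sum_le_sum_of_subset_of_nonneg (t := univ.image φ) ?_ fun y _ _ => hF y)
      (sum_image_le_of_nonneg fun y _ => hF y)
    intro y hy
    obtain ⟨⟨i, g, c⟩, x, h1, rfl⟩ :=
      ((@mem_filter _ _ (fun _ => Classical.propDecidable _) _ _).1 hy).2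
    exact mem_image.2 ⟨(g, ⟨i, x⟩), mem_univ _, hsame i g _ c x h1⟩
  refine ⟨⟨Y, fun i g c => e ⟨i, g, c⟩, B, fun y => ?_,
    fun i g c x => ⟨?_, fun h => ⟨⟨i, g, c⟩, x, h, rfl⟩⟩,
    fun i g c x i' g' c' x' hx h => ?_, ?_, ?_, ?_⟩⟩
  · obtain ⟨⟨i, g, c⟩, x, h⟩ := hc y
    exact ⟨i, g, c, x, h⟩
  · rintro ⟨a, x', h1, h2⟩ hx
    rcases ht _ _ _ _ h2.symm with h | h
    · exact h0 i (h ▸ hx)
    · rw [hin ⟨i, g, c⟩ x hx, hout a x' h1] at h; cases h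
  · rcases ht _ _ _ _ h with h1 | h1
    · exact absurd (h1 ▸ hx) (h0 i)
    · rw [hin ⟨i, g, c⟩ x hx] at h1
      by_cases hx' : x' ∈ U i'
      · rw [hin ⟨i', g', c'⟩ x' hx'] at h1
        exact congrArg Prod.fst (Sum.inr.inj h1)
      · rw [hout ⟨i', g', c'⟩ x' hx'] at h1; cases h1
  · refine (hsm Y.wt fun y => ?_).trans (sum_le_sum fun p _ => ?_)
    · obtain ⟨a, x, rfl⟩ := hc y
      rw [(e a).wt]
      exact ((hQ a.1).wt_pos x).le
    · have : Y.wt (φ p) = (Q p.2.1).wt p.2.2 := (e ⟨p.2.1, p.1, ⟨0, hn _⟩⟩).wt p.2.2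
      linarith
  · refine (hsm (fun _ => 1) fun _ => zero_le_one).trans (sum_le_sum fun p _ => ?_)
    linarith [(hQ p.2.1).wt_pos p.2.2]
  · intro Q0 x0 hx0 i i' j j' h1 h2 c c' u
    obtain ⟨g0, hg0⟩ := Equiv.Perm.exists_extending_pair
      (fun x : Q0.P => (⟨i', j'.f x⟩ : T)) (fun x : Q0.P => (⟨i, j.f x⟩ : T))
      (fun x y h => j'.inj (sigma_mk_injective (β := fun i => (Q i).P) h))
      (fun x y h => j.inj (sigma_mk_injective (β := fun i => (Q i).P) h))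
    rw [← Equiv.sum_comp (Equiv.mulRight g0)
      (fun g => if (e ⟨i', g, c'⟩).f (j'.f x0) = u then (1 : ℝ) else 0)]
    refine sum_congr rfl fun g _ => ?_
    have : (e ⟨i, g, c⟩).f (j.f x0) = (e ⟨i', g * g0, c'⟩).f (j'.f x0) := by
      refine hg ⟨i, g, c⟩ ⟨i', g * g0, c'⟩ Q0 j j' (fun z => ?_) x0
      have hz : j.f z ∉ U i := fun hz => h1 (hU i ((j.le_iff _ _).2 (hx0 z)) hz)
      have hz' : j'.f z ∉ U i' := fun hz => h2 (hU i' ((j'.le_iff _ _).2 (hx0 z)) hz)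
      rw [hout ⟨i, g, c⟩ _ hz, hout ⟨i', g * g0, c'⟩ _ hz']
      exact congrArg Sum.inl (congrArg g (hg0 z).symm)
    rw [this]
    rfl

section
variable {ι : Type} [Fintype ι] {Q : ι → GP} {U : ∀ i, Set (Q i).P} {Γ : Type} [Fintype Γ] {R : ℝ}
  {n : ι → ℕ} (b : Built Q U Γ R n)

theorem Built.lower (hU : ∀ i, IsUpperSet (U i)) : IsLowerSet b.B := by
  intro y' y hle hy'
  obtain ⟨i, g, c, x', rfl⟩ := b.cover y'
  obtain ⟨x, rfl⟩ := (b.e i g c).down x' y hle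
  exact (b.mem_B i g c x).2 fun hx =>
    (b.mem_B i g c x').1 hy' (hU i (((b.e i g c).le_iff _ _).1 hle) hx)

/-- everything above a private element lies in the same copy -/
theorem Built.above {i : ι} {g : Γ} {c : Fin (n i)} {x : (Q i).P} (hx : x ∈ U i) {y : b.Y.P}
    (h : (b.e i g c).f x ≤ y) : ∃ z, x ≤ z ∧ (b.e i g c).f z = y := by
  obtain ⟨i', g', c', x', rfl⟩ := b.cover y
  obtain ⟨z, hz⟩ := (b.e i' g' c').down x' _ h
  have he := b.priv i g c x i' g' c' z hx hz.symm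
  cases he
  exact ⟨x', ((b.e i g c).le_iff _ _).1 h, rfl⟩

theorem Built.up_priv {i : ι} (g : Γ) (c : Fin (n i)) {x : (Q i).P} (hx : x ∈ U i) :
    b.Y.up ((b.e i g c).f x) = (Q i).up x := by
  classical
  unfold GP.up
  rw [(b.e i g c).sum_eq]
  · refine sum_congr rfl fun a _ => ?_
    simp only [(b.e i g c).le_iff, (b.e i g c).sg]
  · intro y hy
    refine if_neg fun h => hy ?_
    obtain ⟨z, -, hz⟩ := b.above hx h
    exact ⟨z, hz⟩

open Classical in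
theorem Built.sum_split (F : b.Y.P → ℝ) :
    ∑ y, F y = (∑ y, if y ∈ b.B then F y else 0) +
      ∑ i, ∑ g, ∑ c, ∑ x, if x ∈ U i then F ((b.e i g c).f x) else 0 := by
  have h1 : ∑ y, F y = (∑ y, if y ∈ b.B then F y else 0) + ∑ y, if y ∉ b.B then F y else 0 := by
    rw [← sum_add_distrib]
    refine sum_congr rfl fun y _ => ?_
    by_cases h : y ∈ b.B <;> simp [h]
  rw [h1]
  congr 1
  have h2 : (∑ i, ∑ g, ∑ c, ∑ x, if x ∈ U i then F ((b.e i g c).f x) else 0) =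
      ∑ p : Σ i, Γ × Fin (n i) × (Q i).P,
        if p.2.2.2 ∈ U p.1 then F ((b.e p.1 p.2.1 p.2.2.1).f p.2.2.2) else 0 := by
    simp only [Fintype.sum_sigma, Fintype.sum_prod_type]
  rw [h2, ← sum_filter, ← sum_filter]
  symm
  refine sum_bij (fun p _ => (b.e p.1 p.2.1 p.2.2.1).f p.2.2.2) ?_ ?_ ?_ fun _ _ => rfl
  · intro p hp
    exact mem_filter.2 ⟨mem_univ _, fun h => (b.mem_B _ _ _ _).1 h (mem_filter.1 hp).2⟩
  · rintro ⟨i, g, c, x⟩ hp ⟨i', g', c', x'⟩ - h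
    have he := b.priv i g c x i' g' c' x' (mem_filter.1 hp).2 h
    cases he
    have hx : x = x' := (b.e i g c).inj h
    rw [hx]
  · intro y hy
    obtain ⟨i, g, c, x, rfl⟩ := b.cover y
    refine ⟨⟨i, g, c, x⟩, mem_filter.2 ⟨mem_univ _, ?_⟩, rfl⟩
    by_contra hx
    exact (mem_filter.1 hy).2 ((b.mem_B i g c x).2 hx)

end

end Pool.Agent.Lib.MP_685082_co.Cone
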