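import Pool.Agent.Lib.MP_685082_co.KDefs

/-! Basic facts on patterns and labels. -/

namespace Pool.Agent.Lib.MP_685082_co.Cone

open Finset

abbrev Lb : Type := Σ k, Pat k

/-- the bottom label -/
def b0 : Lb := ⟨0, true⟩

/-- subpatterns of labels -/
def Comp (k : ℕ) : Set (Pat k) := {q | ∃ h ∈ Lab k, q ∈ Sub h}

/-- valid labels of rank at most `k` -/
def Val (k : ℕ) : Set Lb := {h | h.1 ≤ k ∧ h.2 ∈ Lab h.1}

/-- the label of a pattern -/
def lb : {k : ℕ} → Pat k → Pat k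
  | 0, _ => true
  | _ + 1, (r, _) => (r, some id)

/-- the chain labels -/
noncomputable def ch : (k : ℕ) → Pat k
  | 0 => true
  | k + 1 => (Finsupp.single (ch k) 1, some id)

/-- pairing of a counting vector with a test function -/
noncomputable def pr (ν : Lb →₀ ℝ) (γ : Lb → ℝ) : ℝ := ν.sum fun h d => d * γ h

theorem pr_add (ν μ : Lb →₀ ℝ) (γ : Lb → ℝ) : pr (ν + μ) γ = pr ν γ + pr μ γ :=
  Finsupp.sum_add_index' (by simp) (by intros; ring)

theorem pr_zero (γ : Lb → ℝ) : pr 0 γ = 0 := by simp [pr]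

theorem pr_single (h : Lb) (c : ℝ) (γ : Lb → ℝ) : pr (Finsupp.single h c) γ = c * γ h :=
  Finsupp.sum_single_index (by simp)

theorem pr_smul (c : ℝ) (ν : Lb →₀ ℝ) (γ : Lb → ℝ) : pr (c • ν) γ = c * pr ν γ := by
  unfold pr
  rw [Finsupp.sum_smul_index' (by simp), Finsupp.mul_sum]
  exact Finsupp.sum_congr fun _ _ => by rw [smul_eq_mul, mul_assoc]

theorem pr_sum {ι : Type} (s : Finset ι) (ν : ι → Lb →₀ ℝ) (γ : Lb → ℝ) :
    pr (∑ i ∈ s, ν i) γ = ∑ i ∈ s, pr (ν i) γ := by
  classical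
  induction s using Finset.induction_on with
  | empty => simp [pr_zero]
  | insert a s ha ih => rw [sum_insert ha, sum_insert ha, pr_add, ih]

theorem pr_congr {ν : Lb →₀ ℝ} {γ γ' : Lb → ℝ} (h : ∀ g, ν g ≠ 0 → γ g = γ' g) :
    pr ν γ = pr ν γ' := by
  exact Finsupp.sum_congr fun g hg => by rw [h g (Finsupp.mem_support_iff.1 hg)]

open Classical in
theorem pr_ind (ν : Lb →₀ ℝ) (h : Lb) : pr ν (fun g => if g = h then 1 else 0) = ν h := by
  unfold pr Finsupp.sum
  simp only [mul_ite, mul_one, mul_zero, sum_ite_eq']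
  split_ifs with h1
  · rfl
  · exact (Finsupp.notMem_support_iff.1 h1).symm

theorem N_none {k : ℕ} (r : Pat k →₀ ℝ) : N (k := k + 1) (r, none) = 0 := rfl

theorem N_some {k : ℕ} (r : Pat k →₀ ℝ) (f : Pat k → Pat k) :
    N (k := k + 1) (r, some f) =
      Finsupp.single ⟨k + 1, (r, some id)⟩ 1 + ∑ q ∈ r.support, r q • N (f q) := rfl

theorem mem_sub_some {k : ℕ} {r : Pat k →₀ ℝ} {g : Pat k → Pat k} {p : Pat (k + 1)} :
    p ∈ Sub (k := k + 1) (r, some g) ↔ p = (r, none) ∨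
      ∃ f, p = (r, some f) ∧ ∀ q, f q ∈ Sub (g q) ∧ (r q = 0 → f q = g q) := Iff.rfl

theorem mem_sub_none {k : ℕ} {r : Pat k →₀ ℝ} {p : Pat (k + 1)} :
    p ∈ Sub (k := k + 1) (r, none) ↔ p = (r, none) := Iff.rfl

theorem poly_eq {k : ℕ} {L : Set (Pat k)} {r : Pat k →₀ ℝ} (hr : r ∈ Poly k L) (h : Lb)
    (ho : Odd (k + h.1)) :
    ∑ q ∈ r.support, r q * pr (N q) (fun g => (-1) ^ g.1 * N g.2 h) = 0 := by
  refine Eq.trans (sum_congr rfl fun q _ => ?_) (hr.2.2.2 h ho)
  unfold pr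
  rw [Finsupp.mul_sum]
  exact Finsupp.sum_congr fun _ _ => by ring

theorem sub_refl {k : ℕ} (p : Pat k) : p ∈ Sub p := by
  induction k with
  | zero => exact Or.inr rfl
  | succ k ih =>
    obtain ⟨r, _ | g⟩ := p
    · exact mem_sub_none.2 rfl
    · exact mem_sub_some.2 (Or.inr ⟨g, rfl, fun q => ⟨ih _, fun _ => rfl⟩⟩)

theorem sub_trans {k : ℕ} {p q r : Pat k} (h1 : q ∈ Sub p) (h2 : r ∈ Sub q) : r ∈ Sub p := by
  induction k with
  | zero =>
    rcases h2 with h2 | h2
    · exact Or.inl h2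
    · exact (show r = q from h2) ▸ h1
  | succ k ih =>
    obtain ⟨l, _ | g⟩ := p
    · obtain rfl := mem_sub_none.1 h1
      exact h2
    · rcases mem_sub_some.1 h1 with rfl | ⟨f, rfl, hf⟩
      · exact mem_sub_some.2 (Or.inl (mem_sub_none.1 h2))
      · rcases mem_sub_some.1 h2 with rfl | ⟨f', rfl, hf'⟩
        · exact mem_sub_some.2 (Or.inl rfl)
        · exact mem_sub_some.2 (Or.inr ⟨f', rfl, fun q =>
            ⟨ih (hf q).1 (hf' q).1, fun h => ((hf' q).2 h).trans ((hf q).2 h)⟩⟩)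

theorem lb_of_sub {k : ℕ} {p q : Pat k} (h : q ∈ Sub p) : lb q = lb p := by
  cases k with
  | zero => rfl
  | succ k =>
    obtain ⟨l, _ | g⟩ := p
    · obtain rfl := mem_sub_none.1 h
      rfl
    · rcases mem_sub_some.1 h with rfl | ⟨f, rfl, -⟩ <;> rfl

theorem lb_of_lab {k : ℕ} {h : Pat k} (hh : h ∈ Lab k) : lb h = h := by
  cases k with
  | zero => exact (show h = true from hh).symm
  | succ k =>
    obtain ⟨r, -, rfl⟩ := hh
    rfl

theorem comp_of_lab {k : ℕ} {h : Pat k} (hh : h ∈ Lab k) : h ∈ Comp k := ⟨h, hh, sub_refl h⟩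

theorem comp_sub {k : ℕ} {p q : Pat k} (hp : p ∈ Comp k) (h : q ∈ Sub p) : q ∈ Comp k := by
  obtain ⟨a, h1, h2⟩ := hp
  exact ⟨a, h1, sub_trans h2 h⟩

theorem comp_lb {k : ℕ} {q : Pat k} (hq : q ∈ Comp k) : lb q ∈ Lab k ∧ q ∈ Sub (lb q) := by
  obtain ⟨a, h1, h2⟩ := hq
  rw [lb_of_sub h2, lb_of_lab h1]
  exact ⟨h1, h2⟩

theorem lab_succ {k : ℕ} {p : Pat (k + 1)} (hp : p ∈ Lab (k + 1)) :
    ∃ r ∈ Poly k (Lab k), p = (r, some id) := by
  obtain ⟨r, h1, h2⟩ := hp
  exact ⟨r, h1.1, h2⟩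

theorem N_ap {k : ℕ} (r : Pat k →₀ ℝ) (f : Pat k → Pat k) (h : Lb) :
    N (k := k + 1) (r, some f) h = (Finsupp.single (⟨k + 1, (r, some id)⟩ : Lb) (1 : ℝ)) h +
      ∑ q ∈ r.support, r q * N (f q) h := by
  rw [N_some, Finsupp.add_apply, Finsupp.finsetSum_apply]
  rfl

theorem single_nonneg' (a h : Lb) : 0 ≤ (Finsupp.single a (1 : ℝ)) h := by
  classical
  rw [Finsupp.single_apply]; split_ifs <;> norm_num

theorem comp_succ {k : ℕ} {r : Pat k →₀ ℝ} {f : Pat k → Pat k}
    (hp : ((r, some f) : Pat (k + 1)) ∈ Comp (k + 1)) :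
    r ∈ Poly k (Lab k) ∧ ∀ q ∈ r.support, f q ∈ Comp k := by
  obtain ⟨a, h1, h2⟩ := hp
  obtain ⟨r', h3, rfl⟩ := lab_succ h1
  rcases mem_sub_some.1 h2 with h | ⟨f', h, hf⟩
  · cases h
  · cases h
    exact ⟨h3, fun q hq => comp_sub (h3.2.2.1 q hq).2 (hf q).1⟩

theorem N_rank {k : ℕ} (p : Pat k) {h : Lb} (hn : N p h ≠ 0) : h.1 ≤ k := by
  induction k with
  | zero =>
    cases p
    · exact absurd rfl hn
    · exact le_of_eq (congrArg Sigma.fst (Finsupp.single_apply_ne_zero.1 hn).1)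
  | succ k ih =>
    obtain ⟨r, _ | f⟩ := p
    · exact absurd rfl hn
    · rw [N_ap] at hn
      by_contra hc
      refine hn ?_
      rw [Finsupp.single_eq_of_ne (by rintro rfl; exact hc le_rfl), zero_add]
      refine sum_eq_zero fun q _ => ?_
      by_contra h2
      have := ih _ (right_ne_zero_of_mul h2)
      omega

theorem N_low {k : ℕ} (r : Pat k →₀ ℝ) (f : Pat k → Pat k) (h : Lb) (hh : h.1 = k + 1) :
    ∑ q ∈ r.support, r q * N (f q) h = 0 := by
  refine sum_eq_zero fun q _ => ?_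
  by_contra h2
  have := N_rank _ (right_ne_zero_of_mul h2)
  omega

theorem N_top {k : ℕ} {p : Pat k} (hn : N p ≠ 0) : N p ⟨k, lb p⟩ = 1 := by
  cases k with
  | zero =>
    cases p
    · exact absurd rfl hn
    · exact Finsupp.single_eq_same
  | succ k =>
    obtain ⟨r, _ | f⟩ := p
    · exact absurd rfl hn
    · rw [N_ap, N_low r f _ rfl, add_zero]
      exact Finsupp.single_eq_same

theorem N_top' {k : ℕ} (p : Pat k) {h : Pat k} (hn : N p ⟨k, h⟩ ≠ 0) : h = lb p := by
  cases k with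
  | zero =>
    cases p
    · exact absurd rfl hn
    · exact eq_of_heq (Sigma.mk.inj_iff.1 (Finsupp.single_apply_ne_zero.1 hn).1).2
  | succ k =>
    obtain ⟨r, _ | f⟩ := p
    · exact absurd rfl hn
    · rw [N_ap, N_low r f _ rfl, add_zero] at hn
      exact eq_of_heq (Sigma.mk.inj_iff.1 (Finsupp.single_apply_ne_zero.1 hn).1).2

theorem N_some_ne {k : ℕ} (r : Pat k →₀ ℝ) (f : Pat k → Pat k) :
    N (k := k + 1) (r, some f) ≠ 0 := by
  intro h
  have := N_ap r f ⟨k + 1, (r, some id)⟩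
  rw [h, N_low r f _ rfl, add_zero, Finsupp.single_eq_same] at this
  exact zero_ne_one this

theorem N_lab_ne {k : ℕ} {h : Pat k} (hh : h ∈ Lab k) : N h ≠ 0 := by
  cases k with
  | zero =>
    obtain rfl : h = true := hh
    exact Finsupp.single_ne_zero.2 one_ne_zero
  | succ k =>
    obtain ⟨r, -, rfl⟩ := hh
    exact N_some_ne r id

theorem N_nonneg {k : ℕ} {p : Pat k} (hp : p ∈ Comp k) (h : Lb) : 0 ≤ N p h := by
  induction k with
  | zero =>
    cases p
    · exact le_rfl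
    · exact single_nonneg' _ _
  | succ k ih =>
    obtain ⟨r, _ | f⟩ := p
    · exact le_rfl
    · obtain ⟨h1, h2⟩ := comp_succ hp
      rw [N_ap]
      exact add_nonneg (single_nonneg' _ _)
        (sum_nonneg fun q hq => mul_nonneg (h1.1 q) (ih (h2 q hq)))

theorem N_mono {k : ℕ} {p q : Pat k} (hp : p ∈ Comp k) (hq : q ∈ Sub p) (h : Lb) :
    N q h ≤ N p h := by
  induction k with
  | zero =>
    rcases hq with hq | hq
    · rw [show q = false from hq]
      exact N_nonneg hp h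
    · rw [show q = p from hq]
  | succ k ih =>
    obtain ⟨r, _ | g⟩ := p
    · rw [mem_sub_none.1 hq]
    · rcases mem_sub_some.1 hq with rfl | ⟨f, rfl, hf⟩
      · exact N_nonneg hp h
      · obtain ⟨h1, h2⟩ := comp_succ hp
        rw [N_ap, N_ap]
        exact add_le_add le_rfl (sum_le_sum fun q hq =>
          mul_le_mul_of_nonneg_left (ih (h2 q hq) (hf q).1) (h1.1 q))

theorem N_val {k : ℕ} {p : Pat k} (hp : p ∈ Comp k) {h : Lb} (hn : N p h ≠ 0) : h ∈ Val k := by
  induction k with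
  | zero =>
    cases p
    · exact absurd rfl hn
    · obtain rfl := (Finsupp.single_apply_ne_zero.1 hn).1
      exact ⟨le_rfl, rfl⟩
  | succ k ih =>
    obtain ⟨r, _ | f⟩ := p
    · exact absurd rfl hn
    · obtain ⟨h1, h2⟩ := comp_succ hp
      by_cases e : h = ⟨k + 1, (r, some id)⟩
      · subst e
        exact ⟨le_rfl, (comp_lb hp).1⟩
      · rw [N_ap, Finsupp.single_eq_of_ne e, zero_add] at hn
        obtain ⟨q, hq, h3⟩ := exists_ne_zero_of_sum_ne_zero hn
        have := ih (h2 q hq) (right_ne_zero_of_mul h3)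
        exact ⟨this.1.trans (Nat.le_succ k), this.2⟩

/-- the equations one rank below the components -/
theorem gap2 {k : ℕ} {r : Pat k →₀ ℝ} (hr : r ∈ Poly k (Lab k)) {q : Pat k} (hq : q ∈ r.support)
    (h : Lb) (hh : h.1 + 1 = k) : N q h = N (lb q) h := by
  have hc : ∀ q ∈ r.support, q ∈ Comp k := fun q hq => (hr.2.2.1 q hq).2
  by_cases hv : h.2 ∈ Lab h.1
  swap
  · have z : ∀ p ∈ Comp k, N p h = 0 := fun p hp => by
      by_contra h2
      exact hv (N_val hp h2).2
    rw [z q (hc q hq), z _ (comp_of_lab (comp_lb (hc q hq)).1)]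
  have e := poly_eq hr h ⟨h.1, by omega⟩
  have e1 : ∀ q ∈ r.support, pr (N q) (fun g => (-1) ^ g.1 * N g.2 h) =
      (-1) ^ k * (N (lb q) h - N q h) := fun q hq => by
    classical
    have ne : (⟨k, lb q⟩ : Lb) ≠ h := by rintro rfl; simp at hh
    rw [pr_congr (γ' := fun g => (-1) ^ k * N (lb q) h * (if g = ⟨k, lb q⟩ then 1 else 0) +
      -(-1) ^ k * (if g = h then 1 else 0))]
    · have a1 := pr_ind (N q) ⟨k, lb q⟩
      have a2 := pr_ind (N q) h
      rw [N_top (hr.2.2.1 q hq).1] at a1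
      have a3 : ∀ (a b : ℝ) (u v : Lb → ℝ), pr (N q) (fun g => a * u g + b * v g) =
          a * pr (N q) u + b * pr (N q) v := fun a b u v => by
        simp only [pr, Finsupp.sum, mul_sum, ← sum_add_distrib]
        exact sum_congr rfl fun _ _ => by ring
      rw [a3]
      convert_to (-1) ^ k * N (lb q) h * 1 + -(-1) ^ k * N q h = _
      · congr 2
      ring
    · intro g hg
      by_cases e2 : g = ⟨k, lb q⟩
      · subst e2
        simp [ne]
      by_cases e3 : g = h
      · subst e3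
        have := N_top (N_lab_ne hv)
        rw [lb_of_lab hv] at this
        rw [if_neg e2, if_pos rfl, show N g.2 g = 1 from this, mul_zero,
          show (-1 : ℝ) ^ k = (-1) ^ (g.1 + 1) by rw [hh]]
        ring
      rw [if_neg e2, if_neg e3]
      have z : N g.2 h = 0 := by
        by_contra h2
        have b1 := N_rank _ hg
        have b2 := N_rank _ h2
        have b3 := (N_val (hc q hq) hg).2
        obtain ⟨j, p⟩ := g
        obtain ⟨i, p'⟩ := h
        dsimp only at *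
        by_cases b4 : j = k
        · subst b4
          exact e2 (by rw [N_top' q hg])
        · obtain rfl : i = j := by omega
          exact e3 (by rw [N_top' p h2, lb_of_lab b3])
      simp [z]
  rw [sum_congr rfl fun q hq => by rw [e1 q hq, mul_left_comm], ← mul_sum,
    mul_eq_zero, or_iff_right (by positivity)] at e
  have := (sum_eq_zero_iff_of_nonneg fun q hq => mul_nonneg (hr.1 q) (sub_nonneg.2
    (N_mono (comp_of_lab (comp_lb (hc q hq)).1) (comp_lb (hc q hq)).2 h))).1 e q hq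
  rw [mul_eq_zero, or_iff_right (Finsupp.mem_support_iff.1 hq)] at this
  linarith

/-- equality of counts one rank below the top means that all parts are nonempty -/
theorem full_parts {k : ℕ} {r : Pat k →₀ ℝ} (hr : r ∈ Poly k (Lab k)) {f : Pat k → Pat k}
    (hf : ∀ q, f q ∈ Sub q)
    (he : ∀ h : Lb, h.1 = k → N (k := k + 1) (r, some f) h = N (k := k + 1) (r, some id) h)
    {q : Pat k} (hq : q ∈ r.support) : N (f q) ≠ 0 := by
  have hc : ∀ q ∈ r.support, q ∈ Comp k := fun q hq => (hr.2.2.1 q hq).2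
  have e := he ⟨k, lb q⟩ rfl
  rw [N_ap, N_ap, add_right_inj, eq_comm, ← sub_eq_zero, ← sum_sub_distrib] at e
  have := (sum_eq_zero_iff_of_nonneg fun m hm => sub_nonneg.2
    (mul_le_mul_of_nonneg_left (N_mono (hc m hm) (hf m) _) (hr.1 m))).1 e q hq
  replace this : r q * N q ⟨k, lb q⟩ - r q * N (f q) ⟨k, lb q⟩ = 0 := this
  rw [N_top (hr.2.2.1 q hq).1, ← mul_sub, mul_eq_zero,
    or_iff_right (Finsupp.mem_support_iff.1 hq)] at this
  intro h
  rw [h] at this
  simp at this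

theorem G_nonneg (l : List ℕ) {k : ℕ} {h : Lb} (hh : h ∈ Val k) : 0 ≤ G l h := by
  induction l generalizing h k with
  | nil => exact N_nonneg (comp_of_lab hh.2) _
  | cons j l ih =>
    refine sum_nonneg fun g hg => ?_
    dsimp only
    split_ifs
    · exact mul_nonneg (N_nonneg (comp_of_lab hh.2) _)
        (ih (N_val (comp_of_lab hh.2) (Finsupp.mem_support_iff.1 hg)))
    · exact le_rfl

theorem G_cons (j : ℕ) (l : List ℕ) (h : Lb) :
    G (j :: l) h = pr (N h.2) fun g => if g.1 = j then G l g else 0 := by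
  unfold pr
  rw [G]
  exact Finsupp.sum_congr fun g _ => by by_cases h : g.1 = j <;> simp [h]

end Pool.Agent.Lib.MP_685082_co.Cone
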