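import Pool.Agent.Lib.MP_685082_co.CDefs

/-! The recursion that lists generators of the closed cone of Eulerian flag vectors. -/

namespace Pool.Agent.Lib.MP_685082_co.Cone

open Finset

/-- Patterns of rank `k`. -/
def Pat : ℕ → Type
  | 0 => Bool
  | k + 1 => (Pat k →₀ ℝ) × Option (Pat k → Pat k)

/-- The counting vector of a pattern, a finitely supported function on patterns of all ranks. -/
noncomputable def N : {k : ℕ} → Pat k → ((Σ k, Pat k) →₀ ℝ)
  | 0, false => 0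
  | 0, true => Finsupp.single ⟨0, true⟩ 1
  | _ + 1, (_, none) => 0
  | k + 1, (r, some f) =>
    Finsupp.single ⟨k + 1, (r, some id)⟩ 1 + r.sum fun q c => c • N (f q)

/-- The subpatterns of a pattern. -/
def Sub : {k : ℕ} → Pat k → Set (Pat k)
  | 0, b => {false, b}
  | _ + 1, (r, none) => {(r, none)}
  | _ + 1, (r, some g) =>
    {(r, none)} ∪ {p | ∃ f, p = (r, some f) ∧ ∀ q, f q ∈ Sub (g q) ∧ (r q = 0 → f q = g q)}

/-- The polytope of weights on the nonempty subpatterns of members of `L`. -/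
def Poly (k : ℕ) (L : Set (Pat k)) : Set (Pat k →₀ ℝ) :=
  {r | (∀ q, 0 ≤ r q) ∧ (r.sum fun _ c => c) = 1 ∧
    (∀ q ∈ r.support, N q ≠ 0 ∧ ∃ h ∈ L, q ∈ Sub h) ∧
    ∀ h : Σ k, Pat k, Odd (k + h.1) →
      (r.sum fun q c => (N q).sum fun g d => c * d * (-1) ^ g.1 * N g.2 h) = 0}

/-- The labels of rank `k`. -/
def Lab : (k : ℕ) → Set (Pat k)
  | 0 => {true}
  | k + 1 => {p | ∃ r ∈ (Poly k (Lab k)).extremePoints ℝ, p = (r, some id)}

/-- The flag number of a label for a decreasing list of ranks. -/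
noncomputable def G : List ℕ → (Σ k, Pat k) → ℝ
  | [], h => N h.2 ⟨0, true⟩
  | j :: l, h => (N h.2).sum fun g d => if g.1 = j then d * G l g else 0

/-- The generators. -/
def Gen (t n : ℕ) : Set (Finset ℕ → ℝ) :=
  {v | ∃ h ∈ Lab (n + 1), ∀ S,
    v S = if S ⊆ Icc 1 n then (t : ℝ) ^ S.card * G (S.sort (· ≥ ·)) ⟨n + 1, h⟩ else 0}

end Pool.Agent.Lib.MP_685082_co.Cone
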