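import Pool.Agent.Lib.MP_685082_co.KBasic

/-! Vertices, finiteness, decomposition and the chain labels. -/

namespace Pool.Agent.Lib.MP_685082_co.Cone

open Finset

/-- the mass of a weight vector -/
noncomputable def vM {k : ℕ} : (Pat k →₀ ℝ) →ₗ[ℝ] ℝ := Finsupp.linearCombination ℝ fun _ => 1

/-- the linear form of the equation at `h` -/
noncomputable def vE {k : ℕ} (h : Lb) : (Pat k →₀ ℝ) →ₗ[ℝ] ℝ :=
  Finsupp.linearCombination ℝ fun q => pr (N q) fun g => (-1) ^ g.1 * N g.2 h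

theorem vM_eq {k : ℕ} (r : Pat k →₀ ℝ) : vM r = ∑ q ∈ r.support, r q := by
  simp [vM, Finsupp.linearCombination_apply, Finsupp.sum]

theorem vE_eq {k : ℕ} (h : Lb) (r : Pat k →₀ ℝ) :
    vE h r = ∑ q ∈ r.support, r q * pr (N q) (fun g => (-1) ^ g.1 * N g.2 h) := by
  simp [vE, Finsupp.linearCombination_apply, Finsupp.sum]

/-- the cone over the polytope -/
def vC (k : ℕ) : Set (Pat k →₀ ℝ) :=
  {r | (∀ q, 0 ≤ r q) ∧ (∀ q ∈ r.support, N q ≠ 0 ∧ q ∈ Comp k) ∧
    ∀ h : Lb, Odd (k + h.1) → vE h r = 0}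

theorem mem_poly {k : ℕ} {r : Pat k →₀ ℝ} : r ∈ Poly k (Lab k) ↔ r ∈ vC k ∧ vM r = 1 := by
  have e : ∀ h : Lb, (r.sum fun q c => (N q).sum fun g d => c * d * (-1) ^ g.1 * N g.2 h) =
      vE h r := fun h => by
    simp only [vE_eq, pr, Finsupp.sum, mul_sum, mul_assoc]
  have e' : (r.sum fun _ c => c) = vM r := (vM_eq r).symm
  simp only [Poly, vC, Set.mem_ofPred_eq, e, e', Comp]
  tauto

theorem vC_sub {k : ℕ} {r l : Pat k →₀ ℝ} (hr : r ∈ vC k) (hl : l ∈ vC k)
    (hs : l.support ⊆ r.support) {t : ℝ} (ht : ∀ q ∈ l.support, t * l q ≤ r q) :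
    r - t • l ∈ vC k ∧ (r - t • l).support ⊆ r.support := by
  have h1 : (r - t • l).support ⊆ r.support := fun q hq => by
    by_contra h
    have a := Finsupp.notMem_support_iff.1 h
    have b := Finsupp.notMem_support_iff.1 fun h' => h (hs h')
    simp [a, b] at hq
  refine ⟨⟨fun q => ?_, fun q hq => hr.2.1 q (h1 hq), fun h ho => ?_⟩, h1⟩
  · by_cases h : q ∈ l.support
    · simpa using ht q h
    · simpa [Finsupp.notMem_support_iff.1 h] using hr.1 q
  · simp [hr.2.2 h ho, hl.2.2 h ho]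

theorem vC_smul {k : ℕ} {r : Pat k →₀ ℝ} (hr : r ∈ vC k) {t : ℝ} (ht : 0 ≤ t) : t • r ∈ vC k :=
  ⟨fun q => mul_nonneg ht (hr.1 q), fun q hq => hr.2.1 q (Finsupp.support_smul hq),
    fun h ho => by simp [hr.2.2 h ho]⟩

theorem vC_pos {k : ℕ} {r : Pat k →₀ ℝ} (hr : r ∈ vC k) {q : Pat k} (hq : q ∈ r.support) :
    0 < r q := (hr.1 q).lt_of_ne' (Finsupp.mem_support_iff.1 hq)

theorem vM_pos {k : ℕ} {r : Pat k →₀ ℝ} (hr : r ∈ vC k) (h0 : r ≠ 0) : 0 < vM r := by
  rw [vM_eq]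
  exact sum_pos (fun q hq => vC_pos hr hq) (Finsupp.support_nonempty_iff.2 h0)

theorem vC_cut {k : ℕ} {r l : Pat k →₀ ℝ} (hr : r ∈ vC k) (hl : l ∈ vC k) (h0 : l ≠ 0)
    (hs : l.support ⊆ r.support) :
    ∃ t : ℝ, 0 ≤ t ∧ r - t • l ∈ vC k ∧ (r - t • l).support ⊂ r.support := by
  obtain ⟨q, hq, hm⟩ := exists_min_image l.support (fun q => r q / l q)
    (Finsupp.support_nonempty_iff.2 h0)
  obtain ⟨h1, h2⟩ := vC_sub hr hl hs (t := r q / l q) fun q' hq' =>
    (le_div_iff₀ (vC_pos hl hq')).1 (hm q' hq')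
  refine ⟨_, div_nonneg (hr.1 q) (hl.1 q), h1, (ssubset_iff_of_subset h2).2 ⟨q, hs hq, ?_⟩⟩
  simp [div_mul_cancel₀ _ (vC_pos hl hq).ne']

theorem lab_of_min {k : ℕ} {r : Pat k →₀ ℝ} (hr : r ∈ Poly k (Lab k))
    (hm : ∀ r' ∈ Poly k (Lab k), r'.support ⊆ r.support → r' = r) :
    ((r, some id) : Pat (k + 1)) ∈ Lab (k + 1) := by
  refine ⟨r, mem_extremePoints_iff_left.2 ⟨hr, fun x hx y hy ⟨a, b, ha, hb, _, e⟩ => ?_⟩, rfl⟩
  refine hm x hx fun q hq => Finsupp.mem_support_iff.2 (ne_of_gt ?_)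
  have := mul_pos ha (vC_pos (mem_poly.1 hx).1 hq)
  have := mul_nonneg hb.le (hy.1 q)
  rw [← e]
  simp only [Finsupp.coe_add, Finsupp.coe_smul, Pi.add_apply, Pi.smul_apply, smul_eq_mul]
  linarith

theorem lab_ext {k : ℕ} {r : Pat k →₀ ℝ} (hr : ((r, some id) : Pat (k + 1)) ∈ Lab (k + 1)) :
    r ∈ (Poly k (Lab k)).extremePoints ℝ := by
  obtain ⟨r', h1, h2⟩ := hr
  obtain rfl : r = r' := congrArg Prod.fst h2
  exact h1

/-- a vertex is the only point of the polytope with support inside its support -/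
theorem lab_min {k : ℕ} {r r' : Pat k →₀ ℝ} (hr : ((r, some id) : Pat (k + 1)) ∈ Lab (k + 1))
    (hr' : r' ∈ Poly k (Lab k)) (hs : r'.support ⊆ r.support) : r' = r := by
  obtain ⟨h1, h2⟩ := mem_extremePoints_iff_left.1 (lab_ext hr)
  obtain ⟨c1, m1⟩ := mem_poly.1 h1
  obtain ⟨c2, m2⟩ := mem_poly.1 hr'
  have h0 : r' ≠ 0 := fun h => by simp [h] at m2
  obtain ⟨q, hq, hm⟩ := exists_min_image r'.support (fun q => r q / r' q)
    (Finsupp.support_nonempty_iff.2 h0)
  have tp : 0 < r q / r' q := div_pos (vC_pos c1 (hs hq)) (vC_pos c2 hq)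
  set t := min (r q / r' q) (1 / 2) with ht
  have t0 : 0 < t := lt_min tp (by norm_num)
  have t1 : 0 < 1 - t := by linarith [min_le_right (r q / r' q) (1 / 2)]
  obtain ⟨c3, -⟩ := vC_sub c1 c2 hs (t := t) fun q' hq' =>
    (le_div_iff₀ (vC_pos c2 hq')).1 ((min_le_left _ _).trans (hm q' hq'))
  refine h2 r' hr' ((1 - t)⁻¹ • (r - t • r')) (mem_poly.2 ⟨vC_smul c3 (inv_pos.2 t1).le, ?_⟩)
    ⟨t, 1 - t, t0, t1, by ring, ?_⟩
  · simp [m1, m2, inv_mul_cancel₀ t1.ne']
  · rw [smul_smul, mul_inv_cancel₀ t1.ne', one_smul, add_sub_cancel]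

theorem sub_finite : ∀ {k : ℕ} (p : Pat k), (Sub p).Finite
  | 0, b => Set.toFinite ({false, b} : Set Bool)
  | _ + 1, (_, none) => Set.finite_singleton _
  | k + 1, (r, some g) => by
    have : {f : Pat k → Pat k | ∀ q, f q ∈ Sub (g q) ∧ (r q = 0 → f q = g q)}.Finite := by
      refine Set.Finite.of_injOn (f := fun f (q : r.support) => f q) ?_ ?_
        (Set.Finite.pi' fun q : r.support => sub_finite (g q))
      · exact fun f hf q => (hf q).1
      · intro f hf f' hf' e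
        funext q
        by_cases h : r q = 0
        · rw [(hf q).2 h, (hf' q).2 h]
        · exact congrFun e ⟨q, Finsupp.mem_support_iff.2 h⟩
    refine (Set.finite_singleton _).union ((this.image fun f => (r, some f)).subset ?_)
    rintro p ⟨f, e, hf⟩
    exact ⟨f, hf, e.symm⟩

theorem comp_finite_of {k : ℕ} (h : (Lab k).Finite) : (Comp k).Finite :=
  (h.biUnion fun p _ => sub_finite p).subset fun _ ⟨_, h1, h2⟩ => Set.mem_biUnion h1 h2

theorem lab_finite (k : ℕ) : (Lab k).Finite := by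
  induction k with
  | zero => exact Set.finite_singleton _
  | succ k ih =>
    refine Set.Finite.of_injOn (f := fun p : Pat (k + 1) => (p.1.support : Set (Pat k))) ?_ ?_
      (comp_finite_of ih).finite_subsets
    · intro p hp q hq
      obtain ⟨r, hr, rfl⟩ := lab_succ hp
      exact (hr.2.2.1 q hq).2
    · intro p hp p' hp' e
      obtain ⟨r, hr, rfl⟩ := lab_succ hp
      obtain ⟨r', -, rfl⟩ := lab_succ hp'
      rw [lab_min hp' hr (coe_injective e).le]

theorem comp_finite (k : ℕ) : (Comp k).Finite := by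
  exact comp_finite_of (lab_finite k)

theorem val_finite (k : ℕ) : (Val k).Finite := by
  refine ((Set.finite_Iic k).biUnion fun i _ => (lab_finite i).image (Sigma.mk i)).subset ?_
  rintro ⟨i, h⟩ ⟨h1, h2⟩
  exact Set.mem_biUnion h1 ⟨h, h2, rfl⟩

theorem gen_finite (t n : ℕ) : (Gen t n).Finite := by
  refine ((lab_finite (n + 1)).image fun h S =>
    if S ⊆ Icc 1 n then (t : ℝ) ^ S.card * G (S.sort (· ≥ ·)) ⟨n + 1, h⟩ else 0).subset ?_
  rintro v ⟨h, h1, h2⟩
  exact ⟨h, h1, (funext h2).symm⟩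

theorem exists_vertex {k : ℕ} (n : ℕ) : ∀ r ∈ vC k, r ≠ 0 → r.support.card ≤ n →
    ∃ l : Pat k →₀ ℝ, ((l, some id) : Pat (k + 1)) ∈ Lab (k + 1) ∧ l.support ⊆ r.support := by
  induction n with
  | zero => exact fun r _ h0 h => (h0 (by simpa using h)).elim
  | succ n ih =>
    intro r hr h0 hn
    have mp := vM_pos hr h0
    have hs : ((vM r)⁻¹ • r).support ⊆ r.support := Finsupp.support_smul
    have hc := vC_smul hr (inv_pos.2 mp).le
    have hm : vM ((vM r)⁻¹ • r) = 1 := by simp [mp.ne']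
    generalize (vM r)⁻¹ • r = u at hs hc hm
    by_cases h : ∀ r' ∈ Poly k (Lab k), r'.support ⊆ u.support → r' = u
    · exact ⟨u, lab_of_min (mem_poly.2 ⟨hc, hm⟩) h, hs⟩
    simp only [not_forall] at h
    obtain ⟨w, hw, h1, h2⟩ := h
    obtain ⟨c2, m2⟩ := mem_poly.1 hw
    obtain ⟨t, -, c3, h3⟩ := vC_cut hc c2 (fun h => by simp [h] at m2) h1
    obtain ⟨l, h4, h5⟩ := ih _ c3 (fun e => h2 (by
      have e1 := congrArg vM e
      simp only [map_sub, map_smul, hm, m2, smul_eq_mul, mul_one, map_zero, sub_eq_zero] at e1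
      rw [← e1, one_smul, sub_eq_zero] at e
      exact e.symm)) (by have := card_lt_card h3; have := card_le_card hs; omega)
    exact ⟨l, h4, h5.trans (h3.subset.trans hs)⟩

theorem decomp_aux {k : ℕ} (n : ℕ) : ∀ r ∈ vC k, r.support.card ≤ n →
    ∃ a : (Pat k →₀ ℝ) →₀ ℝ, (∀ l, 0 ≤ a l) ∧
      (∀ l ∈ a.support, ((l, some id) : Pat (k + 1)) ∈ Lab (k + 1)) ∧
      Finsupp.linearCombination ℝ id a = r := by
  classical
  induction n with
  | zero =>
    intro r _ h
    obtain rfl : r = 0 := by simpa using h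
    exact ⟨0, by simp, by simp, by simp⟩
  | succ n ih =>
    intro r hr hn
    by_cases h0 : r = 0
    · exact ⟨0, by simp, by simp, by simp [h0]⟩
    obtain ⟨l, h1, h2⟩ := exists_vertex _ r hr h0 le_rfl
    obtain ⟨c2, m2⟩ := mem_poly.1 (lab_ext h1).1
    obtain ⟨t, t0, c3, h3⟩ := vC_cut hr c2 (fun h => by simp [h] at m2) h2
    obtain ⟨a, a0, a1, a2⟩ := ih _ c3 (by have := card_lt_card h3; omega)
    refine ⟨a + Finsupp.single l t, fun x => ?_, fun x hx => ?_, by simp [a2]⟩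
    · exact add_nonneg (a0 x) (Finsupp.single_nonneg.2 t0 x)
    · rcases mem_union.1 (Finsupp.support_add hx) with h | h
      · exact a1 x h
      · rwa [mem_singleton.1 (Finsupp.support_single_subset h)]

/-- every point of the cone is a nonnegative combination of vertices -/
theorem decomp {k : ℕ} (r : Pat k →₀ ℝ) (h0 : ∀ q, 0 ≤ r q)
    (h1 : ∀ q ∈ r.support, N q ≠ 0 ∧ q ∈ Comp k)
    (h2 : ∀ h : Lb, Odd (k + h.1) →
      ∑ q ∈ r.support, r q * pr (N q) (fun g => (-1) ^ g.1 * N g.2 h) = 0) :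
    ∃ a : (Pat k →₀ ℝ) →₀ ℝ, (∀ l, 0 ≤ a l) ∧
      (∀ l ∈ a.support, ((l, some id) : Pat (k + 1)) ∈ Lab (k + 1)) ∧
      ∑ l ∈ a.support, a l • l = r := by
  obtain ⟨a, a0, a1, a2⟩ := decomp_aux _ r ⟨h0, h1, fun h ho => (vE_eq h r).trans (h2 h ho)⟩ le_rfl
  exact ⟨a, a0, a1, a2⟩

theorem N_ch (k : ℕ) : N (ch (k + 1)) = Finsupp.single ⟨k + 1, ch (k + 1)⟩ 1 + N (ch k) := by
  refine (N_some _ _).trans ?_
  rw [Finsupp.support_single _ one_ne_zero, sum_singleton, Finsupp.single_eq_same, one_smul]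
  rfl

theorem pr_ch (h : Lb) (k : ℕ) : pr (N (ch k)) (fun g => (-1) ^ g.1 * N g.2 h) =
    if Even (k + h.1) then (-1) ^ k * N (ch k) h else 0 := by
  induction k with
  | zero =>
    refine (pr_single ⟨0, true⟩ 1 _).trans ?_
    split_ifs with e
    · exact one_mul _
    · by_contra h0
      have := N_rank (k := 0) true (h := h) fun h1 => h0 (by simp [h1])
      exact e (by rw [Nat.le_zero.1 this]; simp)
  | succ k ih =>
    conv_lhs => rw [N_ch, pr_add, pr_single, ih]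
    by_cases e : Even (k + h.1)
    · have e' : ¬Even (k + 1 + h.1) := by
        rw [add_right_comm, Nat.even_add_one]
        exact not_not.2 e
      have : h ≠ ⟨k + 1, ch (k + 1)⟩ := fun h1 => e' (by rw [h1]; exact Even.add_self _)
      rw [if_pos e, if_neg e', N_ch, Finsupp.add_apply, Finsupp.single_eq_of_ne this]
      ring
    · rw [if_neg e, if_pos (by rwa [add_right_comm, Nat.even_add_one])]
      ring

theorem ch_poly {k : ℕ} (h : ch k ∈ Lab k) : Finsupp.single (ch k) (1 : ℝ) ∈ Poly k (Lab k) := by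
  refine mem_poly.2 ⟨⟨Finsupp.single_nonneg.2 zero_le_one, fun q hq => ?_, fun g ho => ?_⟩, ?_⟩
  · rw [mem_singleton.1 (Finsupp.support_single_subset hq)]
    exact ⟨N_lab_ne h, comp_of_lab h⟩
  · rw [vE, Finsupp.linearCombination_single, pr_ch, if_neg (Nat.not_even_iff_odd.2 ho), smul_zero]
  · simp [vM]

theorem ch_lab (k : ℕ) : ch k ∈ Lab k := by
  induction k with
  | zero => rfl
  | succ k ih =>
    refine lab_of_min (ch_poly ih) fun r hr hs => ?_
    have e := (Finsupp.support_subset_singleton.1 (hs.trans Finsupp.support_single_subset))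
    have := (mem_poly.1 hr).2
    rw [e] at this ⊢
    simp only [vM, Finsupp.linearCombination_single, smul_eq_mul, mul_one] at this
    rw [this]

theorem lab_eq_of_mem {k : ℕ} {r : Pat k →₀ ℝ} (hr : ((r, some id) : Pat (k + 1)) ∈ Lab (k + 1))
    (hq : ch k ∈ r.support) : r = Finsupp.single (ch k) 1 :=
  (lab_min hr (ch_poly (ch_lab k))
    (Finsupp.support_single_subset.trans (singleton_subset_iff.2 hq))).symm

theorem eq_ch {k : ℕ} {p : Pat k} (hp : p ∈ Comp k) (hn : N p b0 ≠ 0) : p = ch k := by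
  induction k with
  | zero =>
    rcases p with _ | _
    · exact (hn rfl).elim
    · rfl
  | succ k ih =>
    obtain ⟨h, h1, h2⟩ := hp
    obtain ⟨r, hr, rfl⟩ := lab_succ h1
    rcases mem_sub_some.1 h2 with rfl | ⟨f, rfl, hf⟩
    · exact (hn rfl).elim
    rw [N_some, Finsupp.add_apply, Finsupp.single_eq_of_ne (a' := b0) (fun e => k.succ_ne_zero (congrArg Sigma.fst e).symm),
      zero_add,
      Finsupp.finsetSum_apply] at hn
    obtain ⟨q, hq, h3⟩ := exists_ne_zero_of_sum_ne_zero hn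
    have h4 : N (f q) b0 ≠ 0 := right_ne_zero_of_mul h3
    have c1 : q ∈ Comp k := (hr.2.2.1 q hq).2
    have c2 := comp_sub c1 (hf q).1
    have e1 := ih c2 h4
    obtain rfl := ih c1 (((N_nonneg c2 b0).lt_of_ne' h4).trans_le (N_mono c1 (hf q).1 b0)).ne'
    obtain rfl := lab_eq_of_mem h1 hq
    have : f = id := funext fun x => by
      by_cases e : x = ch k
      · rw [e, e1]; rfl
      · exact (hf x).2 (Finsupp.single_eq_of_ne e)
    rw [this]
    rfl

theorem lab_eq_ch {k : ℕ} {r : Pat k →₀ ℝ} (hr : ((r, some id) : Pat (k + 1)) ∈ Lab (k + 1))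
    {q : Pat k} (hq : q ∈ r.support) (hn : N q b0 ≠ 0) : r = Finsupp.single (ch k) 1 := by
  obtain rfl := eq_ch ((lab_ext hr).1.2.2.1 q hq).2 hn
  exact lab_eq_of_mem hr hq

end Pool.Agent.Lib.MP_685082_co.Cone
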