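import Pool.Agent.Lib.MP_685082_co.KAmalg
import Pool.Agent.Lib.MP_685082_co.KVert

/-! The Euler defects of the amalgam are of lower order. -/

namespace Pool.Agent.Lib.MP_685082_co.Cone

open Finset GP

theorem Inv.her' {k : ℕ} {K ε : ℝ} {Q : Lb → Ob} (hI : Inv k K ε Q) {h : Lb} (hh : h ∈ Val k)
    (x : (Q h).P) (g : Lb) (hx : (Q h).col x = some g) :
    g ∈ Val k ∧ ∃ i : IE (Q g).toGP (Q h).toGP, i.f (Q g).tp = x := by
  have hO := hI h hh
  by_cases hxt : x = (Q h).tp
  · subst hxt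
    have e : g = h := by
      have := hO.col_tp
      rw [hx] at this
      exact Option.some.inj this
    subst e
    exact ⟨hh, IE.refl _, rfl⟩
  · obtain ⟨h1, h2, h3⟩ := hO.her x g hxt hx
    exact ⟨⟨h1.le.trans hh.1, h2⟩, h3⟩

namespace Dl

open Classical in
theorem sum_le_wt {Y : GP} {K : ℝ} (hb : Y.Bd K) (x : Y.P) :
    (∑ d, if d ≤ x then Y.wt d else 0) ≤ (K + 1) * Y.wt x := by
  have h1 : (∑ d, if d ≤ x then Y.wt d else 0) =
      (∑ d, if d < x then Y.wt d else 0) + ∑ d, if d = x then Y.wt d else 0 := by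
    rw [← sum_add_distrib]
    refine sum_congr rfl fun d _ => ?_
    by_cases h : d = x
    · subst h; simp
    · by_cases h' : d ≤ x
      · simp [h, h', lt_of_le_of_ne h' h]
      · have : ¬ d < x := fun h'' => h' h''.le
        simp [h, h', this]
  have h2 := hb x
  rw [h1, sum_ite_eq']
  simp only [mem_univ, if_true]
  linarith

end Dl

theorem OK.sum_wt {Q : Lb → Ob} {K ε : ℝ} {h : Lb} {O : Ob} (hO : OK Q K ε h O) :
    ∑ x, O.wt x ≤ (K + 1) * O.wt O.tp := by
  have := Dl.sum_le_wt hO.bd O.tp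
  simpa [hO.le_tp] using this

namespace Dl

open Classical in
/-- weighted colour count below an element -/
noncomputable def W (Y : GP) (φ : Option Lb → ℝ) (x : Y.P) : ℝ :=
  ∑ d, if d ≤ x then Y.wt d * φ (Y.col d) else 0

theorem W_abs {Y : GP} (hY : Y.Good) {K : ℝ} (hb : Y.Bd K) {φ : Option Lb → ℝ}
    (hφ : ∀ o, |φ o| ≤ 1) (x : Y.P) : |W Y φ x| ≤ (K + 1) * Y.wt x := by
  classical
  refine le_trans ?_ (sum_le_wt hb x)
  refine (abs_sum_le_sum_abs _ _).trans (sum_le_sum fun d _ => ?_)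
  split_ifs
  · rw [abs_mul, abs_of_pos (hY.wt_pos d)]
    exact mul_le_of_le_one_right (hY.wt_pos d).le (hφ _)
  · simp

theorem W_ie {Z Y : GP} (i : IE Z Y) (φ : Option Lb → ℝ) (x : Z.P) :
    W Y φ (i.f x) = W Z φ x := by
  classical
  unfold W
  rw [i.sum_eq]
  · refine sum_congr rfl fun a _ => ?_
    simp only [i.le_iff, i.wt, i.col]
  · intro y hy
    rw [if_neg]
    intro h
    exact hy (i.down _ _ h)

theorem W_tp {Q : Lb → Ob} {K ε : ℝ} {h : Lb} {O : Ob} (hO : OK Q K ε h O)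
    {φ : Option Lb → ℝ} (hφ : ∀ o, |φ o| ≤ 1) :
    |W O.toGP φ O.tp - O.wt O.tp * pr (N h.2) fun g => φ (some g)| ≤ ε * O.wt O.tp := by
  classical
  have := hO.apx (fun g => φ (some g)) (fun x => φ (O.col x)) (fun _ => hφ _) (fun _ => hφ _)
    (fun x g hx => by rw [hx])
  simpa [W, hO.le_tp] using this

theorem pr_abs {Q : Lb → Ob} {K ε : ℝ} (hε : ε ≤ 1) {h : Lb} {O : Ob} (hO : OK Q K ε h O)
    {φ : Option Lb → ℝ} (hφ : ∀ o, |φ o| ≤ 1) :
    |pr (N h.2) fun g => φ (some g)| ≤ K + 2 := by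
  have h1 := W_tp hO hφ
  have h2 := W_abs hO.good hO.bd hφ O.tp
  have h3 := hO.good.wt_pos O.tp
  have h4 : |O.wt O.tp * pr (N h.2) fun g => φ (some g)| ≤ (K + 2) * O.wt O.tp := by
    have h5 := abs_sub_abs_le_abs_sub (O.wt O.tp * pr (N h.2) fun g => φ (some g))
      (W O.toGP φ O.tp)
    rw [abs_sub_comm] at h5
    nlinarith
  rw [abs_mul, abs_of_pos h3, mul_comm] at h4
  exact le_of_mul_le_mul_right h4 h3

theorem rk_col {k : ℕ} {K ε : ℝ} {Q : Lb → Ob} (hI : Inv k K ε Q) {h : Lb} (hh : h ∈ Val k)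
    {x : (Q h).P} {g : Lb} (hx : (Q h).col x = some g) : (Q h).rk x = g.1 := by
  obtain ⟨hg, i, rfl⟩ := hI.her' hh x g hx
  rw [i.rk]
  exact (hI g hg).rk_tp

open Classical in
/-- the double count over pairs `d ≤ x` with `x` in the upper set -/
theorem est {k : ℕ} {K ε : ℝ} (hK : 1 ≤ K) (h0 : 0 < ε) (h1 : ε ≤ 1) {Q : Lb → Ob}
    (hI : Inv k K ε Q) {h : Lb} (hh : h ∈ Val k) {p : Pat h.1} (hp : p ∈ Sub h.2)
    {φ : Option Lb → ℝ} (hφ : ∀ o, |φ o| ≤ 1) {τ : ℕ → ℝ} (hτ : ∀ j, |τ j| ≤ 1) :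
    |(∑ x, if x ∈ (Q h).U ⟨h.1, p⟩ then τ ((Q h).rk x) * W (Q h).toGP φ x else 0) -
      (Q h).wt (Q h).tp * pr (N p) fun g => τ g.1 * pr (N g.2) fun g' => φ (some g')| ≤
      (2 * K + 3) * ε * (Q h).wt (Q h).tp := by
  have hO := hI h hh
  have hpc : p ∈ Comp h.1 := ⟨h.2, hh.2, hp⟩
  have key := Apx.flex hO.good (hO.apxU p hp) (Val k) (fun x g hx => (hI.her' hh x g hx).1)
    (fun g hg => by
      have := N_val hpc hg
      exact ⟨this.1.trans hh.1, this.2⟩)
    (B := K + 2) (η := ε) (by linarith) h0.le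
    (fun g => τ g.1 * pr (N g.2) fun g' => φ (some g'))
    (fun x => τ ((Q h).rk x) * W (Q h).toGP φ x / (Q h).wt x)
    (fun g hg => by
      rw [abs_mul]
      have := pr_abs h1 (hI g hg) hφ
      have h3 := hτ g.1
      have h4 := abs_nonneg (pr (N g.2) fun g' => φ (some g'))
      nlinarith)
    (fun x _ => by
      have h2 := hO.good.wt_pos x
      rw [abs_div, abs_of_pos h2, div_le_iff₀ h2, abs_mul]
      have := W_abs hO.good hO.bd hφ x
      have h3 := hτ ((Q h).rk x)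
      have h4 := abs_nonneg (W (Q h).toGP φ x)
      nlinarith)
    (fun x g hx => by
      have hr := rk_col hI hh hx
      obtain ⟨hg, i, rfl⟩ := hI.her' hh x g hx
      have h2 := (hI g hg).good.wt_pos (Q g).tp
      have h3 := W_tp (hI g hg) hφ
      simp only [hr, W_ie, i.wt]
      have e : τ g.1 * W (Q g).toGP φ (Q g).tp / (Q g).wt (Q g).tp -
          τ g.1 * pr (N g.2) (fun g' => φ (some g')) =
          τ g.1 * (W (Q g).toGP φ (Q g).tp -
            (Q g).wt (Q g).tp * pr (N g.2) fun g' => φ (some g')) / (Q g).wt (Q g).tp := by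
        field_simp
      rw [e, abs_div, abs_of_pos h2, div_le_iff₀ h2, abs_mul]
      have h4 := hτ g.1
      have h5 := abs_nonneg (W (Q g).toGP φ (Q g).tp -
            (Q g).wt (Q g).tp * pr (N g.2) fun g' => φ (some g'))
      nlinarith)
  have e : (∑ x, if x ∈ (Q h).U ⟨h.1, p⟩ then τ ((Q h).rk x) * W (Q h).toGP φ x else 0) =
      ∑ x, if x ∈ (Q h).U ⟨h.1, p⟩ then
        (Q h).wt x * (τ ((Q h).rk x) * W (Q h).toGP φ x / (Q h).wt x) else 0 := by
    refine sum_congr rfl fun x _ => ?_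
    have h2 := (hO.good.wt_pos x).ne'
    split_ifs
    · field_simp
    · rfl
  rw [e]
  refine key.trans ?_
  have h3 := mul_le_mul_of_nonneg_left hO.sum_wt h0.le
  nlinarith

open Classical in
/-- swapping the two sums -/
theorem swap (Y : GP) (U : Set Y.P) (φ : Option Lb → ℝ) (s : Y.P → ℝ) :
    (∑ x, if x ∈ U then s x * W Y φ x else 0) =
      ∑ d, Y.wt d * φ (Y.col d) * ∑ x, if x ∈ U ∧ d ≤ x then s x else 0 := by
  simp only [mul_sum]
  rw [sum_comm]
  refine sum_congr rfl fun x _ => ?_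
  by_cases hx : x ∈ U
  · simp only [hx, if_true, true_and, W, mul_sum]
    refine sum_congr rfl fun d _ => ?_
    split_ifs
    · ring
    · simp
  · simp [hx]

section
variable {ι : Type} [Fintype ι] {Q : ι → GP} {U : ∀ i, Set (Q i).P} {Γ : Type} [Fintype Γ] {R : ℝ}
  {n : ι → ℕ} (b : Built Q U Γ R n)

open Classical in
/-- signed count of the private elements above `d` -/
noncomputable def al (Y : GP) (U : Set Y.P) (d : Y.P) : ℝ :=
  ∑ x, if x ∈ U ∧ d ≤ x then Y.sg x else 0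

open Classical in
/-- the sum of `a` over all preimages of `u` -/
noncomputable def dl (a : ∀ i, (Q i).P → ℝ) (u : b.Y.P) : ℝ :=
  ∑ i, ∑ g, ∑ c, ∑ d, if (b.e i g c).f d = u then a i d else 0

open Classical in
theorem up_eq (u : b.Y.P) : b.Y.up u =
    (∑ y, if y ∈ b.B then (if u ≤ y then b.Y.sg y else 0) else 0) +
      dl b (fun i => al (Q i) (U i)) u := by
  unfold GP.up dl
  rw [b.sum_split]
  congr 1
  refine sum_congr rfl fun i _ => sum_congr rfl fun g _ => sum_congr rfl fun c _ => ?_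
  by_cases hu : ∃ d, (b.e i g c).f d = u
  · obtain ⟨d, rfl⟩ := hu
    simp only [(b.e i g c).inj.eq_iff, sum_ite_eq', mem_univ, if_true, al, (b.e i g c).le_iff,
      (b.e i g c).sg]
    refine sum_congr rfl fun x _ => ?_
    by_cases h1 : x ∈ U i <;> simp [h1]
  · rw [sum_eq_zero, sum_eq_zero]
    · intro d _
      exact if_neg fun h => hu ⟨d, h⟩
    · intro x _
      have : ¬ u ≤ (b.e i g c).f x := fun h => hu ((b.e i g c).down _ _ h)
      simp [this]

open Classical in
theorem up_abs (u : b.Y.P) : |b.Y.up u| ≤ R + |dl b (fun i => al (Q i) (U i)) u| := by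
  rw [up_eq]
  refine (abs_add_le _ _).trans (add_le_add ?_ le_rfl)
  refine le_trans ((abs_sum_le_sum_abs _ _).trans (sum_le_sum fun y _ => ?_)) b.small_card
  split_ifs <;> simp [GP.sg]

open Classical in
theorem junk (hw : ∀ i x, 0 < (Q i).wt x) (a a' : ∀ i, (Q i).P → ℝ) (ha : ∀ i d, |a i d| ≤ a' i d) :
    (∑ u, if b.Y.col u = none then b.Y.wt u * |dl b a u| else 0) ≤
      ∑ i, Fintype.card Γ * n i *
        ∑ d, (Q i).wt d * (if (Q i).col d = none then 1 else 0) * a' i d := by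
  have h1 : ∀ u, (if b.Y.col u = none then b.Y.wt u * |dl b a u| else 0) ≤
      ∑ i, ∑ g, ∑ c, ∑ d, if (b.e i g c).f d = u then
        (Q i).wt d * (if (Q i).col d = none then 1 else 0) * a' i d else 0 := by
    intro u
    have hwu : 0 < b.Y.wt u := by
      obtain ⟨i, g, c, x, rfl⟩ := b.cover u
      rw [(b.e i g c).wt]
      exact hw i x
    split_ifs with hu
    · unfold dl
      rw [← abs_of_pos hwu, ← abs_mul]
      simp only [mul_sum]
      refine (abs_sum_le_sum_abs _ _).trans (sum_le_sum fun i _ => ?_)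
      refine (abs_sum_le_sum_abs _ _).trans (sum_le_sum fun g _ => ?_)
      refine (abs_sum_le_sum_abs _ _).trans (sum_le_sum fun c _ => ?_)
      refine (abs_sum_le_sum_abs _ _).trans (sum_le_sum fun d _ => ?_)
      by_cases hd : (b.e i g c).f d = u
      · subst hd
        rw [(b.e i g c).col] at hu
        simp only [if_true, hu, mul_one, (b.e i g c).wt, abs_mul, abs_of_pos (hw i d)]
        exact mul_le_mul_of_nonneg_left (ha i d) (hw i d).le
      · simp [hd]
    · refine sum_nonneg fun i _ => sum_nonneg fun g _ => sum_nonneg fun c _ =>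
        sum_nonneg fun d _ => ?_
      have h2 := (abs_nonneg _).trans (ha i d)
      have h3 := (hw i d).le
      split_ifs <;> positivity
  refine (sum_le_sum fun u _ => h1 u).trans (le_of_eq ?_)
  rw [sum_comm]
  refine sum_congr rfl fun i _ => ?_
  rw [sum_comm]
  have h2 : ∀ g : Γ, (∑ u, ∑ c, ∑ d, if (b.e i g c).f d = u then
        (Q i).wt d * (if (Q i).col d = none then 1 else 0) * a' i d else 0) =
      n i * ∑ d, (Q i).wt d * (if (Q i).col d = none then 1 else 0) * a' i d := by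
    intro g
    rw [sum_comm]
    have h3 : ∀ c : Fin (n i), (∑ u, ∑ d, if (b.e i g c).f d = u then
        (Q i).wt d * (if (Q i).col d = none then 1 else 0) * a' i d else 0) =
        ∑ d, (Q i).wt d * (if (Q i).col d = none then 1 else 0) * a' i d := by
      intro c
      rw [sum_comm]
      refine sum_congr rfl fun d _ => ?_
      rw [sum_ite_eq]
      simp
    simp only [h3, sum_const, card_univ, Fintype.card_fin, nsmul_eq_mul]
  simp only [h2, sum_const, card_univ, nsmul_eq_mul]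
  ring

open Classical in
theorem colour (h : Lb) (Q0 : GP) (x0 : Q0.P) (hx0 : ∀ x, x ≤ x0) (hw : 0 ≤ Q0.wt x0)
    (hj : ∀ i d, (Q i).col d = some h → ∃ j : IE Q0 (Q i), j.f x0 = d)
    (a : ∀ i, (Q i).P → ℝ) :
    (∑ u, if u ∈ b.B ∧ b.Y.col u = some h then b.Y.wt u * |dl b a u| else 0) ≤
      |∑ i, Fintype.card Γ * n i *
        ∑ d, if d ∉ U i ∧ (Q i).col d = some h then (Q i).wt d * a i d else 0| := by
  by_cases hex : ∃ (i : ι) (_ : Fin (n i)) (d : (Q i).P), d ∉ U i ∧ (Q i).col d = some h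
  · obtain ⟨i0, c0, d0, hd0, hc0⟩ := hex
    obtain ⟨j0, rfl⟩ := hj i0 d0 hc0
    set m : b.Y.P → ℝ := fun u => ∑ g, if (b.e i0 g c0).f (j0.f x0) = u then (1 : ℝ) else 0 with hm
    set A : ℝ := ∑ i, n i * ∑ d, if d ∉ U i ∧ (Q i).col d = some h then a i d else 0 with hA
    have hm0 : ∀ u, 0 ≤ m u := fun u => sum_nonneg fun g _ => by split_ifs <;> norm_num
    have hm1 : ∑ u, m u = Fintype.card Γ := by
      simp only [hm]
      rw [sum_comm]
      simp
    have h1 : ∀ u, u ∈ b.B → b.Y.col u = some h → dl b a u = m u * A := by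
      intro u hu hc
      unfold dl
      rw [hA, mul_sum]
      refine sum_congr rfl fun i _ => ?_
      rw [sum_comm]
      have h2 : ∀ c : Fin (n i), (∑ g, ∑ d, if (b.e i g c).f d = u then a i d else 0) =
          m u * ∑ d, if d ∉ U i ∧ (Q i).col d = some h then a i d else 0 := by
        intro c
        rw [sum_comm, mul_sum]
        refine sum_congr rfl fun d _ => ?_
        by_cases hd : d ∉ U i ∧ (Q i).col d = some h
        · obtain ⟨j, rfl⟩ := hj i d hd.2
          rw [if_pos hd, hm]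
          simp only
          rw [← b.unif Q0 x0 hx0 i i0 j j0 hd.1 hd0 c c0 u, sum_mul]
          refine sum_congr rfl fun g _ => ?_
          split_ifs <;> simp
        · rw [if_neg hd, mul_zero]
          refine sum_eq_zero fun g _ => if_neg fun e => hd ?_
          subst e
          exact ⟨(b.mem_B i g c d).1 hu, by rw [← (b.e i g c).col]; exact hc⟩
      simp only [h2, sum_const, card_univ, Fintype.card_fin, nsmul_eq_mul]
      ring
    have h3 : ∀ u, (if u ∈ b.B ∧ b.Y.col u = some h then b.Y.wt u * |dl b a u| else 0) ≤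
        m u * (Q0.wt x0 * |A|) := by
      intro u
      split_ifs with hu
      · rw [h1 u hu.1 hu.2, abs_mul, abs_of_nonneg (hm0 u)]
        obtain ⟨i, g, c, x, rfl⟩ := b.cover u
        obtain ⟨j, rfl⟩ := hj i x (by rw [← (b.e i g c).col]; exact hu.2)
        rw [(b.e i g c).wt, j.wt]
        exact le_of_eq (by ring)
      · have := hm0 u
        positivity
    refine (sum_le_sum fun u _ => h3 u).trans (le_of_eq ?_)
    rw [← sum_mul, hm1]
    have h4 : (∑ i, Fintype.card Γ * n i *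
        ∑ d, if d ∉ U i ∧ (Q i).col d = some h then (Q i).wt d * a i d else 0) =
        Fintype.card Γ * (Q0.wt x0 * A) := by
      rw [hA, mul_sum, mul_sum]
      refine sum_congr rfl fun i _ => ?_
      have h5 : (∑ d, if d ∉ U i ∧ (Q i).col d = some h then (Q i).wt d * a i d else 0) =
          Q0.wt x0 * ∑ d, if d ∉ U i ∧ (Q i).col d = some h then a i d else 0 := by
        rw [mul_sum]
        refine sum_congr rfl fun d _ => ?_
        split_ifs with hd
        · obtain ⟨j, rfl⟩ := hj i d hd.2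
          rw [j.wt]
        · simp
      rw [h5]
      ring
    rw [h4, abs_mul, abs_mul, abs_of_nonneg hw, Nat.abs_cast]
  · refine le_trans (le_of_eq (sum_eq_zero fun u _ => if_neg fun hu => hex ?_)) (abs_nonneg _)
    obtain ⟨i, g, c, x, rfl⟩ := b.cover u
    exact ⟨i, c, x, (b.mem_B i g c x).1 hu.1, by rw [← (b.e i g c).col]; exact hu.2⟩

end

open Classical in
theorem up_zero {Q : Lb → Ob} {K ε : ℝ} {h : Lb} {O : Ob} (hO : OK Q K ε h O) {x : O.P}
    (ho : Odd (h.1 + O.rk x)) : O.toGP.up x = 0 := by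
  have := hO.good.join (hO.le_tp x) (by rw [hO.rk_tp]; exact ho)
  simpa [GP.up, hO.le_tp] using this

open Classical in
theorem est_junk {k : ℕ} {K ε : ℝ} (hK : 1 ≤ K) (h0 : 0 < ε) (h1 : ε ≤ 1) {Q : Lb → Ob}
    (hI : Inv k K ε Q) {h : Lb} (hh : h ∈ Val k) {p : Pat h.1} (hp : p ∈ Sub h.2) :
    (∑ d, (Q h).wt d * (if (Q h).col d = none then 1 else 0) *
      ∑ x, if x ∈ (Q h).U ⟨h.1, p⟩ ∧ d ≤ x then (1 : ℝ) else 0) ≤
      (2 * K + 3) * ε * (Q h).wt (Q h).tp := by
  have e1 := est hK h0 h1 hI hh hp (φ := fun o => if o = none then 1 else 0)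
    (fun o => by split_ifs <;> simp) (τ := fun _ => 1) (fun _ => by simp)
  have e2 := swap (Q h).toGP ((Q h).U ⟨h.1, p⟩) (fun o => if o = none then 1 else 0) (fun _ => 1)
  rw [e2] at e1
  have e3 : (pr (N p) fun g => (1 : ℝ) * pr (N g.2) fun g' =>
      if (some g' : Option Lb) = none then (1 : ℝ) else 0) = 0 := by
    simp [pr]
  rw [e3, mul_zero, sub_zero] at e1
  exact (le_abs_self _).trans e1

open Classical in
theorem est_col {k : ℕ} {K ε : ℝ} (hK : 1 ≤ K) (h0 : 0 < ε) (h1 : ε ≤ 1) {Q : Lb → Ob}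
    (hI : Inv k K ε Q) {h : Lb} (hh : h ∈ Val k) {p : Pat h.1} (hp : p ∈ Sub h.2) {l : Lb}
    (hl : Odd (h.1 + l.1)) :
    |(∑ d, if d ∉ (Q h).U ⟨h.1, p⟩ ∧ (Q h).col d = some l then
        (Q h).wt d * al (Q h).toGP ((Q h).U ⟨h.1, p⟩) d else 0) -
      (Q h).wt (Q h).tp * pr (N p) fun g => (-1) ^ g.1 * N g.2 l| ≤
      (2 * K + 3) * ε * (Q h).wt (Q h).tp := by
  have hO := hI h hh
  have e1 := est hK h0 h1 hI hh hp (φ := fun o => if o = some l then 1 else 0)
    (fun o => by split_ifs <;> simp) (τ := fun j => (-1) ^ j) (fun _ => by simp)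
  have e2 := swap (Q h).toGP ((Q h).U ⟨h.1, p⟩) (fun o => if o = some l then 1 else 0)
    (fun x => (-1) ^ (Q h).rk x)
  rw [e2] at e1
  have e3 : (fun g : Lb => (-1 : ℝ) ^ g.1 * pr (N g.2) fun g' =>
      if (some g' : Option Lb) = some l then (1 : ℝ) else 0) =
      fun g : Lb => (-1 : ℝ) ^ g.1 * N g.2 l := by
    funext g
    rw [← pr_ind (N g.2) l]
    simp
  rw [e3] at e1
  convert e1 using 3
  refine sum_congr rfl fun d _ => ?_
  by_cases hc : (Q h).col d = some l
  · by_cases hd : d ∈ (Q h).U ⟨h.1, p⟩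
    · have e4 : (∑ x, if x ∈ (Q h).U ⟨h.1, p⟩ ∧ d ≤ x then ((-1 : ℝ) ^ (Q h).rk x) else 0) =
          (Q h).toGP.up d := by
        refine sum_congr rfl fun x _ => ?_
        by_cases hx : d ≤ x
        · simp [hx, hO.upper p hp hx hd, GP.sg]
        · simp [hx]
      rw [e4, up_zero hO (by rw [rk_col hI hh hc]; exact hl)]
      simp [hd]
    · simp [hc, hd, al, GP.sg]
  · simp [hc]

end Dl

/-- the posets of the components of `r` -/
abbrev cQ {k : ℕ} (Q : Lb → Ob) (r : Pat k →₀ ℝ) : r.support → GP :=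
  fun i => (Q ⟨k, lb i.1⟩).toGP

/-- their private parts -/
abbrev cU {k : ℕ} (Q : Lb → Ob) (r : Pat k →₀ ℝ) : ∀ i, Set (cQ Q r i).P :=
  fun i => (Q ⟨k, lb i.1⟩).U ⟨k, i.1⟩

/-- their scales -/
abbrev cS {k : ℕ} (Q : Lb → Ob) (r : Pat k →₀ ℝ) : r.support → ℝ :=
  fun i => (Q ⟨k, lb i.1⟩).wt (Q ⟨k, lb i.1⟩).tp

open Classical in
theorem delta (k : ℕ) (K : ℝ) (hK : 1 ≤ K) : ∃ C : ℝ, 0 ≤ C ∧ ∀ ε : ℝ, 0 < ε → ε ≤ 1 →
    ∀ Q : Lb → Ob, Inv k K ε Q → ∀ r ∈ Poly k (Lab k), ∀ (Γ : Type) [Fintype Γ] (R : ℝ),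
      ∃ R' : ℝ, ∀ (n : r.support → ℕ) (b : Built (cQ Q r) (cU Q r) Γ R n) (σ : ℝ), 0 ≤ σ →
        (∀ i, |Fintype.card Γ * n i * cS Q r i - σ * r i.1| ≤ Fintype.card Γ * cS Q r i) →
        (∑ u, if Odd (k + b.Y.rk u) then b.Y.wt u * |b.Y.up u| else 0) ≤ C * ε * σ + R' := by
  set V : Finset Lb := (val_finite k).toFinset.filter fun h => Odd (k + h.1) with hV
  have hK' : 0 ≤ 2 * K + 3 := by linarith
  refine ⟨(2 * K + 3) * (1 + V.card), by positivity, ?_⟩
  intro ε h0 h1 Q hI r hr Γ _ R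
  set P : Lb → r.support → ℝ := fun h i => pr (N i.1) fun g => (-1) ^ g.1 * N g.2 h with hP
  refine ⟨R * R + (2 * K + 3) * (1 + V.card) * (Fintype.card Γ * ∑ i, cS Q r i) +
    ∑ h ∈ V, ∑ i, Fintype.card Γ * cS Q r i * |P h i|, ?_⟩
  intro n b σ hσ hn
  have hc : ∀ i : r.support, (⟨k, lb i.1⟩ : Lb) ∈ Val k ∧ i.1 ∈ Sub (lb i.1) := fun i => by
    have := comp_lb (hr.2.2.1 i.1 i.2).2
    exact ⟨⟨le_rfl, this.1⟩, this.2⟩
  have hw : ∀ (i : r.support) x, 0 < (cQ Q r i).wt x := fun i x => (hI _ (hc i).1).good.wt_pos x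
  have hS : ∀ i, 0 < cS Q r i := fun i => hw i _
  have hwY : ∀ u, 0 < b.Y.wt u := fun u => by
    obtain ⟨i, g, c, x, rfl⟩ := b.cover u
    rw [(b.e i g c).wt]
    exact hw i x
  have hR : 0 ≤ R := le_trans (sum_nonneg fun y _ => by split_ifs <;> norm_num) b.small_card
  have hr1 : ∑ i : r.support, r i.1 = 1 := by
    rw [sum_coe_sort r.support fun q => r q]
    exact hr.2.1
  set M : ℝ := ∑ i, Fintype.card Γ * n i * cS Q r i with hM
  set S : ℝ := Fintype.card Γ * ∑ i, cS Q r i with hSd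
  have hS0 : 0 ≤ S := mul_nonneg (by positivity) (sum_nonneg fun i _ => (hS i).le)
  have hM1 : M ≤ σ + S := by
    have : σ + S = ∑ i, (σ * r i.1 + Fintype.card Γ * cS Q r i) := by
      rw [sum_add_distrib, ← mul_sum, ← mul_sum, hr1, mul_one]
    rw [this]
    refine sum_le_sum fun i _ => ?_
    have := (abs_le.1 (hn i)).2
    linarith
  set a : ∀ i, (cQ Q r i).P → ℝ := fun i => Dl.al (cQ Q r i) (cU Q r i) with ha
  have hterm : ∀ u, (if Odd (k + b.Y.rk u) then b.Y.wt u * |b.Y.up u| else 0) ≤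
      (if u ∈ b.B then b.Y.wt u else 0) * R +
      (if b.Y.col u = none then b.Y.wt u * |Dl.dl b a u| else 0) +
      ∑ h ∈ V, if u ∈ b.B ∧ b.Y.col u = some h then b.Y.wt u * |Dl.dl b a u| else 0 := by
    intro u
    have hu := (hwY u).le
    have n1 : 0 ≤ (if u ∈ b.B then b.Y.wt u else 0) * R := by split_ifs <;> positivity
    have n2 : 0 ≤ (if b.Y.col u = none then b.Y.wt u * |Dl.dl b a u| else 0) := by
      split_ifs <;> positivity
    have n3 : ∀ h ∈ V,
        0 ≤ (if u ∈ b.B ∧ b.Y.col u = some h then b.Y.wt u * |Dl.dl b a u| else 0) := by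
      intro h _
      split_ifs <;> positivity
    have n4 := sum_nonneg n3
    by_cases ho : Odd (k + b.Y.rk u)
    swap
    · rw [if_neg ho]
      linarith
    rw [if_pos ho]
    by_cases hB : u ∈ b.B
    swap
    · obtain ⟨i, g, c, x, rfl⟩ := b.cover u
      have hx : x ∈ cU Q r i := not_not.1 fun h => hB ((b.mem_B i g c x).2 h)
      rw [(b.e i g c).rk] at ho
      rw [b.up_priv g c hx, Dl.up_zero (hI _ (hc i).1) ho, abs_zero, mul_zero]
      linarith
    have h2 := mul_le_mul_of_nonneg_left (Dl.up_abs b u) hu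
    rw [if_pos hB]
    rcases hcol : b.Y.col u with _ | l
    · rw [hcol] at n4
      rw [if_pos rfl]
      linarith
    · have hl : l ∈ V := by
        obtain ⟨i, g, c, x, rfl⟩ := b.cover u
        rw [(b.e i g c).col] at hcol
        rw [(b.e i g c).rk, Dl.rk_col hI (hc i).1 hcol] at ho
        exact mem_filter.2 ⟨(Set.Finite.mem_toFinset _).2 (hI.her' (hc i).1 x l hcol).1, ho⟩
      have h3 := single_le_sum n3 hl
      rw [if_pos ⟨hB, hcol⟩, hcol] at h3
      rw [if_neg (by simp)]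
      linarith
  refine (sum_le_sum fun u _ => hterm u).trans ?_
  rw [sum_add_distrib, sum_add_distrib, ← sum_mul, sum_comm]
  have t1 : (∑ u, if u ∈ b.B then b.Y.wt u else 0) * R ≤ R * R :=
    mul_le_mul_of_nonneg_right b.small_wt hR
  have hMe : ∑ i, Fintype.card Γ * n i * ((2 * K + 3) * ε * cS Q r i) = (2 * K + 3) * ε * M := by
    rw [hM, mul_sum]
    exact sum_congr rfl fun i _ => by ring
  have t2 : (∑ u, if b.Y.col u = none then b.Y.wt u * |Dl.dl b a u| else 0) ≤
      (2 * K + 3) * ε * M := by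
    refine (Dl.junk b hw a
      (fun i d => ∑ x, if x ∈ cU Q r i ∧ d ≤ x then (1 : ℝ) else 0) fun i d => ?_).trans ?_
    · refine (abs_sum_le_sum_abs _ _).trans (sum_le_sum fun x _ => ?_)
      split_ifs <;> simp [GP.sg]
    · rw [← hMe]
      refine sum_le_sum fun i _ => mul_le_mul_of_nonneg_left ?_ (by positivity)
      exact Dl.est_junk hK h0 h1 hI (hc i).1 (hc i).2
  have t3 : ∀ h ∈ V,
      (∑ u, if u ∈ b.B ∧ b.Y.col u = some h then b.Y.wt u * |Dl.dl b a u| else 0) ≤
      (2 * K + 3) * ε * M + ∑ i, Fintype.card Γ * cS Q r i * |P h i| := by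
    intro h hh
    obtain ⟨hh1, hh2⟩ := mem_filter.1 hh
    have hh1 : h ∈ Val k := (Set.Finite.mem_toFinset _).1 hh1
    refine (Dl.colour b h (Q h).toGP (Q h).tp (hI h hh1).le_tp ((hI h hh1).good.wt_pos _).le
      (fun i d hd => (hI.her' (hc i).1 d h hd).2) a).trans ?_
    have z : ∑ i : r.support, σ * r i.1 * P h i = 0 := by
      have := poly_eq hr h hh2
      rw [← sum_coe_sort r.support] at this
      simp only [mul_assoc]
      rw [← mul_sum, this, mul_zero]
    have z' : ∀ y : ℝ, y = y - ∑ i : r.support, σ * r i.1 * P h i := fun y => by rw [z, sub_zero]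
    rw [z' (∑ i, _), ← sum_sub_distrib, ← hMe, ← sum_add_distrib]
    refine (abs_sum_le_sum_abs _ _).trans (sum_le_sum fun i _ => ?_)
    have e1 := Dl.est_col hK h0 h1 hI (hc i).1 (hc i).2 (l := h) hh2
    have e2 := hn i
    set X : ℝ := ∑ d, if d ∉ cU Q r i ∧ (cQ Q r i).col d = some h then
      (cQ Q r i).wt d * a i d else 0 with hX
    have e3 : |X - cS Q r i * P h i| ≤ (2 * K + 3) * ε * cS Q r i := e1
    have e4 : Fintype.card Γ * n i * X - σ * r i.1 * P h i =
        Fintype.card Γ * n i * (X - cS Q r i * P h i) +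
          (Fintype.card Γ * n i * cS Q r i - σ * r i.1) * P h i := by ring
    rw [e4]
    refine (abs_add_le _ _).trans (add_le_add ?_ ?_)
    · rw [abs_mul, abs_of_nonneg (by positivity)]
      exact mul_le_mul_of_nonneg_left e3 (by positivity)
    · rw [abs_mul]
      exact mul_le_mul_of_nonneg_right e2 (abs_nonneg _)
  have t4 := sum_le_sum t3
  rw [sum_add_distrib, sum_const, nsmul_eq_mul] at t4
  have t5 : (2 * K + 3) * (1 + V.card) * (ε * M) ≤ (2 * K + 3) * (1 + V.card) * (ε * σ + S) := by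
    refine mul_le_mul_of_nonneg_left ?_ (by positivity)
    have := mul_le_mul_of_nonneg_left hM1 h0.le
    nlinarith
  nlinarith

end Pool.Agent.Lib.MP_685082_co.Cone
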