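import Pool.Agent.Lib.MP_685082_co.KFix2

/-! Exact repair of the Euler defects by gadgets. -/

namespace Pool.Agent.Lib.MP_685082_co.Cone

open Finset GP

/-- the elements of the glued poset -/
def GlP (Y : GP) (_u : Y.P) {m : ℕ} {e : ℝ} (g : Gad m e) : Type := Y.P ⊕ g.T

namespace GlP

variable {Y : GP} {u : Y.P} {m : ℕ} {e : ℝ} {g : Gad m e}

instance : Fintype (GlP Y u g) := inferInstanceAs (Fintype (Y.P ⊕ g.T))

def le : GlP Y u g → GlP Y u g → Prop
  | Sum.inl a, Sum.inl b => a ≤ b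
  | Sum.inl a, Sum.inr _ => a ≤ u
  | Sum.inr _, Sum.inl _ => False
  | Sum.inr s, Sum.inr t => s ≤ t

instance : PartialOrder (GlP Y u g) where
  le := le
  le_refl := by rintro (a | s) <;> simp [le]
  le_trans := by
    rintro (a | s) (a' | s') (a'' | s'') <;> simp only [le] <;> intro h1 h2 <;>
      first
        | exact h1.elim
        | exact h2.elim
        | exact h1.trans h2
        | exact h1
  le_antisymm := by
    rintro (a | s) (a' | s') <;> simp only [le] <;> intro h1 h2 <;>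
      first
        | exact h1.elim
        | exact h2.elim
        | rw [le_antisymm h1 h2]

instance : OrderBot (GlP Y u g) where
  bot := Sum.inl ⊥
  bot_le := by rintro (a | s) <;> exact (bot_le : (⊥ : Y.P) ≤ _)

end GlP

/-- glue the gadget `g` above `u` -/
def glue (Y : GP) (u : Y.P) {m : ℕ} {e : ℝ} (g : Gad m e) : GP where
  P := GlP Y u g
  rk := Sum.elim Y.rk fun t => Y.rk u + 1 + g.ht t
  col := Sum.elim Y.col fun _ => none
  wt := Sum.elim Y.wt fun _ => Y.wt u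

namespace glue

variable {Y : GP} {u : Y.P} {m : ℕ} {e : ℝ} {g : Gad m e}

def od (a : Y.P) : (glue Y u g).P := Sum.inl a
def nw (t : g.T) : (glue Y u g).P := Sum.inr t

theorem cases (x : (glue Y u g).P) : (∃ a, x = od a) ∨ ∃ t, x = nw t := by
  rcases x with a | t
  exacts [Or.inl ⟨a, rfl⟩, Or.inr ⟨t, rfl⟩]

variable {a b : Y.P} {s t : g.T}

@[simp] theorem oo : (od a : (glue Y u g).P) ≤ od b ↔ a ≤ b := Iff.rfl
@[simp] theorem on : (od a : (glue Y u g).P) ≤ nw t ↔ a ≤ u := Iff.rfl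
@[simp] theorem no : (nw t : (glue Y u g).P) ≤ od a ↔ False := Iff.rfl
@[simp] theorem nn : (nw s : (glue Y u g).P) ≤ nw t ↔ s ≤ t := Iff.rfl
@[simp] theorem oo' : (od a : (glue Y u g).P) < od b ↔ a < b := by simp [lt_iff_le_not_ge]
@[simp] theorem on' : (od a : (glue Y u g).P) < nw t ↔ a ≤ u := by simp [lt_iff_le_not_ge]
@[simp] theorem no' : (nw t : (glue Y u g).P) < od a ↔ False := by simp [lt_iff_le_not_ge]
@[simp] theorem nn' : (nw s : (glue Y u g).P) < nw t ↔ s < t := by simp [lt_iff_le_not_ge]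
@[simp] theorem rk_od : (glue Y u g).rk (od a) = Y.rk a := rfl
@[simp] theorem rk_nw : (glue Y u g).rk (nw t) = Y.rk u + 1 + g.ht t := rfl
@[simp] theorem wt_od : (glue Y u g).wt (od a) = Y.wt a := rfl
@[simp] theorem wt_nw : (glue Y u g).wt (nw t) = Y.wt u := rfl
@[simp] theorem sg_od : (glue Y u g).sg (od a) = Y.sg a := rfl
@[simp] theorem sg_nw : (glue Y u g).sg (nw t) = -Y.sg u * (-1) ^ g.ht t := by
  simp only [GP.sg, rk_nw]; ring

theorem sum_eq (f : (glue Y u g).P → ℝ) : ∑ x, f x = ∑ a, f (od a) + ∑ t, f (nw t) :=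
  Fintype.sum_sum_type f

/-- the inclusion of the old poset -/
def inc (Y : GP) (u : Y.P) (g : Gad m e) : IE Y (glue Y u g) where
  f := od
  le_iff _ _ := Iff.rfl
  down b y h := by
    rcases cases y with ⟨a, rfl⟩ | ⟨t, rfl⟩
    exacts [⟨a, rfl⟩, h.elim]
  rk _ := rfl
  col _ := rfl
  wt _ := rfl

theorem nw_not_mem (t : g.T) : nw t ∉ Set.range (inc Y u g).f := by
  rintro ⟨a, h⟩
  exact Sum.inl_ne_inr h

theorem sum_new (P : g.T → Prop) (Q : g.T → Prop) [DecidablePred P] [DecidablePred Q]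
    (h : ∀ t, P t ↔ Q t) :
    (∑ t, if P t then (glue Y u g).sg (nw t) else 0) =
      -Y.sg u * ∑ t, if Q t then (-1 : ℝ) ^ g.ht t else 0 := by
  rw [mul_sum]
  exact sum_congr rfl fun t _ => by simp [h]

open Classical in
theorem sum_Icc (hY : Y.Good) (h : a ≤ u) (he : Even (Y.rk u + Y.rk a)) :
    (∑ z, if a ≤ z ∧ z ≤ u then Y.sg z else 0) = Y.sg u := by
  have e : ∀ z, (if a ≤ z ∧ z ≤ u then Y.sg z else 0) =
      (if a ≤ z ∧ z < u then Y.sg z else 0) + if z = u then Y.sg z else 0 := fun z => by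
    by_cases hz : z = u
    · simp [hz, h]
    · simp [hz, lt_iff_le_and_ne]
  simp only [e, sum_add_distrib, sum_ite_eq', mem_univ, if_true]
  rcases h.eq_or_lt with rfl | h
  · rw [sum_eq_zero fun z _ => if_neg fun hz => absurd (hz.1.trans_lt hz.2) (lt_irrefl _), zero_add]
  · have := hY.even a u h he
    rw [add_eq_right]
    convert this

open Classical in
theorem good (hY : Y.Good) : (glue Y u g).Good where
  rk_bot := hY.rk_bot
  col_bot := hY.col_bot
  wt_bot := hY.wt_bot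
  mono x y h := by
    rcases cases x with ⟨a, rfl⟩ | ⟨s, rfl⟩ <;> rcases cases y with ⟨b, rfl⟩ | ⟨t, rfl⟩ <;>
      simp only [oo', on', no', nn', rk_od, rk_nw] at h ⊢
    · exact hY.mono _ _ h
    · have := hY.rk_le h; omega
    · have := g.mono _ _ h; omega
  mid x y h h' := by
    rcases cases x with ⟨a, rfl⟩ | ⟨s, rfl⟩ <;> rcases cases y with ⟨b, rfl⟩ | ⟨t, rfl⟩ <;>
      simp only [oo', on', no', nn', rk_od, rk_nw] at h h'
    · obtain ⟨z, h1, h2⟩ := hY.mid _ _ h h'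
      exact ⟨od z, oo'.2 h1, oo'.2 h2⟩
    · rcases h.eq_or_lt with rfl | h
      · obtain ⟨z, hz⟩ := g.low t (by omega)
        exact ⟨nw z, on'.2 le_rfl, nn'.2 hz⟩
      · exact ⟨od u, oo'.2 h, on'.2 le_rfl⟩
    · obtain ⟨z, h1, h2⟩ := g.mid _ _ h (by omega)
      exact ⟨nw z, nn'.2 h1, nn'.2 h2⟩
  even x y h h' := by
    rw [sum_eq]
    rcases cases x with ⟨a, rfl⟩ | ⟨s, rfl⟩ <;> rcases cases y with ⟨b, rfl⟩ | ⟨t, rfl⟩ <;>
      simp only [oo', on', no', nn', rk_od, rk_nw] at h h'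
    · have := hY.even a b h h'
      simpa using this
    · rw [sum_new _ (· < t) fun z => by simp [h], g.base]
      by_cases he : Even (Y.rk u + Y.rk a)
      · have h1 := sum_Icc hY h he
        have h2 : Odd (g.ht t) := by grind
        simp only [oo, on', sg_od]
        rw [h2.neg_one_pow, add_eq_zero_iff_eq_neg]
        refine Eq.trans ?_ (h1.trans (by ring))
        convert rfl
      · have h1 := hY.join h (Nat.not_even_iff_odd.1 he)
        have h2 : Even (g.ht t) := by grind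
        simp only [oo, on', sg_od]
        rw [h2.neg_one_pow, add_eq_zero_iff_eq_neg]
        refine Eq.trans ?_ (h1.trans (by ring))
        convert rfl
    · rw [sum_new _ (fun z => s ≤ z ∧ z < t) fun z => by simp, g.even s t h (by grind)]
      simp
  wt_pos x := by
    rcases cases x with ⟨a, rfl⟩ | ⟨s, rfl⟩
    exacts [hY.wt_pos a, hY.wt_pos u]

theorem pure {k : ℕ} (hY : Y.Pure k) (hk : Y.rk u + m = k) : (glue Y u g).Pure k := fun x => by
  rcases cases x with ⟨a, rfl⟩ | ⟨s, rfl⟩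
  · obtain ⟨z, h1, h2⟩ := hY a
    exact ⟨od z, h1, h2⟩
  · obtain ⟨z, h1, h2⟩ := g.pure s
    exact ⟨nw z, h1, by rw [rk_nw]; omega⟩

open Classical in
theorem up_od (a : Y.P) :
    (glue Y u g).up (od a) = Y.up a + if a ≤ u then -Y.sg u * e else 0 := by
  rw [GP.up, sum_eq, sum_new _ (fun _ => a ≤ u) fun _ => on, GP.up]
  congr 1
  split_ifs <;> simp [g.tot]

open Classical in
theorem up_nw (t : g.T) (h : Odd (g.ht t)) : (glue Y u g).up (nw t) = 0 := by
  rw [GP.up, sum_eq, sum_new _ (fun z => t ≤ z) fun _ => nn, g.up t h]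
  simp

open Classical in
theorem below_od (a : Y.P) : (∑ x, if x < od a then (glue Y u g).wt x else 0) =
    ∑ b, if b < a then Y.wt b else 0 := by
  rw [sum_eq]; simp

theorem sum_const_le (hw : 0 ≤ Y.wt u) (P : g.T → Prop) [DecidablePred P] :
    (∑ t, if P t then Y.wt u else 0) ≤ 6 * m * Y.wt u := by
  refine (sum_le_card_nsmul _ _ (Y.wt u) fun t _ => by split_ifs <;> simp [hw]).trans ?_
  rw [nsmul_eq_mul, card_univ]
  exact mul_le_mul_of_nonneg_right (by exact_mod_cast g.card) hw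

open Classical in
theorem below_nw (hw : 0 ≤ Y.wt u) (t : g.T) : (∑ x, if x < nw t then (glue Y u g).wt x else 0) ≤
    (∑ b, if b < u then Y.wt b else 0) + Y.wt u + 6 * m * Y.wt u := by
  rw [sum_eq]
  refine add_le_add (le_of_eq ?_) (sum_const_le hw _)
  have e : ∀ z, (if (od z : (glue Y u g).P) < nw t then (glue Y u g).wt (od z) else 0) =
      (if z < u then Y.wt z else 0) + if z = u then Y.wt z else 0 := fun z => by
    by_cases hz : z = u
    · simp [hz]
    · simp [hz, lt_iff_le_and_ne (b := u)]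
  simp only [e, sum_add_distrib, sum_ite_eq', mem_univ, if_true]

open Classical in
theorem new_le (hw : 0 ≤ Y.wt u) :
    (∑ x, if x ∉ Set.range (inc Y u g).f then (glue Y u g).wt x else 0) ≤ 6 * m * Y.wt u := by
  rw [sum_eq, sum_eq_zero fun a _ => if_neg fun h => h ⟨a, rfl⟩, zero_add]
  exact sum_const_le hw _

end glue

theorem GP.up_int (Y : GP) (u : Y.P) : ∃ z : ℤ, Y.up u = z := by
  classical
  refine ⟨∑ x, if u ≤ x then (-1) ^ Y.rk x else 0, ?_⟩
  rw [GP.up]
  push_cast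
  exact sum_congr rfl fun x _ => by simp [GP.sg]

open Classical in
/-- the potential -/
noncomputable def pot (k : ℕ) (L : ℝ) (Y : GP) : ℝ :=
  ∑ u, if Odd (k + Y.rk u) then L ^ Y.rk u * Y.wt u * |Y.up u| else 0

theorem pot_nonneg (k : ℕ) {L : ℝ} (hL : 0 ≤ L) {Y : GP} (hY : Y.Good) : 0 ≤ pot k L Y :=
  sum_nonneg fun u _ => by
    have := hY.wt_pos u
    split_ifs <;> positivity

open Classical in
theorem pot_glue {k : ℕ} {K : ℝ} (hK : 1 ≤ K) {Y : GP} (hY : Y.Good) {u : Y.P} {m : ℕ} {e : ℝ}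
    (g : Gad m e) (ho : Odd (k + Y.rk u)) (he : |Y.sg u * e| ≤ 1)
    (hu : |Y.up u + -Y.sg u * e| = |Y.up u| - 1)
    (hb : (∑ b, if b < u then Y.wt b else 0) ≤ K * Y.wt u) :
    pot k (2 * K) (glue Y u g) ≤ pot k (2 * K) Y - Y.wt u / 2 := by
  have hL : 1 ≤ 2 * K := by linarith
  have hw := hY.wt_pos u
  have h1 : 1 ≤ (2 * K) ^ Y.rk u := one_le_pow₀ hL
  rw [pot, glue.sum_eq, sum_eq_zero (s := univ) (f := fun t : g.T => _) fun t _ => ?_, add_zero]
  · have key : ∀ a, (if Odd (k + (glue Y u g).rk (glue.od a)) then (2 * K) ^ (glue Y u g).rk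
        (glue.od a) * (glue Y u g).wt (glue.od a) * |(glue Y u g).up (glue.od a)| else 0) ≤
        (if Odd (k + Y.rk a) then (2 * K) ^ Y.rk a * Y.wt a * |Y.up a| else 0) +
        ((2 * K) ^ Y.rk u / (2 * K) * (if a < u then Y.wt a else 0) -
          if a = u then (2 * K) ^ Y.rk u * Y.wt u else 0) := fun a => by
      have ha := hY.wt_pos a
      rw [glue.rk_od, glue.wt_od, glue.up_od]
      by_cases h : a = u
      · subst h
        simp only [ho, if_true, le_refl, hu, lt_irrefl, if_false]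
        linarith
      · rw [if_neg h, sub_zero]
        by_cases h' : a < u
        · rw [if_pos h'.le, if_pos h']
          have h2 : (2 * K) ^ Y.rk a ≤ (2 * K) ^ Y.rk u / (2 * K) := by
            rw [le_div_iff₀ (by linarith), ← pow_succ]
            exact pow_le_pow_right₀ hL (hY.mono a u h')
          have h3 : |Y.up a + -Y.sg u * e| ≤ |Y.up a| + 1 :=
            (abs_add_le _ _).trans (by rw [neg_mul, abs_neg]; linarith)
          have h4 := mul_le_mul_of_nonneg_right h2 ha.le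
          split_ifs
          · have h5 := mul_le_mul_of_nonneg_left h3
              (by positivity : 0 ≤ (2 * K) ^ Y.rk a * Y.wt a)
            linarith
          · positivity
        · rw [if_neg fun e => h' (lt_of_le_of_ne e h), if_neg h', add_zero, mul_zero, add_zero]
    refine (sum_le_sum fun a _ => key a).trans ?_
    rw [sum_add_distrib, sum_sub_distrib, ← mul_sum, sum_ite_eq', if_pos (mem_univ _), pot]
    have h6 := mul_le_mul_of_nonneg_left hb (by positivity : 0 ≤ (2 * K) ^ Y.rk u / (2 * K))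
    have h7 : (2 * K) ^ Y.rk u / (2 * K) * (K * Y.wt u) = (2 * K) ^ Y.rk u * Y.wt u / 2 := by
      field_simp
    nlinarith
  · split_ifs with h
    · rw [glue.up_nw t (by rw [glue.rk_nw] at h; grind), abs_zero, mul_zero]
    · rfl

open Classical in
theorem new_comp {Q R S : GP} (i : IE Q R) (j : IE R S) :
    (∑ x, if x ∉ Set.range (i.comp j).f then S.wt x else 0) =
      (∑ x, if x ∉ Set.range j.f then S.wt x else 0) +
        ∑ y, if y ∉ Set.range i.f then R.wt y else 0 := by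
  have e : ∀ y, j.f y ∈ Set.range (i.comp j).f ↔ y ∈ Set.range i.f := fun y =>
    ⟨fun ⟨a, h⟩ => ⟨a, j.inj h⟩, fun ⟨a, h⟩ => ⟨a, congrArg j.f h⟩⟩
  rw [← sub_eq_iff_eq_add', ← sum_sub_distrib, j.sum_eq]
  · refine sum_congr rfl fun y _ => ?_
    rw [if_neg (c := j.f y ∉ Set.range j.f) fun h => h ⟨y, rfl⟩, sub_zero, j.wt]
    simp only [e]
  · intro x hx
    rw [if_pos hx, if_pos fun ⟨a, h⟩ => hx ⟨_, h⟩, sub_self]

open Classical in
theorem fix_iter (k : ℕ) {K δ : ℝ} (hK : 1 ≤ K) (hδ : 0 < δ) (n : ℕ) :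
    ∀ (Y : GP), Y.Good → Y.Bd (K + 1 + 6 * k) → Y.Pure k → ∀ B : Set Y.P, IsLowerSet B →
      (∀ u ∈ B, Y.rk u + 2 ≤ k ∧ δ ≤ Y.wt u ∧ (∑ b, if b < u then Y.wt b else 0) ≤ K * Y.wt u) →
      (∀ u, Odd (k + Y.rk u) → u ∉ B → Y.up u = 0) → pot k (2 * K) Y < n * (δ / 2) →
      ∃ (Z : GP) (i : IE Y Z), Z.Good ∧ Z.Bd (K + 1 + 6 * k) ∧ Z.Pure k ∧
        (∀ u, Odd (k + Z.rk u) → Z.up u = 0) ∧ (∀ x, x ∉ Set.range i.f → Z.col x = none) ∧
        (∑ x, if x ∉ Set.range i.f then Z.wt x else 0) ≤ 12 * k * pot k (2 * K) Y := by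
  induction n with
  | zero =>
    intro Y hY _ _ _ _ _ _ h
    exact absurd (pot_nonneg k (by linarith : 0 ≤ 2 * K) hY) (not_le.2 (by simpa using h))
  | succ n ih =>
    intro Y hY hb hp B hB h1 h2 hn
    have h0 := pot_nonneg k (by linarith : 0 ≤ 2 * K) hY
    by_cases hz : ∀ u, Odd (k + Y.rk u) → Y.up u = 0
    · refine ⟨Y, IE.refl Y, hY, hb, hp, hz, fun x hx => (hx ⟨x, rfl⟩).elim, ?_⟩
      rw [sum_eq_zero fun x _ => if_neg fun h => h ⟨x, rfl⟩]
      positivity
    push Not at hz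
    obtain ⟨u, ho, hu⟩ := hz
    have huB : u ∈ B := by_contra fun h => hu (h2 u ho h)
    obtain ⟨hr, hw, hs⟩ := h1 u huB
    have hw0 := (hY.wt_pos u).le
    obtain ⟨m, hm⟩ : ∃ m, Y.rk u + m = k := ⟨k - Y.rk u, by omega⟩
    have hmo : Odd m := by grind
    have hmk : (m : ℝ) ≤ k := by exact_mod_cast (by omega : m ≤ k)
    obtain ⟨e, he, he1, he2⟩ : ∃ e : ℝ, (e = 1 ∨ e = -1) ∧ |Y.sg u * e| ≤ 1 ∧
        |Y.up u + -Y.sg u * e| = |Y.up u| - 1 := by
      obtain ⟨z, hz⟩ := Y.up_int u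
      have hz0 : z ≠ 0 := fun e => hu (by rw [hz, e, Int.cast_zero])
      have hs : Y.sg u = 1 ∨ Y.sg u = -1 := neg_one_pow_eq_or ℝ _
      rcases lt_or_gt_of_ne hz0 with h | h
      · have : (z : ℝ) ≤ -1 := by exact_mod_cast (by omega : z ≤ -1)
        refine ⟨-Y.sg u, by rcases hs with h | h <;> simp [h], by rcases hs with h | h <;> simp [h], ?_⟩
        rw [hz, show -Y.sg u * -Y.sg u = 1 by rcases hs with h | h <;> simp [h],
          abs_of_nonpos (by linarith), abs_of_nonpos (by linarith)]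
        ring
      · have : (1 : ℝ) ≤ z := by exact_mod_cast (by omega : 1 ≤ z)
        refine ⟨Y.sg u, hs, by rcases hs with h | h <;> simp [h], ?_⟩
        rw [hz, show -Y.sg u * Y.sg u = -1 by rcases hs with h | h <;> simp [h],
          abs_of_nonneg (by linarith), abs_of_nonneg (by linarith)]
        ring
    obtain ⟨g⟩ := exists_gad (m := m) (by grind) hmo he
    have hpot := pot_glue hK hY g ho he1 he2 hs
    have h6 : 6 * m * Y.wt u ≤ 6 * k * Y.wt u := by gcongr
    obtain ⟨Z, j, z1, z2, z3, z4, z5, z6⟩ := ih (glue Y u g) (glue.good hY) (fun x => by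
        rcases glue.cases x with ⟨a, rfl⟩ | ⟨t, rfl⟩
        · exact (glue.below_od a).trans_le (hb a)
        · refine (glue.below_nw hw0 t).trans ?_
          rw [glue.wt_nw]
          linarith) (glue.pure hp hm) (glue.od '' B) (by
        rintro _ x hx ⟨b, hb, rfl⟩
        obtain ⟨a, rfl⟩ := (glue.inc Y u g).down b x hx
        exact ⟨a, hB hx hb, rfl⟩) (by
        rintro _ ⟨b, hb, rfl⟩
        exact ⟨(h1 b hb).1, (h1 b hb).2.1, (glue.below_od b).trans_le (h1 b hb).2.2⟩) (fun x hx hx' => by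
        rcases glue.cases x with ⟨a, rfl⟩ | ⟨t, rfl⟩
        · have ha : a ∉ B := fun h => hx' ⟨a, h, rfl⟩
          rw [glue.up_od, h2 a hx ha, if_neg fun h => ha (hB h huB), add_zero]
        · exact glue.up_nw t (by rw [glue.rk_nw] at hx; grind)) (by
        push_cast at hn
        linarith)
    refine ⟨Z, (glue.inc Y u g).comp j, z1, z2, z3, z4, fun x hx => ?_, ?_⟩
    · by_cases h : x ∈ Set.range j.f
      · obtain ⟨y, rfl⟩ := h
        rcases glue.cases y with ⟨a, rfl⟩ | ⟨t, rfl⟩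
        · exact (hx ⟨a, rfl⟩).elim
        · exact j.col _
      · exact z5 x h
    · rw [new_comp]
      have h7 := glue.new_le (g := g) hw0
      have h8 := mul_le_mul_of_nonneg_left hpot (by positivity : (0 : ℝ) ≤ 12 * k)
      linarith

open Classical in
theorem fix (k : ℕ) (K : ℝ) (hK : 1 ≤ K) : ∃ K' C : ℝ, K ≤ K' ∧ 0 ≤ C ∧
    ∀ (Y : GP), Y.Good → Y.Bd K → Y.Pure k → ∀ B : Set Y.P, IsLowerSet B →
      (∀ u ∈ B, Y.rk u + 2 ≤ k) → (∀ u, Odd (k + Y.rk u) → u ∉ B → Y.up u = 0) →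
      ∃ (Z : GP) (i : IE Y Z), Z.Good ∧ Z.Bd K' ∧ Z.Pure k ∧
        (∀ u, Odd (k + Z.rk u) → Z.up u = 0) ∧ (∀ x, x ∉ Set.range i.f → Z.col x = none) ∧
        (∑ x, if x ∉ Set.range i.f then Z.wt x else 0) ≤
          C * ∑ u, if Odd (k + Y.rk u) then Y.wt u * |Y.up u| else 0 := by
  have hk : (0 : ℝ) ≤ k := Nat.cast_nonneg k
  refine ⟨K + 1 + 6 * k, 12 * k * (2 * K) ^ k, by linarith, by positivity,
    fun Y hY hb hp B hB h1 h2 => ?_⟩
  obtain ⟨u₀, hu₀⟩ := Finite.exists_min Y.wt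
  have hδ := hY.wt_pos u₀
  obtain ⟨n, hn⟩ := exists_nat_gt (pot k (2 * K) Y / (Y.wt u₀ / 2))
  obtain ⟨Z, i, z1, z2, z3, z4, z5, z6⟩ := fix_iter k hK hδ n Y hY (hb.mono hY (by linarith)) hp B
    hB (fun u hu => ⟨h1 u hu, hu₀ u, hb u⟩) h2 ((div_lt_iff₀ (by positivity)).1 hn)
  refine ⟨Z, i, z1, z2, z3, z4, z5, z6.trans ?_⟩
  rw [mul_assoc (12 * (k : ℝ))]
  refine mul_le_mul_of_nonneg_left ?_ (by positivity)
  rw [pot, mul_sum]
  refine sum_le_sum fun u _ => ?_
  split_ifs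
  · obtain ⟨z, hz, hr⟩ := hp u
    have := hY.wt_pos u
    rw [mul_assoc]
    exact mul_le_mul_of_nonneg_right (pow_le_pow_right₀ (by linarith) (hr ▸ hY.rk_le hz))
      (by positivity)
  · simp

end Pool.Agent.Lib.MP_685082_co.Cone
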