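import Pool.Agent.Lib.MP_685082_co.KGP

/-! Gadgets: subdivided complete bipartite graphs, and the gluing of a gadget above an element. -/

namespace Pool.Agent.Lib.MP_685082_co.Cone

open Finset GP

open Classical in
/-- a poset of height `m` with alternating sum `e` whose intervals look like chains -/
structure Gad (m : ℕ) (e : ℝ) where
  T : Type
  [fin : Fintype T]
  [po : PartialOrder T]
  ht : T → ℕ
  mono : ∀ s t, s < t → ht s < ht t
  mid : ∀ s t, s < t → ht s + 1 < ht t → ∃ z, s < z ∧ z < t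
  low : ∀ t, 0 < ht t → ∃ z, z < t
  even : ∀ s t, s < t → Even (ht t + ht s) →
    (∑ z, if s ≤ z ∧ z < t then (-1 : ℝ) ^ ht z else 0) = 0
  base : ∀ t, (∑ z, if z < t then (-1 : ℝ) ^ ht z else 0) = (1 - (-1) ^ ht t) / 2
  pure : ∀ t, ∃ z, t ≤ z ∧ ht z + 1 = m
  up : ∀ t, Odd (ht t) → (∑ z, if t ≤ z then (-1 : ℝ) ^ ht z else 0) = 0
  tot : (∑ z, (-1 : ℝ) ^ ht z) = e
  card : Fintype.card T ≤ 6 * m

attribute [instance] Gad.fin Gad.po

theorem alt_lt (n b : ℕ) (hb : b ≤ n) :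
    (∑ i : Fin n, if i.1 < b then (-1 : ℝ) ^ (i.1 + 1) else 0) = ((-1) ^ b - 1) / 2 := by
  rw [Fin.sum_univ_eq_sum_range (fun i => if i < b then (-1 : ℝ) ^ (i + 1) else 0), ← sum_filter]
  have : (range n).filter (· < b) = range b := by
    ext i; simp only [mem_filter, mem_range]; omega
  rw [this]
  clear this hb
  induction b with
  | zero => simp
  | succ b ih => rw [sum_range_succ, ih]; ring

theorem alt_ico (n a b : ℕ) (hab : a ≤ b) (hb : b ≤ n) (P : Fin n → Prop) [DecidablePred P]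
    (h : ∀ i, P i ↔ a ≤ i.1 ∧ i.1 < b) :
    (∑ i : Fin n, if P i then (-1 : ℝ) ^ (i.1 + 1) else 0) = ((-1) ^ b - (-1) ^ a) / 2 := by
  have e : ∀ i : Fin n, (if P i then (-1 : ℝ) ^ (i.1 + 1) else 0) =
      (if i.1 < b then (-1 : ℝ) ^ (i.1 + 1) else 0) - if i.1 < a then (-1 : ℝ) ^ (i.1 + 1) else 0 :=
    fun i => by
      simp only [h]
      by_cases h1 : i.1 < a
      · rw [if_neg (by omega), if_pos (by omega), if_pos h1, sub_self]
      · by_cases h2 : i.1 < b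
        · rw [if_pos ⟨by omega, h2⟩, if_pos h2, if_neg h1, sub_zero]
        · rw [if_neg (by omega), if_neg h2, if_neg h1, sub_zero]
  simp only [e, sum_sub_distrib, alt_lt n b hb, alt_lt n a (hab.trans hb)]
  ring

theorem pow_par {a b : ℕ} (h : Even (a + b)) : (-1 : ℝ) ^ a = (-1) ^ b := by
  rcases Nat.even_or_odd a with h1 | h1
  · rw [h1.neg_one_pow, Even.neg_one_pow (by grind)]
  · rw [h1.neg_one_pow, Odd.neg_one_pow (by grind)]

/-- atoms, subdivided edges, coatoms -/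
def KT (p q n : ℕ) : Type := Fin p ⊕ (Fin p × Fin q × Fin n) ⊕ Fin q

namespace KT

variable {p q n : ℕ}

instance : Fintype (KT p q n) := inferInstanceAs (Fintype (Fin p ⊕ (Fin p × Fin q × Fin n) ⊕ Fin q))

def lo (a : Fin p) : KT p q n := Sum.inl a
def mi (a : Fin p) (c : Fin q) (j : Fin n) : KT p q n := Sum.inr (Sum.inl (a, c, j))
def hi (c : Fin q) : KT p q n := Sum.inr (Sum.inr c)

theorem cases (x : KT p q n) : (∃ a, x = lo a) ∨ (∃ a c j, x = mi a c j) ∨ ∃ c, x = hi c := by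
  rcases x with a | ⟨a, c, j⟩ | c
  exacts [Or.inl ⟨a, rfl⟩, Or.inr (Or.inl ⟨a, c, j, rfl⟩), Or.inr (Or.inr ⟨c, rfl⟩)]

def le : KT p q n → KT p q n → Prop
  | Sum.inl a, Sum.inl a' => a = a'
  | Sum.inl a, Sum.inr (Sum.inl x) => a = x.1
  | Sum.inl _, Sum.inr (Sum.inr _) => True
  | Sum.inr (Sum.inl x), Sum.inr (Sum.inl y) => x.1 = y.1 ∧ x.2.1 = y.2.1 ∧ x.2.2.1 ≤ y.2.2.1
  | Sum.inr (Sum.inl x), Sum.inr (Sum.inr c) => x.2.1 = c
  | Sum.inr (Sum.inr c), Sum.inr (Sum.inr c') => c = c'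
  | Sum.inr _, Sum.inl _ => False
  | Sum.inr (Sum.inr _), Sum.inr (Sum.inl _) => False

instance : PartialOrder (KT p q n) where
  le := le
  le_refl := by rintro (a | x | c) <;> simp [le]
  le_trans := by
    rintro (a | x | c) (a' | x' | c') (a'' | x'' | c'') <;> simp only [le] <;> intro h1 h2 <;>
      first
        | trivial
        | exact h1.elim
        | exact h2.elim
        | exact h1.trans h2
        | exact h1.trans h2.1
        | exact h1.2.1.trans h2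
        | exact ⟨h1.1.trans h2.1, h1.2.1.trans h2.2.1, h1.2.2.trans h2.2.2⟩
  le_antisymm := by
    rintro (a | ⟨a, c, j⟩ | c) (a' | ⟨a', c', j'⟩ | c') <;> simp only [le] <;> intro h1 h2 <;>
      first
        | exact h1.elim
        | exact h2.elim
        | rw [h1]
        | rw [h1.1, h1.2.1, Fin.ext (le_antisymm h1.2.2 h2.2.2)]

variable {a a' : Fin p} {c c' : Fin q} {j j' : Fin n}

@[simp] theorem ll : (lo a : KT p q n) ≤ lo a' ↔ a = a' := Iff.rfl
@[simp] theorem lm : (lo a : KT p q n) ≤ mi a' c j ↔ a = a' := Iff.rfl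
@[simp] theorem lh : (lo a : KT p q n) ≤ hi c ↔ True := Iff.rfl
@[simp] theorem ml : (mi a c j : KT p q n) ≤ lo a' ↔ False := Iff.rfl
@[simp] theorem mm : (mi a c j : KT p q n) ≤ mi a' c' j' ↔ a = a' ∧ c = c' ∧ j.1 ≤ j'.1 := Iff.rfl
@[simp] theorem mh : (mi a c j : KT p q n) ≤ hi c' ↔ c = c' := Iff.rfl
@[simp] theorem hl : (hi c : KT p q n) ≤ lo a ↔ False := Iff.rfl
@[simp] theorem hm : (hi c : KT p q n) ≤ mi a c' j ↔ False := Iff.rfl
@[simp] theorem hh : (hi c : KT p q n) ≤ hi c' ↔ c = c' := Iff.rfl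

@[simp] theorem ll' : (lo a : KT p q n) < lo a' ↔ False := by
  simp only [lt_iff_le_not_ge, ll]; tauto
@[simp] theorem lm' : (lo a : KT p q n) < mi a' c j ↔ a = a' := by simp [lt_iff_le_not_ge]
@[simp] theorem lh' : (lo a : KT p q n) < hi c ↔ True := by simp [lt_iff_le_not_ge]
@[simp] theorem ml' : (mi a c j : KT p q n) < lo a' ↔ False := by simp [lt_iff_le_not_ge]
@[simp] theorem mm' : (mi a c j : KT p q n) < mi a' c' j' ↔ a = a' ∧ c = c' ∧ j.1 < j'.1 := by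
  simp only [lt_iff_le_not_ge (a := (mi a c j : KT p q n)), mm]
  constructor
  · rintro ⟨⟨rfl, rfl, h⟩, h'⟩
    exact ⟨rfl, rfl, lt_of_not_ge fun e => h' ⟨rfl, rfl, e⟩⟩
  · rintro ⟨rfl, rfl, h⟩
    exact ⟨⟨rfl, rfl, h.le⟩, fun e => absurd e.2.2 (not_le.2 h)⟩
@[simp] theorem mh' : (mi a c j : KT p q n) < hi c' ↔ c = c' := by simp [lt_iff_le_not_ge]
@[simp] theorem hl' : (hi c : KT p q n) < lo a ↔ False := by simp [lt_iff_le_not_ge]
@[simp] theorem hm' : (hi c : KT p q n) < mi a c' j ↔ False := by simp [lt_iff_le_not_ge]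
@[simp] theorem hh' : (hi c : KT p q n) < hi c' ↔ False := by
  simp only [lt_iff_le_not_ge, hh]; tauto

def ht : KT p q n → ℕ
  | Sum.inl _ => 0
  | Sum.inr (Sum.inl x) => x.2.2.1 + 1
  | Sum.inr (Sum.inr _) => n + 1

@[simp] theorem ht_lo : ht (lo a : KT p q n) = 0 := rfl
@[simp] theorem ht_mi : ht (mi a c j : KT p q n) = j.1 + 1 := rfl
@[simp] theorem ht_hi : ht (hi c : KT p q n) = n + 1 := rfl

theorem sum_eq (f : KT p q n → ℝ) :
    ∑ x, f x = ∑ a, f (lo a) + (∑ a, ∑ c, ∑ j, f (mi a c j) + ∑ c, f (hi c)) := by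
  refine (Fintype.sum_sum_type f).trans ?_
  rw [Fintype.sum_sum_type, Fintype.sum_prod_type]
  simp only [Fintype.sum_prod_type]
  rfl

theorem sum_ac (a : Fin p) (c : Fin q) (P : Fin p → Fin q → Fin n → Prop) (Q : Fin n → Prop)
    [∀ a c j, Decidable (P a c j)] [DecidablePred Q] (f : Fin n → ℝ)
    (h : ∀ a' c' j, P a' c' j ↔ a' = a ∧ c' = c ∧ Q j) :
    (∑ a', ∑ c', ∑ j, if P a' c' j then f j else 0) = ∑ j, if Q j then f j else 0 := by
  rw [sum_eq_single a, sum_eq_single c]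
  · simp [h]
  · intro c' _ hc; simp [h, hc]
  · simp
  · intro a' _ ha; simp [h, ha]
  · simp

end KT

open KT Classical in
/-- the subdivided complete bipartite graph -/
noncomputable def gadK (p q n : ℕ) (hp : 0 < p) (hq : 0 < q) (hn : Odd n)
    (hc : p + (p * (q * n) + q) ≤ 6 * (n + 2)) : Gad (n + 2) (p + q - p * q) where
  T := KT p q n
  ht := ht
  mono s t h := by
    rcases cases s with ⟨a, rfl⟩ | ⟨a, c, j, rfl⟩ | ⟨c, rfl⟩ <;>
      rcases cases t with ⟨a', rfl⟩ | ⟨a', c', j', rfl⟩ | ⟨c', rfl⟩ <;> simp at h ⊢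
    exact h.2.2
  mid s t h h' := by
    have h0 : 0 < n := hn.pos
    rcases cases s with ⟨a, rfl⟩ | ⟨a, c, j, rfl⟩ | ⟨c, rfl⟩ <;>
      rcases cases t with ⟨a', rfl⟩ | ⟨a', c', j', rfl⟩ | ⟨c', rfl⟩ <;>
      simp only [ll', lm', lh', ml', mm', mh', hl', hm', hh', ht_lo, ht_mi, ht_hi] at h h'
    · exact ⟨mi a c' ⟨0, h0⟩, by simp, mm'.2 ⟨h, rfl, by simp only; omega⟩⟩
    · exact ⟨mi a c' ⟨0, h0⟩, by simp, by simp⟩
    · exact ⟨mi a c ⟨j.1 + 1, by omega⟩, by simp, mm'.2 ⟨h.1, h.2.1, by simp only; omega⟩⟩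
    · exact ⟨mi a c ⟨j.1 + 1, by omega⟩, by simp, mh'.2 h⟩
  low t h := by
    rcases cases t with ⟨a, rfl⟩ | ⟨a, c, j, rfl⟩ | ⟨c, rfl⟩
    · simp at h
    · exact ⟨lo a, by simp⟩
    · exact ⟨lo ⟨0, hp⟩, by simp⟩
  even s t h h' := by
    rw [sum_eq]
    rcases cases s with ⟨a, rfl⟩ | ⟨a, c, j, rfl⟩ | ⟨c, rfl⟩ <;>
      rcases cases t with ⟨a', rfl⟩ | ⟨a', c', j', rfl⟩ | ⟨c', rfl⟩ <;>
      simp only [ll', lm', lh', ml', mm', mh', hl', hm', hh', ht_lo, ht_mi, ht_hi] at h h'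
    · subst h
      have ho : Odd j'.1 := by rw [add_zero, Nat.even_add_one, Nat.not_even_iff_odd] at h'; exact h'
      simp only [ht_mi]
      rw [sum_ac a c' _ (fun i => i.1 < j'.1) (fun i => (-1 : ℝ) ^ (i.1 + 1))
        (fun _ _ _ => by simp only [lm, mm']; tauto), alt_lt n _ j'.2.le, ho.neg_one_pow]
      simp [eq_comm (a := a)]; norm_num
    · simp only [ht_mi]
      rw [sum_ac a c' _ (fun i => i.1 < n) (fun i => (-1 : ℝ) ^ (i.1 + 1))
        (fun _ _ i => by simp only [lm, mh', i.2]; tauto), alt_lt n _ le_rfl, hn.neg_one_pow]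
      simp; norm_num
    · obtain ⟨rfl, rfl, h⟩ := h
      simp only [ht_mi]
      rw [sum_ac a c _ (fun i => j.1 ≤ i.1 ∧ i.1 < j'.1) (fun i => (-1 : ℝ) ^ (i.1 + 1))
        (fun _ _ _ => by simp only [mm, mm']; tauto), alt_ico n _ _ h.le j'.2.le _ fun _ => Iff.rfl,
        pow_par (a := j'.1) (b := j.1) (by grind)]
      simp
    · subst h
      simp only [ht_mi]
      rw [sum_ac a c _ (fun i => j.1 ≤ i.1 ∧ i.1 < n) (fun i => (-1 : ℝ) ^ (i.1 + 1))
        (fun _ _ i => by simp only [mm, mh', i.2]; tauto), alt_ico n _ _ j.2.le le_rfl _ fun _ => Iff.rfl,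
        pow_par (a := n) (b := j.1) (by grind)]
      simp
  base t := by
    rw [sum_eq]
    rcases cases t with ⟨a, rfl⟩ | ⟨a, c, j, rfl⟩ | ⟨c, rfl⟩
    · simp
    · simp only [ht_mi]
      rw [sum_ac a c _ (fun i => i.1 < j.1) (fun i => (-1 : ℝ) ^ (i.1 + 1))
        (fun _ _ _ => mm'), alt_lt n _ j.2.le]
      simp; ring
    · have := alt_lt n n le_rfl
      simp only [Fin.is_lt, if_true, hn.neg_one_pow] at this
      simp [this, pow_succ (-1 : ℝ) n, hn.neg_one_pow]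
      norm_num
  pure t := by
    rcases cases t with ⟨a, rfl⟩ | ⟨a, c, j, rfl⟩ | ⟨c, rfl⟩
    exacts [⟨hi ⟨0, hq⟩, by simp, rfl⟩, ⟨hi c, by simp, rfl⟩, ⟨hi c, le_rfl, rfl⟩]
  up t h := by
    rw [sum_eq]
    rcases cases t with ⟨a, rfl⟩ | ⟨a, c, j, rfl⟩ | ⟨c, rfl⟩
    · simp at h
    · simp only [ht_mi] at h ⊢
      have he : Even j.1 := by grind
      rw [sum_ac a c _ (fun i => j.1 ≤ i.1 ∧ i.1 < n) (fun i => (-1 : ℝ) ^ (i.1 + 1))
        (fun _ _ i => by simp only [mm, i.2]; tauto), alt_ico n _ _ j.2.le le_rfl _ fun _ => Iff.rfl,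
        he.neg_one_pow]
      simp [pow_succ (-1 : ℝ) n, hn.neg_one_pow]
      norm_num
    · simp only [ht_hi] at h
      grind
  tot := by
    rw [sum_eq]
    have := alt_lt n n le_rfl
    simp only [Fin.is_lt, if_true, hn.neg_one_pow] at this
    simp [this, pow_succ (-1 : ℝ) n, hn.neg_one_pow]
    ring
  card := by
    refine le_trans (le_of_eq ?_) hc
    change Fintype.card (Fin p ⊕ (Fin p × Fin q × Fin n) ⊕ Fin q) = _
    simp

theorem exists_gad {m : ℕ} (hm : 3 ≤ m) (ho : Odd m) {e : ℝ} (he : e = 1 ∨ e = -1) :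
    Nonempty (Gad m e) := by
  obtain ⟨n, rfl⟩ : ∃ n, m = n + 2 := ⟨m - 2, by omega⟩
  have hn : Odd n := by grind
  rcases he with rfl | rfl
  · have := gadK 1 1 n one_pos one_pos hn (by omega)
    norm_num at this
    exact ⟨this⟩
  · have := gadK 2 3 n two_pos three_pos hn (by omega)
    norm_num at this
    exact ⟨this⟩

end Pool.Agent.Lib.MP_685082_co.Cone
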