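import Pool.Agent.Lib.MP_685082_co.KBasic
import Pool.Agent.Lib.MP_685082_co.CMain

/-! Finite coloured weighted graded posets and ideal embeddings. -/

namespace Pool.Agent.Lib.MP_685082_co.Cone

open Finset

structure GP where
  P : Type
  [fin : Fintype P]
  [po : PartialOrder P]
  [ob : OrderBot P]
  rk : P → ℕ
  col : P → Option Lb
  wt : P → ℝ

attribute [instance] GP.fin GP.po GP.ob

/-- ideal embeddings -/
structure IE (Q R : GP) where
  f : Q.P → R.P
  le_iff : ∀ a b, f a ≤ f b ↔ a ≤ b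
  down : ∀ b y, y ≤ f b → ∃ a, f a = y
  rk : ∀ a, R.rk (f a) = Q.rk a
  col : ∀ a, R.col (f a) = Q.col a
  wt : ∀ a, R.wt (f a) = Q.wt a

namespace GP

def sg (Q : GP) (x : Q.P) : ℝ := (-1) ^ Q.rk x

open Classical in
/-- signed count of the elements above `u` -/
noncomputable def up (Q : GP) (u : Q.P) : ℝ := ∑ x, if u ≤ x then Q.sg x else 0

open Classical in
structure Good (Q : GP) : Prop where
  rk_bot : Q.rk ⊥ = 0
  col_bot : Q.col ⊥ = some b0
  wt_bot : Q.wt ⊥ = 1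
  mono : ∀ u x, u < x → Q.rk u < Q.rk x
  mid : ∀ u x, u < x → Q.rk u + 1 < Q.rk x → ∃ z, u < z ∧ z < x
  even : ∀ u x, u < x → Even (Q.rk x + Q.rk u) → (∑ z, if u ≤ z ∧ z < x then Q.sg z else 0) = 0
  wt_pos : ∀ x, 0 < Q.wt x

open Classical in
/-- the weights below an element are bounded by `K` times its weight -/
def Bd (Q : GP) (K : ℝ) : Prop := ∀ x, (∑ u, if u < x then Q.wt u else 0) ≤ K * Q.wt x

/-- every element is below an element of rank `k` -/
def Pure (Q : GP) (k : ℕ) : Prop := ∀ x, ∃ z, x ≤ z ∧ Q.rk z = k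

/-- add a top element of rank `k`, colour `c`, weight `w` -/
noncomputable def top (Q : GP) (k : ℕ) (c : Option Lb) (w : ℝ) : GP where
  P := WithTop Q.P
  rk := WithTop.recTopCoe k Q.rk
  col := WithTop.recTopCoe c Q.col
  wt := WithTop.recTopCoe w Q.wt

open Classical in
/-- the lower interval of an element -/
noncomputable def iic (Q : GP) (x : Q.P) : GP where
  P := Set.Iic x
  fin := Fintype.ofFinite _
  rk := fun a => Q.rk a.1
  col := fun a => Q.col a.1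
  wt := fun a => Q.wt a.1

end GP

open GP

def IE.refl (Q : GP) : IE Q Q := ⟨id, fun _ _ => Iff.rfl, fun _ y _ => ⟨y, rfl⟩, fun _ => rfl,
  fun _ => rfl, fun _ => rfl⟩

def IE.comp {Q R S : GP} (i : IE Q R) (j : IE R S) : IE Q S where
  f := fun a => j.f (i.f a)
  le_iff := fun a b => (j.le_iff _ _).trans (i.le_iff a b)
  down := fun b y h => by
    obtain ⟨a, rfl⟩ := j.down _ y h
    obtain ⟨c, rfl⟩ := i.down b a ((j.le_iff _ _).1 h)
    exact ⟨c, rfl⟩
  rk := fun a => (j.rk _).trans (i.rk a)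
  col := fun a => (j.col _).trans (i.col a)
  wt := fun a => (j.wt _).trans (i.wt a)

def IE.ofIic (Q : GP) (x : Q.P) : IE (Q.iic x) Q where
  f := fun a => a.1
  le_iff := fun _ _ => Iff.rfl
  down := fun b y h => ⟨⟨y, le_trans h b.2⟩, rfl⟩
  rk := fun _ => rfl
  col := fun _ => rfl
  wt := fun _ => rfl

def IE.toTop (Q : GP) (k : ℕ) (c : Option Lb) (w : ℝ) : IE Q (Q.top k c w) where
  f := fun a => ((a : Q.P) : WithTop Q.P)
  le_iff := fun _ _ => WithTop.coe_le_coe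
  down := fun b y h => by
    obtain ⟨a, h1, -⟩ := WithTop.le_coe_iff.1 h
    exact ⟨a, h1.symm⟩
  rk := fun _ => rfl
  col := fun _ => rfl
  wt := fun _ => rfl

theorem IE.inj {Q R : GP} (i : IE Q R) : Function.Injective i.f := fun a b h =>
  le_antisymm ((i.le_iff a b).1 h.le) ((i.le_iff b a).1 h.ge)

theorem IE.lt_iff {Q R : GP} (i : IE Q R) (a b : Q.P) : i.f a < i.f b ↔ a < b := by
  simp only [lt_iff_le_not_ge, i.le_iff]

theorem IE.bot {Q R : GP} (i : IE Q R) : i.f ⊥ = ⊥ := by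
  obtain ⟨a, h⟩ := i.down ⊥ ⊥ bot_le
  exact le_bot_iff.1 (h ▸ (i.le_iff _ _).2 bot_le)

theorem IE.sg {Q R : GP} (i : IE Q R) (a : Q.P) : R.sg (i.f a) = Q.sg a := by
  simp only [GP.sg, i.rk]

/-- a sum of a function vanishing off the image -/
theorem IE.sum_eq {Q R : GP} (i : IE Q R) (g : R.P → ℝ) (hg : ∀ y, y ∉ Set.range i.f → g y = 0) :
    ∑ y, g y = ∑ a, g (i.f a) := by
  exact (Fintype.sum_of_injective i.f i.inj _ g hg fun _ => rfl).symm

open Classical in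
theorem IE.sum_ico {Q R : GP} (i : IE Q R) (a b : Q.P) :
    (∑ z, if i.f a ≤ z ∧ z < i.f b then R.sg z else 0) =
      ∑ z, if a ≤ z ∧ z < b then Q.sg z else 0 := by
  rw [i.sum_eq]
  · simp only [i.le_iff, i.lt_iff, i.sg]
  · intro y hy
    exact if_neg fun h => hy (i.down b y h.2.le)

open Classical in
theorem IE.sum_iio {Q R : GP} (i : IE Q R) (b : Q.P) :
    (∑ z, if z < i.f b then R.wt z else 0) = ∑ z, if z < b then Q.wt z else 0 := by
  rw [i.sum_eq]
  · simp only [i.lt_iff, i.wt]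
  · intro y hy
    exact if_neg fun h => hy (i.down b y h.le)

theorem good_of_cover {Y : GP}
    (h : ∀ y : Y.P, ∃ (Q : GP) (i : IE Q Y), Q.Good ∧ y ∈ Set.range i.f) : Y.Good := by
  obtain ⟨Q0, i0, h0, -⟩ := h ⊥
  refine ⟨?_, ?_, ?_, ?_, ?_, ?_, ?_⟩
  · rw [← i0.bot, i0.rk, h0.rk_bot]
  · rw [← i0.bot, i0.col, h0.col_bot]
  · rw [← i0.bot, i0.wt, h0.wt_bot]
  · intro u x hux
    obtain ⟨Q, i, hQ, b, rfl⟩ := h x
    obtain ⟨a, rfl⟩ := i.down b u hux.le
    rw [i.rk, i.rk]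
    exact hQ.mono a b ((i.lt_iff a b).1 hux)
  · intro u x hux hr
    obtain ⟨Q, i, hQ, b, rfl⟩ := h x
    obtain ⟨a, rfl⟩ := i.down b u hux.le
    rw [i.rk, i.rk] at hr
    obtain ⟨z, h1, h2⟩ := hQ.mid a b ((i.lt_iff a b).1 hux) hr
    exact ⟨i.f z, (i.lt_iff _ _).2 h1, (i.lt_iff _ _).2 h2⟩
  · intro u x hux hr
    obtain ⟨Q, i, hQ, b, rfl⟩ := h x
    obtain ⟨a, rfl⟩ := i.down b u hux.le
    rw [i.rk, i.rk] at hr
    rw [i.sum_ico]
    exact hQ.even a b ((i.lt_iff a b).1 hux) hr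
  · intro x
    obtain ⟨Q, i, hQ, b, rfl⟩ := h x
    rw [i.wt]
    exact hQ.wt_pos b

theorem bd_of_cover {Y : GP} {K : ℝ}
    (h : ∀ y : Y.P, ∃ (Q : GP) (i : IE Q Y), Q.Bd K ∧ y ∈ Set.range i.f) : Y.Bd K := by
  intro x
  obtain ⟨Q, i, hQ, b, rfl⟩ := h x
  rw [i.sum_iio, i.wt]
  exact hQ b

theorem GP.Bd.mono {Q : GP} (hQ : Q.Good) {K K' : ℝ} (h : Q.Bd K) (hK : K ≤ K') : Q.Bd K' := by
  exact fun x => (h x).trans (mul_le_mul_of_nonneg_right hK (hQ.wt_pos x).le)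

theorem GP.Good.cov {Q : GP} (hQ : Q.Good) (x y : Q.P) (h : x ⋖ y) : Q.rk y = Q.rk x + 1 := by
  have h1 := hQ.mono x y h.lt
  by_contra h2
  obtain ⟨z, h3, h4⟩ := hQ.mid x y h.lt (by omega)
  exact h.2 h3 h4

theorem GP.Good.rk_le {Q : GP} (hQ : Q.Good) {x y : Q.P} (h : x ≤ y) : Q.rk x ≤ Q.rk y := by
  rcases h.eq_or_lt with rfl | h
  · exact le_rfl
  · exact (hQ.mono x y h).le

theorem GP.sg_even (Q : GP) {x y : Q.P} (h : Even (Q.rk x + Q.rk y)) : Q.sg x = Q.sg y := by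
  unfold GP.sg
  rcases Nat.even_or_odd (Q.rk x) with h1 | h1
  · rw [h1.neg_one_pow, ((Nat.even_add.1 h).1 h1).neg_one_pow]
  · rw [h1.neg_one_pow, ((Nat.even_add'.1 h).1 h1).neg_one_pow]

theorem GP.sg_odd (Q : GP) {x y : Q.P} (h : Odd (Q.rk x + Q.rk y)) : Q.sg x = -Q.sg y := by
  unfold GP.sg
  rcases Nat.even_or_odd (Q.rk x) with h1 | h1
  · rw [h1.neg_one_pow, ((Nat.odd_add'.1 h).2 h1).neg_one_pow, neg_neg]
  · rw [h1.neg_one_pow, ((Nat.odd_add.1 h).1 h1).neg_one_pow]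

theorem GP.sg_sq (Q : GP) (x : Q.P) : Q.sg x * Q.sg x = 1 := by
  unfold GP.sg
  rw [← mul_pow]
  simp

open Classical in
/-- signed count of an open interval -/
noncomputable def GP.openSum (Q : GP) (u x : Q.P) : ℝ := ∑ z, if u < z ∧ z < x then Q.sg z else 0

open Classical in
theorem GP.ico_eq (Q : GP) {u x : Q.P} (h : u < x) :
    (∑ z, if u ≤ z ∧ z < x then Q.sg z else 0) = Q.sg u + Q.openSum u x := by
  have e : ∀ z, (if u ≤ z ∧ z < x then Q.sg z else 0) =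
      (if z = u then Q.sg z else 0) + if u < z ∧ z < x then Q.sg z else 0 := by
    intro z
    by_cases h1 : z = u
    · subst h1
      simp [h]
    · have h2 : u ≤ z ↔ u < z := ⟨fun h3 => lt_of_le_of_ne h3 (Ne.symm h1), le_of_lt⟩
      simp [h1, h2]
  simp only [e, sum_add_distrib, sum_ite_eq', mem_univ, if_true, GP.openSum]

open Classical in
theorem GP.icc_eq (Q : GP) {u x : Q.P} (h : u ≤ x) :
    (∑ z, if u ≤ z ∧ z ≤ x then Q.sg z else 0) =
      (∑ z, if u ≤ z ∧ z < x then Q.sg z else 0) + Q.sg x := by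
  have e : ∀ z, (if u ≤ z ∧ z ≤ x then Q.sg z else 0) =
      (if u ≤ z ∧ z < x then Q.sg z else 0) + if z = x then Q.sg z else 0 := by
    intro z
    by_cases h1 : z = x
    · subst h1
      simp [h]
    · have h2 : z ≤ x ↔ z < x := ⟨fun h3 => lt_of_le_of_ne h3 h1, le_of_lt⟩
      simp [h1, h2]
  simp only [e, sum_add_distrib, sum_ite_eq', mem_univ, if_true]

theorem GP.Good.mid_even {Q : GP} (hQ : Q.Good) {u x : Q.P} (h : u < x)
    (he : Even (Q.rk x + Q.rk u)) : Q.openSum u x = -Q.sg u := by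
  have h1 := hQ.even u x h he
  rw [Q.ico_eq h] at h1
  linarith

theorem GP.Good.mid_odd {Q : GP} (hQ : Q.Good) (n : ℕ) : ∀ u x : Q.P, Q.rk x - Q.rk u = n → u < x →
    Odd (Q.rk x + Q.rk u) → Q.openSum u x = 0 := by
  classical
  induction n using Nat.strong_induction_on with
  | _ n ih =>
    intro u x hn h ho
    have e : ∀ z, (if u < z ∧ z < x then Q.sg z else 0) =
        Q.sg u * ((if u < z ∧ z < x then Q.sg z * Q.openSum z x else 0) -
          if u < z ∧ z < x then Q.sg z * Q.openSum u z else 0) := by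
      intro z
      by_cases hz : u < z ∧ z < x
      · have r1 := hQ.mono _ _ hz.1
        have r2 := hQ.mono _ _ hz.2
        simp only [if_pos hz]
        rcases Nat.even_or_odd (Q.rk z + Q.rk u) with h1 | h1
        · have h2 : Odd (Q.rk x + Q.rk z) := by
            rw [Nat.odd_iff] at ho ⊢
            rw [Nat.even_iff] at h1
            omega
          rw [ih _ (by omega) z x rfl hz.2 h2, hQ.mid_even hz.1 h1, Q.sg_even h1]
          have := Q.sg_sq u
          linear_combination (-Q.sg u) * this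
        · have h2 : Even (Q.rk x + Q.rk z) := by
            rw [Nat.odd_iff] at ho h1
            rw [Nat.even_iff]
            omega
          rw [ih _ (by omega) u z rfl hz.1 h1, hQ.mid_even hz.2 h2, Q.sg_odd h1]
          have := Q.sg_sq u
          linear_combination (Q.sg u) * this
      · simp only [if_neg hz]
        ring
    have d : (∑ z, if u < z ∧ z < x then Q.sg z * Q.openSum z x else 0) =
        ∑ z, if u < z ∧ z < x then Q.sg z * Q.openSum u z else 0 := by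
      have a1 : ∀ z, (if u < z ∧ z < x then Q.sg z * Q.openSum z x else 0) =
          ∑ y, if u < z ∧ z < y ∧ y < x then Q.sg z * Q.sg y else 0 := by
        intro z
        by_cases hz : u < z ∧ z < x
        · rw [if_pos hz, GP.openSum, mul_sum]
          refine sum_congr rfl fun y _ => ?_
          by_cases hy : z < y ∧ y < x
          · rw [if_pos hy, if_pos ⟨hz.1, hy⟩]
          · rw [if_neg hy, if_neg fun h3 => hy h3.2, mul_zero]
        · rw [if_neg hz]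
          exact (sum_eq_zero fun y _ => if_neg fun h3 => hz ⟨h3.1, h3.2.1.trans h3.2.2⟩).symm
      have a2 : ∀ y, (if u < y ∧ y < x then Q.sg y * Q.openSum u y else 0) =
          ∑ z, if u < z ∧ z < y ∧ y < x then Q.sg z * Q.sg y else 0 := by
        intro y
        by_cases hy : u < y ∧ y < x
        · rw [if_pos hy, GP.openSum, mul_sum]
          refine sum_congr rfl fun z _ => ?_
          by_cases hz : u < z ∧ z < y
          · rw [if_pos hz, if_pos ⟨hz.1, hz.2, hy.2⟩, mul_comm]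
          · rw [if_neg hz, if_neg fun h3 => hz ⟨h3.1, h3.2.1⟩, mul_zero]
        · rw [if_neg hy]
          exact (sum_eq_zero fun z _ => if_neg fun h3 => hy ⟨h3.1.trans h3.2.1, h3.2.2⟩).symm
      simp only [a1, a2]
      exact sum_comm
    have f : Q.openSum u x = ∑ z, if u < z ∧ z < x then Q.sg z else 0 := by
      unfold GP.openSum
      congr
    rw [f, sum_congr rfl fun z _ => e z, ← mul_sum, sum_sub_distrib, d, sub_self, mul_zero]

open Classical in
/-- odd gaps are automatic -/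
theorem GP.Good.odd {Q : GP} (hQ : Q.Good) {u x : Q.P} (h : u < x) (ho : Odd (Q.rk x + Q.rk u)) :
    (∑ z, if u ≤ z ∧ z < x then Q.sg z else 0) = Q.sg u := by
  rw [Q.ico_eq h, hQ.mid_odd _ u x rfl h ho, add_zero]

open Classical in
theorem GP.Good.join {Q : GP} (hQ : Q.Good) {u x : Q.P} (h : u ≤ x) (ho : Odd (Q.rk x + Q.rk u)) :
    (∑ z, if u ≤ z ∧ z ≤ x then Q.sg z else 0) = 0 := by
  have h1 : u < x := lt_of_le_of_ne h (by
    rintro rfl
    rw [Nat.odd_iff] at ho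
    omega)
  rw [Q.icc_eq h, hQ.odd h1 ho, Q.sg_odd ho, add_neg_cancel]

theorem sum_top (Q : GP) (k : ℕ) (c : Option Lb) (w : ℝ) (g : (Q.top k c w).P → ℝ) :
    ∑ y, g y = g (⊤ : WithTop Q.P) + ∑ a, g ((IE.toTop Q k c w).f a) := by
  exact Fintype.sum_option (M := ℝ) (α := Q.P) g

theorem good_top {Q : GP} (hQ : Q.Good) {k : ℕ} (hp : Q.Pure k)
    (hu : ∀ u, Odd (k + Q.rk u) → Q.up u = 0) (c : Option Lb) {w : ℝ} (hw : 0 < w) :
    (Q.top (k + 1) c w).Good := by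
  classical
  have lt_top : ∀ a : Q.P, (IE.toTop Q (k + 1) c w).f a < (⊤ : WithTop Q.P) :=
    fun a => WithTop.coe_lt_top a
  have cases : ∀ x : (Q.top (k + 1) c w).P,
      x = (⊤ : WithTop Q.P) ∨ ∃ a, (IE.toTop Q (k + 1) c w).f a = x := fun x => by
    induction x using WithTop.recTopCoe with
    | top => exact Or.inl rfl
    | coe a => exact Or.inr ⟨a, rfl⟩
  have rk_le : ∀ a, Q.rk a ≤ k := fun a => by
    obtain ⟨z, h1, h2⟩ := hp a
    exact h2 ▸ hQ.rk_le h1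
  have rk_top : (Q.top (k + 1) c w).rk (⊤ : WithTop Q.P) = k + 1 := rfl
  have ne_top : ∀ u x : (Q.top (k + 1) c w).P, u < x → ∃ a, (IE.toTop Q (k + 1) c w).f a = u :=
    fun u x h => (cases u).resolve_left fun h1 => not_top_lt (α := WithTop Q.P) (h1 ▸ h)
  set i := IE.toTop Q (k + 1) c w with hi
  refine ⟨?_, ?_, ?_, ?_, ?_, ?_, ?_⟩
  · rw [← i.bot, i.rk, hQ.rk_bot]
  · rw [← i.bot, i.col, hQ.col_bot]
  · rw [← i.bot, i.wt, hQ.wt_bot]
  · intro u x hux
    obtain ⟨a, rfl⟩ := ne_top u x hux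
    rcases cases x with rfl | ⟨b, rfl⟩
    · rw [rk_top, i.rk]
      exact Nat.lt_succ_of_le (rk_le a)
    · rw [i.rk, i.rk]
      exact hQ.mono a b ((i.lt_iff a b).1 hux)
  · intro u x hux hr
    obtain ⟨a, rfl⟩ := ne_top u x hux
    rcases cases x with rfl | ⟨b, rfl⟩
    · rw [rk_top, i.rk] at hr
      obtain ⟨z, h1, h2⟩ := hp a
      refine ⟨i.f z, (i.lt_iff _ _).2 (lt_of_le_of_ne h1 ?_), lt_top z⟩
      rintro rfl
      omega
    · rw [i.rk, i.rk] at hr
      obtain ⟨z, h1, h2⟩ := hQ.mid a b ((i.lt_iff a b).1 hux) hr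
      exact ⟨i.f z, (i.lt_iff _ _).2 h1, (i.lt_iff _ _).2 h2⟩
  · intro u x hux hr
    obtain ⟨a, rfl⟩ := ne_top u x hux
    rcases cases x with rfl | ⟨b, rfl⟩
    · rw [rk_top, i.rk] at hr
      have h1 := hu a (by
        rw [Nat.even_iff] at hr
        rw [Nat.odd_iff]
        omega)
      rw [i.sum_eq]
      · refine Eq.trans (sum_congr rfl fun z _ => ?_) h1
        simp only [i.le_iff, lt_top z, and_true, i.sg]
      · intro y hy
        exact if_neg fun h => hy (ne_top _ _ h.2)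
    · rw [i.rk, i.rk] at hr
      rw [i.sum_ico]
      exact hQ.even a b ((i.lt_iff a b).1 hux) hr
  · intro x
    rcases cases x with rfl | ⟨b, rfl⟩
    · exact hw
    · rw [i.wt]
      exact hQ.wt_pos b

theorem bd_top {Q : GP} {K : ℝ} (h : Q.Bd K) (k : ℕ) (c : Option Lb) {w : ℝ}
    (hw : ∑ u, Q.wt u ≤ K * w) : (Q.top k c w).Bd K := by
  classical
  intro x
  induction x using WithTop.recTopCoe with
  | top =>
    refine le_trans (le_of_eq ?_) hw
    rw [sum_top, ← zero_add (∑ u, Q.wt u)]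
    congr 1
    · exact if_neg (lt_irrefl (⊤ : WithTop Q.P))
    · exact sum_congr rfl fun a _ => if_pos (WithTop.coe_lt_top a)
  | coe a =>
    have h1 := (IE.toTop Q k c w).sum_iio a
    exact le_trans (le_of_eq h1) (h a)

theorem GP.Good.euler {Q : GP} (hQ : Q.Good) : Euler 1 Q.P Q.rk := by
  classical
  intro x y hxy
  have e : ∀ p : Q.P → Prop, (({z | p z}.ncard : ℕ) : ℝ) = ∑ z, if p z then 1 else 0 := fun p => by
    rw [Set.ncard_eq_toFinset_card', Set.toFinset_ofPred, card_filter]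
    push_cast
    rfl
  have h1 : (({z | x ≤ z ∧ z ≤ y ∧ Even (Q.rk z + Q.rk x)}.ncard : ℕ) : ℝ) -
      (({z | x ≤ z ∧ z ≤ y ∧ Odd (Q.rk z + Q.rk x)}.ncard : ℕ) : ℝ) =
      Q.sg x * ∑ z, if x ≤ z ∧ z ≤ y then Q.sg z else 0 := by
    rw [e, e, ← sum_sub_distrib, mul_sum]
    refine sum_congr rfl fun z _ => ?_
    by_cases hz : x ≤ z ∧ z ≤ y
    · rcases Nat.even_or_odd (Q.rk z + Q.rk x) with h2 | h2
      · rw [if_pos ⟨hz.1, hz.2, h2⟩, if_neg fun h3 => Nat.not_odd_iff_even.2 h2 h3.2.2, if_pos hz,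
          Q.sg_even h2, Q.sg_sq, sub_zero]
      · rw [if_neg fun h3 => Nat.not_odd_iff_even.2 h3.2.2 h2, if_pos ⟨hz.1, hz.2, h2⟩, if_pos hz,
          Q.sg_odd h2, mul_neg, Q.sg_sq, zero_sub]
    · rw [if_neg fun h3 => hz ⟨h3.1, h3.2.1⟩, if_neg fun h3 => hz ⟨h3.1, h3.2.1⟩, if_neg hz]
      ring
  rcases Nat.even_or_odd (Q.rk y + Q.rk x) with h2 | h2
  · rw [Q.icc_eq hxy.le, hQ.even x y hxy h2, zero_add, Q.sg_even h2, Q.sg_sq] at h1
    rw [if_pos h2]
    exact_mod_cast h1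
  · rw [hQ.join hxy.le h2, mul_zero] at h1
    rw [if_neg (Nat.not_even_iff_odd.2 h2)]
    exact_mod_cast h1

open Classical in
/-- the weighted colour count of `U` is `σ ν` up to `ε σ`, junk included -/
def Apx (Q : GP) (U : Set Q.P) (σ : ℝ) (ν : Lb →₀ ℝ) (ε : ℝ) : Prop :=
  ∀ (γ : Lb → ℝ) (g : Q.P → ℝ), (∀ h, |γ h| ≤ 1) → (∀ x, |g x| ≤ 1) →
    (∀ x h, Q.col x = some h → g x = γ h) →
    |(∑ x, if x ∈ U then Q.wt x * g x else 0) - σ * pr ν γ| ≤ ε * σ

theorem Apx.mono {Q : GP} {U : Set Q.P} {σ ε ε' : ℝ} {ν : Lb →₀ ℝ} (h : Apx Q U σ ν ε)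
    (hσ : 0 ≤ σ) (he : ε ≤ ε') : Apx Q U σ ν ε' :=
  fun γ g h1 h2 h3 => (h γ g h1 h2 h3).trans (mul_le_mul_of_nonneg_right he hσ)

open Classical in
/-- the flexible form: bound `B` on a set `V` of colours, tolerance `η` -/
theorem Apx.flex {Q : GP} (hQ : Q.Good) {U : Set Q.P} {σ ε : ℝ} {ν : Lb →₀ ℝ} (h : Apx Q U σ ν ε)
    (V : Set Lb) (hV : ∀ x h, Q.col x = some h → h ∈ V) (hν : ∀ h, ν h ≠ 0 → h ∈ V)
    {B η : ℝ} (hB : 0 < B) (hη : 0 ≤ η) (γ : Lb → ℝ) (g : Q.P → ℝ) (h1 : ∀ h ∈ V, |γ h| ≤ B)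
    (h2 : ∀ x, Q.col x = none → |g x| ≤ B) (h3 : ∀ x h, Q.col x = some h → |g x - γ h| ≤ η) :
    |(∑ x, if x ∈ U then Q.wt x * g x else 0) - σ * pr ν γ| ≤ B * (ε * σ) + η * ∑ x, Q.wt x := by
  let γ' : Lb → ℝ := fun a => if a ∈ V then γ a / B else 0
  let g' : Q.P → ℝ := fun x => (Q.col x).elim (g x / B) γ'
  have b1 : ∀ a, |γ' a| ≤ 1 := fun a => by
    by_cases ha : a ∈ V
    · simp only [γ', if_pos ha]
      rw [abs_div, abs_of_pos hB, div_le_one hB]
      exact h1 a ha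
    · simp only [γ', if_neg ha, abs_zero, zero_le_one]
  have b2 : ∀ x, |g' x| ≤ 1 := fun x => by
    rcases hc : Q.col x with _ | a
    · simp only [g', hc, Option.elim]
      rw [abs_div, abs_of_pos hB, div_le_one hB]
      exact h2 x hc
    · simp only [g', hc, Option.elim]
      exact b1 a
  have b3 : ∀ x a, Q.col x = some a → g' x = γ' a := fun x a hc => by
    simp only [g', hc, Option.elim]
  have b4 : ∀ x, |g x - B * g' x| ≤ η := fun x => by
    rcases hc : Q.col x with _ | a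
    · simp only [g', hc, Option.elim]
      rw [mul_div_cancel₀ _ hB.ne', sub_self, abs_zero]
      exact hη
    · simp only [g', hc, Option.elim, γ', if_pos (hV x a hc)]
      rw [mul_div_cancel₀ _ hB.ne']
      exact h3 x a hc
  have b5 : pr ν γ = B * pr ν γ' := by
    unfold pr Finsupp.sum
    rw [mul_sum]
    refine sum_congr rfl fun a ha => ?_
    simp only [γ', if_pos (hν a (Finsupp.mem_support_iff.1 ha))]
    field_simp
  have b6 := h γ' g' b1 b2 b3
  have b7 : |∑ x, if x ∈ U then Q.wt x * (g x - B * g' x) else 0| ≤ η * ∑ x, Q.wt x := by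
    rw [mul_sum]
    refine (abs_sum_le_sum_abs _ _).trans (sum_le_sum fun x _ => ?_)
    by_cases hx : x ∈ U
    · rw [if_pos hx, abs_mul, abs_of_pos (hQ.wt_pos x), mul_comm]
      exact mul_le_mul_of_nonneg_right (b4 x) (hQ.wt_pos x).le
    · rw [if_neg hx, abs_zero]
      exact mul_nonneg hη (hQ.wt_pos x).le
  have b8 : (∑ x, if x ∈ U then Q.wt x * g x else 0) - σ * pr ν γ =
      B * ((∑ x, if x ∈ U then Q.wt x * g' x else 0) - σ * pr ν γ') +
        ∑ x, if x ∈ U then Q.wt x * (g x - B * g' x) else 0 := by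
    have : (∑ x, if x ∈ U then Q.wt x * g x else 0) =
        B * (∑ x, if x ∈ U then Q.wt x * g' x else 0) +
          ∑ x, if x ∈ U then Q.wt x * (g x - B * g' x) else 0 := by
      rw [mul_sum, ← sum_add_distrib]
      refine sum_congr rfl fun x _ => ?_
      split_ifs <;> ring
    rw [this, b5]
    ring
  rw [b8]
  refine (abs_add_le _ _).trans (add_le_add ?_ b7)
  rw [abs_mul, abs_of_pos hB]
  exact mul_le_mul_of_nonneg_left b6 hB.le

/-- a poset with a top and a family of upper sets indexed by patterns -/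
structure Ob extends GP where
  tp : toGP.P
  U : Lb → Set toGP.P

/-- the invariant for the object `O` of the label `h`, over the family `Q` of lower objects -/
structure OK (Q : Lb → Ob) (K ε : ℝ) (h : Lb) (O : Ob) : Prop where
  good : O.toGP.Good
  bd : O.toGP.Bd K
  le_tp : ∀ x, x ≤ O.tp
  rk_tp : O.rk O.tp = h.1
  col_tp : O.col O.tp = some h
  her : ∀ x g, x ≠ O.tp → O.col x = some g →
    g.1 < h.1 ∧ g.2 ∈ Lab g.1 ∧ ∃ i : IE (Q g).toGP O.toGP, i.f (Q g).tp = x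
  apx : Apx O.toGP Set.univ (O.wt O.tp) (N h.2) ε
  upper : ∀ p ∈ Sub h.2, IsUpperSet (O.U ⟨h.1, p⟩)
  mono : ∀ p ∈ Sub h.2, ∀ q ∈ Sub p, O.U ⟨h.1, q⟩ ⊆ O.U ⟨h.1, p⟩
  tp_mem : ∀ p ∈ Sub h.2, N p ≠ 0 → O.tp ∈ O.U ⟨h.1, p⟩
  bot_mem : ∀ p ∈ Sub h.2, ⊥ ∈ O.U ⟨h.1, p⟩ → N p b0 ≠ 0
  coat : ∀ p ∈ Sub h.2, N p ≠ 0 → (∀ g : Lb, g.1 + 1 = h.1 → N p g = N h.2 g) →
    ∀ x, O.rk x + 1 = h.1 → x ∈ O.U ⟨h.1, p⟩
  apxU : ∀ p ∈ Sub h.2, Apx O.toGP (O.U ⟨h.1, p⟩) (O.wt O.tp) (N p) ε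

/-- the invariant for all labels of rank at most `k` -/
def Inv (k : ℕ) (K ε : ℝ) (Q : Lb → Ob) : Prop := ∀ h ∈ Val k, OK Q K ε h (Q h)

end Pool.Agent.Lib.MP_685082_co.Cone
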