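import Pool.Agent.Lib.MP_685082_co.KStep

/-! The induction over the ranks and the flag numbers of the objects. -/

namespace Pool.Agent.Lib.MP_685082_co.Cone

open Finset GP

theorem OK.weaken {Q Q' : Lb → Ob} {K K' ε ε' : ℝ} {h : Lb} {O : Ob} (hO : OK Q K ε h O)
    (hK : K ≤ K') (he : ε ≤ ε') (hQ : ∀ g : Lb, g.1 < h.1 → Q' g = Q g) : OK Q' K' ε' h O where
  good := hO.good
  bd := GP.Bd.mono hO.good hO.bd hK
  le_tp := hO.le_tp
  rk_tp := hO.rk_tp
  col_tp := hO.col_tp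
  her := fun x g h1 h2 => by
    obtain ⟨a, b, c⟩ := hO.her x g h1 h2
    refine ⟨a, b, ?_⟩
    rw [hQ g a]
    exact c
  apx := hO.apx.mono (hO.good.wt_pos _).le he
  upper := hO.upper
  mono := hO.mono
  tp_mem := hO.tp_mem
  bot_mem := hO.bot_mem
  coat := hO.coat
  apxU := fun p hp => (hO.apxU p hp).mono (hO.good.wt_pos _).le he

/-- the one point object -/
noncomputable def ob0 : Ob where
  P := Unit
  rk := fun _ => 0
  col := fun _ => some b0
  wt := fun _ => 1
  tp := ()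
  U := fun g => {_x | g = b0}

theorem N_b0 : N (k := 0) true = Finsupp.single b0 1 := rfl

theorem false_ne_b0 : (⟨0, false⟩ : Lb) ≠ b0 := by
  intro h
  have := eq_of_heq (Sigma.mk.inj h).2
  exact Bool.noConfusion this

theorem apx_ob0 {ε : ℝ} (hε : 0 < ε) (U : Set ob0.P) (hU : ∀ x, x ∈ U) :
    Apx ob0.toGP U 1 (Finsupp.single b0 1) ε := by
  intro γ g _ _ h3
  have h4 : ∀ x, g x = γ b0 := fun x => h3 x b0 rfl
  have h5 : ∀ x : ob0.P, ob0.wt x = 1 := fun _ => rfl
  have h6 : Fintype.card ob0.P = 1 := Fintype.card_eq_one_iff.2 ⟨(), fun _ => rfl⟩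
  simp only [hU, if_true, h4, h5, pr_single, sum_const, card_univ, h6]
  simp [hε.le]

theorem apx_empty {Q : GP} {U : Set Q.P} (hU : ∀ x, x ∉ U) {σ ε : ℝ} (h : 0 ≤ ε * σ) :
    Apx Q U σ 0 ε := by
  intro γ g _ _ _
  simpa [hU, pr_zero] using h

theorem inv_zero (ε : ℝ) (hε : 0 < ε) : ∃ Q, Inv 0 1 ε Q := by
  refine ⟨fun _ => ob0, ?_⟩
  rintro ⟨k, p⟩ ⟨h1, h2⟩
  obtain rfl : k = 0 := Nat.le_zero.1 h1
  obtain rfl : p = true := h2
  have hlt : ∀ u x : ob0.P, ¬ u < x := fun u x => lt_irrefl u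
  have hs : ∀ p ∈ Sub (k := 0) true, p = false ∨ p = true := fun p hp => hp
  refine ⟨⟨rfl, rfl, rfl, fun u x h => (hlt u x h).elim, fun u x h => (hlt u x h).elim,
    fun u x h => (hlt u x h).elim, fun _ => one_pos⟩, ?_, fun _ => le_rfl, rfl, rfl,
    fun x g h => (h rfl).elim, apx_ob0 hε _ fun _ => trivial, fun p _ a b _ h => h, ?_, ?_, ?_,
    fun p _ _ _ x h => absurd h (Nat.succ_ne_zero _), ?_⟩
  · intro x
    rw [sum_eq_zero fun u _ => if_neg (hlt u x)]
    exact (mul_pos one_pos one_pos).le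
  · intro p hp q hq x hx
    rcases hs p hp with rfl | rfl
    · have : q = false := Or.elim hq id id
      subst this
      exact hx
    · rfl
  · intro p hp hn
    rcases hs p hp with rfl | rfl
    · exact (hn rfl).elim
    · rfl
  · intro p hp hn
    rcases hs p hp with rfl | rfl
    · exact (false_ne_b0 hn).elim
    · rw [N_b0]; simp
  · intro p hp
    rcases hs p hp with rfl | rfl
    · exact apx_empty (fun _ h => false_ne_b0 h) (mul_pos hε one_pos).le
    · exact apx_ob0 hε _ fun _ => rfl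

/-- the object over a given one: a new top, and the sets of the patterns -/
noncomputable def obT (k : ℕ) (O : Ob) : Ob where
  toGP := O.toGP.top (k + 1) (some ⟨k + 1, ch (k + 1)⟩) (O.wt O.tp)
  tp := (⊤ : WithTop O.P)
  U := fun g => {y | ∃ (r : Pat k →₀ ℝ) (f : Pat k → Pat k), g = ⟨k + 1, (r, some f)⟩ ∧
    (y = (⊤ : WithTop O.P) ∨ ∃ a ∈ O.U ⟨k, f (ch k)⟩, y = ((a : O.P) : WithTop O.P))}

theorem obT_none (k : ℕ) (O : Ob) (r : Pat k →₀ ℝ) (y : (obT k O).P) :
    y ∉ (obT k O).U ⟨k + 1, (r, none)⟩ := by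
  rintro ⟨r', f, h, -⟩
  have := eq_of_heq (Sigma.mk.inj h).2
  exact absurd (congrArg Prod.snd this) (by simp)

theorem obT_some (k : ℕ) (O : Ob) (r : Pat k →₀ ℝ) (f : Pat k → Pat k) (y : (obT k O).P) :
    y ∈ (obT k O).U ⟨k + 1, (r, some f)⟩ ↔
      (y = (⊤ : WithTop O.P) ∨ ∃ a ∈ O.U ⟨k, f (ch k)⟩, y = ((a : O.P) : WithTop O.P)) := by
  refine ⟨?_, fun h => ⟨r, f, rfl, h⟩⟩
  rintro ⟨r', f', h, h2⟩
  have := eq_of_heq (Sigma.mk.inj h).2
  obtain rfl : f = f' := Option.some.inj (congrArg Prod.snd this)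
  exact h2

theorem obT_coe (k : ℕ) (O : Ob) (r : Pat k →₀ ℝ) (f : Pat k → Pat k) (a : O.P) :
    ((a : O.P) : WithTop O.P) ∈ (obT k O).U ⟨k + 1, (r, some f)⟩ ↔ a ∈ O.U ⟨k, f (ch k)⟩ := by
  refine (obT_some k O r f _).trans ⟨?_, fun h => Or.inr ⟨a, h, rfl⟩⟩
  rintro (h | ⟨b, h1, h2⟩)
  · exact (WithTop.coe_ne_top h).elim
  · obtain rfl : a = b := WithTop.coe_injective h2
    exact h1

theorem N_ch_some (k : ℕ) (f : Pat k → Pat k) :
    N (k := k + 1) (Finsupp.single (ch k) 1, some f) =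
      Finsupp.single ⟨k + 1, ch (k + 1)⟩ 1 + N (f (ch k)) := by
  rw [N_some, Finsupp.support_single _ one_ne_zero, sum_singleton, Finsupp.single_eq_same,
    one_smul]
  rfl

theorem apx_obT {k : ℕ} {O : Ob} {U : Set O.P} {V : Set (obT k O).P} {ν : Lb →₀ ℝ} {ε : ℝ}
    (h : Apx O.toGP U (O.wt O.tp) ν ε) (h1 : (⊤ : WithTop O.P) ∈ V)
    (h2 : ∀ a : O.P, ((a : O.P) : WithTop O.P) ∈ V ↔ a ∈ U) :
    Apx (obT k O).toGP V (O.wt O.tp) (Finsupp.single ⟨k + 1, ch (k + 1)⟩ 1 + ν) ε := by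
  classical
  intro γ g k1 k2 k3
  have k4 := h γ (fun a => g ((a : O.P) : WithTop O.P)) k1 (fun a => k2 _) fun a c hc => k3 _ c hc
  have k5 : g (⊤ : WithTop O.P) = γ ⟨k + 1, ch (k + 1)⟩ := k3 _ _ rfl
  have k6 := sum_top O.toGP (k + 1) (some ⟨k + 1, ch (k + 1)⟩) (O.wt O.tp)
    fun y => if y ∈ V then (obT k O).wt y * g y else 0
  have k7 : (∑ a : O.P, if ((a : O.P) : WithTop O.P) ∈ V then
      O.wt a * g ((a : O.P) : WithTop O.P) else 0) =
      ∑ a : O.P, if a ∈ U then O.wt a * g ((a : O.P) : WithTop O.P) else 0 :=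
    sum_congr rfl fun a _ => by simp only [h2]
  have k8 : (∑ y, if y ∈ V then (obT k O).wt y * g y else 0) =
      O.wt O.tp * γ ⟨k + 1, ch (k + 1)⟩ +
        ∑ a : O.P, if a ∈ U then O.wt a * g ((a : O.P) : WithTop O.P) else 0 := by
    rw [← k7, ← k5]
    exact k6.trans (congrArg₂ (· + ·) (if_pos h1) rfl)
  rw [k8, pr_add, pr_single]
  convert k4 using 2
  ring

theorem step_ch {k : ℕ} {K ε : ℝ} (hε : 0 < ε) {Q : Lb → Ob} (hI : Inv k K ε Q) :
    ∃ O, OK Q (K + 1) ε ⟨k + 1, ch (k + 1)⟩ O := by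
  classical
  have hv : (⟨k, ch k⟩ : Lb) ∈ Val k := ⟨le_rfl, ch_lab k⟩
  have hO := hI _ hv
  set O := Q ⟨k, ch k⟩ with hOd
  have hw := hO.good.wt_pos O.tp
  have hs : ∀ p ∈ Sub (ch (k + 1)), p = (Finsupp.single (ch k) 1, none) ∨
      ∃ f, p = (Finsupp.single (ch k) 1, some f) ∧ f (ch k) ∈ Sub (ch k) := by
    intro p hp
    rcases mem_sub_some.1 hp with h | ⟨f, h1, h2⟩
    · exact Or.inl h
    · exact Or.inr ⟨f, h1, (h2 _).1⟩
  have hrk : O.rk O.tp = k := hO.rk_tp
  refine ⟨obT k O, ?_, ?_, fun x => le_top (α := WithTop O.P), rfl, rfl, ?_, ?_, ?_, ?_, ?_, ?_,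
    ?_, ?_⟩
  · refine good_top hO.good (fun x => ⟨O.tp, hO.le_tp x, hrk⟩) (fun u hu => ?_) _ hw
    have := hO.good.join (hO.le_tp u) (by rw [hrk]; exact hu)
    rw [← this, GP.up]
    exact sum_congr rfl fun z _ => by simp only [hO.le_tp z, and_true]
  · exact bd_top (GP.Bd.mono hO.good hO.bd (by linarith)) _ _ hO.sum_wt
  · intro x g h1 h2
    obtain ⟨a, rfl⟩ := WithTop.ne_top_iff_exists.1 h1
    obtain ⟨k1, i, k2⟩ := hI.her' hv a g h2
    exact ⟨Nat.lt_succ_of_le k1.1, k1.2, i.comp (IE.toTop _ _ _ _), congrArg _ k2⟩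
  · have := apx_obT (k := k) (V := Set.univ) hO.apx trivial fun _ => Iff.rfl
    have e : N (ch (k + 1)) = Finsupp.single ⟨k + 1, ch (k + 1)⟩ 1 + N (ch k) := N_ch_some k id
    exact e ▸ this
  · intro p hp
    rcases hs p hp with rfl | ⟨f, rfl, hf⟩
    · exact fun a b _ h => (obT_none k O _ a h).elim
    · intro a b hab h
      by_cases hb : b = (⊤ : WithTop O.P)
      · exact (obT_some k O _ f b).2 (Or.inl hb)
      · obtain ⟨c, rfl⟩ := WithTop.ne_top_iff_exists.1 hb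
        obtain ⟨d, rfl, h2⟩ := WithTop.le_coe_iff.1 hab
        exact (obT_coe k O _ f c).2 (hO.upper _ hf h2 ((obT_coe k O _ f d).1 h))
  · intro p hp q hq
    rcases hs p hp with rfl | ⟨f, rfl, hf⟩
    · rw [mem_sub_none.1 hq]
    · rcases mem_sub_some.1 hq with rfl | ⟨f', rfl, h2⟩
      · exact fun a h => (obT_none k O _ a h).elim
      · intro a h
        rcases (obT_some k O _ f' a).1 h with h | ⟨b, h3, h4⟩
        · exact (obT_some k O _ f a).2 (Or.inl h)
        · exact (obT_some k O _ f a).2 (Or.inr ⟨b, hO.mono _ hf _ (h2 _).1 h3, h4⟩)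
  · intro p hp hn
    rcases hs p hp with rfl | ⟨f, rfl, -⟩
    · exact (hn rfl).elim
    · exact (obT_some k O _ f _).2 (Or.inl rfl)
  · intro p hp hn
    rcases hs p hp with rfl | ⟨f, rfl, hf⟩
    · exact (obT_none k O _ _ hn).elim
    · have h1 := hO.bot_mem _ hf ((obT_coe k O _ f ⊥).1 hn)
      have h2 : b0 ≠ (⟨k + 1, ch (k + 1)⟩ : Lb) := fun h =>
        Nat.succ_ne_zero k (congrArg Sigma.fst h).symm
      rw [N_ch_some, Finsupp.add_apply, Finsupp.single_eq_of_ne h2, zero_add]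
      exact h1
  · intro p hp hn he x hx
    rcases hs p hp with rfl | ⟨f, rfl, hf⟩
    · exact (hn rfl).elim
    · have h0 : (obT k O).rk x = k := Nat.succ.inj hx
      have h1 : x ≠ (⊤ : WithTop O.P) := by
        rintro rfl
        exact Nat.succ_ne_self k h0
      obtain ⟨a, rfl⟩ := WithTop.ne_top_iff_exists.1 h1
      have h2 : O.rk a = k := h0
      obtain rfl : a = O.tp := by
        by_contra hne
        have := hO.good.mono _ _ (lt_of_le_of_ne (hO.le_tp a) hne)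
        omega
      refine (obT_coe k O _ f _).2 (hO.tp_mem _ hf fun h3 => ?_)
      have h4 : N (k := k + 1) (Finsupp.single (ch k) 1, some f) ⟨k, ch k⟩ =
          N (k := k + 1) (Finsupp.single (ch k) 1, some id) ⟨k, ch k⟩ := he ⟨k, ch k⟩ rfl
      have h5 := N_top (N_lab_ne (ch_lab k))
      rw [lb_of_lab (ch_lab k)] at h5
      rw [N_ch_some, N_ch_some, Finsupp.add_apply, Finsupp.add_apply, h3, id, h5] at h4
      simp at h4
  · intro p hp
    rcases hs p hp with rfl | ⟨f, rfl, hf⟩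
    · exact apx_empty (obT_none k O _) (mul_pos hε hw).le
    · rw [N_ch_some]
      exact apx_obT (hO.apxU _ hf) ((obT_some k O _ f _).2 (Or.inl rfl)) (obT_coe k O _ f)

theorem inv_all (k : ℕ) : ∃ K : ℝ, 1 ≤ K ∧ ∀ ε : ℝ, 0 < ε → ∃ Q, Inv k K ε Q := by
  classical
  induction k with
  | zero => exact ⟨1, le_rfl, inv_zero⟩
  | succ k ih =>
    obtain ⟨K, hK, ih⟩ := ih
    obtain ⟨K', C, h1, h2, hs⟩ := step_gen k K hK
    refine ⟨K' + 1, by linarith, fun ε hε => ?_⟩
    have hC : 0 < C := by linarith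
    have e0 : 0 < min 1 (ε / C) := lt_min one_pos (div_pos hε hC)
    have e1 : C * min 1 (ε / C) ≤ ε := by
      have := mul_le_mul_of_nonneg_left (min_le_right 1 (ε / C)) hC.le
      rwa [mul_div_cancel₀ _ hC.ne'] at this
    have e2 : min 1 (ε / C) ≤ ε := by nlinarith
    obtain ⟨Q, hQ⟩ := ih _ e0
    have key : ∀ p ∈ Lab (k + 1), ∃ O, OK Q (K' + 1) ε ⟨k + 1, p⟩ O := by
      intro p hp
      obtain ⟨r, -, rfl⟩ := lab_succ hp
      by_cases hz : ∀ q ∈ r.support, N q b0 = 0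
      · obtain ⟨O, hO⟩ := hs _ e0 (min_le_left _ _) Q hQ r hp hz
        exact ⟨O, hO.weaken (by linarith) e1 fun _ _ => rfl⟩
      · push Not at hz
        obtain ⟨q, hq, hn⟩ := hz
        obtain rfl := lab_eq_ch hp hq hn
        obtain ⟨O, hO⟩ := step_ch e0 hQ
        exact ⟨O, hO.weaken (by linarith) e2 fun _ _ => rfl⟩
    let Q' : Lb → Ob := fun g =>
      if hg : ∃ O, g.1 = k + 1 ∧ OK Q (K' + 1) ε g O then hg.choose else Q g
    have low : ∀ g : Lb, g.1 < k + 1 → Q' g = Q g := fun g hg =>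
      dif_neg fun ⟨_, h, _⟩ => absurd h hg.ne
    refine ⟨Q', fun h hh => ?_⟩
    rcases Nat.lt_or_eq_of_le hh.1 with hl | hl
    · rw [low h hl]
      exact (hQ h ⟨Nat.lt_succ_iff.1 hl, hh.2⟩).weaken (by linarith) e2
        fun g hg => low g (hg.trans hl)
    · have hg : ∃ O, h.1 = k + 1 ∧ OK Q (K' + 1) ε h O := by
        obtain ⟨j, p⟩ := h
        obtain rfl : j = k + 1 := hl
        obtain ⟨O, hO⟩ := key p hh.2
        exact ⟨O, rfl, hO⟩
      have : Q' h = hg.choose := dif_pos hg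
      rw [this]
      exact hg.choose_spec.2.weaken le_rfl le_rfl fun g hg' => low g (hl ▸ hg')

theorem wl_ie {Q R : GP} (i : IE Q R) (l : List ℕ) (x : Q.P) :
    wl R.rk l ⊥ (i.f x) = wl Q.rk l ⊥ x := by
  classical
  induction l generalizing x with
  | nil =>
    have : ⊥ < i.f x ↔ ⊥ < x := by rw [← i.bot, i.lt_iff]
    simp only [wl]
    exact if_congr this rfl rfl
  | cons j l ih =>
    simp only [wl]
    rw [i.sum_eq _ fun y hy => if_neg fun h => hy (i.down x y h.2.le)]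
    exact sum_congr rfl fun a _ => if_congr (by rw [i.rk, i.lt_iff]) (ih a) rfl

theorem wl_le {Q : GP} (hQ : Q.Good) {K : ℝ} (hK : 1 ≤ K) (hb : Q.Bd K) (l : List ℕ) (x : Q.P) :
    0 ≤ wl Q.rk l ⊥ x ∧ wl Q.rk l ⊥ x ≤ K ^ (l.length + 1) * Q.wt x := by
  classical
  have hK0 : 0 < K := by linarith
  induction l generalizing x with
  | nil =>
    simp only [wl, List.length_nil, zero_add, pow_one]
    split_ifs with h
    · refine ⟨zero_le_one, le_trans ?_ (hb x)⟩
      refine le_trans ?_ (single_le_sum (f := fun u => if u < x then Q.wt u else 0)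
        (fun u _ => ?_) (mem_univ ⊥))
      · simp only [h, if_true, hQ.wt_bot, le_refl]
      · split_ifs
        · exact (hQ.wt_pos u).le
        · rfl
    · exact ⟨le_rfl, (mul_pos hK0 (hQ.wt_pos x)).le⟩
  | cons j l ih =>
    simp only [wl, List.length_cons]
    refine ⟨sum_nonneg fun u _ => ?_, ?_⟩
    · split_ifs
      · exact (ih u).1
      · rfl
    · have h1 := mul_le_mul_of_nonneg_left (hb x) (pow_pos hK0 (l.length + 1)).le
      rw [pow_succ K (l.length + 1), mul_assoc]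
      refine le_trans ?_ h1
      rw [mul_sum]
      refine sum_le_sum fun u _ => ?_
      by_cases h2 : u < x
      · rw [if_pos h2]
        split_ifs
        · exact (ih u).2
        · exact (ih u).1.trans (ih u).2
      · rw [if_neg h2, if_neg fun h => h2 h.2, mul_zero]

theorem Inv.rk_col {k : ℕ} {K ε : ℝ} {Q : Lb → Ob} (hI : Inv k K ε Q) {h : Lb} (hh : h ∈ Val k)
    {x : (Q h).P} {g : Lb} (hx : (Q h).col x = some g) : (Q h).rk x = g.1 := by
  obtain ⟨h1, i, rfl⟩ := hI.her' hh x g hx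
  rw [i.rk, (hI g h1).rk_tp]

theorem flags (k : ℕ) (K : ℝ) (hK : 1 ≤ K) (l : List ℕ) (hl : l.Pairwise (· > ·))
    (hp : ∀ j ∈ l, 0 < j) : ∃ C : ℝ, 0 ≤ C ∧ ∀ ε : ℝ, 0 < ε → ε ≤ 1 → ∀ Q : Lb → Ob,
      Inv k K ε Q → ∀ h ∈ Val k, 0 < h.1 → (∀ j ∈ l, j < h.1) →
      |wl (Q h).rk l ⊥ (Q h).tp - (Q h).wt (Q h).tp * G l h| ≤ C * ε * (Q h).wt (Q h).tp := by
  classical
  induction l with
  | nil =>
    refine ⟨1, zero_le_one, fun ε _ _ Q hI h hh h0 _ => ?_⟩
    have hO := hI h hh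
    have h1 : (⊥ : (Q h).P) < (Q h).tp := bot_lt_iff_ne_bot.2 fun e => by
      have := hO.rk_tp
      rw [e, hO.good.rk_bot] at this
      omega
    have h2 := hO.apx (fun g => if g = b0 then 1 else 0) (fun x => if x = ⊥ then 1 else 0)
      (fun g => by split_ifs <;> simp) (fun g => by split_ifs <;> simp) (fun x g hx => by
        by_cases e : x = ⊥
        · have : g = b0 := by
            rw [e, hO.good.col_bot] at hx
            exact (Option.some.inj hx).symm
          rw [if_pos e, if_pos this]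
        · have : g ≠ b0 := by
            rintro rfl
            have a := hI.rk_col hh hx
            have b := hO.good.mono _ _ (bot_lt_iff_ne_bot.2 e)
            rw [a] at b
            exact Nat.not_lt_zero _ b
          rw [if_neg e, if_neg this])
    have h3 : pr (N h.2) (fun g => if g = b0 then 1 else 0) = G [] h := by
      have : G [] h = N h.2 b0 := rfl
      rw [this]
      convert pr_ind (N h.2) b0
    rw [h3] at h2
    simp only [Set.mem_univ, if_true, mul_ite, mul_one, mul_zero, sum_ite_eq', mem_univ,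
      hO.good.wt_bot] at h2
    simp only [wl, h1, if_true, one_mul]
    exact h2
  | cons j l ih =>
    obtain ⟨hj, hl'⟩ := List.pairwise_cons.1 hl
    obtain ⟨C, hC, ih⟩ := ih hl' fun a ha => hp a (List.mem_cons_of_mem _ ha)
    obtain ⟨B0, hB0⟩ := ((val_finite k).image fun g => |G l g|).bddAbove
    have hK0 : 0 < K := by linarith
    have hB : 0 < max B0 (K ^ (l.length + 1)) := lt_max_of_lt_right (pow_pos hK0 _)
    refine ⟨max B0 (K ^ (l.length + 1)) + C * (K + 1), by positivity,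
      fun ε hε hε1 Q hI h hh h0 hlt => ?_⟩
    have hO := hI h hh
    have hjh : j < h.1 := hlt j List.mem_cons_self
    have h2 := hO.apx.flex hO.good (Val k) (fun x g hx => (hI.her' hh x g hx).1)
      (fun g hg => by
        have := N_val (comp_of_lab hh.2) hg
        exact ⟨this.1.trans hh.1, this.2⟩) hB (mul_nonneg hC hε.le)
      (fun g => if g.1 = j then G l g else 0)
      (fun x => if (Q h).rk x = j then wl (Q h).rk l ⊥ x / (Q h).wt x else 0)
      (fun g hg => by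
        split_ifs
        · exact (hB0 ⟨g, hg, rfl⟩).trans (le_max_left _ _)
        · simpa using hB.le)
      (fun x _ => by
        have a := wl_le hO.good hK hO.bd l x
        have b := hO.good.wt_pos x
        split_ifs
        · rw [abs_of_nonneg (div_nonneg a.1 b.le)]
          exact ((div_le_iff₀ b).2 a.2).trans (le_max_right _ _)
        · simpa using hB.le)
      (fun x g hx => by
        have a := hI.rk_col hh hx
        obtain ⟨k1, i, rfl⟩ := hI.her' hh x g hx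
        rw [a]
        split_ifs with e
        · have b := (hI g k1).good.wt_pos (Q g).tp
          have c := ih ε hε hε1 Q hI g k1 (e ▸ hp j List.mem_cons_self) fun m hm => e ▸ hj m hm
          rw [wl_ie, i.wt, div_sub' b.ne', abs_div, abs_of_pos b, div_le_iff₀ b]
          exact c
        · simpa using mul_nonneg hC hε.le)
    have h3 : (∑ x, if x ∈ (Set.univ : Set (Q h).P) then (Q h).wt x *
        (if (Q h).rk x = j then wl (Q h).rk l ⊥ x / (Q h).wt x else 0) else 0) =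
        wl (Q h).rk (j :: l) ⊥ (Q h).tp := by
      simp only [wl, Set.mem_univ, if_true]
      refine sum_congr rfl fun x _ => ?_
      by_cases e : (Q h).rk x = j
      · have : x < (Q h).tp := lt_of_le_of_ne (hO.le_tp x) fun e2 => by
          rw [e2, hO.rk_tp] at e
          omega
        rw [if_pos e, if_pos ⟨e, this⟩, mul_div_cancel₀ _ (hO.good.wt_pos x).ne']
      · rw [if_neg e, if_neg fun a => e a.1, mul_zero]
    have h4 := mul_le_mul_of_nonneg_left hO.sum_wt (mul_nonneg hC hε.le)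
    simp only [Set.mem_univ, if_true] at h2 h3
    rw [G_cons, ← h3]
    exact h2.trans (by nlinarith)

/-- every generator is a limit of scaled flag vectors of half-Eulerian posets -/
theorem approx (n : ℕ) (h : Pat (n + 1)) (hh : h ∈ Lab (n + 1)) (ε : ℝ) (hε : 0 < ε) :
    ∃ (P : Type) (_ : Fintype P) (_ : PartialOrder P) (_ : BoundedOrder P) (ρ : P → ℕ) (σ : ℝ),
      ρ ⊥ = 0 ∧ ρ ⊤ = n + 1 ∧ (∀ x y, x ⋖ y → ρ y = ρ x + 1) ∧ Euler 1 P ρ ∧ 0 < σ ∧
      ∀ S ⊆ Icc 1 n, |flag ρ S / σ - G (S.sort (· ≥ ·)) ⟨n + 1, h⟩| ≤ ε := by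
  classical
  obtain ⟨K, hK, hQ⟩ := inv_all (n + 1)
  have hF := fun (S : (Icc 1 n).powerset) => flags (n + 1) K hK (S.1.sort (· ≥ ·))
    (S.1.sortedGT_sort.pairwise) fun j hj =>
      (mem_Icc.1 (mem_powerset.1 S.2 ((mem_sort _).1 hj))).1
  choose C hC hF using hF
  have hT : 0 < 1 + ∑ S, C S := add_pos_of_pos_of_nonneg one_pos (sum_nonneg fun S _ => hC S)
  have e0 : 0 < min 1 (ε / (1 + ∑ S, C S)) := lt_min one_pos (div_pos hε hT)
  obtain ⟨Q, hI⟩ := hQ _ e0
  have hv : (⟨n + 1, h⟩ : Lb) ∈ Val (n + 1) := ⟨le_rfl, hh⟩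
  have hO := hI _ hv
  set O := Q ⟨n + 1, h⟩ with hOd
  let bo : BoundedOrder O.P := { O.ob with top := O.tp, le_top := hO.le_tp }
  have hw := hO.good.wt_pos O.tp
  refine ⟨O.P, O.fin, O.po, bo, O.rk, O.wt O.tp, hO.good.rk_bot, hO.rk_tp, hO.good.cov,
    hO.good.euler, hw, fun S hS => ?_⟩
  have h0 : 0 ∉ S := fun a => by have := (mem_Icc.1 (hS a)).1; omega
  have h1 : flag O.rk S = wl O.rk (S.sort (· ≥ ·)) ⊥ O.tp :=
    flag_eq_W hO.good.cov hO.good.rk_bot hO.rk_tp S h0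
  have h2 := hF ⟨S, mem_powerset.2 hS⟩ _ e0 (min_le_left _ _) Q hI _ hv (Nat.succ_pos n)
    fun j hj => Nat.lt_succ_of_le (mem_Icc.1 (hS ((mem_sort _).1 hj))).2
  have h3 : C ⟨S, mem_powerset.2 hS⟩ ≤ 1 + ∑ S, C S :=
    (single_le_sum (fun S _ => hC S) (mem_univ _)).trans (by linarith)
  have h4 : C ⟨S, mem_powerset.2 hS⟩ * min 1 (ε / (1 + ∑ S, C S)) ≤ ε := by
    have a := mul_le_mul h3 (min_le_right 1 (ε / (1 + ∑ S, C S))) e0.le hT.le
    rwa [mul_div_cancel₀ _ hT.ne'] at a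
  rw [h1, div_sub' hw.ne', abs_div, abs_of_pos hw, div_le_iff₀ hw]
  exact h2.trans (mul_le_mul_of_nonneg_right h4 hw.le)

end Pool.Agent.Lib.MP_685082_co.Cone
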