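import Pool.Agent.Lib.MP_685082_co.CMain

/-! Horizontal multiples and closedness of finitely generated cones. -/

namespace Pool.Agent.Lib.MP_685082_co.Cone

open Finset

section multiple
variable (t : ℕ) (P : Type) [PartialOrder P] [BoundedOrder P]

open Classical in
/-- the number of copies of an element -/
noncomputable def copies (x : P) : ℕ := if x = ⊥ ∨ x = ⊤ then 1 else t

/-- every proper element is replaced by `t` copies -/
def Mul : Type := Σ x : P, Fin (copies t P x)

instance : PartialOrder (Mul t P) where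
  le p q := p.1 < q.1 ∨ p = q
  le_refl _ := Or.inr rfl
  le_trans p q r h1 h2 := by
    rcases h1 with h1 | rfl
    · rcases h2 with h2 | rfl
      · exact Or.inl (h1.trans h2)
      · exact Or.inl h1
    · exact h2
  le_antisymm p q h1 h2 := by
    rcases h1 with h1 | h1
    · rcases h2 with h2 | h2
      · exact absurd h1 h2.not_gt
      · exact h2.symm
    · exact h1

noncomputable instance [Fintype P] : Fintype (Mul t P) :=
  inferInstanceAs (Fintype (Σ x : P, Fin (copies t P x)))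

variable {t P}

theorem Mul.lt_iff (p q : Mul t P) : p < q ↔ p.1 < q.1 := by
  rw [lt_iff_le_and_ne]
  constructor
  · rintro ⟨h | h, h2⟩
    · exact h
    · exact absurd h h2
  · intro h
    exact ⟨Or.inl h, fun e => h.ne (by rw [e])⟩

theorem Mul.eq_of (p q : Mul t P) (h : p.1 = q.1) (h2 : p.1 = ⊥ ∨ p.1 = ⊤) : p = q := by
  obtain ⟨x, i⟩ := p
  obtain ⟨y, j⟩ := q
  cases h
  have h3 : copies t P x = 1 := if_pos h2
  have : i = j := Fin.ext (by have := i.2; have := j.2; omega)
  rw [this]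

theorem copies_pos (ht : 1 ≤ t) (x : P) : 0 < copies t P x := by
  unfold copies
  split_ifs <;> omega

/-- the bounds of the multiple -/
@[reducible] def Mul.bo (ht : 1 ≤ t) : BoundedOrder (Mul t P) where
  bot := ⟨⊥, ⟨0, copies_pos ht _⟩⟩
  top := ⟨⊤, ⟨0, copies_pos ht _⟩⟩
  bot_le p := by
    by_cases h : p.1 = ⊥
    · exact Or.inr (Mul.eq_of _ _ h.symm (Or.inl rfl))
    · exact Or.inl (bot_lt_iff_ne_bot.2 h)
  le_top p := by
    by_cases h : p.1 = ⊤
    · exact Or.inr (Mul.eq_of _ _ h (Or.inr h))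
    · exact Or.inl (lt_top_iff_ne_top.2 h)

theorem Mul.cov (ht : 1 ≤ t) {p q : Mul t P} (h : p ⋖ q) : p.1 ⋖ q.1 :=
  ⟨(Mul.lt_iff p q).1 h.1, fun z h1 h2 =>
    h.2 ((Mul.lt_iff p ⟨z, ⟨0, copies_pos ht z⟩⟩).2 h1) ((Mul.lt_iff _ q).2 h2)⟩

theorem Mul.W_eq [Fintype P] (ρ : P → ℕ) (S : Finset ℕ) (p q : Mul t P) :
    W (fun x : Mul t P => ρ x.1) S p q = (t : ℝ) ^ S.card * W ρ S p.1 q.1 := by
  classical
  induction S using Finset.induction_on_max generalizing q with
  | empty => simp only [W_empty, Mul.lt_iff, card_empty, pow_zero, one_mul]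
  | insert k S hS ih =>
    rw [W_insert _ S k hS, W_insert _ S k hS, card_insert_of_notMem fun h => lt_irrefl _ (hS k h),
      mul_sum]
    simp only [ih, Mul.lt_iff]
    refine (Fintype.sum_sigma (fun u : Σ x : P, Fin (copies t P x) =>
      if ρ u.1 = k ∧ u.1 < q.1 then (t : ℝ) ^ S.card * W ρ S p.1 u.1 else 0)).trans
      (sum_congr rfl fun x _ => ?_)
    simp only [sum_const, card_univ, Fintype.card_fin, nsmul_eq_mul]
    split_ifs with h
    · by_cases h2 : p.1 < x
      · have : copies t P x = t := if_neg fun e => e.elim (ne_bot_of_gt h2) (ne_top_of_lt h.2)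
        rw [this]
        ring
      · rw [W_zero ρ S _ _ h2]
        ring
    · ring

end multiple

theorem mult (t n : ℕ) (ht : 1 ≤ t) (P : Type) [Fintype P] [PartialOrder P] [BoundedOrder P]
    (ρ : P → ℕ) (h0 : ρ ⊥ = 0) (h1 : ρ ⊤ = n + 1) (hc : ∀ x y, x ⋖ y → ρ y = ρ x + 1)
    (he : Euler 1 P ρ) : (fun S => (t : ℝ) ^ S.card * flag ρ S) ∈ cone n (Euler t) := by
  let bo : BoundedOrder (Mul t P) := Mul.bo ht
  have hc' : ∀ p q : Mul t P, p ⋖ q → ρ q.1 = ρ p.1 + 1 := fun p q h => hc _ _ (Mul.cov ht h)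
  refine subset_closure (Submodule.subset_span ⟨Mul t P, inferInstance, inferInstance, bo,
    fun x => ρ x.1, h0, h1, hc', (euler_iff hc').2 fun p q h => ?_, funext fun S => ?_⟩)
  · have := (euler_iff hc).1 he p.1 q.1 ((Mul.lt_iff p q).1 h)
    simp only [Mul.W_eq, card_singleton, pow_one, mul_left_comm _ (t : ℝ), ← mul_sum, this]
    split_ifs <;> simp
  · by_cases hS : S ⊆ Icc 1 n
    · have hz : 0 ∉ S := fun a => by have := (mem_Icc.1 (hS a)).1; omega
      rw [flag_eq_W hc h0 h1 S hz, flag_eq_W hc' (n := n) h0 h1 S hz, Mul.W_eq]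
      rfl
    · rw [flag_zero hc h0 h1 S hS, flag_zero hc' (n := n) h0 h1 S hS, mul_zero]

theorem closed_span {α : Type} (V : Set (α → ℝ)) (hV : V.Finite) (h0 : ∀ v ∈ V, ∀ a, 0 ≤ v a) :
    IsClosed (Submodule.span NNReal V : Set (α → ℝ)) := by
  classical
  have := hV.fintype
  let Φ : (V → NNReal) → (α → ℝ) := fun c => ∑ v, c v • v.1
  have hΦ : Continuous Φ := by
    refine continuous_finsetSum _ fun v _ => ?_
    exact (continuous_apply v).smul continuous_const
  have hmem : ∀ x, x ∈ Submodule.span NNReal V ↔ ∃ c, Φ c = x := by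
    intro x
    conv_lhs => rw [← Subtype.range_coe (s := V)]
    exact Submodule.mem_span_range_iff_exists_fun NNReal
  refine isClosed_of_closure_subset fun x hx => ?_
  have hch : ∀ v : V, ∃ (φ : (α → ℝ) → ℝ) (B : NNReal), Continuous φ ∧
      ∀ c : V → NNReal, φ (Φ c) < φ x + 1 → v.1 ≠ 0 → c v ≤ B := by
    intro v
    by_cases hv : v.1 = 0
    · exact ⟨0, 0, continuous_const, fun _ _ h => absurd hv h⟩
    obtain ⟨a, ha⟩ := Function.ne_iff.1 hv
    have hpos : 0 < v.1 a := lt_of_le_of_ne (h0 v.1 v.2 a) (Ne.symm ha)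
    refine ⟨fun y => y a, Real.toNNReal ((x a + 1) / v.1 a), continuous_apply a, fun c hc _ => ?_⟩
    have h3 : (c v : ℝ) * v.1 a ≤ Φ c a := by
      simp only [Φ, Finset.sum_apply, Pi.smul_apply, NNReal.smul_def, smul_eq_mul]
      exact single_le_sum (f := fun w : V => (c w : ℝ) * w.1 a)
        (fun w _ => mul_nonneg (c w).2 (h0 w.1 w.2 a)) (mem_univ v)
    rw [← NNReal.coe_le_coe]
    refine le_trans ?_ (Real.le_coe_toNNReal _)
    rw [le_div_iff₀ hpos]
    exact h3.trans hc.le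
  choose φ B hφ hB using hch
  have hW : IsOpen (⋂ v, {y | φ v y < φ v x + 1}) :=
    isOpen_iInter_of_finite fun v => isOpen_lt (hφ v) continuous_const
  have h1 := hW.inter_closure ⟨Set.mem_iInter.2 fun v => lt_add_one (φ v x), hx⟩
  have h2 : IsClosed (Φ '' Set.Icc 0 B) := (isCompact_Icc.image hΦ).isClosed
  obtain ⟨c, -, hc⟩ : x ∈ Φ '' Set.Icc 0 B := by
    refine closure_minimal ?_ h2 h1
    rintro y ⟨y1, y2⟩
    obtain ⟨c, rfl⟩ := (hmem y).1 y2
    refine ⟨fun v => if v.1 = 0 then 0 else c v, ⟨fun v => zero_le, fun v => ?_⟩, ?_⟩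
    · by_cases hv : v.1 = 0
      · simp [hv]
      · simp only [hv, if_false]
        exact hB v c (Set.mem_iInter.1 y1 v) hv
    · refine sum_congr rfl fun v _ => ?_
      by_cases hv : v.1 = 0 <;> simp [hv]
  exact (hmem x).2 ⟨c, hc⟩

end Pool.Agent.Lib.MP_685082_co.Cone
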