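import Pool.Agent.Lib.MP_685082_co.KNec1
import Pool.Agent.Lib.MP_685082_co.CMain

/-! Every flag vector is a nonnegative combination of the generators. -/

namespace Pool.Agent.Lib.MP_685082_co.Cone

open Finset Classical

section
variable {P : Type} [Fintype P] [PartialOrder P] [BoundedOrder P]

noncomputable def cw (t : ℕ) (u : P) : ℝ := if u = ⊥ then 1 else 1 / t

structure Loc (t : ℕ) (s : P → Lb →₀ ℝ) (k : ℕ) (z : P) (sz : Lb →₀ ℝ) where
  Ω : Type
  [fin : Fintype Ω]
  m : Ω → ℝ
  Φ : Ω → Set P → Pat k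
  m_nonneg : ∀ ω, 0 ≤ m ω
  lab : ∀ ω, Φ ω Set.univ ∈ Lab k
  mono : ∀ ω U U', U ⊆ U' → Φ ω U ∈ Sub (Φ ω U')
  ne : ∀ ω U, z ∈ U → N (Φ ω U) ≠ 0
  star : ∀ U, IsUpperSet U → ∀ γ, ∑ ω, m ω * pr (N (Φ ω U)) γ =
    (if z ∈ U then pr sz γ else 0) + ∑ u, if u < z ∧ u ∈ U then cw t u * pr (s u) γ else 0

attribute [instance] Loc.fin

structure SOK (t : ℕ) (ρ : P → ℕ) (s : P → Lb →₀ ℝ) (x : P) (sx : Lb →₀ ℝ) : Prop where
  nonneg : ∀ h, 0 ≤ sx h
  supp : ∀ h, sx h ≠ 0 → h.1 = ρ x ∧ h.2 ∈ Lab h.1
  eq : ∀ γ, pr sx (fun h => pr (N h.2) γ) =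
    pr sx γ + ∑ u, if u < x then cw t u * pr (s u) γ else 0

variable {ρ : P → ℕ} {t : ℕ} (ht : 1 ≤ t) (h0 : ρ ⊥ = 0) (hc : ∀ x y, x ⋖ y → ρ y = ρ x + 1)
  (he : Euler t P ρ)
include ht h0 hc he

omit h0 in
theorem bracket {v y : P} (h : v < y) (hev : Even (ρ y + ρ v)) :
    (-1 : ℝ) ^ ρ v + ∑ u, (if v < u ∧ u < y then cw t u * (-1) ^ ρ u else 0) = 0 := by
  have tp : (0 : ℝ) < t := by exact_mod_cast ht
  have e := (euler_iff hc).1 he v y h
  rw [if_pos hev, sum_W_single hc v y fun j => (-1) ^ (j + ρ v + 1)] at e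
  have e2 : ∑ u, (if v < u ∧ u < y then cw t u * (-1) ^ ρ u else 0) =
      -((-1 : ℝ) ^ ρ v / t) * ∑ u, if v < u ∧ u < y then (-1 : ℝ) ^ (ρ u + ρ v + 1) else 0 := by
    rw [mul_sum]
    refine sum_congr rfl fun u _ => ?_
    split_ifs with h1
    · rw [cw, if_neg (ne_bot_of_gt h1.1), pow_succ, pow_add]
      have : ((-1 : ℝ) ^ ρ v) * (-1) ^ ρ v = 1 := by rw [← mul_pow]; simp
      linear_combination (-(-1 : ℝ) ^ ρ u / t) * this
    · simp
  rw [e2]
  convert_to (-1 : ℝ) ^ ρ v + -((-1 : ℝ) ^ ρ v / t) * t = 0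
  · congr 2
  field_simp
  ring

theorem local_step {k : ℕ} {s : P → Lb →₀ ℝ} (hs : ∀ x, ρ x ≤ k → SOK t ρ s x (s x))
    (L : ∀ z : {z // ρ z = k}, Loc t s k z.1 (s z.1)) (y : P) (hy : ρ y = k + 1) :
    ∃ sy, SOK t ρ s y sy ∧ Nonempty (Loc t s (k + 1) y sy) := by
  have tp : (0 : ℝ) < t := by exact_mod_cast ht
  obtain ⟨idx, hi⟩ : ∃ idx : P → ℕ, Function.Injective idx := exists_injective_nat P
  let V : P → Set P := fun z => {u | (univ.filter fun z' =>
    (z' < y ∧ ρ z' = k ∧ u ≤ z') ∧ idx z' < idx z).card < t}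
  have Vup : ∀ z, IsUpperSet (V z) := fun z u u' huu hu =>
    lt_of_le_of_lt (card_le_card fun z' hz' => by
      simp only [mem_filter, mem_univ, true_and] at hz' ⊢
      exact ⟨⟨hz'.1.1, hz'.1.2.1, le_trans huu hz'.1.2.2⟩, hz'.2⟩) hu
  have Vself : ∀ z, ρ z = k → z ∈ V z := fun z hz => by
    refine lt_of_le_of_lt (le_of_eq (card_eq_zero.2 (filter_false_of_mem fun z' _ h => ?_))) ht
    rcases h.1.2.2.lt_or_eq with h1 | h1
    · have := rk_lt hc h1
      have := h.1.2.1
      omega
    · exact lt_irrefl _ (h1 ▸ h.2)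
  have Vcnt : ∀ u, u < y → ρ u < k →
      ∑ z, (if (z < y ∧ ρ z = k) ∧ u < z ∧ u ∈ V z then cw t z else 0) = 1 := fun u hu hk => by
    let A := univ.filter fun z => z < y ∧ ρ z = k ∧ u ≤ z
    have hA : t ≤ A.card := by
      have := thick_W hc he u y k hk (by omega)
      rw [W_empty, if_pos hu, mul_one, W_single] at this
      have e : (A.card : ℝ) = ∑ z, if z < y ∧ ρ z = k ∧ u ≤ z then 1 else 0 := by
        simp [A]
      rw [← Nat.cast_le (α := ℝ), e]
      refine this.trans (sum_le_sum fun z _ => ?_)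
      split_ifs with a b
      · rfl
      · exact absurd ⟨a.2.2, a.1, a.2.1.le⟩ b
      · norm_num
      · rfl
    have h1 := first_t idx hi t A
    rw [min_eq_left hA] at h1
    have e : ∀ z, (if (z < y ∧ ρ z = k) ∧ u < z ∧ u ∈ V z then cw t z else 0) =
        if z ∈ A.filter fun z => (A.filter fun z' => idx z' < idx z).card < t
          then 1 / (t : ℝ) else 0 := fun z => by
      have : ((z < y ∧ ρ z = k) ∧ u < z ∧ u ∈ V z) ↔
          z ∈ A.filter fun z => (A.filter fun z' => idx z' < idx z).card < t := by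
        simp only [A, V, mem_filter, mem_univ, true_and, filter_filter, Set.mem_ofPred_eq]
        constructor
        · rintro ⟨⟨a, b⟩, c, d⟩
          exact ⟨⟨a, b, c.le⟩, d⟩
        · rintro ⟨⟨a, b, c⟩, d⟩
          exact ⟨⟨a, b⟩, lt_of_le_of_ne c (by rintro rfl; omega), d⟩
      by_cases h : (z < y ∧ ρ z = k) ∧ u < z ∧ u ∈ V z
      · rw [if_pos h, if_pos (this.1 h), cw, if_neg (ne_bot_of_gt h.2.1)]
      · rw [if_neg h, if_neg fun h' => h (this.2 h')]
    simp only [e]
    rw [sum_ite_mem, univ_inter, sum_const, h1, nsmul_eq_mul]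
    field_simp
  have cw0 : ∀ u : P, 0 ≤ cw t u := fun u => by unfold cw; split_ifs <;> positivity
  let a : (Σ z : {z // ρ z = k}, (L z).Ω) → ℝ :=
    fun ω => if ω.1.1 < y then cw t ω.1.1 * (L ω.1).m ω.2 else 0
  let Φ : (Σ z : {z // ρ z = k}, (L z).Ω) → Set P → Pat k :=
    fun ω U => (L ω.1).Φ ω.2 (U ∩ V ω.1.1)
  have main : ∀ U, IsUpperSet U → ∀ γ, ∑ ω, a ω * pr (N (Φ ω U)) γ =
      ∑ u, if u < y ∧ u ∈ U then cw t u * pr (s u) γ else 0 := fun U hU γ => by
    rw [Fintype.sum_sigma]
    have e1 : ∀ z : {z // ρ z = k}, ∑ ω, a ⟨z, ω⟩ * pr (N (Φ ⟨z, ω⟩ U)) γ =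
        if z.1 < y then cw t z.1 * ((if z.1 ∈ U then pr (s z.1) γ else 0) +
          ∑ u, if u < z.1 ∧ u ∈ U ∩ V z.1 then cw t u * pr (s u) γ else 0) else 0 := fun z => by
      have := (L z).star (U ∩ V z.1) (hU.inter (Vup _)) γ
      simp only [a, Φ]
      split_ifs with h1 h2
      · rw [if_pos ⟨h2, Vself _ z.2⟩] at this
        simp only [mul_assoc]
        rw [← mul_sum, this]
        congr!
      · rw [if_neg fun h => h2 h.1] at this
        simp only [mul_assoc]
        rw [← mul_sum, this]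
        congr!
      · simp
    simp only [e1]
    rw [← sum_subtype (univ.filter fun z => ρ z = k) (by simp) fun z =>
      if z < y then cw t z * ((if z ∈ U then pr (s z) γ else 0) +
          ∑ u, if u < z ∧ u ∈ U ∩ V z then cw t u * pr (s u) γ else 0) else 0, sum_filter]
    have e2 : ∀ z, (if ρ z = k then if z < y then cw t z * ((if z ∈ U then pr (s z) γ else 0) +
          ∑ u, if u < z ∧ u ∈ U ∩ V z then cw t u * pr (s u) γ else 0) else 0 else 0) =
        (if (z < y ∧ z ∈ U) ∧ ρ z = k then cw t z * pr (s z) γ else 0) +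
          ∑ u, (if (z < y ∧ ρ z = k) ∧ u < z ∧ u ∈ V z then cw t z else 0) *
            (if u ∈ U then cw t u * pr (s u) γ else 0) := fun z => by
      by_cases h1 : ρ z = k
      · by_cases h2 : z < y
        · rw [if_pos h1, if_pos h2, mul_add, mul_sum]
          congr 1
          · by_cases h3 : z ∈ U <;> simp [h1, h2, h3]
          · refine sum_congr rfl fun u _ => ?_
            by_cases h3 : u < z <;> by_cases h4 : u ∈ U <;> by_cases h5 : u ∈ V z <;>
              simp [h1, h2, h3, h4, h5]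
        · simp [h2]
      · simp [h1]
    simp only [e2]
    rw [sum_add_distrib, sum_comm, ← sum_add_distrib]
    refine sum_congr rfl fun u _ => ?_
    rw [← sum_mul]
    by_cases h1 : u < y
    · have := rk_lt hc h1
      by_cases h2 : ρ u = k
      · rw [sum_eq_zero, zero_mul, add_zero]
        · simp [h2]
        · intro z _
          refine if_neg fun h => ?_
          have := rk_lt hc h.2.1
          have := h.1.2
          omega
      · rw [Vcnt u h1 (by omega)]
        simp [h1, h2]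
    · rw [sum_eq_zero, zero_mul, add_zero]
      · simp [h1]
      · exact fun z _ => if_neg fun h => h1 (h.2.1.trans h.1.1)
  obtain ⟨sy, Ω', _, m, l, φ, k1, k2, k3, k4, k5, k6, k7, k8⟩ := couple a
    (fun ω => by
      simp only [a]; split_ifs
      exacts [mul_nonneg (cw0 _) ((L _).m_nonneg _), le_rfl]) Φ
    (fun ω _ => ⟨(L _).ne _ _ ⟨trivial, Vself _ ω.1.2⟩,
      _, (L _).lab _, (L _).mono _ _ _ (Set.subset_univ _)⟩)
    (fun h ho => by
      have e0 := main _ isUpperSet_univ fun g => (-1) ^ g.1 * N g.2 h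
      simp only [Set.mem_univ, and_true] at e0
      rw [e0]
      have e1 : ∀ u, (if u < y then
          cw t u * pr (s u) (fun g => (-1) ^ g.1 * N g.2 h) else 0) =
          (if u < y then cw t u * s u h * (-1) ^ ρ u else 0) +
            ∑ v, cw t v * s v h * (if v < u ∧ u < y then cw t u * (-1) ^ ρ u else 0) := fun u => by
        by_cases hu : u < y
        · have hk : ρ u ≤ k := by have := rk_lt hc hu; omega
          have e2 := (hs u hk).eq fun g => if g = h then 1 else 0
          simp only [pr_ind] at e2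
          have e3 : pr (s u) (fun g => (-1) ^ g.1 * N g.2 h) =
              (-1) ^ ρ u * pr (s u) fun g => N g.2 h := by
            rw [pr_congr (γ' := fun g => (-1) ^ ρ u * N g.2 h)
              fun g hg => congrArg (fun j => (-1 : ℝ) ^ j * N g.2 h) ((hs u hk).supp g hg).1]
            simp only [pr, Finsupp.sum, mul_sum]
            exact sum_congr rfl fun _ _ => by ring
          rw [if_pos hu, if_pos hu, e3, e2, mul_add, mul_add, mul_sum, mul_sum]
          congr 1
          · ring
          · refine sum_congr rfl fun v _ => ?_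
            by_cases hv : v < u
            · simp only [hv, hu, and_self, if_true]; ring
            · simp [hv]
        · simp [hu]
      simp only [e1]
      rw [sum_add_distrib, sum_comm, ← sum_add_distrib]
      refine sum_eq_zero fun v _ => ?_
      rw [← mul_sum]
      by_cases hv : v < y
      · rw [if_pos hv, ← mul_add]
        by_cases hz : s v h = 0
        · simp [hz]
        · have hk : ρ v ≤ k := by have := rk_lt hc hv; omega
          have := ((hs v hk).supp h hz).1
          rw [bracket ht hc he hv (by rw [hy, ← this]; obtain ⟨c, hc'⟩ := ho; exact ⟨c + 1, by omega⟩),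
            mul_zero]
      · rw [if_neg hv, sum_eq_zero fun u _ => if_neg fun h' => hv (h'.1.trans h'.2)]
        simp)
    (fun ω U U' hU => (L _).mono _ _ _ (Set.inter_subset_inter_left _ hU))
  refine ⟨sy, ⟨k1, fun h hh => hy ▸ k2 h hh, fun γ => ?_⟩,
    ⟨⟨Ω', m, fun ω U => (l ω, if y ∈ U then some (φ ω U) else none), k3, fun ω => ?_,
      fun ω U U' hU => ?_, fun ω U hU => ?_, fun U hU γ => ?_⟩⟩⟩
  · have := k8 Set.univ γ
    simp only [k5] at this
    rw [← k7, this, main _ isUpperSet_univ]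
    simp
  · simp only [Set.mem_univ, if_true, k5]
    exact k4 ω
  · by_cases h1 : y ∈ U
    · simp only [h1, hU h1, if_true]
      exact mem_sub_some.2 (Or.inr ⟨_, rfl, k6 ω U U' hU⟩)
    · by_cases h2 : y ∈ U'
      · simp only [h1, h2, if_true, if_false]
        exact mem_sub_some.2 (Or.inl rfl)
      · simp only [h1, h2, if_false]
        exact sub_refl _
  · simp only [hU, if_true]
    exact N_some_ne _ _
  · by_cases h1 : y ∈ U
    · simp only [h1, if_true]
      rw [k8, main U hU]
    · simp only [h1, if_false, N_none, pr_zero, mul_zero, sum_const_zero, zero_add]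
      exact (sum_eq_zero fun u _ => if_neg fun h : u < y ∧ u ∈ U => h1 (hU h.1.le h.2)).symm

omit ht he in
theorem eq_bot_of_rk {x : P} (h : ρ x = 0) : x = ⊥ := by
  by_contra hx
  have := rk_lt hc (bot_lt_iff_ne_bot.2 hx)
  omega

theorem stage (k : ℕ) : ∃ s : P → Lb →₀ ℝ, s ⊥ = Finsupp.single b0 1 ∧
    (∀ x, ρ x ≤ k → SOK t ρ s x (s x)) ∧ ∀ z, ρ z = k → Nonempty (Loc t s k z (s z)) := by
  induction k with
  | zero =>
    refine ⟨fun _ => Finsupp.single b0 1, rfl, fun x hx => ?_, fun z hz => ?_⟩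
    · obtain rfl := eq_bot_of_rk h0 hc (Nat.le_zero.1 hx)
      refine ⟨fun h => ?_, fun h hh => ?_, fun γ => ?_⟩
      · rw [Finsupp.single_apply]; split_ifs <;> norm_num
      · rw [Finsupp.single_apply] at hh
        split_ifs at hh with h1
        · subst h1; exact ⟨h0.symm, rfl⟩
        · exact absurd rfl hh
      · simp only [pr_single, one_mul, not_lt_bot, if_false, sum_const_zero, add_zero]
        exact (pr_single b0 1 γ).trans (one_mul _)
    · obtain rfl := eq_bot_of_rk h0 hc hz
      refine ⟨⟨Unit, fun _ => 1, fun _ U => if ⊥ ∈ U then true else false, fun _ => zero_le_one,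
        fun _ => ?_, fun _ U U' hU => ?_, fun _ U hU => ?_, fun U _ γ => ?_⟩⟩
      · simp only [Set.mem_univ, if_true]; rfl
      · by_cases h1 : ⊥ ∈ U
        · simp only [h1, hU h1, if_true]; exact sub_refl _
        · simp only [h1, if_false]; exact Or.inl rfl
      · simp only [hU, if_true]
        exact N_lab_ne (k := 0) rfl
      · by_cases h1 : ⊥ ∈ U
        · simp only [h1, if_true, not_lt_bot, false_and, if_false, sum_const_zero, add_zero]
          simp only [univ_unique, sum_singleton, one_mul]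
          rfl
        · simp only [h1, if_false, not_lt_bot, false_and, sum_const_zero, add_zero]
          simp only [univ_unique, sum_singleton, one_mul]
          exact pr_zero γ
  | succ k ih =>
    obtain ⟨s, s0, s1, s2⟩ := ih
    have L : ∀ z : {z // ρ z = k}, Loc t s k z.1 (s z.1) := fun z => (s2 z.1 z.2).some
    choose sy h1 h2 using local_step ht h0 hc he s1 L
    let s' : P → Lb →₀ ℝ := fun x => if h : ρ x = k + 1 then sy x h else s x
    have e : ∀ u, ρ u ≤ k → s' u = s u := fun u hu => dif_neg (by omega)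
    have e2 : ∀ x, ρ x ≤ k + 1 → ∀ u, u < x → s' u = s u := fun x hx u hu =>
      e u (by have := rk_lt hc hu; omega)
    have tr : ∀ x sx, ρ x ≤ k + 1 → SOK t ρ s x sx → SOK t ρ s' x sx := fun x sx hx h =>
      ⟨h.nonneg, h.supp, fun γ => by
        rw [h.eq]
        congr 1
        refine sum_congr rfl fun u _ => ?_
        split_ifs with hu
        · rw [e2 x hx u hu]
        · rfl⟩
    refine ⟨s', (e _ (by omega)).trans s0, fun x hx => ?_, fun z hz => ?_⟩
    · by_cases h : ρ x = k + 1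
      · rw [show s' x = sy x h from dif_pos h]
        exact tr _ _ hx (h1 x h)
      · rw [e x (by omega)]
        exact tr _ _ hx (s1 x (by omega))
    · obtain ⟨M⟩ := h2 z hz
      rw [show s' z = sy z hz from dif_pos hz]
      refine ⟨⟨M.Ω, M.m, M.Φ, M.m_nonneg, M.lab, M.mono, M.ne, fun U hU γ => ?_⟩⟩
      rw [M.star U hU]
      congr 1
      refine sum_congr rfl fun u _ => ?_
      split_ifs with hu
      · rw [e2 z hz.le u hu.1]
      · rfl

omit he in
theorem pr_G {k : ℕ} {s : P → Lb →₀ ℝ} (s0 : s ⊥ = Finsupp.single b0 1)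
    (hs : ∀ x, ρ x ≤ k → SOK t ρ s x (s x)) (l : List ℕ) (hl : l.Pairwise (· > ·))
    (x : P) (hx : ρ x ≤ k) (hx0 : 0 < ρ x) (hj : ∀ j ∈ l, 0 < j ∧ j < ρ x) :
    (t : ℝ) ^ l.length * pr (s x) (G l) = wl ρ l ⊥ x := by
  have tp : (0 : ℝ) < t := by exact_mod_cast ht
  induction l generalizing x with
  | nil =>
    have hb : ⊥ < x := bot_lt_iff_ne_bot.2 (by rintro rfl; omega)
    have e := (hs x hx).eq fun g => if g = b0 then 1 else 0
    simp only [pr_ind] at e
    have z : ∀ u, ρ u ≤ k → u ≠ ⊥ → s u b0 = 0 := fun u hu h => by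
      by_contra h2
      exact h (eq_bot_of_rk h0 hc ((hs u hu).supp _ h2).1.symm)
    rw [z x hx hb.ne', zero_add, sum_eq_single ⊥, if_pos hb, s0] at e
    · simp only [List.length_nil, pow_zero, one_mul, wl, if_pos hb]
      refine Eq.trans e ?_
      simp [cw]
    · intro u _ hu
      split_ifs with h
      · rw [z u (by have := rk_lt hc h; omega) hu, mul_zero]
      · rfl
    · simp
  | cons j l ih =>
    obtain ⟨j0, j1⟩ := hj j (by simp)
    rw [List.pairwise_cons] at hl
    have e := (hs x hx).eq fun g => if g.1 = j then G l g else 0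
    simp only [← G_cons] at e
    rw [pr_congr (γ := fun g => if g.1 = j then G l g else 0) (γ' := fun _ => 0)
      fun g hg => if_neg (by have := ((hs x hx).supp g hg).1; omega)] at e
    rw [show pr (s x) (G (j :: l)) = _ from e, show pr (s x) (fun _ => 0) = 0 by simp [pr],
      zero_add, mul_sum, wl]
    refine sum_congr rfl fun u _ => ?_
    by_cases hu : u < x
    · have hk : ρ u ≤ k := by have := rk_lt hc hu; omega
      by_cases h : ρ u = j
      · rw [if_pos hu, if_pos ⟨h, hu⟩, cw, if_neg (by rintro rfl; omega),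
          pr_congr (γ' := G l) fun g hg => if_pos (((hs u hk).supp g hg).1.trans h),
          ← ih hl.2 u hk (by omega) fun i hi => ⟨(hj i (by simp [hi])).1, h ▸ hl.1 i hi⟩,
          List.length_cons, pow_succ]
        field_simp
      · rw [if_pos hu, if_neg fun h' => h h'.1, pr_congr (γ' := fun _ => 0)
          fun g hg => if_neg fun h' => h (((hs u hk).supp g hg).1.symm.trans h')]
        simp [pr]
    · simp [hu]

end

theorem nec (t n : ℕ) (ht : 1 ≤ t) (P : Type) [Fintype P] [PartialOrder P] [BoundedOrder P]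
    (ρ : P → ℕ) (h0 : ρ ⊥ = 0) (h1 : ρ ⊤ = n + 1) (hc : ∀ x y, x ⋖ y → ρ y = ρ x + 1)
    (he : Euler t P ρ) : flag ρ ∈ Submodule.span NNReal (Gen t n) := by
  obtain ⟨s, s0, s1, -⟩ := stage ht h0 hc he (n + 1)
  have hT := s1 ⊤ h1.le
  let vec : Lb → Finset ℕ → ℝ := fun h S =>
    if S ⊆ Icc 1 n then (t : ℝ) ^ S.card * G (S.sort (· ≥ ·)) h else 0
  have e : flag ρ = ∑ h ∈ (s ⊤).support, s ⊤ h • vec h := by
    funext S
    rw [Finset.sum_apply]
    simp only [Pi.smul_apply, smul_eq_mul, vec]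
    by_cases hS : S ⊆ Icc 1 n
    · have hS' : ∀ j ∈ S, 1 ≤ j ∧ j ≤ n := fun j hj => mem_Icc.1 (hS hj)
      rw [flag_eq_W hc h0 h1 S fun h => by have := hS' 0 h; omega, W,
        ← pr_G ht h0 hc s0 s1 _ (S.sortedGT_sort.pairwise) ⊤ h1.le (by omega) fun j hj => by
          have := hS' j ((mem_sort _).1 hj); omega]
      simp only [hS, if_true, length_sort, pr, Finsupp.sum, mul_sum]
      exact sum_congr rfl fun _ _ => by ring
    · rw [flag_zero hc h0 h1 S hS]
      simp [hS]
  rw [e]
  refine Submodule.sum_mem _ fun h hh =>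
    Submodule.smul_mem _ (⟨s ⊤ h, hT.nonneg h⟩ : NNReal) (Submodule.subset_span ?_)
  obtain ⟨k1, k2⟩ := hT.supp h (Finsupp.mem_support_iff.1 hh)
  obtain ⟨j, p⟩ := h
  obtain rfl : j = n + 1 := k1.trans h1
  exact ⟨p, k2, fun S => rfl⟩

end Pool.Agent.Lib.MP_685082_co.Cone
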