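import Pool.Agent.Lib.MP_685082_co.KInd
import Pool.Agent.Lib.MP_685082_co.KMult
import Pool.Agent.Lib.MP_685082_co.KNec

/-! The closed cone is generated by `Gen`. -/

namespace Pool.Agent.Lib.MP_685082_co.Cone

open Finset Filter Topology

theorem gen_mem (t n : ℕ) (ht : 1 ≤ t) : Gen t n ⊆ cone n (Euler t) := by
  rintro v ⟨h, hh, hv⟩
  choose P i1 i2 i3 ρ σ k0 k1 k2 k3 k4 k5 using
    fun m : ℕ => approx n h hh (1 / ((m : ℝ) + 1)) (by positivity)
  refine isClosed_closure.mem_of_tendsto (b := atTop)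
    (f := fun m => (σ m)⁻¹ • fun S => (t : ℝ) ^ S.card * flag (ρ m) S) ?_
    (Eventually.of_forall fun m => cone_smul _ (inv_nonneg.2 (k4 m).le)
      (mult t n ht (P m) (ρ m) (k0 m) (k1 m) (k2 m) (k3 m)))
  refine tendsto_pi_nhds.2 fun S => ?_
  rw [hv S]
  split_ifs with hS
  · have : Tendsto (fun m => flag (ρ m) S / σ m) atTop
        (𝓝 (G (S.sort (· ≥ ·)) ⟨n + 1, h⟩)) := by
      rw [tendsto_iff_dist_tendsto_zero]
      exact squeeze_zero (fun _ => dist_nonneg) (fun m => k5 m S hS)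
        tendsto_one_div_add_atTop_nhds_zero_nat
    refine (this.const_mul ((t : ℝ) ^ S.card)).congr fun m => ?_
    simp only [Pi.smul_apply, smul_eq_mul]
    ring
  · refine tendsto_const_nhds.congr fun m => ?_
    simp only [Pi.smul_apply, smul_eq_mul, flag_zero (k2 m) (k0 m) (k1 m) S hS, mul_zero]

theorem cone_eq (t n : ℕ) (ht : 1 ≤ t) :
    cone n (Euler t) = (Submodule.span NNReal (Gen t n) : Set (Finset ℕ → ℝ)) := by
  refine Set.Subset.antisymm (cone_subset _ (closed_span _ (gen_finite t n) ?_)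
    (Submodule.zero_mem _) (fun v hv w hw => Submodule.add_mem _ hv hw)
    (fun c hc v hv => Submodule.smul_mem _ (⟨c, hc⟩ : NNReal) hv)
    fun P _ _ _ ρ h0 h1 hc he => nec t n ht P ρ h0 h1 hc he) fun v hv => ?_
  · rintro v ⟨h, hh, hv⟩ S
    rw [hv S]
    split_ifs
    · exact mul_nonneg (by positivity) (G_nonneg _ (k := n + 1) ⟨le_rfl, hh⟩)
    · rfl
  · induction hv using Submodule.span_induction with
    | mem v hv => exact gen_mem t n ht hv
    | zero => exact cone_zero
    | add v w _ _ h1 h2 => exact cone_add h1 h2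
    | smul c v _ h => exact cone_smul c c.2 h

end Pool.Agent.Lib.MP_685082_co.Cone
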