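import Pool.Agent.Lib.MP_685082_co.KVert

/-! The product coupling. -/

namespace Pool.Agent.Lib.MP_685082_co.Cone

open Finset

theorem first_t {α : Type} [DecidableEq α] (idx : α → ℕ) (hi : Function.Injective idx) (t : ℕ)
    (A : Finset α) :
    (A.filter fun z => (A.filter fun z' => idx z' < idx z).card < t).card = min t A.card := by
  induction A using Finset.induction_on_max_value idx with
  | empty => simp
  | insert a A ha hm ih =>
    have e1 : ∀ z ∈ A, (insert a A).filter (fun z' => idx z' < idx z) =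
        A.filter fun z' => idx z' < idx z := fun z hz => by
      rw [filter_insert, if_neg (not_lt.2 (hm z hz))]
    have e2 : (insert a A).filter (fun z' => idx z' < idx a) = A := by
      rw [filter_insert, if_neg (lt_irrefl _)]
      refine filter_true_of_mem fun z hz => lt_of_le_of_ne (hm z hz) fun h => ha (hi h ▸ hz)
    rw [filter_insert, e2, filter_congr (fun z hz => by rw [e1 z hz]), card_insert_of_notMem ha]
    split_ifs with h
    · rw [card_insert_of_notMem (fun h2 => ha (mem_filter.1 h2).1), ih]; omega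
    · rw [ih]; omega

theorem prod_marg {ι : Type} [Fintype ι] [DecidableEq ι] {X : ι → Type} [∀ i, Fintype (X i)]
    (p F : ∀ i, X i → ℝ) (hp : ∀ i, ∑ x, p i x = 1) (A : ℝ) :
    ∑ f : ∀ i, X i, (∏ i, p i (f i)) * (A + ∑ i, F i (f i)) = A + ∑ i, ∑ x, p i x * F i x := by
  have key : ∀ g : ∀ i, X i → ℝ, ∑ f : ∀ i, X i, ∏ i, g i (f i) = ∏ i, ∑ x, g i x := fun g => by
    rw [prod_univ_sum, Fintype.piFinset_univ]
  simp only [mul_add, sum_add_distrib, mul_sum]
  congr 1
  · rw [← sum_mul, key]; simp [hp]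
  · rw [sum_comm]
    refine sum_congr rfl fun i _ => ?_
    have e : ∀ f : ∀ i, X i, (∏ j, p j (f j)) * F i (f i) =
        ∏ j, p j (f j) * (if j = i then F j (f j) else 1) := fun f => by
      rw [prod_mul_distrib, prod_ite_eq' univ i (fun j => F j (f j)), if_pos (mem_univ _)]
    simp only [e]
    rw [key (fun j x => p j x * (if j = i then F j x else 1)), prod_eq_single i]
    · simp
    · intro j _ hj
      simp [hj, hp]
    · simp

theorem couple {k : ℕ} {Ω X : Type} [Fintype Ω] (a : Ω → ℝ) (ha : ∀ ω, 0 ≤ a ω)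
    (Φ : Ω → Set X → Pat k)
    (h1 : ∀ ω, a ω ≠ 0 → N (Φ ω Set.univ) ≠ 0 ∧ Φ ω Set.univ ∈ Comp k)
    (h2 : ∀ h : Lb, Odd (k + h.1) →
      ∑ ω, a ω * pr (N (Φ ω Set.univ)) (fun g => (-1) ^ g.1 * N g.2 h) = 0)
    (hm : ∀ ω U U', U ⊆ U' → Φ ω U ∈ Sub (Φ ω U')) :
    ∃ (s : Lb →₀ ℝ) (Ω' : Type) (_ : Fintype Ω') (m : Ω' → ℝ) (l : Ω' → Pat k →₀ ℝ)
      (φ : Ω' → Set X → Pat k → Pat k), (∀ h, 0 ≤ s h) ∧
      (∀ h, s h ≠ 0 → h.1 = k + 1 ∧ h.2 ∈ Lab h.1) ∧ (∀ ω, 0 ≤ m ω) ∧
      (∀ ω, ((l ω, some id) : Pat (k + 1)) ∈ Lab (k + 1)) ∧ (∀ ω, φ ω Set.univ = id) ∧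
      (∀ ω U U', U ⊆ U' → ∀ q, φ ω U q ∈ Sub (φ ω U' q) ∧ (l ω q = 0 → φ ω U q = φ ω U' q)) ∧
      (∀ γ : Lb → ℝ, ∑ ω, m ω * γ ⟨k + 1, (l ω, some id)⟩ = pr s γ) ∧
      ∀ U γ, ∑ ω, m ω * pr (N (k := k + 1) (l ω, some (φ ω U))) γ =
        pr s γ + ∑ ω, a ω * pr (N (Φ ω U)) γ := by
  classical
  set key : Ω → Pat k := fun ω => Φ ω Set.univ with hkey
  set r : Pat k →₀ ℝ := ∑ ω, Finsupp.single (key ω) (a ω) with hr
  have r_ap : ∀ q, r q = ∑ ω, if key ω = q then a ω else 0 := fun q => by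
    rw [hr, Finsupp.finsetSum_apply]
    exact sum_congr rfl fun ω _ => Finsupp.single_apply
  have ev : ∀ (T : Pat k → ℝ) (u : Pat k →₀ ℝ),
      Finsupp.linearCombination ℝ T u = ∑ q ∈ u.support, u q * T q := fun T u => by
    rw [Finsupp.linearCombination_apply]; rfl
  have ev_r : ∀ T : Pat k → ℝ, ∑ q ∈ r.support, r q * T q = ∑ ω, a ω * T (key ω) := fun T => by
    rw [← ev, hr, map_sum]
    exact sum_congr rfl fun ω _ => by rw [Finsupp.linearCombination_single, smul_eq_mul]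
  have r0 : ∀ q, 0 ≤ r q := fun q => by
    rw [r_ap]; exact sum_nonneg fun ω _ => by split_ifs; exacts [ha ω, le_rfl]
  have rk : ∀ ω, a ω ≤ r (key ω) := fun ω => by
    rw [r_ap]
    refine le_trans (le_of_eq (if_pos rfl).symm)
      (single_le_sum (f := fun ω' => if key ω' = key ω then a ω' else 0) (fun ω' _ => ?_)
        (mem_univ ω))
    split_ifs; exacts [ha ω', le_rfl]
  obtain ⟨b, b0', b1, b2⟩ := decomp r r0 (fun q hq => by
      rw [Finsupp.mem_support_iff, r_ap] at hq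
      obtain ⟨ω, -, h⟩ := exists_ne_zero_of_sum_ne_zero hq
      split_ifs at h with h'
      · exact h' ▸ h1 ω h
      · exact absurd rfl h)
    (fun h ho => by rw [ev_r]; exact h2 h ho)
  have l0 : ∀ l ∈ b.support, ∀ q, 0 ≤ l q := fun l hl q => by
    obtain ⟨r', k1, k2⟩ := lab_succ (b1 l hl)
    cases k2
    exact k1.1 q
  have rpos : ∀ l ∈ b.support, ∀ q ∈ l.support, r q ≠ 0 := fun l hl q hq => by
    rw [← b2, Finsupp.finsetSum_apply]
    refine ne_of_gt (lt_of_lt_of_le ?_ (single_le_sum (f := fun l => (b l • l) q)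
      (fun l' hl' => mul_nonneg (b0' l') (l0 l' hl' q)) hl))
    exact mul_pos (lt_of_le_of_ne (b0' l) (Finsupp.mem_support_iff.1 hl).symm)
      (lt_of_le_of_ne (l0 l hl q) (Finsupp.mem_support_iff.1 hq).symm)
  have psum : ∀ q, r q ≠ 0 → ∑ x : {ω // key ω = q}, a x.1 / r q = 1 := fun q hq => by
    rw [← sum_div, div_eq_one_iff_eq hq, r_ap, ← sum_filter]
    exact (sum_subtype _ (by simp) a).symm
  let s : Lb →₀ ℝ := ∑ l ∈ b.support, Finsupp.single ⟨k + 1, (l, some id)⟩ (b l)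
  have prs : ∀ γ, pr s γ = ∑ l : b.support, b l.1 * γ ⟨k + 1, (l.1, some id)⟩ := fun γ => by
    rw [pr_sum, ← sum_coe_sort]
    exact sum_congr rfl fun l _ => pr_single _ _ _
  refine ⟨s, Σ l : b.support, ∀ q : l.1.support, {ω // key ω = q.1}, inferInstance,
    fun ω => b ω.1.1 * ∏ q, a (ω.2 q).1 / r q.1, fun ω => ω.1.1,
    fun ω U q => if hq : q ∈ ω.1.1.support then Φ (ω.2 ⟨q, hq⟩).1 U else q,
    fun h => ?_, fun h hh => ?_, fun ω => ?_, fun ω => b1 _ ω.1.2, fun ω => ?_,
    fun ω U U' hU q => ?_, fun γ => ?_, fun U γ => ?_⟩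
  · rw [Finsupp.finsetSum_apply]
    exact sum_nonneg fun l _ => by rw [Finsupp.single_apply]; split_ifs; exacts [b0' l, le_rfl]
  · rw [Finsupp.finsetSum_apply] at hh
    obtain ⟨l, hl, h3⟩ := exists_ne_zero_of_sum_ne_zero hh
    rw [Finsupp.single_apply] at h3
    split_ifs at h3 with h4
    · subst h4; exact ⟨rfl, b1 l hl⟩
    · exact absurd rfl h3
  · exact mul_nonneg (b0' _) (prod_nonneg fun q _ => div_nonneg (ha _) (r0 _))
  · funext q
    dsimp only
    split_ifs with hq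
    · exact (ω.2 ⟨q, hq⟩).2
    · rfl
  · dsimp only
    split_ifs with hq
    · exact ⟨hm _ U U' hU, fun h => absurd h (Finsupp.mem_support_iff.1 hq)⟩
    · exact ⟨sub_refl q, fun _ => rfl⟩
  · rw [prs, Fintype.sum_sigma]
    refine sum_congr rfl fun l _ => ?_
    have := prod_marg (X := fun q : l.1.support => {ω // key ω = q.1})
      (fun q x => a x.1 / r q.1) (fun _ _ => 0) (fun q => psum _ (rpos _ l.2 _ q.2))
      (γ ⟨k + 1, (l.1, some id)⟩)
    simp only [sum_const_zero, add_zero, mul_zero] at this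
    simp only [mul_assoc]
    rw [← mul_sum, this]
  · set T : Pat k → ℝ := fun q => ∑ x : {ω // key ω = q}, a x.1 / r q * pr (N (Φ x.1 U)) γ with hT
    have e1 : ∑ ω, a ω * pr (N (Φ ω U)) γ = ∑ q ∈ r.support, r q * T q := by
      have e2 : ∀ q ∈ r.support, r q * T q =
          ∑ ω, if key ω = q then a ω * pr (N (Φ ω U)) γ else 0 := fun q hq => by
        rw [hT, mul_sum, ← sum_filter,
          sum_subtype (p := fun ω => key ω = q) (univ.filter fun ω => key ω = q) (by simp)]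
        refine sum_congr rfl fun x _ => ?_
        have := Finsupp.mem_support_iff.1 hq
        field_simp
      rw [sum_congr rfl e2, sum_comm]
      refine sum_congr rfl fun ω _ => ?_
      rw [sum_ite_eq]
      split_ifs with h
      · rfl
      · have : a ω = 0 := le_antisymm (Finsupp.notMem_support_iff.1 h ▸ rk ω) (ha ω)
        rw [this, zero_mul]
    have e3 : Finsupp.linearCombination ℝ T r =
        ∑ l : b.support, Finsupp.linearCombination ℝ T (b l.1 • l.1) := by
      rw [← map_sum, sum_coe_sort b.support (fun l => b l • l), b2]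
    rw [e1, ← ev, e3, prs, Fintype.sum_sigma, ← sum_add_distrib]
    refine sum_congr rfl fun l _ => ?_
    have := prod_marg (X := fun q : l.1.support => {ω // key ω = q.1})
      (fun q x => a x.1 / r q.1) (fun q x => l.1 q.1 * pr (N (Φ x.1 U)) γ)
      (fun q => psum _ (rpos _ l.2 _ q.2)) (γ ⟨k + 1, (l.1, some id)⟩)
    rw [map_smul, smul_eq_mul, ← mul_add, ev, ← sum_coe_sort l.1.support]
    simp only [mul_assoc]
    rw [← mul_sum]
    congr 1
    refine Eq.trans (sum_congr rfl fun f _ => ?_) (this.trans ?_)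
    · congr 1
      rw [N_some, pr_add, pr_single, one_mul, pr_sum, ← sum_coe_sort l.1.support]
      congr 1
      refine sum_congr rfl fun q _ => ?_
      rw [pr_smul, dif_pos q.2]
    · congr 1
      refine sum_congr rfl fun q _ => ?_
      rw [hT, mul_sum]
      exact sum_congr rfl fun x _ => by ring

end Pool.Agent.Lib.MP_685082_co.Cone
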