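import Pool.Agent.Lib.MP_685082_co.KDelta
import Pool.Agent.Lib.MP_685082_co.KFix

/-! The object of a label that is not the chain label. -/

namespace Pool.Agent.Lib.MP_685082_co.Cone

open Finset GP

theorem step_scale {ι : Type} [Fintype ι] (a r : ι → ℝ) (ha : ∀ i, 0 < a i) (hr : ∀ i, 0 < r i)
    (T ε : ℝ) (hε : 0 < ε) : ∃ (σ : ℝ) (n : ι → ℕ), 0 < σ ∧ T ≤ ε * σ ∧ (∀ i, 0 < n i) ∧
      ∀ i, n i * a i ≤ σ * r i ∧ σ * r i - n i * a i ≤ a i := by
  have h0 : 0 ≤ ∑ i, a i / r i := sum_nonneg fun i _ => (div_pos (ha i) (hr i)).le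
  have h1 : 0 ≤ |T| / ε := by positivity
  obtain ⟨σ, hσ⟩ : ∃ σ, σ = ∑ i, a i / r i + |T| / ε + 1 := ⟨_, rfl⟩
  have s0 : 0 < σ := by linarith
  refine ⟨σ, fun i => ⌊σ * r i / a i⌋₊, s0, ?_, fun i => Nat.floor_pos.2 ?_, fun i => ⟨?_, ?_⟩⟩
  · have : |T| / ε ≤ σ := by linarith
    rw [div_le_iff₀ hε] at this
    linarith [le_abs_self T]
  · have : a i / r i ≤ σ := by
      have := single_le_sum (f := fun i => a i / r i) (fun i _ => (div_pos (ha i) (hr i)).le)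
        (mem_univ i)
      linarith
    rwa [le_div_iff₀ (ha i), one_mul, ← div_le_iff₀ (hr i)]
  · exact (le_div_iff₀ (ha i)).1 (Nat.floor_le (div_pos (mul_pos s0 (hr i)) (ha i)).le)
  · have := (div_lt_iff₀ (ha i)).1 (Nat.lt_floor_add_one (σ * r i / a i))
    linarith

open Classical in
theorem step_abs_le {P : Type} [Fintype P] (w g : P → ℝ) (hw : ∀ x, 0 ≤ w x) (hg : ∀ x, |g x| ≤ 1)
    (A W : P → Prop) [DecidablePred A] : |∑ x, if A x then (if W x then w x * g x else 0) else 0| ≤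
      ∑ x, if A x then w x else 0 := by
  refine (abs_sum_le_sum_abs _ _).trans (sum_le_sum fun x _ => ?_)
  split_ifs
  · rw [abs_mul, abs_of_nonneg (hw x)]; exact mul_le_of_le_one_right (hw x) (hg x)
  · simpa using hw x
  · simp

open Classical in
theorem step_pr_le {Q : Lb → Ob} {K ε : ℝ} {h : Lb} {O : Ob} (hO : OK Q K ε h O) (hε : ε ≤ 1)
    {p : Pat h.1} (hp : p ∈ Sub h.2) (γ : Lb → ℝ) (hγ : ∀ h, |γ h| ≤ 1) :
    |pr (N p) γ| ≤ K + 2 := by
  have hg : ∀ x, |(O.col x).elim 0 γ| ≤ 1 := fun x => by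
    cases O.col x <;> simp [hγ]
  have h1 := hO.apxU p hp γ (fun x => (O.col x).elim 0 γ) hγ hg fun x h e => by simp [e]
  have h2 := step_abs_le O.wt _ (fun x => (hO.good.wt_pos x).le) hg (fun _ => True)
    fun x => x ∈ O.U ⟨h.1, p⟩
  simp only [if_true] at h2
  have h3 := hO.sum_wt
  have s0 := hO.good.wt_pos O.tp
  have h4 : |O.wt O.tp * pr (N p) γ| ≤ O.wt O.tp * (K + 2) := by
    rw [abs_le] at h1 h2 ⊢
    constructor <;> nlinarith [h1.1, h1.2, h2.1, h2.2]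
  rwa [abs_mul, abs_of_pos s0, mul_le_mul_iff_right₀ s0] at h4

open Classical in
theorem step_split {ι : Type} [Fintype ι] {Q : ι → GP} {U : ∀ i, Set (Q i).P} {Γ : Type}
    [Fintype Γ] {R : ℝ} {n : ι → ℕ} (b : Built Q U Γ R n) {Z : GP} (j : IE b.Y Z) (F : Z.P → ℝ) :
    ∑ z, F z = (∑ z, if z ∉ Set.range j.f then F z else 0) +
      ((∑ y, if y ∈ b.B then F (j.f y) else 0) +
        ∑ i, ∑ g, ∑ c, ∑ x, if x ∈ U i then F (j.f ((b.e i g c).f x)) else 0) := by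
  rw [← b.sum_split fun y => F (j.f y)]
  have := j.sum_eq (fun z => if z ∈ Set.range j.f then F z else 0) fun y hy => if_neg hy
  simp only [Set.mem_range_self, if_true] at this
  rw [← this, ← sum_add_distrib]
  exact sum_congr rfl fun z _ => by by_cases h : z ∈ Set.range j.f <;> simp [h]

/-- the arithmetic of the copies -/
theorem step_copies {ι Γ : Type} [Fintype ι] [Fintype Γ] (n : ι → ℕ) (s r p : ι → ℝ)
    (A : ∀ i, Γ → Fin (n i) → ℝ) {σ ε M : ℝ} (hε : 0 ≤ ε) (hr : ∑ i, r i = 1)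
    (hn : ∀ i, n i * (Fintype.card Γ * s i) ≤ σ * r i ∧
      σ * r i - n i * (Fintype.card Γ * s i) ≤ Fintype.card Γ * s i)
    (hA : ∀ i g c, |A i g c - s i * p i| ≤ ε * s i) (hp : ∀ i, |p i| ≤ M) :
    |∑ i, ∑ g, ∑ c, A i g c - σ * ∑ i, r i * p i| ≤
      ε * σ + M * ∑ i, Fintype.card Γ * s i := by
  have e : ε * σ = ∑ i, ε * (σ * r i) := by rw [← mul_sum, ← mul_sum, hr, mul_one]
  rw [e, mul_sum, mul_sum, ← sum_sub_distrib, ← sum_add_distrib]
  refine (abs_sum_le_sum_abs _ _).trans (sum_le_sum fun i _ => ?_)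
  have h1 : |∑ g, ∑ c, (A i g c - s i * p i)| ≤ ∑ _g : Γ, ∑ _c : Fin (n i), ε * s i :=
    (abs_sum_le_sum_abs _ _).trans (sum_le_sum fun g _ =>
      (abs_sum_le_sum_abs _ _).trans (sum_le_sum fun c _ => hA i g c))
  simp only [sum_sub_distrib, sum_const, card_univ, Fintype.card_fin, nsmul_eq_mul] at h1
  have h2 : |(σ * r i - n i * (Fintype.card Γ * s i)) * p i| ≤ Fintype.card Γ * s i * M := by
    rw [abs_mul, abs_of_nonneg (sub_nonneg.2 (hn i).1)]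
    exact mul_le_mul (hn i).2 (hp i) (abs_nonneg _) ((sub_nonneg.2 (hn i).1).trans (hn i).2)
  have h3 := mul_le_mul_of_nonneg_left (hn i).1 hε
  rw [abs_le] at h1 h2 ⊢
  constructor <;> nlinarith [h1.1, h1.2, h2.1, h2.2]

section
variable {k : ℕ} {K ε : ℝ} {Q : Lb → Ob} {r : Pat k →₀ ℝ}

theorem step_sub (hr : r ∈ Poly k (Lab k)) (i : r.support) :
    lb i.1 ∈ Lab k ∧ i.1 ∈ Sub (lb i.1) := comp_lb (hr.2.2.1 i.1 i.2).2

theorem step_ok (hI : Inv k K ε Q) (hr : r ∈ Poly k (Lab k)) (i : r.support) :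
    OK Q K ε ⟨k, lb i.1⟩ (Q ⟨k, lb i.1⟩) := hI _ ⟨le_rfl, (step_sub hr i).1⟩

theorem step_eq_tp {h : Lb} {O : Ob} (hO : OK Q K ε h O) {x : O.P} (hx : h.1 ≤ O.rk x) :
    x = O.tp := by
  by_contra hn
  have := hO.good.mono x O.tp (lt_of_le_of_ne (hO.le_tp x) hn)
  rw [hO.rk_tp] at this
  omega

variable {Γ : Type} [Fintype Γ] {R : ℝ} {n : r.support → ℕ} (b : Built (cQ Q r) (cU Q r) Γ R n)

theorem step_low (hI : Inv k K ε Q) (hr : r ∈ Poly k (Lab k)) (u : b.Y.P) (hu : u ∈ b.B) :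
    b.Y.rk u + 2 ≤ k := by
  obtain ⟨i, g, c, x, rfl⟩ := b.cover u
  have hx := (b.mem_B i g c x).1 hu
  have hO := step_ok hI hr i
  have hN := (hr.2.2.1 i.1 i.2).1
  rw [(b.e i g c).rk]
  have h1 : ¬k ≤ (cQ Q r i).rk x := fun h =>
    hx ((step_eq_tp hO h).symm ▸ hO.tp_mem _ (step_sub hr i).2 hN)
  have h2 : (cQ Q r i).rk x + 1 ≠ k := fun h =>
    hx (hO.coat _ (step_sub hr i).2 hN (fun g hg => gap2 hr i.2 g hg) x h)
  omega

open Classical in
theorem step_up (hI : Inv k K ε Q) (hr : r ∈ Poly k (Lab k)) (u : b.Y.P)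
    (ho : Odd (k + b.Y.rk u)) (hu : u ∉ b.B) : b.Y.up u = 0 := by
  obtain ⟨i, g, c, x, rfl⟩ := b.cover u
  have hx := not_not.1 fun h => hu ((b.mem_B i g c x).2 h)
  have hO := step_ok hI hr i
  rw [(b.e i g c).rk] at ho
  rw [b.up_priv g c hx, ← hO.good.join (hO.le_tp x) (by rw [hO.rk_tp]; exact ho)]
  exact sum_congr rfl fun z _ => by simp [hO.le_tp z]

/-- the union of the copies of the upper sets given by `f` -/
def stepV (f : Pat k → Pat k) : Set b.Y.P :=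
  {y | ∃ (i : r.support) (g : Γ) (c : Fin (n i)) (z : (cQ Q r i).P),
    z ∈ (Q ⟨k, lb i.1⟩).U ⟨k, f i.1⟩ ∧ (b.e i g c).f z = y}

theorem step_V_iff {f : Pat k → Pat k} {i : r.support} (g : Γ) (c : Fin (n i))
    {x : (cQ Q r i).P} (hx : x ∈ cU Q r i) :
    (b.e i g c).f x ∈ stepV b f ↔ x ∈ (Q ⟨k, lb i.1⟩).U ⟨k, f i.1⟩ := by
  refine ⟨fun ⟨i', g', c', z, hz, e⟩ => ?_, fun h => ⟨i, g, c, x, h, rfl⟩⟩
  have := b.priv i g c x i' g' c' z hx e.symm
  cases this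
  rwa [← (b.e i g c).inj e]

theorem step_V_upper (hI : Inv k K ε Q) (hr : r ∈ Poly k (Lab k)) {f : Pat k → Pat k}
    (hf : ∀ q, f q ∈ Sub q) : IsUpperSet (stepV b f) := by
  rintro _ y h ⟨i, g, c, z, hz, rfl⟩
  have hO := step_ok hI hr i
  obtain ⟨w, hw, rfl⟩ := b.above (hO.mono _ (step_sub hr i).2 _ (hf _) hz) h
  exact ⟨i, g, c, w, hO.upper _ (sub_trans (step_sub hr i).2 (hf _)) hw hz, rfl⟩

open Classical in
theorem step_apx (hI : Inv k K ε Q) (hr : r ∈ Poly k (Lab k)) (h0 : 0 ≤ ε) (h1 : ε ≤ 1) {Z : GP}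
    (hZ : Z.Good) (j : IE b.Y Z) {σ J η : ℝ}
    (hn : ∀ i, n i * (Fintype.card Γ * cS Q r i) ≤ σ * r i.1 ∧
      σ * r i.1 - n i * (Fintype.card Γ * cS Q r i) ≤ Fintype.card Γ * cS Q r i)
    (hJ : (∑ x, if x ∉ Set.range j.f then Z.wt x else 0) ≤ J)
    (hη : J + R + (ε * σ + (K + 2) * ∑ i, Fintype.card Γ * cS Q r i) ≤ η * σ)
    {f : Pat k → Pat k} (hf : ∀ q, f q ∈ Sub q)
    (W : Set (Z.top (k + 1) (some ⟨k + 1, (r, some id)⟩) σ).P) (hW : (⊤ : WithTop Z.P) ∈ W)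
    (hW' : ∀ i g c, ∀ x ∈ cU Q r i, (IE.toTop Z _ _ _).f (j.f ((b.e i g c).f x)) ∈ W ↔
      x ∈ (Q ⟨k, lb i.1⟩).U ⟨k, f i.1⟩) :
    Apx (Z.top (k + 1) (some ⟨k + 1, (r, some id)⟩) σ) W σ (N (k := k + 1) (r, some f)) η := by
  intro γ g hγ hg hc
  have hw : ∀ x, 0 ≤ Z.wt x := fun x => (hZ.wt_pos x).le
  have e1 : pr (N (k := k + 1) (r, some f)) γ =
      γ ⟨k + 1, (r, some id)⟩ + ∑ i : r.support, r i.1 * pr (N (f i.1)) γ := by
    rw [N_some, pr_add, pr_single, one_mul, pr_sum,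
      sum_coe_sort r.support fun q => r q * pr (N (f q)) γ]
    simp only [pr_smul]
  have e2 : ∑ i : r.support, r i.1 = 1 := (sum_coe_sort r.support fun q => r q).trans hr.2.1
  have a1 := (step_abs_le Z.wt (fun z => g ((IE.toTop Z _ _ _).f z)) hw (fun z => hg _)
    (fun z => z ∉ Set.range j.f) fun z => (IE.toTop Z _ _ _).f z ∈ W)
  have a2 := (step_abs_le (fun y => Z.wt (j.f y)) (fun y => g ((IE.toTop Z _ _ _).f (j.f y)))
    (fun y => hw _) (fun z => hg _) (fun y => y ∈ b.B) fun y => (IE.toTop Z _ _ _).f (j.f y) ∈ W)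
  have a3 := step_copies n (cS Q r) (fun i => r i.1) (fun i => pr (N (f i.1)) γ)
    (fun i g' c => ∑ x, if x ∈ (Q ⟨k, lb i.1⟩).U ⟨k, f i.1⟩ then (Q ⟨k, lb i.1⟩).wt x *
      g ((IE.toTop Z _ _ _).f (j.f ((b.e i g' c).f x))) else 0) h0 e2 hn
    (fun i g' c => (step_ok hI hr i).apxU _ (sub_trans (step_sub hr i).2 (hf _)) γ _ hγ
      (fun x => hg _) fun x h e => hc _ h
        ((((b.e i g' c).comp j).comp (IE.toTop Z _ _ _)).col x |>.trans e))
    fun i => step_pr_le (step_ok hI hr i) h1 (sub_trans (step_sub hr i).2 (hf _)) γ hγ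
  have a4 := b.small_wt
  simp only [← j.wt] at a4
  have e3 : ∀ i g' c, (∑ x, if x ∈ cU Q r i then
      (if (IE.toTop Z _ _ _).f (j.f ((b.e i g' c).f x)) ∈ W then Z.wt (j.f ((b.e i g' c).f x)) *
        g ((IE.toTop Z _ _ _).f (j.f ((b.e i g' c).f x))) else 0) else 0) =
      ∑ x, if x ∈ (Q ⟨k, lb i.1⟩).U ⟨k, f i.1⟩ then (Q ⟨k, lb i.1⟩).wt x *
        g ((IE.toTop Z _ _ _).f (j.f ((b.e i g' c).f x))) else 0 := fun i g' c =>
    sum_congr rfl fun x _ => by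
      by_cases hx : x ∈ cU Q r i
      · rw [if_pos hx, j.wt, (b.e i g' c).wt]
        exact if_congr (hW' i g' c x hx) rfl rfl
      · rw [if_neg hx, if_neg fun h => hx ((step_ok hI hr i).mono _ (step_sub hr i).2 _ (hf _) h)]
  have e4 := step_split b j fun z => if (IE.toTop Z _ _ _).f z ∈ W then
    Z.wt z * g ((IE.toTop Z _ _ _).f z) else 0
  simp only [e3] at e4
  have e5 : g (⊤ : WithTop Z.P) = γ ⟨k + 1, (r, some id)⟩ := hc _ _ rfl
  have e6 : (∑ x, if x ∈ W then (Z.top (k + 1) (some ⟨k + 1, (r, some id)⟩) σ).wt x * g x else 0) =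
      σ * γ ⟨k + 1, (r, some id)⟩ + ∑ z, if (IE.toTop Z _ _ _).f z ∈ W then
        Z.wt z * g ((IE.toTop Z _ _ _).f z) else 0 :=
    (sum_top _ _ _ _ _).trans (congrArg₂ (· + ·) ((if_pos hW).trans (congrArg (σ * ·) e5)) rfl)
  have a1' := a1.trans hJ
  have a2' := a2.trans a4
  rw [e6, e4, e1]
  rw [abs_le] at a1' a2' a3 ⊢
  constructor
  · linarith [a1'.1, a2'.1, a3.1]
  · linarith [a1'.2, a2'.2, a3.2]

open Classical in
theorem step_total (hI : Inv k K ε Q) (hK : 1 ≤ K) (hr : r ∈ Poly k (Lab k)) {Z : GP}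
    (j : IE b.Y Z) {σ J : ℝ} (hn : ∀ i, n i * (Fintype.card Γ * cS Q r i) ≤ σ * r i.1)
    (hJ : (∑ x, if x ∉ Set.range j.f then Z.wt x else 0) ≤ J) :
    ∑ z, Z.wt z ≤ J + (R + (K + 1) * σ) := by
  have e2 : ∑ i : r.support, r i.1 = 1 := (sum_coe_sort r.support fun q => r q).trans hr.2.1
  rw [step_split b j Z.wt]
  simp only [j.wt]
  refine add_le_add hJ (add_le_add b.small_wt ?_)
  have e : (K + 1) * σ = ∑ i : r.support, (K + 1) * (σ * r i.1) := by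
    rw [← mul_sum, ← mul_sum, e2, mul_one]
  rw [e]
  refine sum_le_sum fun i _ => ?_
  have hO := step_ok hI hr i
  have : (∑ g, ∑ c, ∑ x, if x ∈ cU Q r i then b.Y.wt ((b.e i g c).f x) else 0) ≤
      ∑ _g : Γ, ∑ _c : Fin (n i), (K + 1) * cS Q r i :=
    sum_le_sum fun g _ => sum_le_sum fun c _ => (sum_le_sum fun x _ => by
      rw [(b.e i g c).wt]
      split_ifs
      · exact le_rfl
      · exact (hO.good.wt_pos x).le).trans hO.sum_wt
  simp only [sum_const, card_univ, Fintype.card_fin, nsmul_eq_mul] at this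
  have h2 := mul_le_mul_of_nonneg_left (hn i) (show 0 ≤ K + 1 by linarith)
  linarith
end

theorem step_gen (k : ℕ) (K : ℝ) (hK : 1 ≤ K) : ∃ K' C : ℝ, K ≤ K' ∧ 1 ≤ C ∧
    ∀ ε : ℝ, 0 < ε → ε ≤ 1 → ∀ Q : Lb → Ob, Inv k K ε Q → ∀ r : Pat k →₀ ℝ,
      ((r, some id) : Pat (k + 1)) ∈ Lab (k + 1) → (∀ q ∈ r.support, N q b0 = 0) →
      ∃ O, OK Q K' (C * ε) ⟨k + 1, (r, some id)⟩ O := by
  obtain ⟨C1, hC1, hd⟩ := delta k K hK
  obtain ⟨K1, C2, hK1, hC2, hfix⟩ := fix k K hK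
  have hC := mul_nonneg hC2 hC1
  refine ⟨K1 + (C2 * C1 + 2), C2 * C1 + 2, by linarith, by linarith, ?_⟩
  intro ε h0 h1 Q hI r hlab hb
  have hr : r ∈ Poly k (Lab k) := by
    obtain ⟨r', h, e⟩ := lab_succ hlab
    exact (show r = r' from congrArg Prod.fst e) ▸ h
  have hne : Nonempty r.support := by
    refine Finset.nonempty_coe_sort.2 (nonempty_iff_ne_empty.2 fun h => ?_)
    have := hr.2.1
    rw [Finsupp.sum, h, sum_empty] at this
    exact zero_ne_one this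
  have ok := step_ok hI hr
  have hU : ∀ i, IsUpperSet (cU Q r i) := fun i => (ok i).upper _ (step_sub hr i).2
  have hbot : ∀ i, ⊥ ∉ cU Q r i := fun i h => (ok i).bot_mem _ (step_sub hr i).2 h (hb _ i.2)
  obtain ⟨Γ, _, _, R, hR, hbuild⟩ := build (cQ Q r) (fun i => (ok i).good) (cU Q r) hU hbot
  obtain ⟨R', hd⟩ := hd ε h0 h1 Q hI r hr Γ R
  have hΓ : (0 : ℝ) < Fintype.card Γ := Nat.cast_pos.2 Fintype.card_pos
  have ha : ∀ i, 0 < Fintype.card Γ * cS Q r i := fun i => mul_pos hΓ ((ok i).good.wt_pos _)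
  have hS : 0 ≤ (K + 2) * ∑ i, Fintype.card Γ * cS Q r i :=
    mul_nonneg (by linarith) (sum_nonneg fun i _ => (ha i).le)
  obtain ⟨σ, n, s0, hT, n0, hn⟩ := step_scale (fun i => Fintype.card Γ * cS Q r i)
    (fun i => r i.1) ha (fun i => lt_of_le_of_ne (hr.1 _) (Finsupp.mem_support_iff.1 i.2).symm)
    (C2 * R' + R + (K + 2) * ∑ i, Fintype.card Γ * cS Q r i) ε h0
  obtain ⟨b⟩ := hbuild n n0
  have hD := hd n b σ s0.le fun i => by
    rw [abs_le]; constructor <;> nlinarith [(hn i).1, (hn i).2, ha i]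
  obtain ⟨Z, j, hZ, hZb, hZp, hZu, hZc, hJ⟩ := hfix b.Y
    (good_of_cover fun y => by
      obtain ⟨i, g, c, x, e⟩ := b.cover y
      exact ⟨_, b.e i g c, (ok i).good, x, e⟩)
    (bd_of_cover fun y => by
      obtain ⟨i, g, c, x, e⟩ := b.cover y
      exact ⟨_, b.e i g c, (ok i).bd, x, e⟩)
    (fun y => by
      obtain ⟨i, g, c, x, rfl⟩ := b.cover y
      exact ⟨_, ((b.e i g c).le_iff _ _).2 ((ok i).le_tp x), ((b.e i g c).rk _).trans (ok i).rk_tp⟩)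
    b.B (b.lower hU) (step_low b hI hr) (step_up b hI hr)
  have hJ' := hJ.trans (mul_le_mul_of_nonneg_left hD hC2)
  have hη : C2 * (C1 * ε * σ + R') + R + (ε * σ + (K + 2) * ∑ i, Fintype.card Γ * cS Q r i) ≤
      (C2 * C1 + 2) * ε * σ := by linarith
  let t := j.comp (IE.toTop Z (k + 1) (some ⟨k + 1, (r, some id)⟩) σ)
  let W : (Pat k → Pat k) → Set (WithTop Z.P) := fun f => {x | ∀ y, t.f y = x → y ∈ stepV b f}
  let O : Ob := ⟨Z.top (k + 1) (some ⟨k + 1, (r, some id)⟩) σ, (⊤ : WithTop Z.P),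
    fun p => {x | ∃ f, p = ⟨k + 1, (r, some f)⟩ ∧ x ∈ W f}⟩
  have hW : ∀ f, O.U ⟨k + 1, (r, some f)⟩ = W f := fun f =>
    Set.ext fun x => ⟨fun ⟨f', e, h⟩ => by cases e; exact h, fun h => ⟨f, rfl, h⟩⟩
  have hW0 : O.U ⟨k + 1, (r, none)⟩ = ∅ := Set.eq_empty_of_forall_notMem fun x ⟨f, e, _⟩ => by
    cases e
  have top : ∀ f, (⊤ : WithTop Z.P) ∈ W f := fun f y e => absurd e WithTop.coe_ne_top
  have tW : ∀ f y, t.f y ∈ W f ↔ y ∈ stepV b f := fun f y =>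
    ⟨fun h => h y rfl, fun h y' e => t.inj e ▸ h⟩
  refine ⟨O, good_top hZ hZp hZu _ s0, bd_top (hZb.mono hZ (by linarith)) _ _ ?_,
    fun x => le_top (α := WithTop Z.P), rfl, rfl, fun x g hx hc => ?_, ?_, fun p hp => ?_,
    fun p hp q hq => ?_, fun p hp hN => ?_, fun p hp h => ?_, fun p hp hN he x hx => ?_,
    fun p hp => ?_⟩
  · have := step_total b hI hK hr j (fun i => (hn i).1) hJ'
    have e1 : ε * σ ≤ σ := mul_le_of_le_one_left s0.le h1
    have e2 := mul_le_mul_of_nonneg_left e1 hC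
    have e3 := mul_le_mul_of_nonneg_right hK1 s0.le
    linarith
  · obtain ⟨z, rfl⟩ := WithTop.ne_top_iff_exists.1 hx
    have hc' : Z.col z = some g := hc
    obtain ⟨y, rfl⟩ : z ∈ Set.range j.f := not_not.1 fun h => by simp [hZc z h] at hc'
    obtain ⟨i, g', c, w, rfl⟩ := b.cover y
    rw [j.col, (b.e i g' c).col] at hc'
    obtain ⟨hv, i0, rfl⟩ := hI.her' (h := ⟨k, lb i.1⟩) ⟨le_rfl, (step_sub hr i).1⟩ w g hc'
    exact ⟨Nat.lt_succ_of_le hv.1, hv.2, (i0.comp (b.e i g' c)).comp t, rfl⟩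
  · exact step_apx b hI hr h0.le h1 hZ j hn hJ' hη (f := id) sub_refl _ trivial
      fun i g c x hx => iff_of_true trivial hx
  · rcases mem_sub_some.1 hp with rfl | ⟨f, rfl, hf⟩
    · rw [hW0]; exact isUpperSet_empty
    · rw [hW]
      rintro x _ h hx y rfl
      obtain ⟨y', rfl⟩ := t.down y x h
      exact step_V_upper b hI hr (fun q => (hf q).1) ((t.le_iff _ _).1 h) (hx y' rfl)
  · rcases mem_sub_some.1 hp with rfl | ⟨f, rfl, hf⟩
    · rw [mem_sub_none.1 hq]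
    · rcases mem_sub_some.1 hq with rfl | ⟨f', rfl, hf'⟩
      · rw [hW0]; exact Set.empty_subset _
      · rw [hW, hW]
        intro x hx y e
        obtain ⟨i, g, c, z, hz, e'⟩ := hx y e
        exact ⟨i, g, c, z, (ok i).mono _ (sub_trans (step_sub hr i).2 (hf _).1) _ (hf' _).1 hz, e'⟩
  · rcases mem_sub_some.1 hp with rfl | ⟨f, rfl, -⟩
    · exact absurd rfl hN
    · rw [hW]; exact top f
  · rcases mem_sub_some.1 hp with rfl | ⟨f, rfl, hf⟩
    · rw [hW0] at h; exact h.elim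
    · rw [hW] at h
      obtain ⟨i, g, c, z, hz, e⟩ := h ⊥ t.bot
      rw [(b.e i g c).inj (e.trans (b.e i g c).bot.symm)] at hz
      exact (hbot i ((ok i).mono _ (step_sub hr i).2 _ (hf _).1 hz)).elim
  · rcases mem_sub_some.1 hp with rfl | ⟨f, rfl, hf⟩
    · exact absurd rfl hN
    · rw [hW]
      rintro y rfl
      obtain ⟨i, g, c, z, rfl⟩ := b.cover y
      have hz : k ≤ (cQ Q r i).rk z := by
        have := ((b.e i g c).comp t).rk z
        have h2 : O.rk (t.f ((b.e i g c).f z)) + 1 = k + 1 := hx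
        exact le_of_eq ((Nat.succ_injective h2).symm.trans this)
      refine ⟨i, g, c, z, ?_, rfl⟩
      rw [step_eq_tp (ok i) hz]
      exact (ok i).tp_mem _ (sub_trans (step_sub hr i).2 (hf _).1)
        (full_parts hr (fun q => (hf q).1) (fun h e => he h (congrArg (· + 1) e)) i.2)
  · rcases mem_sub_some.1 hp with rfl | ⟨f, rfl, hf⟩
    · rw [hW0]
      intro γ g _ _ _
      have : 0 ≤ (C2 * C1 + 2) * ε * O.wt O.tp := mul_nonneg (by positivity) s0.le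
      simpa [N_none, pr_zero] using this
    · rw [hW]
      exact step_apx b hI hr h0.le h1 hZ j hn hJ' hη (fun q => (hf q).1) _ (top f)
        fun i g c x hx => (tW f _).trans (step_V_iff b g c hx)

end Pool.Agent.Lib.MP_685082_co.Cone
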