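import Pool.Agent.Lib.MP_685082_co.Flag2
import Pool.Agent.Lib.MP_685082_co.Build
import Pool.Agent.Lib.MP_685082_co.Arith1

/-! Assembly. -/

namespace Pool.Agent.Lib.MP_685082_co

open Finset

/-- the sixteen coordinates in terms of four parameters -/
def Form (v : Finset ℕ → ℤ) (n m t I : ℕ) : Prop :=
  v ∅ = 1 ∧ v {1} = n ∧ v {2} = n + t ∧ v {3} = m + t ∧ v {4} = m ∧
    v {1, 2} = 2 * (n + t) ∧ v {1, 3} = I + 2 * t ∧ v {1, 4} = I ∧ v {2, 3} = I + 2 * t ∧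
    v {2, 4} = I + 2 * t ∧ v {3, 4} = 2 * (m + t) ∧ v {1, 2, 3} = 2 * (I + 2 * t) ∧
    v {1, 2, 4} = 2 * (I + 2 * t) ∧ v {1, 3, 4} = 2 * (I + 2 * t) ∧
    v {2, 3, 4} = 2 * (I + 2 * t) ∧ v {1, 2, 3, 4} = 4 * (I + 2 * t)

theorem subsets : ∀ S ∈ powerset (Icc 1 4), S = ∅ ∨ S = {1} ∨ S = {2} ∨ S = {3} ∨ S = {4} ∨
    S = {1, 2} ∨ S = {1, 3} ∨ S = {1, 4} ∨ S = {2, 3} ∨ S = {2, 4} ∨ S = {3, 4} ∨ S = {1, 2, 3} ∨
    S = {1, 2, 4} ∨ S = {1, 3, 4} ∨ S = {2, 3, 4} ∨ S = {1, 2, 3, 4} := by decide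

theorem Form.ext {v w : Finset ℕ → ℤ} {n m t I : ℕ} (h1 : Form v n m t I) (h2 : Form w n m t I) :
    ∀ S ⊆ Icc 1 4, v S = w S := by
  intro S hS
  unfold Form at h1 h2
  rcases subsets S (mem_powerset.2 hS) with rfl | rfl | rfl | rfl | rfl | rfl | rfl | rfl | rfl |
    rfl | rfl | rfl | rfl | rfl | rfl | rfl <;> omega

theorem Form.congr {v w : Finset ℕ → ℤ} {n m t I : ℕ} (h : ∀ S ⊆ Icc 1 4, v S = w S)
    (h2 : Form w n m t I) : Form v n m t I := by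
  unfold Form at h2 ⊢
  rw [h ∅ (by decide), h {1} (by decide), h {2} (by decide), h {3} (by decide), h {4} (by decide),
    h {1, 2} (by decide), h {1, 3} (by decide), h {1, 4} (by decide), h {2, 3} (by decide),
    h {2, 4} (by decide), h {3, 4} (by decide), h {1, 2, 3} (by decide), h {1, 2, 4} (by decide),
    h {1, 3, 4} (by decide), h {2, 3, 4} (by decide), h {1, 2, 3, 4} (by decide)]
  exact h2

theorem Eul.form {P : Type} [Fintype P] [PartialOrder P] [BoundedOrder P] {ρ : P → ℕ} (h : Eul ρ)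
    {t : ℕ} (ht : h.core.f2 = h.core.n + t) :
    Form (fun S => ({c : Set P | IsChain (· ≤ ·) c ∧ ⊥ ∉ c ∧ ⊤ ∉ c ∧ ρ '' c = S}.ncard : ℤ))
      h.core.n h.core.m t h.core.I := by
  classical
  have key : ∀ (S : Finset ℕ) (S' : Set ℕ), (∀ x, x ∈ S ↔ x ∈ S') →
      {c : Set P | IsChain (· ≤ ·) c ∧ ⊥ ∉ c ∧ ⊤ ∉ c ∧ ρ '' c = S}.ncard = gch ρ S' ⊤ := by
    intro S S' hS
    have : (S : Set ℕ) = S' := Set.ext hS
    rw [ncard_eq_cnt, this, gch]
    refine cnt_congr fun c => and_congr_right fun _ => and_congr_right fun _ =>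
      and_congr_left fun _ => ⟨fun hc u hu => lt_top_iff_ne_top.2 ?_, fun hc hu => ?_⟩
    · rintro rfl; exact hc hu
    · exact lt_irrefl _ (hc _ hu)
  obtain ⟨k1, k2, k3, k4, k5, k6, k7, k8, k9, k10, k11, k12, k13, k14, k15⟩ := h.flags
  have e1 := Core.eqA (C := h.core)
  have e2 := Core.eqW (C := h.core)
  unfold Form
  beta_reduce
  rw [key ∅ ∅ (by simp), key {1} (insert 1 ∅) (by simp), key {2} (insert 2 ∅) (by simp),
    key {3} (insert 3 ∅) (by simp), key {4} (insert 4 ∅) (by simp),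
    key {1, 2} (insert 2 (insert 1 ∅)) (by simp; tauto),
    key {1, 3} (insert 3 (insert 1 ∅)) (by simp; tauto),
    key {1, 4} (insert 4 (insert 1 ∅)) (by simp; tauto),
    key {2, 3} (insert 3 (insert 2 ∅)) (by simp; tauto),
    key {2, 4} (insert 4 (insert 2 ∅)) (by simp; tauto),
    key {3, 4} (insert 4 (insert 3 ∅)) (by simp; tauto),
    key {1, 2, 3} (insert 3 (insert 2 (insert 1 ∅))) (by simp; tauto),
    key {1, 2, 4} (insert 4 (insert 2 (insert 1 ∅))) (by simp; tauto),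
    key {1, 3, 4} (insert 4 (insert 3 (insert 1 ∅))) (by simp; tauto),
    key {2, 3, 4} (insert 4 (insert 3 (insert 2 ∅))) (by simp; tauto),
    key {1, 2, 3, 4} (insert 4 (insert 3 (insert 2 (insert 1 ∅)))) (by simp; tauto),
    k1, k2, k3, k4, k5, k6, k7, k8, k9, k10, k11, k12, k13, k14, k15, gch_empty]
  constructorm* _ ∧ _ <;> omega

theorem main (v : Finset ℕ → ℤ) :
    IsFlagVec 4 v ↔ ∃ n m t I : ℕ, Cond (min n m) (max n m) t I ∧ Form v n m t I := by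
  constructor
  · rintro ⟨P, i1, i2, i3, ρ, h0, h5, hc, he, hv⟩
    have := Fintype.ofFinite P
    have h : Eul ρ := ⟨h0, h5, hc, fun x y hxy => by
      have := he x y hxy; rwa [ncard_eq_cnt, ncard_eq_cnt] at this⟩
    obtain ⟨t, ht⟩ := Nat.exists_eq_add_of_le (Core.n_le_f2 (C := h.core))
    exact ⟨_, _, t, _, ach_iff.1 ⟨h.n_pos, h.core, rfl, rfl, ht, rfl⟩, (h.form ht).congr hv⟩
  · rintro ⟨n, m, t, I, h1, h2⟩
    obtain ⟨hn, C, rfl, rfl, h3, rfl⟩ := ach_iff.2 h1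
    have h := Pt.eul hn
    have h4 := h.form (t := t) (by rw [Pt.core_f2 hn, Pt.core_n hn, h3])
    rw [Pt.core_n hn, Pt.core_m hn, Pt.core_I hn] at h4
    refine ⟨Pt C, inferInstance, inferInstance, inferInstance, Pt.rk, h.h0, h.h5, h.hc,
      fun x y hxy => ?_, h2.ext h4⟩
    rw [ncard_eq_cnt, ncard_eq_cnt]
    exact h.he x y hxy

end Pool.Agent.Lib.MP_685082_co
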