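import Pool.Agent.Lib.MP_685082_co.Eps

/-! Necessary conditions when all coatoms have at most three atoms. -/

namespace Pool.Agent.Lib.MP_685082_co

open Finset

namespace Core
variable {C : Core}

theorem sw_bound (w : C.W) : 2 * C.sw w + 2 * C.m ≤ C.I + 4 := by
  classical
  have h1 := link_w w
  have h2 := tot_sz (C := C)
  have h3 : (∑ z, if C.zw z w then C.sz z - 2 else 0) ≤ ∑ z, (C.sz z - 2) :=
    sum_le_sum fun z _ => by split_ifs <;> simp
  omega

theorem ne_one : C.I ≠ 2 * C.m + 1 := by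
  intro h
  have h1 := tot_sw (C := C)
  rw [sum_eq_zero fun w _ => by have := sw_bound w; omega] at h1
  omega

theorem excess_ge (T : C.A → Prop) (k : ℕ) (h : ∀ a, T a → k + 2 ≤ C.FW a) :
    k * cnt T + 2 * C.n ≤ C.I := by
  classical
  have : ∑ a, ((if T a then k else 0) + 2) ≤ C.I := by
    refine sum_le_sum fun a _ => ?_
    have h1 := two_le_NA a
    have h2 := row_L a
    split_ifs with ha
    · have := h a ha; omega
    · omega
  rw [sum_add_distrib, sum_ite_const] at this
  simp at this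
  unfold n; omega

theorem par_false (h : ∀ a b, C.Φ a b % 2 = 0) : Par (C := C) fun _ => False :=
  ⟨Or.inl (by simp), fun a b => by simp [h]⟩

theorem cnt_false' {α : Type} [Fintype α] : cnt (fun _ : α => False) = 0 := cnt_zero.2 (by simp)

theorem nec0 (he : C.I = 2 * C.m) (hn : C.n % 2 = 1) :
    C.n + 6 ≤ C.m ∧ C.m + 6 ≤ C.f3 ∧ C.n + 15 ≤ C.f3 := by
  classical
  have h : ∀ w, C.sw w ≤ 3 := fun w => by have := sw_bound w; omega
  have hk := kW_tri h
  have hz := kZ_tri (sz_le_three h)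
  have hk0 : ∀ w, ¬ C.sw w ≠ 2 := cnt_zero.1 (by unfold kW at hk; omega)
  have hFW : ∀ a, C.FW a = 0 := fun a => cnt_zero.2 fun w hw => hk0 w hw.2
  have hK : ∀ a b, C.K a b = 0 := fun a b => K_zero (hFW a)
  have hp := par_false (C := C) fun a b => by rw [Φ_eq_K h, hK]
  have h1 := tot_u hp
  have h2 := tot_v (C := C)
  have h3 := tot_eps hp
  rw [cnt_false'] at h1 h3
  have := lemmaG ∅ (by simp) (fun a b => C.l a b - C.u a b) C.u C.v 4 7 (by norm_num) (by norm_num)
    (by norm_num) (by norm_num) (fun a b => by rw [l_symm, u_symm]) u_symm v_symm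
    (fun a => by rw [l_diag, u_diag]; rfl) u_nonneg v_nonneg
    (fun a => by rw [row_eps hp, hFW]; simp) (by omega)
    (fun a b _ h => pure_one (hK a b) h) (fun a b _ h => pure_neg (hK a b) (by omega))
    (by simp) (by simp)
  norm_num at this
  omega

theorem nec23 (he : C.I = 2 * C.m + 2 ∨ C.I = 2 * C.m + 3) (hn : C.n % 2 = 0) :
    C.m + 6 ≤ C.f3 ∧ (C.I = 2 * C.m + 2 → C.n + 3 ≤ C.m ∧ C.n + 12 ≤ C.f3) ∧
      (C.I = 2 * C.m + 3 → C.n + 2 ≤ C.m ∧ C.n + 9 ≤ C.f3) := by
  classical
  have h : ∀ w, C.sw w ≤ 3 := fun w => by have := sw_bound w; omega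
  have hk := kW_tri h
  have hz := kZ_tri (sz_le_three h)
  obtain ⟨T, T2, k, k2, g1, g2, g3, g4⟩ := groups h (by omega)
  have hk2 : k2 = 0 := by omega
  have hT : cnt T = 3 := by omega
  subst hk2
  have hFW : ∀ a, C.FW a = if T a then k else 0 := fun a => by simpa [FW] using g4 fun r => r a
  have hK : ∀ a b, C.K a b = if a ≠ b ∧ T a ∧ T b then k else 0 := fun a b => by
    have := g4 fun r => a ≠ b ∧ r a ∧ r b
    simp only [and_assoc, ite_self, add_zero] at this
    convert this
    rfl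
  have hK0 : ∀ a b, ¬ (a ∈ univ.filter T ∧ b ∈ univ.filter T) → C.K a b = 0 := fun a b hh => by
    rw [hK, if_neg]; simp at hh; tauto
  have hK1 : ∀ a b, a ∈ univ.filter T → b ∈ univ.filter T → C.l a b - C.u a b ≠ 0 →
      C.K a b = k := fun a b ha hb hh => by
    rw [hK, if_pos]
    simp at ha hb
    exact ⟨by rintro rfl; rw [l_diag, u_diag] at hh; simp at hh, ha, hb⟩
  have h2 := tot_v (C := C)
  have t1 : ∀ a b, C.l a b - C.u a b = 1 → 1 ≤ C.u a b + C.v a b := fun a b hh => by
    unfold l u v at *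
    have := (num a b).tt1 (by omega); omega
  rcases he with he | he
  · have hp := par_false (C := C) fun a b => by rw [Φ_eq_K h, hK]; split_ifs <;> omega
    have h1 := tot_u hp
    have h3 := tot_eps hp
    rw [cnt_false'] at h1 h3
    have := lemmaG (univ.filter T) (by rw [← cnt_eq, hT]) (fun a b => C.l a b - C.u a b) C.u C.v 2 6
      (by norm_num) (by norm_num)
      (by norm_num) (by norm_num) (fun a b => by rw [l_symm, u_symm]) u_symm v_symm
      (fun a => by rw [l_diag, u_diag]; rfl) u_nonneg v_nonneg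
      (fun a => by rw [row_eps hp, hFW]; simp; split_ifs <;> omega) (by omega)
      (fun a b hh h => pure_one (hK0 a b hh) h) (fun a b hh h => pure_neg (hK0 a b hh) (by omega))
      (fun a b ha hb hh => by
        have h5 := hK1 a b ha hb (by omega)
        have h6 := Φ_eq_K h a b
        unfold l u v at *
        have := (num a b).t2n (by omega) (by omega) (by omega); omega)
      (fun a b _ _ hh => t1 a b hh)
    norm_num at this
    omega
  · have hp : Par (C := C) T := ⟨Or.inr hT, fun a b => by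
      rw [Φ_eq_K h, hK]; split_ifs <;> omega⟩
    have h1 := tot_u hp
    have h3 := tot_eps hp
    rw [hT] at h1 h3
    have := lemmaG (univ.filter T) (by rw [← cnt_eq, hT]) (fun a b => C.l a b - C.u a b) C.u C.v 1 4
      (by norm_num) (by norm_num)
      (by norm_num) (by norm_num) (fun a b => by rw [l_symm, u_symm]) u_symm v_symm
      (fun a => by rw [l_diag, u_diag]; rfl) u_nonneg v_nonneg
      (fun a => by rw [row_eps hp, hFW]; simp; split_ifs <;> omega) (by omega)
      (fun a b hh h => pure_one (hK0 a b hh) h) (fun a b hh h => pure_neg (hK0 a b hh) (by omega))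
      (fun a b ha hb hh => by
        have h5 := hK1 a b ha hb (by omega)
        have h6 := Φ_eq_K h a b
        unfold l u v at *
        have := (num a b).t3n (by omega) (by omega) (by omega); omega)
      (fun a b _ _ hh => t1 a b hh)
    norm_num at this
    omega

/-- `lemmaH` for the plain defect function -/
theorem useH {T : C.A → Prop} (hp : Par T) [DecidablePred T]
    (h1 : ∀ a, C.FW a = 0 ∧ ¬ T a ∨
      (C.FW a + if T a then 1 else 0) % 2 = 0 ∧ 2 + (if T a then 1 else 0) ≤ C.FW a)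
    (htot : (2 * (C.n : ℤ) + 2 * C.m - C.I - 2 * C.kW + cnt T) % 4 = 2)
    (hbud : C.I ≤ 2 * C.n + cnt T + 4) :
    ∃ b c b' c', b ≠ c ∧ b' ≠ b ∧ b' ≠ c ∧ c' ≠ c ∧ c' ≠ b ∧ C.u b b' = 1 ∧ C.l b b' = 0 ∧
      C.u c c' = 1 ∧ C.l c c' = 0 ∧ C.FW b = 2 + (if T b then 1 else 0) ∧
      C.FW c = 2 + (if T c then 1 else 0) := by
  classical
  have hr : ∀ a, ∑ b, (C.l a b - C.u a b) = 2 - C.FW a + if T a then 1 else 0 := fun a => by
    convert row_eps hp a
  obtain ⟨b, c, b', c', i1, i2, i3, i4, i5, i6, i7, i8, i9, j1, j2⟩ :=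
    lemmaH (fun a => C.FW a ≠ 0) C.l C.u l_symm u_symm l_diag u_diag l_nonneg u_nonneg
    (fun a => by rw [hr]; have := h1 a; split_ifs at this ⊢ <;> simp_all <;> omega)
    (fun a ha => by rw [hr]; have := h1 a; split_ifs at this ⊢ <;> simp_all <;> omega)
    (fun a ha => by rw [hr]; have := h1 a; split_ifs at this ⊢ <;> simp_all)
    (by rw [tot_eps hp]; exact htot) (by rw [tot_u hp]; omega)
    (fun a b ha hh => by have := pure_neg (K_zero (not_not.1 ha)) hh; omega)
    (fun a b ha hh => (pure_one (K_zero (not_not.1 ha)) hh).1)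
  rw [hr] at j1 j2
  refine ⟨b, c, b', c', i1, i2, i3, i4, i5, i6, i7, i8, i9, ?_, ?_⟩
  · split_ifs at j1 ⊢ <;> omega
  · split_ifs at j2 ⊢ <;> omega

theorem three_le_cnt {α : Type} [Fintype α] {p : α → Prop} {a b c : α} (hab : a ≠ b) (hac : a ≠ c)
    (hbc : b ≠ c) (ha : p a) (hb : p b) (hc : p c) : 3 ≤ cnt p := by
  classical
  rw [cnt_eq, ← card_eq_three.2 ⟨a, b, c, hab, hac, hbc, rfl⟩]
  refine card_le_card fun x hx => ?_
  simp at hx ⊢
  rcases hx with rfl | rfl | rfl <;> assumption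

theorem nec4_tri (h : ∀ w, C.sw w ≤ 3) (he : C.I = 2 * C.m + 4) (hm : C.m = C.n)
    (hn : C.n % 2 = 1) : False := by
  classical
  have hk := kW_tri h
  obtain ⟨T, T2, k, k2, g1, g2, g3, g4⟩ := groups h (by omega)
  have hT : cnt T = 3 := by omega
  have hFW : ∀ a, C.FW a = (if T a then k else 0) + if T2 a then k2 else 0 :=
    fun a => by convert g4 fun r => r a; rfl
  have hK : ∀ a b, C.K a b = (if a ≠ b ∧ T a ∧ T b then k else 0) +
      if a ≠ b ∧ T2 a ∧ T2 b then k2 else 0 := fun a b => by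
    have := g4 fun r => a ≠ b ∧ r a ∧ r b
    simp only [and_assoc] at this
    convert this
    rfl
  rcases g3 with g3 | g3
  · have := excess_ge T 2 fun a ha => by rw [hFW, if_pos ha]; omega
    omega
  obtain ⟨rfl, rfl⟩ : k = 2 ∧ k2 = 2 := by omega
  have hp := par_false (C := C) fun a b => by rw [Φ_eq_K h, hK]; split_ifs <;> omega
  obtain ⟨b, c, b', c', i1, i2, i3, i4, i5, i6, i7, i8, i9, j1, j2⟩ := useH hp
    (fun a => by rw [hFW]; by_cases h1 : T a <;> by_cases h2 : T2 a <;> simp [h1, h2])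
    (by rw [cnt_false']; omega) (by omega)
  have k1 := three_le_K i6.ge
  rw [hK] at k1
  rw [hFW] at j1
  split_ifs at k1 j1 <;> first | omega | tauto

theorem nec5_tri (h : ∀ w, C.sw w ≤ 3) (he : C.I = 2 * C.m + 5) (hm : C.m ≤ C.n + 1)
    (hn : C.n % 2 = 1) : C.m + 6 ≤ C.f3 := by
  classical
  have hk := kW_tri h
  have hz := kZ_tri (sz_le_three h)
  have main : ∀ T T2 : C.A → Prop, cnt T = 3 →
      (∀ a, C.FW a = (if T a then 3 else 0) + if T2 a then 2 else 0) →
      (∀ a b, C.K a b = (if a ≠ b ∧ T a ∧ T b then 3 else 0) +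
        if a ≠ b ∧ T2 a ∧ T2 b then 2 else 0) → C.m + 6 ≤ C.f3 := by
    intro T T2 hT hFW hK
    have hp : Par (C := C) T := ⟨Or.inr hT, fun a b => by
      rw [Φ_eq_K h, hK]; split_ifs <;> omega⟩
    obtain ⟨b, c, b', c', i1, i2, i3, i4, i5, i6, i7, i8, i9, j1, j2⟩ := useH hp
      (fun a => by rw [hFW]; split_ifs <;> simp_all)
      (by rw [hT]; omega) (by omega)
    have key : ∀ b b', C.u b b' = 1 → C.l b b' = 0 → C.FW b = 2 + (if T b then 1 else 0) →
        3 ≤ C.v b b' := by
      intro b b' i6 i7 j1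
      have k1 := three_le_K i6.ge
      have k2 : C.K b b' = 3 := by
        rw [hK] at k1 ⊢
        rw [hFW] at j1
        split_ifs at k1 j1 ⊢ <;> first | omega | tauto
      have k3 := Φ_eq_K h b b'
      have := nine_le i6 i7 k2.le (by omega)
      omega
    have k1 := key b b' i6 i7 j1
    have k2 := key c c' i8 i9 j2
    have := two_pairs C.v v_nonneg v_symm i2.symm i4.symm (by unfold SP; tauto)
    rw [tot_v] at this
    omega
  obtain ⟨T, T2, k, k2, g1, g2, g3, g4⟩ := groups h (by omega)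
  have hT : cnt T = 3 := by omega
  have hFW : ∀ a, C.FW a = (if T a then k else 0) + if T2 a then k2 else 0 :=
    fun a => by convert g4 fun r => r a; rfl
  have hK : ∀ a b, C.K a b = (if a ≠ b ∧ T a ∧ T b then k else 0) +
      if a ≠ b ∧ T2 a ∧ T2 b then k2 else 0 := fun a b => by
    have := g4 fun r => a ≠ b ∧ r a ∧ r b
    simp only [and_assoc] at this
    convert this
    rfl
  rcases g3 with g3 | g3
  · have := excess_ge T 3 fun a ha => by rw [hFW, if_pos ha]; omega
    omega
  obtain ⟨rfl, rfl⟩ | ⟨rfl, rfl⟩ : k = 3 ∧ k2 = 2 ∨ k = 2 ∧ k2 = 3 := by omega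
  · exact main T T2 hT hFW hK
  · exact main T2 T g3.2.2.1 (fun a => by rw [hFW, add_comm]) (fun a b => by rw [hK, add_comm])

end Core

end Pool.Agent.Lib.MP_685082_co
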