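import Pool.Agent.Lib.MP_685082_co.Nec1

/-! Necessary conditions when some coatom has four atoms: tools. -/

namespace Pool.Agent.Lib.MP_685082_co

open Finset

theorem cnt_one {α : Type} [Fintype α] {p : α → Prop} (h : cnt p = 1) : ∃ d, ∀ x, p x ↔ x = d := by
  classical
  rw [cnt_eq, card_eq_one] at h
  obtain ⟨d, hd⟩ := h
  exact ⟨d, fun x => by have := congrArg (x ∈ ·) hd; simpa using this⟩

theorem extra {α : Type} [Fintype α] {T U : α → Prop} (h : ∀ x, T x → U x)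
    (hc : cnt U = cnt T + 1) : ∃ d, ¬ T d ∧ ∀ x, U x ↔ T x ∨ x = d := by
  rw [cnt_split U T, cnt_congr (p := fun x => U x ∧ T x) (q := T) (by tauto)] at hc
  obtain ⟨d, hd⟩ := cnt_one (p := fun x => U x ∧ ¬ T x) (by omega)
  refine ⟨d, ((hd d).2 rfl).2, fun x => ⟨fun hx => ?_, ?_⟩⟩
  · by_cases ht : T x
    · exact Or.inl ht
    · exact Or.inr ((hd x).1 ⟨hx, ht⟩)
  · rintro (hx | rfl)
    · exact h x hx
    · exact ((hd x).2 rfl).1

open Classical in
/-- indicator of an unordered pair -/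
noncomputable def ind {A : Type} (a b x y : A) : ℤ := if SP x y a b then 1 else 0

section
variable {A : Type}

theorem ind_symm (a b x y : A) : ind a b x y = ind a b y x := by
  have : SP x y a b = SP y x a b := by unfold SP; exact propext (by tauto)
  unfold ind; rw [this]

theorem ind_diag {a b : A} (h : a ≠ b) (x : A) : ind a b x x = 0 := by
  unfold ind SP; rw [if_neg]; rintro (⟨rfl, rfl⟩ | ⟨rfl, rfl⟩) <;> exact h rfl

theorem ind_cases (a b x y : A) :
    (ind a b x y = 1 ∧ SP x y a b) ∨ (ind a b x y = 0 ∧ ¬ SP x y a b) := by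
  unfold ind; split_ifs with h <;> simp [h]

theorem ind_row [Fintype A] [DecidableEq A] {a b : A} (h : a ≠ b) (x : A) :
    ∑ y, ind a b x y = (if x = a then 1 else 0) + if x = b then 1 else 0 := by
  unfold ind SP
  by_cases h1 : x = a
  · subst h1; simp [h]
  · by_cases h2 : x = b
    · subst h2; simp [h1]
    · simp [h1, h2]

theorem ind_tot [Fintype A] {a b : A} (h : a ≠ b) : ∑ x, ∑ y, ind a b x y = 2 := by
  classical
  simp [ind_row h, sum_add_distrib]

end

namespace Core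
variable {C : Core}

theorem useH' {T : C.A → Prop} (hp : Par T) [DecidablePred T] (δ : C.A → C.A → ℤ)
    (hs : ∀ a b, δ a b = δ b a) (hd : ∀ a, δ a a = 0) (h0 : ∀ a b, 0 ≤ C.l a b + δ a b)
    (hz : ∀ a b, C.FW a = 0 → δ a b = 0)
    (h1 : ∀ a, C.FW a = 0 ∧ ¬ T a ∨
      C.FW a ≠ 0 ∧ 2 - (C.FW a : ℤ) + (if T a then 1 else 0) + ∑ b, δ a b = 0)
    (htot : (2 * (C.n : ℤ) + 2 * C.m - C.I - 2 * C.kW + cnt T + ∑ a, ∑ b, δ a b) % 4 = 2)
    (hbud : C.I ≤ 2 * C.n + cnt T + 4) :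
    ∃ b c b' c', b ≠ c ∧ b' ≠ b ∧ b' ≠ c ∧ c' ≠ c ∧ c' ≠ b ∧ C.u b b' = 1 ∧
      C.l b b' + δ b b' = 0 ∧ C.u c c' = 1 ∧ C.l c c' + δ c c' = 0 := by
  classical
  have hr0 : ∀ a, ∑ b, (C.l a b + δ a b - C.u a b) = ∑ b, (C.l a b - C.u a b) + ∑ b, δ a b := by
    intro a; rw [← sum_add_distrib]; exact sum_congr rfl fun b _ => by ring
  have hr : ∀ a, ∑ b, (C.l a b + δ a b - C.u a b) = if C.FW a = 0 then 2 else 0 := fun a => by
    have h2 : ∑ b, (C.l a b - C.u a b) = 2 - C.FW a + if T a then 1 else 0 := by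
      convert row_eps hp a
    rw [hr0, h2]
    rcases h1 a with h3 | h3
    · rw [sum_eq_zero fun b _ => hz a b h3.1]; simp [h3.1, h3.2]
    · rw [if_neg h3.1]; exact h3.2
  obtain ⟨b, c, b', c', i1, i2, i3, i4, i5, i6, i7, i8, i9, -⟩ :=
    lemmaH (fun a => C.FW a ≠ 0) (fun a b => C.l a b + δ a b) C.u
    (fun a b => by rw [l_symm, hs]) u_symm (fun a => by rw [l_diag, hd]; rfl) u_diag h0 u_nonneg
    (fun a => by rw [hr]; split_ifs <;> rfl)
    (fun a ha => by rw [hr, if_neg ha])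
    (fun a ha => by rw [hr, if_pos (not_not.1 ha)])
    (by simp only [hr0]; rw [sum_add_distrib, tot_eps hp]; exact htot)
    (by rw [tot_u hp]; omega)
    (fun a b ha hh => by
      rw [hz a b (not_not.1 ha), add_zero] at hh
      have := pure_neg (K_zero (not_not.1 ha)) hh; omega)
    (fun a b ha hh => by
      rw [hz a b (not_not.1 ha), add_zero] at hh
      exact (pure_one (K_zero (not_not.1 ha)) hh).1)
  exact ⟨b, c, b', c', i1, i2, i3, i4, i5, i6, i7, i8, i9⟩

theorem K_le (a b : C.A) : C.K a b ≤ C.FW a := cnt_mono fun _ hw => ⟨hw.2.1, hw.2.2.2⟩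

theorem pendant {T : C.A → Prop} (hp : Par T) (hbud : C.I ≤ 2 * C.n + cnt T + 4)
    {d : C.A} {w : C.W} (h1 : C.aw d w) (h2 : C.sw w ≠ 2) (h3 : C.FW d = 1) (h4 : ¬ T d) :
    ∃ x, x ≠ d ∧ C.aw x w ∧ C.l d x - C.u d x = 1 := by
  classical
  have hb : ∑ a, ∑ b, C.u a b ≤ 4 := by rw [tot_u hp]; omega
  have hr := row_eps hp d
  rw [h3, if_neg h4] at hr
  have nn : ∀ x, 0 ≤ C.l d x - C.u d x := fun x => by
    by_contra hh
    have h5 := semi_neg (h3 ▸ K_le d x) (by omega)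
    have hne : d ≠ x := by rintro rfl; rw [l_diag, u_diag] at hh; simp at hh
    have := one_pair C.u u_nonneg u_symm hne
    omega
  obtain ⟨x, hx1, hx2⟩ := exists_pos (fun x => C.l d x - C.u d x) d
    (by rw [l_diag, u_diag]; omega)
  have hx3 := row_two (fun x => C.l d x - C.u d x) hx1 fun x _ _ => nn x
  rw [l_diag, u_diag] at hx3
  refine ⟨x, hx1, ?_, by omega⟩
  by_contra hxw
  have hK : C.K d x = 0 := by
    obtain ⟨w0, hw0⟩ := cnt_one h3
    refine cnt_zero.2 fun w' hw' => hxw ?_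
    rw [(hw0 w).1 ⟨h1, h2⟩, ← (hw0 w').1 ⟨hw'.2.1, hw'.2.2.2⟩]
    exact hw'.2.2.1
  have h6 := (pure_one hK (by omega)).1
  obtain ⟨y, hy1, hy2⟩ := (C.aw_iff d w).1 h1
  obtain ⟨x0, hx0, hx0'⟩ := exists_ne_of_two_le (C.hy y).ge d
  have hxx : x ≠ x0 := by rintro rfl; exact hxw (aw_of hx0' hy2)
  have h7 : 0 < C.P d x0 := cnt_pos.2 ⟨y, hx0.symm, hy1, hx0', trivial⟩
  have h8 := (num d x0).lin.1
  have h9 := K_le d x0
  have h10 := two_pairs C.u u_nonneg u_symm hx1.symm hx0.symm (by unfold SP; tauto)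
  have h11 := row_two (fun x => C.l d x - C.u d x) hxx fun x _ _ => nn x
  have h12 := u_nonneg d x0
  unfold l at *
  omega

/-- the parity structure coming from a coatom with four atoms -/
theorem four_par {w1 : C.W} (h1 : C.sw w1 = 4) (he : C.I ≤ 2 * C.m + 5) :
    ∃ T : C.A → Prop, Par T ∧ cnt T + 3 * (2 * C.m + 4) = 3 * C.I ∧
      cnt (fun z => ¬ C.zw z w1 ∧ C.sz z ≠ 2) + (2 * C.m + 4) = C.I ∧
      ∀ z, ¬ C.zw z w1 ∧ C.sz z ≠ 2 → C.sz z = 3 ∧ ∀ a, T a ↔ C.az a z := by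
  classical
  have k1 := link_w w1
  have k2 := tot_sz (C := C)
  have k3 : ∑ z, (C.sz z - 2) = (∑ z, if C.zw z w1 then C.sz z - 2 else 0)
      + ∑ z, if C.zw z w1 then 0 else C.sz z - 2 := by
    rw [← sum_add_distrib]; exact sum_congr rfl fun z _ => by split_ifs <;> simp
  have k4 : ∀ z, ¬ C.zw z w1 → C.sz z ≤ 3 := fun z hz => by
    have := single_le_sum (f := fun z => if C.zw z w1 then 0 else C.sz z - 2)
      (fun _ _ => Nat.zero_le _) (mem_univ z)
    simp only [hz, if_false] at this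
    omega
  have k5 : (∑ z, if C.zw z w1 then 0 else C.sz z - 2)
      = cnt (fun z => ¬ C.zw z w1 ∧ C.sz z ≠ 2) := by
    rw [cnt_sum]
    refine sum_congr rfl fun z _ => ?_
    have := two_le_sz z
    by_cases hz : C.zw z w1
    · simp [hz]
    · have := k4 z hz
      simp only [hz, if_false, not_false_eq_true, true_and]
      split_ifs <;> omega
  have k6 : ∀ a b, C.Φ a b % 2
      = cnt (fun z => (¬ C.zw z w1 ∧ C.sz z ≠ 2) ∧ a ≠ b ∧ C.az a z ∧ C.az b z) % 2 := by
    intro a b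
    have h2 := cut_par a b w1
    have h3 : C.Φ a b = (∑ z, if C.zw z w1 then (if C.sz z = 2 then 0 else C.φ a b z) else 0)
        + cnt (fun z => (¬ C.zw z w1 ∧ C.sz z ≠ 2) ∧ a ≠ b ∧ C.az a z ∧ C.az b z) := by
      rw [Φ, cnt_sum, ← sum_add_distrib]
      refine sum_congr rfl fun z _ => ?_
      by_cases hz : C.zw z w1
      · simp [hz]
      · by_cases hs : C.sz z = 2
        · simp [hs]
        · have := k4 z hz
          have := two_le_sz z
          rw [if_neg hs, if_neg hz, φ_tri (by omega)]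
          simp only [hz, hs, ne_eq, not_false_eq_true, true_and, zero_add]
    omega
  rcases Nat.eq_zero_or_pos (cnt (fun z => ¬ C.zw z w1 ∧ C.sz z ≠ 2)) with h0 | h0
  · have h0' := cnt_zero.1 h0
    refine ⟨fun _ => False, par_false fun a b => ?_, ?_, by omega, fun z hz => absurd hz (h0' z)⟩
    · rw [k6, cnt_zero.2 fun z hz => h0' z hz.1]
    · rw [cnt_false']; omega
  · obtain ⟨z0, hz0⟩ := cnt_one (p := fun z => ¬ C.zw z w1 ∧ C.sz z ≠ 2) (by omega)
    have h3 : C.sz z0 = 3 := by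
      have := (hz0 z0).2 rfl
      have := k4 z0 this.1
      have := two_le_sz z0
      omega
    refine ⟨fun a => C.az a z0, ⟨Or.inr h3, fun a b => ?_⟩, ?_, by omega, fun z hz => ?_⟩
    · rw [k6]
      split_ifs with hh
      · rw [cnt_single z0]
        intro z; rw [hz0]
        exact ⟨fun h => h.1, by rintro rfl; exact ⟨rfl, hh⟩⟩
      · rw [cnt_zero.2]
        intro z hz
        rw [hz0] at hz
        exact hh (hz.1 ▸ hz.2)
    · unfold sz at h3; omega
    · rw [(hz0 z).1 hz]; exact ⟨h3, fun _ => Iff.rfl⟩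

theorem count_fat (h : ∀ w, C.sw w ≤ 4) :
    C.kW + cnt (fun w => C.sw w = 4) + 2 * C.m = C.I := by
  classical
  rw [← tot_sw, kW, cnt_sum, cnt_sum, ← sum_add_distrib]
  congr 1
  refine sum_congr rfl fun z _ => ?_
  have := two_le_sw z
  have := h z
  split_ifs <;> omega

/-- a coatom with three atoms has a fat rank three element below `w1` -/
theorem sub_of_three {w1 w : C.W} (hc : cnt (fun z => ¬ C.zw z w1 ∧ C.sz z ≠ 2) ≤ 1)
    (h : C.sw w = 3) (a : C.A) (ha : C.aw a w) : C.aw a w1 := by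
  have h2 := fat_two h
  by_contra hn
  have : cnt (fun z => C.zw z w ∧ C.sz z ≠ 2) ≤ cnt (fun z => ¬ C.zw z w1 ∧ C.sz z ≠ 2) :=
    cnt_mono fun z hz => ⟨fun h1 => hn (aw_of' (az_of_sw_le hz.1
      (by have := two_le_sz z; omega) ha) h1), hz.2⟩
  omega

theorem two_Φ {p q c : C.A} (h : p ≠ q) : C.Φ p c + C.Φ q c ≤ 2 * C.FZ c := by
  classical
  rw [← row_Φ, Φ_symm p, Φ_symm q, ← sum_pair h]
  exact sum_le_sum_of_subset (subset_univ _)

open Classical in
theorem cnt_const {α β : Type} [Fintype α] {G : α → Prop} {f : α → β} {b : β}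
    (h : ∀ x, G x → f x = b) (q : β → Prop) :
    cnt (fun x => q (f x) ∧ G x) = if q b then cnt G else 0 := by
  split_ifs with hq
  · exact cnt_congr fun x => ⟨fun hx => hx.2, fun hx => ⟨by rw [h x hx]; exact hq, hx⟩⟩
  · exact cnt_zero.2 fun x hx => hq (h x hx.2 ▸ hx.1)

open Classical in
/-- counting fat coatoms given a three part decomposition -/
theorem count_three {w1 w3 : C.W} {G : C.W → Prop} {T : C.A → Prop}
    (hG : ∀ w, G w → (fun a => C.aw a w) = T) (h13 : w1 ≠ w3) (h1 : ¬ G w1) (h3 : ¬ G w3)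
    (hf : ∀ w, C.sw w ≠ 2 ↔ (w = w1 ∨ w = w3) ∨ G w) (q : (C.A → Prop) → Prop) :
    cnt (fun w => q (fun a => C.aw a w) ∧ C.sw w ≠ 2)
      = (if q (fun a => C.aw a w1) then 1 else 0) + (if q (fun a => C.aw a w3) then 1 else 0)
        + if q T then cnt G else 0 := by
  rw [cnt_congr (q := fun w => ((q (fun a => C.aw a w) ∧ w = w1) ∨ (q (fun a => C.aw a w) ∧ w = w3))
    ∨ (q (fun a => C.aw a w) ∧ G w)) (fun w => by rw [hf]; tauto), cnt_or, cnt_or,
    cnt_const (f := fun w a => C.aw a w) hG,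
    cnt_const (f := fun w a => C.aw a w) (G := fun w => w = w1) (fun w hw => by rw [hw]),
    cnt_const (f := fun w a => C.aw a w) (G := fun w => w = w3) (fun w hw => by rw [hw]),
    cnt_single (p := fun w => w = w1) w1 (fun _ => Iff.rfl),
    cnt_single (p := fun w => w = w3) w3 (fun _ => Iff.rfl)]
  · rintro w ⟨-, rfl⟩ ⟨-, h⟩; exact h13 h
  · rintro w (⟨-, rfl⟩ | ⟨-, rfl⟩) h
    · exact h1 h.2
    · exact h3 h.2

end Core

end Pool.Agent.Lib.MP_685082_co
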