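import Pool.Agent.Lib.MP_685082_co.Nec2

/-! Necessary conditions when some coatom has four atoms. -/

namespace Pool.Agent.Lib.MP_685082_co

open Finset

namespace Core
variable {C : Core}

theorem name_three {T : C.A → Prop} (hT : cnt T = 3) {c : C.A} (hc : T c) :
    ∃ a b, a ≠ b ∧ c ≠ a ∧ c ≠ b ∧ ∀ x, T x ↔ x = c ∨ x = a ∨ x = b := by
  obtain ⟨a, b, hab, h⟩ := cnt_two (cnt_erase hT hc)
  refine ⟨a, b, hab, ((h a).2 (Or.inl rfl)).1, ((h b).2 (Or.inr rfl)).1, fun x => ?_⟩
  rw [← h]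
  by_cases hx : x = c
  · simp [hx, hc]
  · simp [hx, Ne.symm hx]

theorem case_one {w1 : C.W} (h1 : C.sw w1 = 4) (ho : ∀ w, w ≠ w1 → C.sw w ≤ 3)
    (he : C.I = 2 * C.m + 4 ∧ C.m = C.n ∨ C.I = 2 * C.m + 5 ∧ C.m ≤ C.n + 1)
    (hn : C.n % 2 = 1) {T0 T : C.A → Prop} {G : C.W → Prop} (hp : Par T0)
    (hc0 : cnt T0 + 3 * (2 * C.m + 4) = 3 * C.I)
    (hcz : cnt (fun z => ¬ C.zw z w1 ∧ C.sz z ≠ 2) ≤ 1)
    (hT3 : cnt T = 3) (hG : ∀ w, G w → (fun a => C.aw a w) = T) (hGc : cnt G + 2 * C.m + 3 = C.I)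
    (hG1 : ¬ G w1) (hT0 : ∀ a, T0 a ↔ T a ∧ C.I = 2 * C.m + 5) :
    3 * C.m + 11 ≤ C.f3 + C.I := by
  classical
  have h4 : ∀ w, C.sw w ≤ 4 := fun w => by
    by_cases h : w = w1
    · rw [h, h1]
    · have := ho w h; omega
  have hk := count_fat h4
  rw [cnt_single w1 (fun w => ⟨fun h => by by_contra hh; have := ho w hh; omega,
    by rintro rfl; exact h1⟩)] at hk
  have hGf : ∀ w, G w → C.sw w = 3 := fun w hw => by rw [sw, hG w hw, hT3]
  have hsz : ∀ z, C.sz z ≤ 3 := fun z => by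
    obtain ⟨w, h2, h3⟩ := exists_ne_of_two_le (C.hz z).ge w1
    exact (sz_le_sw h3).trans (ho w h2)
  have hkz := kZ_tri hsz
  obtain ⟨w3, hw3⟩ : ∃ w3, ∀ w, C.sw w ≠ 2 ∧ ¬ (w = w1 ∨ G w) ↔ w = w3 := by
    apply cnt_one
    have h2 := cnt_split (fun w => C.sw w ≠ 2) (fun w => w = w1 ∨ G w)
    rw [cnt_congr (p := fun w => C.sw w ≠ 2 ∧ (w = w1 ∨ G w)) (q := fun w => w = w1 ∨ G w),
      cnt_or (by rintro w rfl h; exact hG1 h),
      cnt_single (p := fun w => w = w1) w1 (fun _ => Iff.rfl)] at h2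
    · unfold kW at hk; omega
    · refine fun w => ⟨fun h => h.2, fun h => ⟨?_, h⟩⟩
      rcases h with rfl | h
      · omega
      · have := hGf w h; omega
  have h3 := (hw3 w3).2 rfl
  have h33 : C.sw w3 = 3 := by
    have := ho w3 (by tauto); have := two_le_sw w3; omega
  have hq := count_three (w1 := w1) (w3 := w3) hG (by tauto) hG1 (by tauto) fun w => by
    rw [← hw3]
    by_cases h5 : w = w1
    · simp [h5, h1]
    · by_cases h6 : G w
      · simp [h6, hGf w h6]
      · simp [h5, h6]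
  have hFW : ∀ a, C.FW a = (if C.aw a w1 then 1 else 0) + (if C.aw a w3 then 1 else 0)
      + if T a then cnt G else 0 := fun a => by convert hq fun r => r a; rfl
  have hK : ∀ a b, C.K a b = (if a ≠ b ∧ C.aw a w1 ∧ C.aw b w1 then 1 else 0)
      + (if a ≠ b ∧ C.aw a w3 ∧ C.aw b w3 then 1 else 0)
      + if a ≠ b ∧ T a ∧ T b then cnt G else 0 := fun a b => by
    have := hq fun r => a ≠ b ∧ r a ∧ r b
    simp only [and_assoc] at this
    convert this
    rfl
  have hTU : ∀ a, T a → C.aw a w1 := fun a ha => by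
    obtain ⟨w2, hw2⟩ := cnt_pos.1 (by omega : 0 < cnt G)
    exact sub_of_three hcz (hGf w2 hw2) a (by rw [← hG w2 hw2] at ha; exact ha)
  obtain ⟨d, hd1, hd2⟩ := extra hTU (by rw [hT3]; exact h1)
  obtain ⟨c, hc1, hc2⟩ := extra (sub_of_three hcz h33) (by unfold sw at h1 h33; omega)
  have hbud : C.I ≤ 2 * C.n + cnt T0 + 4 := by omega
  have hdU : C.aw d w1 := (hd2 d).2 (Or.inr rfl)
  have hout : ∀ a, ¬ C.aw a w1 → C.FW a = 0 ∧ ¬ T0 a := fun a ha => by
    have h5 : ¬ T a := fun h => ha (hTU a h)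
    have h6 : ¬ C.aw a w3 := fun h => ha ((hc2 a).2 (Or.inl h))
    rw [hFW, hT0]; simp [ha, h5, h6]
  have hin : ∀ a, C.FW a = 0 → ¬ C.aw a w1 := fun a ha h => by
    rw [hFW, if_pos h] at ha; omega
  by_cases hcd : c = d
  · exfalso
    subst hcd
    have hT3' : ∀ a, C.aw a w3 ↔ T a := fun a => by
      have := hd2 a; have := hc2 a
      by_cases h : a = c
      · rw [h]; tauto
      · tauto
    have hFd : C.FW c = 1 := by rw [hFW]; simp [hdU, hc1, hd1]
    obtain ⟨x, hx1, hx2, hx3⟩ := pendant hp hbud hdU (by omega) hFd (by rw [hT0]; tauto)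
    have hxT : T x := by have := (hd2 x).1 hx2; tauto
    obtain ⟨a, b, hab, hxa, hxb, hT⟩ := name_three hT3 hxT
    have hca : c ≠ a := by rintro rfl; exact hd1 ((hT c).2 (by simp))
    have hcb : c ≠ b := by rintro rfl; exact hd1 ((hT c).2 (by simp))
    have haT : T a := (hT a).2 (by simp)
    have hbT : T b := (hT b).2 (by simp)
    have hux := u_nonneg c x
    have hl : ∀ p q, SP p q x c → C.l p q = C.l c x ∧ C.K p q ≤ 1 := by
      rintro p q (⟨rfl, rfl⟩ | ⟨rfl, rfl⟩)
      · exact ⟨l_symm _ _, by rw [K_symm, ← hFd]; exact K_le _ _⟩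
      · exact ⟨rfl, hFd ▸ K_le _ _⟩
    obtain ⟨p, q, p', q', i1, i2, i3, i4, i5, i6, i7, i8, i9⟩ := useH' hp
      (fun p q => ind x a p q + ind x b p q - ind x c p q)
      (fun p q => by rw [ind_symm x a, ind_symm x b, ind_symm x c])
      (fun p => by rw [ind_diag hxa, ind_diag hxb, ind_diag hx1]; rfl)
      (fun p q => by
        have := l_nonneg p q
        rcases ind_cases x a p q with h5 | h5 <;> rcases ind_cases x b p q with h6 | h6 <;>
          rcases ind_cases x c p q with h7 | h7 <;>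
          first | omega | (have := hl p q h7.2; omega))
      (fun p q hh => by
        have h8 := hin p hh
        have h9 : ∀ r, C.aw r w1 → ind x r p q = 0 := fun r hr => by
          rcases ind_cases x r p q with h5 | h5
          · rcases h5.2 with ⟨rfl, -⟩ | ⟨rfl, -⟩ <;> contradiction
          · exact h5.1
        rw [h9 a (hTU a haT), h9 b (hTU b hbT), h9 c hdU]; rfl)
      (fun p => by
        by_cases h5 : C.aw p w1
        · right
          rw [sum_sub_distrib, sum_add_distrib, ind_row hxa, ind_row hxb, ind_row hx1, hFW, hT0,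
            hT3']
          rcases (hd2 p).1 h5 with h6 | rfl
          · rcases (hT p).1 h6 with rfl | rfl | rfl <;>
              simp [*, Ne.symm hxa, Ne.symm hxb, Ne.symm hab, Ne.symm hca, Ne.symm hcb] <;>
              split_ifs <;> omega
          · simp [*, Ne.symm hx1]
        · exact Or.inl (hout p h5))
      (by
        simp only [sum_sub_distrib, sum_add_distrib, ind_tot hxa, ind_tot hxb, ind_tot hx1]
        omega) hbud
    have key : ∀ p p', C.u p p' = 1 →
        C.l p p' + (ind x a p p' + ind x b p p' - ind x c p p') = 0 → SP p p' a b := by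
      intro p p' j1 j2
      have k1 := three_le_K j1.ge
      have k2 := l_nonneg p p'
      rcases ind_cases x c p p' with h7 | h7
      · have := hl p p' h7.2
        rcases ind_cases x a p p' with h5 | h5 <;> rcases ind_cases x b p p' with h6 | h6 <;> omega
      · rcases ind_cases x a p p' with h5 | h5 <;> rcases ind_cases x b p p' with h6 | h6 <;>
          try omega
        have k3 : p ≠ p' ∧ T p ∧ T p' := by
          by_contra hh
          rw [hK, if_neg hh] at k1
          split_ifs at k1 <;> omega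
        unfold SP at *
        have := (hT p).1 k3.2.1
        have := (hT p').1 k3.2.2
        grind
    have k1 := key p p' i6 i7
    have k2 := key q q' i8 i9
    unfold SP at k1 k2
    grind
  · have hcT : T c := by have := (hd2 c).1 ((hc2 c).2 (Or.inr rfl)); tauto
    obtain ⟨a, b, hab, hca, hcb, hT⟩ := name_three hT3 hcT
    have haT : T a := (hT a).2 (by simp)
    have hbT : T b := (hT b).2 (by simp)
    have hda : d ≠ a := by rintro rfl; exact hd1 haT
    have hdb : d ≠ b := by rintro rfl; exact hd1 hbT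
    have ha3 : C.aw a w3 := by have := (hc2 a).1 (hTU a haT); tauto
    have hb3 : C.aw b w3 := by have := (hc2 b).1 (hTU b hbT); tauto
    have hd3 : C.aw d w3 := by have := (hc2 d).1 hdU; tauto
    obtain ⟨p, q, p', q', i1, i2, i3, i4, i5, i6, i7, i8, i9⟩ := useH' hp (ind a b)
      (ind_symm a b) (ind_diag hab)
      (fun p q => by have := l_nonneg p q; rcases ind_cases a b p q with h5 | h5 <;> omega)
      (fun p q hh => by
        have h8 := hin p hh
        rcases ind_cases a b p q with h5 | h5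
        · rcases h5.2 with ⟨rfl, -⟩ | ⟨rfl, -⟩
          · exact absurd (hTU _ haT) h8
          · exact absurd (hTU _ hbT) h8
        · exact h5.1)
      (fun p => by
        by_cases h5 : C.aw p w1
        · right
          rw [ind_row hab, hFW, hT0]
          rcases (hd2 p).1 h5 with h6 | rfl
          · rcases (hT p).1 h6 with rfl | rfl | rfl <;>
              simp [*, Ne.symm hab] <;>
              split_ifs <;> omega
          · simp [*, Ne.symm hcd]
        · exact Or.inl (hout p h5))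
      (by rw [ind_tot hab]; omega) hbud
    have key : ∀ p p', C.u p p' = 1 → C.l p p' + ind a b p p' = 0 →
        (p = c ∨ p' = c) ∧ C.I = 2 * C.m + 5 ∧ 9 ≤ 2 * C.v p p' + C.Φ p p' := by
      intro p p' j1 j2
      have k1 := three_le_K j1.ge
      have k2 := l_nonneg p p'
      rcases ind_cases a b p p' with h5 | h5
      · omega
      have k3 : p ≠ p' ∧ T p ∧ T p' := by
        by_contra hh
        rw [hK, if_neg hh] at k1
        split_ifs at k1 <;> omega
      have k4 : p = c ∨ p' = c := by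
        unfold SP at h5
        have := (hT p).1 k3.2.1
        have := (hT p').1 k3.2.2
        grind
      have k5 : ¬ (p ≠ p' ∧ C.aw p w3 ∧ C.aw p' w3) := by
        rcases k4 with rfl | rfl <;> tauto
      have k6 := hK p p'
      rw [if_neg k5, if_pos k3] at k6
      have k7 : C.I = 2 * C.m + 5 := by split_ifs at k6 <;> omega
      refine ⟨k4, k7, nine_le j1 (by omega) (by split_ifs at k6 <;> omega) ?_⟩
      rw [hp.2, if_pos]
      rw [hT0, hT0]; tauto
    obtain ⟨k1, k2, k3⟩ := key p p' i6 i7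
    obtain ⟨k4, -, k5⟩ := key q q' i8 i9
    obtain ⟨rfl, rfl⟩ : c = p' ∧ c = q' := by grind
    have k6 := two_Φ (c := c) i1
    have k7 : C.FZ c + 1 ≤ C.kZ := by
      obtain ⟨z, hz1, hz2⟩ := cnt_pos.1 (by rw [fat_two h33]; norm_num :
        0 < cnt (fun z => C.zw z w3 ∧ C.sz z ≠ 2))
      rw [kZ, cnt_split _ (fun z => C.az c z)]
      have h5 : 0 < cnt fun z => C.sz z ≠ 2 ∧ ¬ C.az c z :=
        cnt_pos.2 ⟨z, hz2, fun h => hc1 (aw_of' h hz1)⟩
      have h6 : C.FZ c = cnt fun z => C.sz z ≠ 2 ∧ C.az c z := cnt_congr fun _ => and_comm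
      omega
    have := two_pairs C.v v_nonneg v_symm i2.symm i4.symm (by unfold SP; tauto)
    rw [tot_v] at this
    omega

theorem case_two {w1 w2 : C.W} (h1 : C.sw w1 = 4) (h2 : C.sw w2 = 4) (h12 : w1 ≠ w2)
    (he : C.I = 2 * C.m + 4 ∧ C.m = C.n ∨ C.I = 2 * C.m + 5 ∧ C.m ≤ C.n + 1)
    (hn : C.n % 2 = 1) {T0 : C.A → Prop} {G : C.W → Prop} (hp : Par T0)
    (hc0 : cnt T0 + 3 * (2 * C.m + 4) = 3 * C.I)
    (hG : ∀ w, G w → (fun a => C.aw a w) = T0) (hGc : cnt G + 2 * C.m + 4 = C.I)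
    (hG1 : ¬ G w1) (hG2 : ¬ G w2) (hf : ∀ w, C.sw w ≠ 2 ↔ (w = w1 ∨ w = w2) ∨ G w)
    (hT1 : ∀ a, T0 a → C.aw a w1) (hT2 : ∀ a, T0 a → C.aw a w2) :
    3 * C.m + 11 ≤ C.f3 + C.I := by
  classical
  have hq := count_three hG h12 hG1 hG2 hf
  have hk : C.kW = 2 + cnt G := by simpa [kW] using hq fun _ => True
  have hFW : ∀ a, C.FW a = (if C.aw a w1 then 1 else 0) + (if C.aw a w2 then 1 else 0)
      + if T0 a then cnt G else 0 := fun a => by convert hq fun r => r a; rfl
  have hK : ∀ a b, C.K a b = (if a ≠ b ∧ C.aw a w1 ∧ C.aw b w1 then 1 else 0)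
      + (if a ≠ b ∧ C.aw a w2 ∧ C.aw b w2 then 1 else 0)
      + if a ≠ b ∧ T0 a ∧ T0 b then cnt G else 0 := fun a b => by
    have := hq fun r => a ≠ b ∧ r a ∧ r b
    simp only [and_assoc] at this
    convert this
    rfl
  have hbud : C.I ≤ 2 * C.n + cnt T0 + 4 := by omega
  have hT5 : ∀ a, T0 a → cnt G = 1 := fun a ha => by
    have := cnt_pos.2 ⟨a, ha⟩; omega
  by_cases hU : ∀ a, C.aw a w1 ↔ C.aw a w2
  · obtain ⟨p, q, p', q', i1, i2, i3, i4, i5, i6, i7, i8, i9, -⟩ := useH hp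
      (fun a => by
        rw [hFW, ← hU]
        by_cases h5 : T0 a
        · simp [h5, hT1 a h5, hT5 a h5]
        · by_cases h6 : C.aw a w1 <;> simp [h5, h6])
      (by omega) hbud
    have key : ∀ p p', C.u p p' = 1 → C.l p p' = 0 →
        T0 p ∧ T0 p' ∧ 9 ≤ 2 * C.v p p' + C.Φ p p' := by
      intro p p' j1 j2
      have k1 := three_le_K j1.ge
      have k3 : p ≠ p' ∧ T0 p ∧ T0 p' := by
        by_contra hh
        rw [hK, if_neg hh] at k1
        split_ifs at k1 <;> omega
      refine ⟨k3.2.1, k3.2.2, nine_le j1 j2 ?_ ?_⟩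
      · rw [hK, hT5 p k3.2.1]; split_ifs <;> omega
      · rw [hp.2, if_pos k3]
    obtain ⟨k1, k2, k3⟩ := key p p' i6 i7
    obtain ⟨k4, k5, k6⟩ := key q q' i8 i9
    have k7 := hT5 p k1
    obtain ⟨a, b, hab, h5, h6, hT⟩ := name_three (T := T0) (by omega) k1
    have : q' = p' := by
      have := (hT q).1 k4; have := (hT p').1 k2; have := (hT q').1 k5
      grind
    subst this
    have k8 := two_Φ (c := q') i1
    have k9 : C.FZ q' ≤ C.kZ := cnt_mono fun z hz => hz.2
    have := two_pairs C.v v_nonneg v_symm i2.symm i4.symm (by unfold SP; tauto)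
    rw [tot_v] at this
    omega
  have hsub : ∀ z, C.sz z ≠ 2 → ∀ a, C.az a z → C.aw a w1 ∧ C.aw a w2 := by
    intro z hz a ha
    have fat : ∀ w, C.zw z w → (w = w1 ∨ w = w2) ∨ G w := fun w hw => by
      rw [← hf]; have := sz_le_sw hw; have := two_le_sz z; omega
    by_cases hg : ∃ w, C.zw z w ∧ G w
    · obtain ⟨w, h5, h6⟩ := hg
      have : T0 a := by rw [← hG w h6]; exact aw_of' ha h5
      exact ⟨hT1 a this, hT2 a this⟩
    · push Not at hg
      have := eq_of_cnt_le (p := fun w => C.zw z w) (q := fun w => w = w1 ∨ w = w2)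
        (fun w hw => (fat w hw).resolve_right (hg w hw))
        (by rw [C.hz, cnt_pair h12 fun _ => Iff.rfl])
      exact ⟨aw_of' ha (this w1 (by simp)), aw_of' ha (this w2 (by simp))⟩
  have hle : cnt (fun a => C.aw a w1 ∧ C.aw a w2) ≤ 3 := by
    by_contra hh
    apply hU
    intro a
    unfold sw at h1 h2
    exact ⟨fun h => (eq_of_cnt_le (p := fun a => C.aw a w1 ∧ C.aw a w2) (q := fun a => C.aw a w1)
        (fun _ h => h.1) (by omega) a h).2,
      fun h => (eq_of_cnt_le (p := fun a => C.aw a w1 ∧ C.aw a w2) (q := fun a => C.aw a w2)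
        (fun _ h => h.2) (by omega) a h).1⟩
  have hsz : ∀ z, C.sz z ≤ 3 := fun z => by
    by_cases h : C.sz z = 2
    · omega
    · exact (cnt_mono (hsub z h)).trans hle
  have hkz := kZ_tri hsz
  have hT3 : cnt (fun a => C.aw a w1 ∧ C.aw a w2) = 3 := by
    obtain ⟨z, hz⟩ := cnt_pos.1 (by unfold kZ at hkz; omega : 0 < cnt fun z => C.sz z ≠ 2)
    have h5 : C.sz z ≤ _ := cnt_mono (hsub z hz)
    have := two_le_sz z
    omega
  have hT0 : ∀ a, C.aw a w1 → C.aw a w2 → (if T0 a then 1 else 0) = cnt G := fun a h5 h6 => by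
    split_ifs with h
    · exact (hT5 a h).symm
    · by_contra hh
      exact h (eq_of_cnt_le (p := T0) (q := fun a => C.aw a w1 ∧ C.aw a w2)
        (fun a h => ⟨hT1 a h, hT2 a h⟩) (by omega) a ⟨h5, h6⟩)
  obtain ⟨d, hd1, hd2⟩ := extra (T := fun a => C.aw a w1 ∧ C.aw a w2)
    (U := fun a => C.aw a w1) (fun a h => h.1)
    (by rw [hT3]; exact h1)
  obtain ⟨d', hd1', hd2'⟩ := extra (T := fun a => C.aw a w1 ∧ C.aw a w2)
    (U := fun a => C.aw a w2) (fun a h => h.2)
    (by rw [hT3]; exact h2)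
  have hd3 : C.aw d w1 := (hd2 d).2 (Or.inr rfl)
  have hd3' : C.aw d' w2 := (hd2' d').2 (Or.inr rfl)
  have hd4 : ¬ C.aw d w2 := by tauto
  have hd4' : ¬ C.aw d' w1 := by tauto
  have hd5 : ¬ T0 d := fun h => hd4 (hT2 d h)
  have hd5' : ¬ T0 d' := fun h => hd4' (hT1 d' h)
  have hF : C.FW d = 1 := by rw [hFW]; simp [hd3, hd4, hd5]
  have hF' : C.FW d' = 1 := by rw [hFW]; simp [hd3', hd4', hd5']
  obtain ⟨x, hx1, hx2, hx3⟩ := pendant hp hbud hd3 (by omega) hF hd5
  obtain ⟨x', hx1', hx2', hx3'⟩ := pendant hp hbud hd3' (by omega) hF' hd5'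
  have hx4 : C.aw x w2 := by have := (hd2 x).1 hx2; tauto
  have hx4' : C.aw x' w1 := by have := (hd2' x').1 hx2'; tauto
  have v1 := semi_one (hF ▸ K_le d x) hx3
  have v2 := semi_one (hF' ▸ K_le d' x') hx3'
  have hr := row_eps hp x
  have hx5 := hT0 x hx2 hx4
  have hr' : ∑ b, (C.l x b - C.u x b) = 0 := by
    rw [hr, hFW, if_pos hx2, if_pos hx4]
    split_ifs at hx5 ⊢ <;> omega
  obtain ⟨y, hy1, hy2, hy3⟩ := exists_neg (fun b => C.l x b - C.u x b) x d
    (by rw [l_diag, u_diag]; rfl) (by rw [hr', l_symm, u_symm]; omega)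
  have hu : C.u x y ≤ 2 := by
    have := one_pair C.u u_nonneg u_symm hy1.symm
    rw [tot_u hp] at this; omega
  have hK2 : 2 ≤ C.K x y := by
    by_contra hh
    have := semi_neg (a := x) (b := y) (by omega) (by omega); omega
  have hy4 : C.aw y w1 ∧ C.aw y w2 := by
    by_contra hh
    have h5 : ¬ T0 y := fun h => hh ⟨hT1 y h, hT2 y h⟩
    rw [hK] at hK2
    split_ifs at hK2 <;> first | omega | tauto
  have hy5 := hT0 y hy4.1 hy4.2
  have hK3 : C.K x y ≤ 2 + cnt G := by rw [hK]; split_ifs <;> omega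
  have hΦ1 : C.Φ x y ≤ C.kZ := by rw [Φ_tri hsz]; exact cnt_mono fun z hz => hz.1
  have hΦ2 : C.Φ x y % 2 = cnt G := by
    rw [hp.2]
    by_cases h5 : T0 x
    · have h6 : T0 y := by
        by_contra h6; rw [if_pos h5] at hx5; rw [if_neg h6] at hy5; omega
      rw [if_pos ⟨hy1.symm, h5, h6⟩, hT5 x h5]
    · rw [if_neg h5] at hx5; rw [if_neg (by tauto)]; exact hx5
  have v3 : 3 ≤ C.v x y + cnt G := by
    have := (num x y).lin
    have := (num x y).h1
    unfold l u v at *
    omega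
  have := three_pairs C.v v_nonneg v_symm hx1.symm hx1'.symm hy1.symm
    (by unfold SP; grind) (by unfold SP; grind) (by unfold SP; grind)
  rw [tot_v] at this
  omega

theorem nec45 (he : C.I = 2 * C.m + 4 ∧ C.m = C.n ∨ C.I = 2 * C.m + 5 ∧ C.m ≤ C.n + 1)
    (hn : C.n % 2 = 1) : 3 * C.m + 11 ≤ C.f3 + C.I := by
  classical
  by_cases h : ∀ w, C.sw w ≤ 3
  · rcases he with he | he
    · exact (nec4_tri h he.1 he.2 hn).elim
    · have := nec5_tri h he.1 he.2 hn; omega
  have h4 : ∀ w, C.sw w ≤ 4 := fun w => by have := sw_bound w; omega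
  push Not at h
  obtain ⟨w1, h1⟩ := h
  replace h1 : C.sw w1 = 4 := by have := h4 w1; omega
  obtain ⟨T0, hp, hc0, hcz, hz0⟩ := four_par h1 (by omega)
  have hk := count_fat h4
  by_cases ho : ∀ w, w ≠ w1 → C.sw w ≤ 3
  · rcases he with he | he
    · have h5 : cnt (fun w => C.sw w = 4) ≤ 1 := by
        rw [← cnt_single (p := fun w => w = w1) w1 (fun _ => Iff.rfl)]
        exact cnt_mono fun w hw => by by_contra hh; have := ho w hh; omega
      obtain ⟨w2, h6, h7⟩ := exists_ne_of_two_le (p := fun w => C.sw w ≠ 2)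
        (by unfold kW at hk; omega) w1
      refine case_one h1 ho (Or.inl he) hn hp hc0 (by omega) (T := fun a => C.aw a w2)
        (G := fun w => w = w2) ?_ (fun w hw => by rw [hw]) ?_ (Ne.symm h6) fun a => ?_
      · have := ho w2 h6; have := two_le_sw w2; unfold sw at *; omega
      · rw [cnt_single (p := fun w => w = w2) w2 (fun _ => Iff.rfl)]; omega
      · have := cnt_zero.1 (by omega : cnt T0 = 0) a
        constructor
        · tauto
        · omega
    · obtain ⟨z0, h5⟩ := cnt_pos.1 (by omega : 0 < cnt fun z => ¬ C.zw z w1 ∧ C.sz z ≠ 2)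
      obtain ⟨h6, h7⟩ := hz0 z0 h5
      refine case_one h1 ho (Or.inr he) hn hp hc0 (by omega) (T := T0)
        (G := fun w => C.zw z0 w) (by omega) (fun w hw => ?_) (by rw [C.hz]; omega) h5.1
        fun a => by simp [he.1]
      funext a
      have := ho w (by rintro rfl; exact h5.1 hw)
      rw [h7, col_eq_of hw (by omega)]
  push Not at ho
  obtain ⟨w2, h21, h2⟩ := ho
  replace h2 : C.sw w2 = 4 := by have := h4 w2; omega
  have h5 := two_le_cnt (p := fun w => C.sw w = 4) h21 h2 h1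
  have h6 := cnt_split (fun w => C.sw w ≠ 2) (fun w => C.sw w = 4)
  rw [cnt_congr (p := fun w => C.sw w ≠ 2 ∧ C.sw w = 4) (q := fun w => C.sw w = 4)
    (fun w => by omega), cnt_congr (p := fun w => C.sw w ≠ 2 ∧ ¬ C.sw w = 4)
    (q := fun w => C.sw w = 3) (fun w => by have := h4 w; have := two_le_sw w; omega)] at h6
  unfold kW at hk
  have h7 := eq_of_cnt_le (p := fun w => w = w1 ∨ w = w2) (q := fun w => C.sw w = 4)
    (by rintro w (rfl | rfl) <;> assumption) (by rw [cnt_pair h21.symm fun _ => Iff.rfl]; omega)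
  have h8 : ∀ a, T0 a → ∃ z0, ¬ C.zw z0 w1 ∧ C.sz z0 = 3 ∧ C.zw z0 w2 ∧ (∀ a, T0 a ↔ C.az a z0) ∧
      ∃ w, C.sw w = 3 ∧ C.zw z0 w ∧ ∀ w', C.sw w' = 3 → w' = w := by
    intro a ha
    have := cnt_pos.2 ⟨a, ha⟩
    obtain ⟨z0, k1⟩ := cnt_pos.1 (by omega : 0 < cnt fun z => ¬ C.zw z w1 ∧ C.sz z ≠ 2)
    obtain ⟨k2, k3⟩ := hz0 z0 k1
    obtain ⟨w3, k4⟩ := cnt_one (p := fun w => C.sw w = 3) (by omega)
    have k5 : w2 ≠ w3 := by rintro rfl; have := (k4 w2).2 rfl; omega
    have k6 := eq_of_cnt_le (p := fun w => C.zw z0 w) (q := fun w => w = w2 ∨ w = w3)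
      (fun w hw => by
        have := sz_le_sw hw
        have := h4 w
        by_cases h9 : C.sw w = 4
        · rcases h7 w h9 with rfl | rfl
          · exact absurd hw k1.1
          · exact Or.inl rfl
        · exact Or.inr ((k4 w).1 (by omega)))
      (by rw [C.hz, cnt_pair k5 fun _ => Iff.rfl])
    exact ⟨z0, k1.1, k2, k6 w2 (by simp), k3, w3, (k4 w3).2 rfl, k6 w3 (by simp),
      fun w' h => (k4 w').1 h⟩
  refine case_two h1 h2 h21.symm he hn hp hc0 (G := fun w => C.sw w = 3) (fun w hw => ?_)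
    (by omega) (by omega) (by omega) (fun w => ?_) (fun a ha => ?_) (fun a ha => ?_)
  · have k0 := cnt_pos.2 (⟨w, hw⟩ : ∃ w, C.sw w = 3)
    obtain ⟨a, ha⟩ := cnt_pos.1 (by omega : 0 < cnt T0)
    obtain ⟨z0, -, k1, -, k2, w3, k3, k4, k5⟩ := h8 a ha
    funext b
    rw [k2, k5 w hw, col_eq_of k4 (by omega)]
  · constructor
    · intro h
      have := h4 w; have := two_le_sw w
      by_cases h9 : C.sw w = 4
      · exact Or.inl (h7 w h9)
      · right; omega
    · rintro ((rfl | rfl) | h) <;> omega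
  · obtain ⟨z0, -, k1, -, k2, w3, k3, k4, k5⟩ := h8 a ha
    exact sub_of_three (by omega) k3 a (aw_of' ((k2 a).1 ha) k4)
  · obtain ⟨z0, -, k1, k3, k2, -⟩ := h8 a ha
    exact aw_of' ((k2 a).1 ha) k3

end Core

end Pool.Agent.Lib.MP_685082_co
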