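import Pool.Agent.Lib.MP_685082_co.Core

/-! Operations on cores: disjoint union, subdivision, unzipping. -/

namespace Pool.Agent.Lib.MP_685082_co

open Finset

/-- relation on a sum type -/
def srel {α β γ δ : Type} (r : α → γ → Prop) (s : β → δ → Prop) : α ⊕ β → γ ⊕ δ → Prop
  | .inl a, .inl c => r a c
  | .inr b, .inr d => s b d
  | _, _ => False

section
variable {α β γ δ : Type} (r : α → γ → Prop) (s : β → δ → Prop)
@[simp] theorem srel_ll (a c) : srel r s (.inl a) (.inl c) = r a c := rfl
@[simp] theorem srel_rr (a c) : srel r s (.inr a) (.inr c) = s a c := rfl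
@[simp] theorem srel_lr (a c) : srel r s (.inl a) (.inr c) = False := rfl
@[simp] theorem srel_rl (a c) : srel r s (.inr a) (.inl c) = False := rfl
end

@[simp] theorem cnt_false {α : Type} [Fintype α] : cnt (fun _ : α => False) = 0 :=
  cnt_zero.2 (by simp)

namespace Core

/-- disjoint union of the proper parts -/
noncomputable def sum (C D : Core) : Core where
  A := C.A ⊕ D.A
  Y := C.Y ⊕ D.Y
  Z := C.Z ⊕ D.Z
  W := C.W ⊕ D.W
  fA := inferInstance
  fY := inferInstance
  fZ := inferInstance
  fW := inferInstance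
  ay := srel C.ay D.ay
  yz := srel C.yz D.yz
  zw := srel C.zw D.zw
  az := srel C.az D.az
  yw := srel C.yw D.yw
  aw := srel C.aw D.aw
  az_iff := by rintro (a | a) (z | z) <;> simp [C.az_iff, D.az_iff]
  yw_iff := by rintro (a | a) (z | z) <;> simp [C.yw_iff, D.yw_iff]
  aw_iff := by rintro (a | a) (z | z) <;> simp [C.aw_iff, D.aw_iff]
  hy := by rintro (y | y) <;> simp [cnt_sumType, C.hy, D.hy]
  hz := by rintro (y | y) <;> simp [cnt_sumType, C.hz, D.hz]
  haz := by
    rintro (a | a) (z | z) h <;> simp [cnt_sumType] at h ⊢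
    exacts [C.haz a z h, D.haz a z h]
  hyw := by
    rintro (a | a) (z | z) h <;> simp [cnt_sumType] at h ⊢
    exacts [C.hyw a z h, D.hyw a z h]
  ny := by rintro (y | y) <;> simp [C.ny, D.ny]
  nz := by rintro (y | y) <;> simp [C.nz, D.nz]
  ea := by rintro (y | y) <;> simp [cnt_sumType, C.ea, D.ea]
  ew := by rintro (y | y) <;> simp [cnt_sumType, C.ew, D.ew]

end Core

theorem Ach.add {n m t I n' m' t' I' : ℕ} (h : Ach n m t I) (h' : Ach n' m' t' I') :
    Ach (n + n') (m + m') (t + t') (I + I') := by
  obtain ⟨C, h1, h2, h3, h4⟩ := h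
  obtain ⟨D, g1, g2, g3, g4⟩ := h'
  refine ⟨C.sum D, ?_, ?_, ?_, ?_⟩
  · rw [← h1, ← g1]; exact Fintype.card_sum
  · rw [← h2, ← g2]; exact Fintype.card_sum
  · have : (C.sum D).f2 = C.f2 + D.f2 := Fintype.card_sum
    omega
  · rw [← h4, ← g4]
    show ∑ a : C.A ⊕ D.A, cnt (fun w : C.W ⊕ D.W => srel C.aw D.aw a w) = _
    simp [Fintype.sum_sum_type, cnt_sumType, Core.I]

theorem cnt_remove {α : Type} [Fintype α] (p : α → Prop) (a : α) (c : Prop) [Decidable (c ∧ p a)] :
    (if c ∧ p a then 1 else 0) + cnt (fun x => p x ∧ ¬ (x = a ∧ c)) = cnt p := by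
  split_ifs with h
  · rw [cnt_split p (fun x => x = a ∧ c), cnt_single (p := fun x => p x ∧ x = a ∧ c) a]
    intro x
    constructor
    · exact fun hx => hx.2.1
    · rintro rfl; exact ⟨h.2, rfl, h.1⟩
  · rw [zero_add]
    refine cnt_congr fun x => ⟨fun hx => hx.1, fun hx => ⟨hx, ?_⟩⟩
    rintro ⟨rfl, hc⟩; exact h ⟨hc, hx⟩

namespace Core

/-- subdivide the rank two element `y0` next to its atom `a1` -/
noncomputable def subdiv (C : Core) (y0 : C.Y) (a1 : C.A) (h1 : C.ay a1 y0) : Core where
  A := Option C.A
  Y := Option C.Y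
  Z := C.Z
  W := C.W
  fA := inferInstance
  fY := inferInstance
  fZ := inferInstance
  fW := inferInstance
  ay a y := match a, y with
    | some a, some y => C.ay a y ∧ ¬ (y = y0 ∧ a = a1)
    | none, some y => y = y0
    | some a, none => a = a1
    | none, none => True
  yz y := C.yz (y.getD y0)
  zw := C.zw
  az a := match a with
    | some a => C.az a
    | none => C.yz y0
  yw y := C.yw (y.getD y0)
  aw a := match a with
    | some a => C.aw a
    | none => C.yw y0
  az_iff := by
    rintro (_ | a) z
    · simp [Option.exists]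
    · simp only [Option.exists, Option.getD_none, Option.getD_some, C.az_iff]
      constructor
      · rintro ⟨y, h2, h3⟩
        by_cases h : y = y0 ∧ a = a1
        · exact Or.inl ⟨h.2, h.1 ▸ h3⟩
        · exact Or.inr ⟨y, ⟨h2, h⟩, h3⟩
      · rintro (⟨rfl, h⟩ | ⟨y, h2, h3⟩)
        · exact ⟨y0, h1, h⟩
        · exact ⟨y, h2.1, h3⟩
  yw_iff y w := C.yw_iff _ w
  aw_iff := by
    rintro (_ | a) z
    · simp [Option.exists]
    · simp only [Option.exists, Option.getD_none, Option.getD_some, C.aw_iff]
      constructor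
      · rintro ⟨y, h2, h3⟩
        by_cases h : y = y0 ∧ a = a1
        · exact Or.inl ⟨h.2, h.1 ▸ h3⟩
        · exact Or.inr ⟨y, ⟨h2, h⟩, h3⟩
      · rintro (⟨rfl, h⟩ | ⟨y, h2, h3⟩)
        · exact ⟨y0, h1, h⟩
        · exact ⟨y, h2.1, h3⟩
  hy := by
    classical
    rintro (_ | y)
    · rw [cnt_option]; simp only [if_true]
      rw [cnt_single (p := fun x => x = a1) a1 (fun _ => Iff.rfl)]
    · rw [cnt_option, ← C.hy y, ← cnt_remove (fun a => C.ay a y) a1 (y = y0)]
      congr 1
      · by_cases h : y = y0
        · simp [h, h1]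
        · simp [h]
      · exact cnt_congr fun a => by simp only [and_comm]
  hz := C.hz
  haz := by
    classical
    rintro (_ | a) z h
    · rw [cnt_option]
      simp only [Option.getD_none, Option.getD_some] at h ⊢
      rw [cnt_single (p := fun x => x = y0 ∧ C.yz x z) y0]
      · simp [h]
      · intro x; constructor
        · exact fun hx => hx.1
        · rintro rfl; exact ⟨rfl, h⟩
    · rw [cnt_option, ← C.haz a z h, ← cnt_remove (fun y => C.ay a y ∧ C.yz y z) y0 (a = a1)]
      congr 1
      · by_cases h : a = a1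
        · simp [h, h1]
        · simp [h]
      · exact cnt_congr fun y => by simp only [Option.getD_some]; tauto
  hyw y w h := C.hyw _ w h
  ny y := C.ny _
  nz z := by obtain ⟨y, hy⟩ := C.nz z; exact ⟨some y, hy⟩
  ea := by
    classical
    rintro (_ | a)
    · rw [cnt_option]; simp only [if_true]
      rw [cnt_single (p := fun x => x = y0) y0 (fun _ => Iff.rfl), row_eq]
    · rw [cnt_option]
      have := C.ea a
      rw [← cnt_remove (fun y => C.ay a y) y0 (a = a1)] at this
      have h2 : (if a = a1 ∧ C.ay a y0 then 1 else 0) = if a = a1 then 1 else 0 := by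
        by_cases h : a = a1
        · simp [h, h1]
        · simp [h]
      rw [h2] at this
      exact this
  ew := by
    classical
    intro w
    rw [cnt_option, cnt_option]
    have := C.ew w
    simp only [Option.getD_none, Option.getD_some]
    omega

/-- unzip: double `y0` and `z0` where `y0 < z0` -/
noncomputable def unzip (C : Core) (y0 : C.Y) (z0 : C.Z) (h0 : C.yz y0 z0) : Core where
  A := C.A
  Y := Option C.Y
  Z := Option C.Z
  W := C.W
  fA := inferInstance
  fY := inferInstance
  fZ := inferInstance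
  fW := inferInstance
  ay a y := C.ay a (y.getD y0)
  yz y z := match y, z with
    | some y, some z => C.yz y z ∧ ¬ (y = y0 ∧ z = z0)
    | none, some z => z = z0
    | some y, none => y = y0
    | none, none => True
  zw z := C.zw (z.getD z0)
  az a z := match z with
    | some z => C.az a z
    | none => C.ay a y0
  yw y := match y with
    | some y => C.yw y
    | none => C.zw z0
  aw := C.aw
  az_iff := by
    rintro a (_ | z)
    · simp [Option.exists]
    · simp only [Option.exists, Option.getD_none, Option.getD_some, C.az_iff]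
      constructor
      · rintro ⟨y, h2, h3⟩
        by_cases h : y = y0 ∧ z = z0
        · exact Or.inl ⟨h.1 ▸ h2, h.2⟩
        · exact Or.inr ⟨y, h2, h3, h⟩
      · rintro (⟨h, rfl⟩ | ⟨y, h2, h3⟩)
        · exact ⟨y0, h, h0⟩
        · exact ⟨y, h2, h3.1⟩
  yw_iff := by
    rintro (_ | y) w
    · simp [Option.exists]
    · simp only [Option.exists, Option.getD_none, Option.getD_some, C.yw_iff]
      constructor
      · rintro ⟨z, h2, h3⟩
        by_cases h : y = y0 ∧ z = z0
        · exact Or.inl ⟨h.1, h.2 ▸ h3⟩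
        · exact Or.inr ⟨z, ⟨h2, h⟩, h3⟩
      · rintro (⟨rfl, h⟩ | ⟨z, h2, h3⟩)
        · exact ⟨z0, h0, h⟩
        · exact ⟨z, h2.1, h3⟩
  aw_iff := by
    intro a w
    simp only [Option.exists, Option.getD_none, Option.getD_some, C.aw_iff]
    constructor
    · exact fun h => Or.inr h
    · rintro (⟨h1, h2⟩ | h)
      · exact ⟨y0, h1, yw_of h0 h2⟩
      · exact h
  hy y := C.hy _
  hz z := C.hz _
  haz := by
    classical
    rintro a (_ | z) h
    · rw [cnt_option]
      simp only [Option.getD_none, Option.getD_some] at h ⊢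
      rw [cnt_single (p := fun x => C.ay a x ∧ x = y0) y0]
      · simp [h]
      · intro x; constructor
        · exact fun hx => hx.2
        · rintro rfl; exact ⟨h, rfl⟩
    · rw [cnt_option, ← C.haz a z h, ← cnt_remove (fun y => C.ay a y ∧ C.yz y z) y0 (z = z0)]
      congr 1
      · by_cases h : z = z0
        · simp [h, h0]
        · simp [h]
      · exact cnt_congr fun y => by simp only [Option.getD_some]; tauto
  hyw := by
    classical
    rintro (_ | y) w h
    · rw [cnt_option]
      simp only [Option.getD_none, Option.getD_some] at h ⊢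
      rw [cnt_single (p := fun x => x = z0 ∧ C.zw x w) z0]
      · simp [h]
      · intro x; constructor
        · exact fun hx => hx.1
        · rintro rfl; exact ⟨rfl, h⟩
    · rw [cnt_option, ← C.hyw y w h, ← cnt_remove (fun z => C.yz y z ∧ C.zw z w) z0 (y = y0)]
      congr 1
      · by_cases h : y = y0
        · simp [h, h0]
        · simp [h]
      · exact cnt_congr fun z => by simp only [Option.getD_some]; tauto
  ny := by
    rintro (_ | y)
    · exact ⟨none, trivial⟩
    · by_cases h : y = y0
      · exact ⟨none, h⟩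
      · obtain ⟨z, hz⟩ := C.ny y
        exact ⟨some z, hz, fun hh => h hh.1⟩
  nz := by
    rintro (_ | z)
    · exact ⟨none, trivial⟩
    · by_cases h : z = z0
      · exact ⟨none, h⟩
      · obtain ⟨y, hy⟩ := C.nz z
        exact ⟨some y, hy, fun hh => h hh.2⟩
  ea := by
    classical
    intro a
    rw [cnt_option, cnt_option]
    have := C.ea a
    simp only [Option.getD_none, Option.getD_some]
    omega
  ew := by
    classical
    intro w
    rw [cnt_option, cnt_option]
    have := C.ew w
    simp only [Option.getD_none, Option.getD_some]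
    omega

end Core

theorem Ach.succ {n m t I : ℕ} (h : Ach n m t I) (hn : 0 < n) : Ach n m (t + 1) I := by
  obtain ⟨C, h1, h2, h3, h4⟩ := h
  have : Nonempty C.A := Fintype.card_pos_iff.1 (by unfold Core.n at h1; omega)
  obtain ⟨a⟩ := this
  obtain ⟨y, -⟩ := Core.ex_ay a
  obtain ⟨z, hz⟩ := C.ny y
  refine ⟨C.unzip y z hz, h1, h2, ?_, h4⟩
  have : (C.unzip y z hz).f2 = C.f2 + 1 := Fintype.card_option
  omega

theorem Ach.mono {n m t t' I : ℕ} (h : Ach n m t I) (hn : 0 < n) (ht : t ≤ t') :
    Ach n m t' I := by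
  induction ht with
  | refl => exact h
  | step _ ih => exact ih.succ hn

/-- achievable parameters with marked rank two and rank three elements -/
def Marked {K L : Type} (M : K → L → ℕ) (n m t I : ℕ) (r : K → ℕ) (c : L → ℕ) : Prop :=
  ∃ (C : Core) (ys : K → C.Y) (zs : L → C.Z), C.n = n ∧ C.m = m ∧ C.f2 = n + t ∧ C.I = I ∧
    (∀ k, cnt (fun z => C.yz (ys k) z) = r k) ∧ (∀ l, cnt (fun y => C.yz y (zs l)) = c l) ∧
    ∀ k l, (C.yz (ys k) (zs l) → M k l = 1) ∧ (¬ C.yz (ys k) (zs l) → M k l = 0)

section
variable {K L : Type} {M : K → L → ℕ} {n m t I : ℕ} {r : K → ℕ} {c : L → ℕ}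

theorem Marked.ach (h : Marked M n m t I r c) : Ach n m t I := by
  obtain ⟨C, -, -, h1, h2, h3, h4, -⟩ := h
  exact ⟨C, h1, h2, h3, h4⟩

theorem Marked.symm (h : Marked M n m t I r c) : Marked (fun l k => M k l) m n t I c r := by
  obtain ⟨C, ys, zs, h1, h2, h3, h4, h5, h6, h7⟩ := h
  refine ⟨C.dual, zs, ys, by simpa, by simpa, ?_, by simpa, h6, h5, fun l k => h7 k l⟩
  have := Core.eqA (C := C); have := Core.eqW (C := C)
  simp; omega

theorem Marked.step (h : Marked M n m t I r c) (k : K) :
    Marked M (n + 1) m t (I + r k) r (fun l => c l + M k l) := by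
  classical
  obtain ⟨C, ys, zs, h1, h2, h3, h4, h5, h6, h7⟩ := h
  obtain ⟨a, ha⟩ := Core.ex_ay' (ys k)
  refine ⟨C.subdiv (ys k) a ha, fun i => some (ys i), zs, ?_, h2, ?_, ?_, h5, ?_, h7⟩
  · rw [← h1]; exact Fintype.card_option
  · have : (C.subdiv (ys k) a ha).f2 = C.f2 + 1 := Fintype.card_option
    omega
  · rw [← h4, ← h5 k, ← Core.row_eq, add_comm]
    exact Fintype.sum_option _
  · intro l
    have := cnt_option fun y : Option C.Y => C.yz (y.getD (ys k)) (zs l)
    simp only [Option.getD_none, Option.getD_some, h6] at this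
    refine this.trans ?_
    by_cases hh : C.yz (ys k) (zs l)
    · simp [hh, (h7 k l).1 hh, add_comm]
    · simp [hh, (h7 k l).2 hh]

theorem Marked.steps (h : Marked M n m t I r c) (k : K) (b : ℕ) :
    Marked M (n + b) m t (I + b * r k) r (fun l => c l + b * M k l) := by
  induction b with
  | zero => simpa using h
  | succ b ih =>
    have := ih.step k
    convert this using 1
    · ring
    · ring
    · funext l; ring

theorem Marked.blowA [Fintype K] (h : Marked M n m t I r c) (β : K → ℕ) :
    Marked M (n + ∑ k, β k) m t (I + ∑ k, β k * r k) r (fun l => c l + ∑ k, β k * M k l) := by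
  classical
  have : ∀ s : Finset K, Marked M (n + ∑ k ∈ s, β k) m t (I + ∑ k ∈ s, β k * r k) r
      (fun l => c l + ∑ k ∈ s, β k * M k l) := by
    intro s
    induction s using Finset.induction_on with
    | empty => simpa using h
    | insert k s hk ih =>
      have := ih.steps k (β k)
      simp only [sum_insert hk]
      convert this using 1
      · ring
      · ring
      · funext l; ring
  exact this univ

theorem Marked.blow [Fintype K] [Fintype L] (h : Marked M n m t I r c) (β : K → ℕ) (γ : L → ℕ) :
    Ach (n + ∑ k, β k) (m + ∑ l, γ l) t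
      (I + ∑ k, β k * r k + ∑ l, γ l * (c l + ∑ k, β k * M k l)) :=
  ((h.blowA β).symm.blowA γ).ach.symm

end

end Pool.Agent.Lib.MP_685082_co
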