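import Pool.Agent.Lib.MP_685082_co.Core

/-! Parity lemmas for symmetric weightings of the pairs of a finite set. -/

namespace Pool.Agent.Lib.MP_685082_co

open Finset

set_option linter.unusedSectionVars false

variable {A : Type} [Fintype A] [DecidableEq A]

theorem even_symm (η : A → A → ℤ) (hs : ∀ a b, η a b = η b a) (hd : ∀ a, η a a = 0) :
    (∑ a, ∑ b, η a b) % 2 = 0 := by
  have : ∀ s : Finset A, (∑ a ∈ s, ∑ b ∈ s, η a b) % 2 = 0 := by
    intro s
    induction s using Finset.induction_on with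
    | empty => simp
    | insert x s hx ih =>
      simp only [sum_insert hx, sum_add_distrib, hd]
      have : ∑ a ∈ s, η a x = ∑ a ∈ s, η x a := sum_congr rfl fun a _ => hs a x
      rw [this]; omega
  exact this univ

theorem le_of_pairs (g : A → A → ℤ) (h0 : ∀ a b, 0 ≤ g a b) (s : Finset (A × A)) :
    ∑ p ∈ s, g p.1 p.2 ≤ ∑ a, ∑ b, g a b := by
  rw [← Fintype.sum_prod_type' g]
  exact sum_le_sum_of_subset_of_nonneg (subset_univ _) fun p _ _ => h0 _ _

/-- same unordered pair -/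
def SP (a b c d : A) : Prop := (a = c ∧ b = d) ∨ (a = d ∧ b = c)

theorem one_pair (g : A → A → ℤ) (h0 : ∀ a b, 0 ≤ g a b) (hs : ∀ a b, g a b = g b a)
    {a b : A} (hab : a ≠ b) : 2 * g a b ≤ ∑ a, ∑ b, g a b := by
  have := le_of_pairs g h0 {(a, b), (b, a)}
  rw [sum_pair (by simp; tauto)] at this
  simp only at this
  rw [hs b a] at this; omega

theorem two_pairs (g : A → A → ℤ) (h0 : ∀ a b, 0 ≤ g a b) (hs : ∀ a b, g a b = g b a)
    {a b c d : A} (hab : a ≠ b) (hcd : c ≠ d) (h1 : ¬ SP a b c d) :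
    2 * (g a b + g c d) ≤ ∑ a, ∑ b, g a b := by
  have := le_of_pairs g h0 {(a, b), (b, a), (c, d), (d, c)}
  unfold SP at h1
  rw [sum_insert (by simp; tauto), sum_insert (by simp; tauto), sum_pair (by simp; tauto)] at this
  simp only at this
  rw [hs b a, hs d c] at this; omega

theorem three_pairs (g : A → A → ℤ) (h0 : ∀ a b, 0 ≤ g a b) (hs : ∀ a b, g a b = g b a)
    {a b c d e f : A} (hab : a ≠ b) (hcd : c ≠ d) (hef : e ≠ f) (h1 : ¬ SP a b c d)
    (h2 : ¬ SP a b e f) (h3 : ¬ SP c d e f) :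
    2 * (g a b + g c d + g e f) ≤ ∑ a, ∑ b, g a b := by
  have := le_of_pairs g h0 {(a, b), (b, a), (c, d), (d, c), (e, f), (f, e)}
  unfold SP at h1 h2 h3
  rw [sum_insert (by simp; tauto), sum_insert (by simp; tauto), sum_insert (by simp; tauto),
    sum_insert (by simp; tauto), sum_pair (by simp; tauto)] at this
  simp only at this
  rw [hs b a, hs d c, hs f e] at this; omega

/-- at least six ordered odd pairs -/
theorem odd_six (ε : A → A → ℤ) (hs : ∀ a b, ε a b = ε b a) (hd : ∀ a, ε a a = 0)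
    (hrow : ∀ a, (∑ b, ε a b) % 2 = 0) (htot : (∑ a, ∑ b, ε a b) % 4 = 2) :
    6 ≤ ∑ a, ∑ b, ε a b % 2 := by
  have h1 := even_symm (fun a b => ε a b / 2) (fun a b => by rw [hs]) (fun a => by simp [hd])
  have h2 : ∑ a, ∑ b, ε a b = 2 * (∑ a, ∑ b, ε a b / 2) + ∑ a, ∑ b, ε a b % 2 := by
    simp only [mul_sum, ← sum_add_distrib]
    exact sum_congr rfl fun a _ => sum_congr rfl fun b _ => by omega
  have h0 : ∀ a b, 0 ≤ ε a b % 2 := fun a b => by omega
  have hex : ∃ a b, ε a b % 2 = 1 := by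
    by_contra hc
    push Not at hc
    have : ∑ a, ∑ b, ε a b % 2 = 0 :=
      sum_eq_zero fun a _ => sum_eq_zero fun b _ => by have := hc a b; omega
    omega
  obtain ⟨a, b, hab⟩ := hex
  have hne : a ≠ b := by rintro rfl; simp [hd] at hab
  have hex2 : ∃ c, c ≠ b ∧ ε a c % 2 = 1 := by
    by_contra hc
    push Not at hc
    have h3 := hrow a
    rw [← add_sum_erase _ _ (mem_univ b)] at h3
    have h4 : (∑ x ∈ univ.erase b, ε a x) % 2 = 0 := by
      rw [Finset.sum_int_mod, sum_eq_zero]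
      · rfl
      · intro x hx
        have := hc x (ne_of_mem_erase hx); omega
    omega
  obtain ⟨c, hcb, hac⟩ := hex2
  have hne2 : a ≠ c := by rintro rfl; simp [hd] at hac
  have := two_pairs (fun a b => ε a b % 2) h0 (fun a b => by rw [hs]) hne hne2
    (by unfold SP; tauto)
  beta_reduce at this
  omega

theorem exists_neg (f : A → ℤ) (b c : A) (hb : f b = 0) (h : ∑ x, f x < f c) :
    ∃ x, x ≠ b ∧ x ≠ c ∧ f x < 0 := by
  by_contra hc
  push Not at hc
  rw [← add_sum_erase _ _ (mem_univ c)] at h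
  have : 0 ≤ ∑ x ∈ univ.erase c, f x := sum_nonneg fun x hx => by
    by_cases hx' : x = b
    · rw [hx', hb]
    · exact hc x hx' (ne_of_mem_erase hx)
  omega

theorem row_two (f : A → ℤ) {c d : A} (hcd : c ≠ d) (h0 : ∀ x, x ≠ c → x ≠ d → 0 ≤ f x) :
    f c + f d ≤ ∑ x, f x := by
  rw [← sum_pair hcd, ← sum_add_sum_compl {c, d}]
  have : 0 ≤ ∑ x ∈ ({c, d} : Finset A)ᶜ, f x := sum_nonneg fun x hx => by
    simp at hx; exact h0 x hx.1 hx.2
  omega

theorem exists_pos (f : A → ℤ) (c : A) (h : f c < ∑ x, f x) : ∃ x, x ≠ c ∧ 0 < f x := by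
  by_contra hc
  push Not at hc
  rw [← add_sum_erase _ _ (mem_univ c)] at h
  have : ∑ x ∈ univ.erase c, f x ≤ 0 := sum_nonpos fun x hx => hc x (ne_of_mem_erase hx)
  omega

theorem bound_odd (ε g : A → A → ℤ) (k : ℤ) (hk : 0 ≤ k) (h6 : 6 ≤ ∑ a, ∑ b, ε a b % 2)
    (h0 : ∀ a b, 0 ≤ g a b) (h : ∀ a b, ε a b % 2 = 1 → k ≤ g a b) :
    6 * k ≤ ∑ a, ∑ b, g a b := by
  have : ∑ a, ∑ b, ε a b % 2 * k ≤ ∑ a, ∑ b, g a b :=
    sum_le_sum fun a _ => sum_le_sum fun b _ => by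
      rcases Int.emod_two_eq_zero_or_one (ε a b) with h1 | h1
      · rw [h1]; simpa using h0 a b
      · rw [h1]; simpa using h a b h1
  simp only [← sum_mul] at this
  nlinarith

theorem lemmaG (T : Finset A) (hT : T.card ≤ 3) (ε u v : A → A → ℤ) (α γ : ℤ)
    (hα : 0 ≤ α) (hα4 : α ≤ 4) (hγ : 0 ≤ γ) (hγ7 : γ ≤ 7)
    (hs : ∀ a b, ε a b = ε b a) (hsu : ∀ a b, u a b = u b a) (hsv : ∀ a b, v a b = v b a)
    (hd : ∀ a, ε a a = 0) (hu : ∀ a b, 0 ≤ u a b) (hv : ∀ a b, 0 ≤ v a b)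
    (hrow : ∀ a, ∑ b, ε a b = if a ∈ T then 0 else 2) (htot : (∑ a, ∑ b, ε a b) % 4 = 2)
    (p1 : ∀ a b, ¬ (a ∈ T ∧ b ∈ T) → ε a b = 1 → 2 ≤ u a b ∧ 2 ≤ v a b ∧ 5 ≤ u a b + v a b)
    (pn : ∀ a b, ¬ (a ∈ T ∧ b ∈ T) → ε a b < 0 → 4 ≤ u a b ∧ 4 ≤ v a b)
    (tn : ∀ a b, a ∈ T → b ∈ T → ε a b < 0 → α ≤ u a b ∧ 3 ≤ v a b ∧ γ ≤ u a b + v a b ∧
      (ε a b ≤ -2 → γ + 1 ≤ u a b + v a b))
    (t1 : ∀ a b, a ∈ T → b ∈ T → ε a b = 1 → 1 ≤ u a b + v a b) :
    (6 * min α 2 ≤ ∑ a, ∑ b, u a b ∧ 12 ≤ ∑ a, ∑ b, v a b ∧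
      6 * min γ 5 ≤ ∑ a, ∑ b, u a b + ∑ a, ∑ b, v a b) ∨
    (4 * α ≤ ∑ a, ∑ b, u a b ∧ 12 ≤ ∑ a, ∑ b, v a b ∧
      4 * γ + 2 ≤ ∑ a, ∑ b, u a b + ∑ a, ∑ b, v a b) := by
  have h6 := odd_six ε hs hd (fun a => by rw [hrow]; split_ifs <;> rfl) htot
  have huv : ∑ a, ∑ b, u a b + ∑ a, ∑ b, v a b = ∑ a, ∑ b, (u a b + v a b) := by
    simp only [sum_add_distrib]
  have neg : ∀ a b, ε a b < 0 → α ≤ u a b ∧ 3 ≤ v a b ∧ γ ≤ u a b + v a b := by
    intro a b h
    by_cases hT : a ∈ T ∧ b ∈ T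
    · have := tn a b hT.1 hT.2 h; tauto
    · have := pn a b hT h; omega
  by_cases hc : ∀ a b, ε a b % 2 = 1 → ε a b < 0 ∨ (ε a b = 1 ∧ ¬ (a ∈ T ∧ b ∈ T))
  · left
    rw [huv]
    refine ⟨bound_odd ε u _ (by omega) h6 hu fun a b h => ?_,
      bound_odd ε v 2 (by omega) h6 hv fun a b h => ?_,
      bound_odd ε _ _ (by omega) h6 (fun a b => add_nonneg (hu a b) (hv a b)) fun a b h => ?_⟩
    all_goals
      rcases hc a b h with h1 | h1
      · have := neg a b h1; omega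
      · have := p1 a b h1.2 h1.1; omega
  right
  push Not at hc
  obtain ⟨b, c, h1, h2, h3⟩ := hc
  have hbc : b ≠ c := by rintro rfl; simp [hd] at h1
  have hb : ∑ x, ε b x < ε b c := by
    rw [hrow]; split_ifs with h
    · omega
    · by_contra hh; exact h (h3 (by omega)).1
  have hc : ∑ x, ε c x < ε c b := by
    rw [hrow, hs c b]; split_ifs with h
    · omega
    · by_contra hh; exact h (h3 (by omega)).2
  have fin : ∀ b', b' ≠ b → b' ≠ c → ε b b' < 0 → ∀ c', c' ≠ c → c' ≠ b → ε c c' < 0 →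
      2 * γ + 1 ≤ u b b' + v b b' + (u c c' + v c c') + (u b c + v b c) →
      (4 * α ≤ ∑ a, ∑ b, u a b ∧ 12 ≤ ∑ a, ∑ b, v a b ∧
      4 * γ + 2 ≤ ∑ a, ∑ b, u a b + ∑ a, ∑ b, v a b) := by
    intro b' i1 i2 i3 c' j1 j2 j3 hh
    have k1 := two_pairs u hu hsu i1.symm j1.symm (by unfold SP; tauto)
    have k2 := two_pairs v hv hsv i1.symm j1.symm (by unfold SP; tauto)
    have k3 := three_pairs (fun a b => u a b + v a b) (fun a b => add_nonneg (hu a b) (hv a b))
      (fun a b => by rw [hsu, hsv]) i1.symm j1.symm hbc (by unfold SP; tauto)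
      (by unfold SP; tauto) (by unfold SP; tauto)
    have := neg b b' i3
    have := neg c c' j3
    rw [huv]
    beta_reduce at k3
    omega
  obtain ⟨b', i1, i2, i3⟩ := exists_neg (ε b) b c (hd b) hb
  obtain ⟨c', j1, j2, j3⟩ := exists_neg (ε c) c b (hd c) hc
  have nb := neg b b' i3
  have nc := neg c c' j3
  have := hu b c
  have := hv b c
  by_cases e1 : ε b c = 1
  · have := t1 b c (h3 e1).1 (h3 e1).2 e1
    exact fin b' i1 i2 i3 c' j1 j2 j3 (by omega)
  by_cases hbT : ¬ (b ∈ T ∧ b' ∈ T)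
  · have := pn b b' hbT i3
    exact fin b' i1 i2 i3 c' j1 j2 j3 (by omega)
  by_cases hcT : ¬ (c ∈ T ∧ c' ∈ T)
  · have := pn c c' hcT j3
    exact fin b' i1 i2 i3 c' j1 j2 j3 (by omega)
  push Not at hbT hcT
  by_cases hx : ∃ x, x ∉ T ∧ ε b x < 0
  · obtain ⟨x, hx1, hx2⟩ := hx
    have := pn b x (by tauto) hx2
    exact fin x (by rintro rfl; exact hx1 hbT.1) (by rintro rfl; exact hx1 hcT.1) hx2 c' j1 j2 j3
      (by omega)
  push Not at hx
  have hTe : ({b, c, b'} : Finset A) = T := by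
    apply eq_of_subset_of_card_le
    · intro x hx; simp at hx; rcases hx with rfl | rfl | rfl <;> tauto
    · rw [card_eq_three.2 ⟨b, c, b', hbc, i1.symm, i2.symm, rfl⟩]; exact hT
  have hr := row_two (ε b) i2.symm fun x x1 x2 => by
    by_cases hxb : x = b
    · rw [hxb, hd]
    · exact hx x (by rw [← hTe]; simp; tauto)
  rw [hrow, if_pos hbT.1] at hr
  have := (tn b b' hbT.1 hbT.2 i3).2.2.2 (by omega)
  exact fin b' i1 i2 i3 c' j1 j2 j3 (by omega)

theorem lemmaH (U : A → Prop) (l u : A → A → ℤ)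
    (hsl : ∀ a b, l a b = l b a) (hsu : ∀ a b, u a b = u b a)
    (hdl : ∀ a, l a a = 0) (hdu : ∀ a, u a a = 0) (hl : ∀ a b, 0 ≤ l a b) (hu : ∀ a b, 0 ≤ u a b)
    (hrow : ∀ a, (∑ b, (l a b - u a b)) % 2 = 0)
    (hU : ∀ a, U a → ∑ b, (l a b - u a b) ≤ 0) (hU' : ∀ a, ¬ U a → ∑ b, (l a b - u a b) = 2)
    (htot : (∑ a, ∑ b, (l a b - u a b)) % 4 = 2) (hbud : ∑ a, ∑ b, u a b ≤ 4)
    (pn : ∀ a b, ¬ U a → l a b < u a b → 3 ≤ u a b)
    (p1 : ∀ a b, ¬ U a → l a b - u a b = 1 → 2 ≤ u a b) :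
    ∃ b c b' c', b ≠ c ∧ b' ≠ b ∧ b' ≠ c ∧ c' ≠ c ∧ c' ≠ b ∧ u b b' = 1 ∧ l b b' = 0 ∧
      u c c' = 1 ∧ l c c' = 0 ∧ ∑ x, (l b x - u b x) = 0 ∧ ∑ x, (l c x - u c x) = 0 := by
  have hs : ∀ a b, l a b - u a b = l b a - u b a := fun a b => by rw [hsl, hsu]
  have hd : ∀ a, l a a - u a a = 0 := fun a => by rw [hdl, hdu]; rfl
  have h6 := odd_six (fun a b => l a b - u a b) hs hd hrow htot
  have hex : ∃ b c, (l b c - u b c) % 2 = 1 ∧ 0 < l b c - u b c := by
    by_contra hc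
    push Not at hc
    have := bound_odd (fun a b => l a b - u a b) u 1 (by omega) h6 hu fun a b h => by
      have := hc a b h; have := hl a b; beta_reduce at h; omega
    omega
  obtain ⟨b, c, h1, h2⟩ := hex
  have hbc : b ≠ c := by rintro rfl; simp [hd] at h2
  have inU : ∀ b c, b ≠ c → (l b c - u b c) % 2 = 1 → 0 < l b c - u b c → U b := by
    intro b c hbc h1 h2
    by_contra hb
    have nn : ∀ x, 0 ≤ l b x - u b x := fun x => by
      by_contra hh
      have h3 := pn b x hb (by omega)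
      have hbx : b ≠ x := by rintro rfl; simp [hd] at hh
      have := one_pair u hu hsu hbx
      omega
    have h3 := hU' b hb
    have h4 := row_two (fun x => l b x - u b x) hbc fun x _ _ => nn x
    simp only [hd] at h4
    obtain ⟨x, hx1, hx2⟩ := exists_pos (fun x => l b x - u b x) c (by beta_reduce; omega)
    have hbx : b ≠ x := by rintro rfl; simp [hd] at hx2
    have h5 := row_two (fun x => l b x - u b x) hx1 fun x _ _ => nn x
    beta_reduce at h5 hx2
    have := p1 b c hb (by omega)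
    have := p1 b x hb (by omega)
    have := two_pairs u hu hsu hbc hbx (by unfold SP; tauto)
    omega
  have hb := hU b (inU b c hbc h1 h2)
  have hc := hU c (inU c b hbc.symm (by rw [hs]; exact h1) (by rw [hs]; exact h2))
  obtain ⟨b', i1, i2, i3⟩ := exists_neg (fun x => l b x - u b x) b c (hd b) (by beta_reduce; omega)
  obtain ⟨c', j1, j2, j3⟩ := exists_neg (fun x => l c x - u c x) c b (hd c)
    (by have := hs b c; beta_reduce; omega)
  have k1 := two_pairs u hu hsu i1.symm j1.symm (by unfold SP; tauto)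
  have := hl b b'
  have := hl c c'
  beta_reduce at i3 j3
  have r1 := row_two (fun x => l b x - u b x) i2 fun x x1 x2 => by
    by_cases hxb : x = b
    · rw [hxb]; exact (hd b).ge
    · have := three_pairs u hu hsu i1.symm j1.symm (Ne.symm hxb) (by unfold SP; tauto)
        (by unfold SP; tauto) (by unfold SP; tauto)
      have := hl b x
      beta_reduce; omega
  have r2 := row_two (fun x => l c x - u c x) j2 fun x x1 x2 => by
    by_cases hxb : x = c
    · rw [hxb]; exact (hd c).ge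
    · have := three_pairs u hu hsu i1.symm j1.symm (Ne.symm hxb) (by unfold SP; tauto)
        (by unfold SP; tauto) (by unfold SP; tauto)
      have := hl c x
      beta_reduce; omega
  have := hs b c
  beta_reduce at r1 r2
  exact ⟨b, c, b', c', hbc, i1, i2, j1, j2, by omega, by omega, by omega, by omega, by omega,
    by omega⟩

end Pool.Agent.Lib.MP_685082_co
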